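import Pool.Agent.Lib.Npm.Per
import Pool.Agent.Lib.Npw.Com
import Pool.Agent.Lib.Npw.Cyc

/-!
# NPW (I1): absorption of the averages over one period (exact, no loss in `Q`)

`0 < Q`, `d ∣ Q`, `P0 Q ≤ 2^N1`, `N1 + E (t + 1) ≤ m`. The proof of `Npw/AbsD.lean` with `PerP` in place of `Ph c0 g n'`.
(1) SWAP. For `c < D`: `‖Ph (c+1) Q m * (Cc c Q m * PerP (c+1) Q d - PerP (c+1) Q d * Cc c Q m)‖ ≤ C (1/2)^t`. Move `U(u)`, `u = z_c^(K_c Q i)` (`|K_c Q i| ≤ 2^(m w_c)`, `Kq_mul_le`), through the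
factors `per j Q d`, `j = D-1, ..., c+1`: for `T_j = Ph (c+1) Q m * (product of the previous factors)` and `v = z_j^(K_j d i')`, `|K_j d i'| ≤ P0 Q ≤ 2^N1 ≤ 2^(N1 w_j)`:
`T_j U(u) U(v) = T_j U(⁅u, v⁆) U(v) U(u)` and by (A1) (first exponent divisible by `K_c Q`, second one small: `x = m`, `y = N1`, `N1 + J t' ≤ m`, `P0 Q ≤ 2^m`)
`⁅u,v⁆ ∈ BN C1 (max c j + 1) Q (m + C1 - t') ⊆ BN C1 (c+1) Q (m + C1 - t')`. `T_j` is right invariant: `Ph (c+1) Q m` is `RI (c+1) Q (m - E' t) (C' (1/2)^t)` (`inv_right`), the previous factors are local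
of scale `N1` with at most `D` factors; use `RI.mul_loc` with `x := m + C1 - t'` (`≥ N1`; `P0 Q ≤ 2^x`) and `x' := m - E' t ≥ x + D C1`, i.e. `t' = C1 + D C1 + E' t` (`RI.BN` for the `C1` factors).
(General form, easy to prove by induction on `D - j`: if `T` is `RI (c+1) Q x' δ` with `m + C1 - t' + D C1 ≤ x'`, then `‖T U(u) PerP j Q d - T PerP j Q d U(u)‖ ≤ C'' δ` for all `j ≥ c + 1`.)
(2) `Cc c Q m * per c Q d` is the average of `U(z^(K_c d i))` over `0 ≤ i < ll c Q m * (Q / d)` (`K_c Q i1 + K_c d i2 = K_c d ((Q/d) i1 + i2)`), and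
`|ll c Q m * (Q/d) - ll c d m| ≤ Q / d + 1` while `ll c d m ≥ 2^(m w_c) / (K_c d)` (`lt_mul_ll`), so `‖Cc c Q m * per c Q d - Cc c d m‖ ≤ 2 (Q/d + 1) K_c d / 2^m ≤ 4 P0 Q / 2^m ≤ 4 (1/2)^(m - N1) ≤ 4 (1/2)^t`
(two averages of the same contractions over `n` and `n'` terms differ by at most `2 |n - n'| / max(n, n')`).
(3) Downward induction on `c0`: `Ph c Q m * PerP c Q d = Ph (c+1) Q m * Cc c Q m * PerP (c+1) Q d * per c Q d ≈ Ph (c+1) Q m * PerP (c+1) Q d * Cc c Q m * per c Q d ≈ Ph (c+1) d m * Cc c d m = Ph c d m`.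
-/

set_option autoImplicit false

open Finset

namespace Pool.Agent.Lib.Npm

open Pool.Agent.Lib.Npw
open scoped commutatorElement

variable {G H : Type} [Group G] [NormedAddCommGroup H] [InnerProductSpace ℂ H] [CompleteSpace H]

namespace AbsRAux

theorem norm_per_le (A : Dat G) (R : Rep G H) (c : Fin A.D) (d g : ℕ) : ‖A.per R c d g‖ ≤ 1 :=
  norm_avg_le zero_le_one fun _ _ => R.norm_le _

/-- step (2) -/
theorem cyc_per (A : Dat G) (R : Rep G H) (c : Fin A.D) {Q d N1 m t : ℕ} (hQ : 0 < Q) (hd : d ∣ Q)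
    (hN : A.P0 * Q ≤ 2 ^ N1) (hm : N1 + t ≤ m) :
    ‖A.Cc R c Q m * A.per R c Q d - A.Cc R c d m‖ ≤ 2 * (1 / 2) ^ t := by
  obtain ⟨a, ha⟩ := hd
  have hd0 : 0 < d := by
    rcases Nat.eq_zero_or_pos d with h | h
    · rw [h, zero_mul] at ha
      omega
    · exact h
  have ha0 : 0 < a := by
    rcases Nat.eq_zero_or_pos a with h | h
    · rw [h, mul_zero] at ha
      omega
    · exact h
  have hdiv : Q / d = a := by rw [ha, Nat.mul_div_cancel_left _ hd0]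
  obtain ⟨v, hv⟩ : ∃ v : G, v = A.z c ^ (A.K c * d) := ⟨_, rfl⟩
  obtain ⟨f, hf⟩ : ∃ f : ℕ → H →L[ℂ] H, f = fun m => R.U (v ^ m) := ⟨_, rfl⟩
  obtain ⟨L1, hL1⟩ : ∃ L1, L1 = A.ll c Q m := ⟨_, rfl⟩
  obtain ⟨L3, hL3⟩ : ∃ L3, L3 = A.ll c d m := ⟨_, rfl⟩
  have p1 : 0 < L1 := hL1 ▸ A.ll_pos c Q m
  have p3 : 0 < L3 := hL3 ▸ A.ll_pos c d m
  have e1 : A.Cc R c Q m = avg L1 fun i => f (a * i) := by
    rw [Dat.Cc, ← hL1]
    congr 1
    funext i
    rw [hf, hv]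
    show R.U (A.z c ^ (A.K c * Q * i)) = R.U ((A.z c ^ (A.K c * d)) ^ (a * i))
    rw [← pow_mul, ha]
    congr 2
    ring
  have e2 : A.per R c Q d = avg a f := by
    unfold Dat.per
    rw [hdiv]
    congr 1
    funext i
    rw [hf, hv]
    show R.U (A.z c ^ (A.K c * d * i)) = R.U ((A.z c ^ (A.K c * d)) ^ i)
    rw [← pow_mul]
  have e3 : A.Cc R c d m = avg L3 f := by
    rw [Dat.Cc, ← hL3]
    congr 1
    funext i
    rw [hf, hv]
    show R.U (A.z c ^ (A.K c * d * i)) = R.U ((A.z c ^ (A.K c * d)) ^ i)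
    rw [← pow_mul]
  have hfm : ∀ i i', f i * f i' = f (i + i') := by
    intro i i'
    rw [hf]
    show R.U (v ^ i) * R.U (v ^ i') = R.U (v ^ (i + i'))
    rw [← map_mul, ← pow_add]
  have hfn : ∀ i, ‖f i‖ ≤ 1 := by
    intro i
    rw [hf]
    exact R.norm_le _
  rw [e1, e2, CycAux.avg_block hfm a L1, e3]
  have hK0 : 0 < A.K c := A.K_pos c
  have q1 : 2 ^ (m * A.w c) < A.K c * Q * L1 := hL1 ▸ A.lt_mul_ll hQ m
  have hle : L3 ≤ a * L1 := by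
    rw [hL3, Dat.ll]
    have h1 : 2 ^ (m * A.w c) / (A.K c * d) < a * L1 := by
      rw [Nat.div_lt_iff_lt_mul (Nat.mul_pos hK0 hd0)]
      calc 2 ^ (m * A.w c) < A.K c * Q * L1 := q1
        _ = a * L1 * (A.K c * d) := by rw [ha]; ring
    exact h1
  have hge : a * L1 ≤ L3 + a := by
    have h1 : a * (2 ^ (m * A.w c) / (A.K c * Q)) ≤ 2 ^ (m * A.w c) / (A.K c * d) := by
      rw [Nat.le_div_iff_mul_le (Nat.mul_pos hK0 hd0)]
      calc a * (2 ^ (m * A.w c) / (A.K c * Q)) * (A.K c * d)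
          = (A.K c * Q) * (2 ^ (m * A.w c) / (A.K c * Q)) := by rw [ha]; ring
        _ ≤ 2 ^ (m * A.w c) := Nat.mul_div_le _ _
    have h2 : a * L1 = a * (2 ^ (m * A.w c) / (A.K c * Q)) + a := by
      rw [hL1, Dat.ll, Nat.mul_succ]
    have h3 : L3 = 2 ^ (m * A.w c) / (A.K c * d) + 1 := hL3
    omega
  have h4 := CycAux.avg_len hfn p3 hle
  rw [norm_sub_rev]
  refine h4.trans ?_
  have hL1r : (0 : ℝ) < L1 := by exact_mod_cast p1
  have har : (0 : ℝ) < a := by exact_mod_cast ha0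
  have haL : (0 : ℝ) < ((a * L1 : ℕ) : ℝ) := by exact_mod_cast Nat.mul_pos ha0 p1
  have h5 : ((a * L1 : ℕ) : ℝ) - L3 ≤ a := by
    have : ((a * L1 : ℕ) : ℝ) ≤ ((L3 + a : ℕ) : ℝ) := by exact_mod_cast hge
    push_cast at this ⊢
    linarith
  have h6 : (2 : ℝ) ^ t ≤ L1 := by
    have hn : 2 ^ t ≤ L1 := by
      by_contra hcon
      push Not at hcon
      have h7 : A.K c * Q * L1 ≤ 2 ^ (m * A.w c) := by
        calc A.K c * Q * L1 ≤ A.P0 * Q * 2 ^ t :=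
              Nat.mul_le_mul (A.K_mul_le c Q) hcon.le
          _ ≤ 2 ^ N1 * 2 ^ t := Nat.mul_le_mul_right _ hN
          _ = 2 ^ (N1 + t) := (pow_add _ _ _).symm
          _ ≤ 2 ^ (m * A.w c) := Nat.pow_le_pow_right (by norm_num)
              (hm.trans (Nat.le_mul_of_pos_right _ (Nat.succ_pos _)))
      omega
    exact_mod_cast hn
  have h8 : (0 : ℝ) < 2 ^ t := by positivity
  calc 2 * (((a * L1 : ℕ) : ℝ) - L3) / ((a * L1 : ℕ) : ℝ)
      ≤ 2 * a / ((a * L1 : ℕ) : ℝ) := by gcongr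
    _ = 2 / L1 := by
        push_cast
        field_simp
    _ ≤ 2 / 2 ^ t := by gcongr
    _ = 2 * (1 / 2) ^ t := by rw [one_div, inv_pow, div_eq_mul_inv]

/-- the commutator of a large divisible power and a small one -/
theorem comm_mem {A : Dat G} (hA : A.Ok) {Q d N1 m t' x i j' : ℕ} (hQ : 0 < Q) (hd : d ∣ Q)
    (hN : A.P0 * Q ≤ 2 ^ N1) (hNm : N1 ≤ m) (hJ : N1 + A.J * t' ≤ m) (hx : m + A.C1 - t' ≤ x)
    (c j : Fin A.D) (hi : i < A.ll c Q m) (hj' : j' < Q / d) :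
    ⁅A.z c ^ (A.K c * Q * i), A.z j ^ (A.K j * d * j')⁆ ∈ A.BN A.C1 ((c : ℕ) + 1) Q x := by
  have h1 : |((A.K c * Q * i : ℕ) : ℤ)| ≤ 2 ^ (m * A.w c) := by
    rw [Nat.abs_cast]
    exact_mod_cast A.Kq_mul_le hi
  have h2 : |((A.K j * d * j' : ℕ) : ℤ)| ≤ 2 ^ (N1 * A.w j) := by
    rw [Nat.abs_cast]
    have : A.K j * d * j' ≤ 2 ^ (N1 * A.w j) := by
      calc A.K j * d * j' = A.K j * (d * j') := Nat.mul_assoc _ _ _
        _ ≤ A.K j * (d * (Q / d)) := Nat.mul_le_mul_left _ (Nat.mul_le_mul_left _ hj'.le)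
        _ = A.K j * Q := by rw [Nat.mul_div_cancel' hd]
        _ ≤ A.P0 * Q := A.K_mul_le j Q
        _ ≤ 2 ^ N1 := hN
        _ ≤ 2 ^ (N1 * A.w j) :=
          Nat.pow_le_pow_right (by norm_num) (Nat.le_mul_of_pos_right _ (Nat.succ_pos _))
    exact_mod_cast this
  have h3 : ((A.K c * Q : ℕ) : ℤ) ∣ ((A.K c * Q * i : ℕ) : ℤ) :=
    Int.natCast_dvd_natCast.2 (Nat.dvd_mul_right _ _)
  have h4 := hA.A1 c j ((A.K c * Q * i : ℕ) : ℤ) ((A.K j * d * j' : ℕ) : ℤ) Q m N1 m t' hQ h1 h2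
    (Or.inl h3) (hN.trans (Nat.pow_le_pow_right (by norm_num) hNm)) le_rfl hNm (Or.inr hJ)
  rw [zpow_natCast, zpow_natCast] at h4
  exact A.BN_mono le_rfl (Nat.succ_le_succ (le_max_left _ _)) (dvd_refl Q) hx h4

/-- step (1), one element -/
theorem swapU {A : Dat G} (hA : A.Ok) (R : Rep G H) {Q d N1 m t' x x' : ℕ} {δ : ℝ} (hδ : 0 ≤ δ)
    (hQ : 0 < Q) (hd : d ∣ Q)
    (hN : A.P0 * Q ≤ 2 ^ N1) (hNm : N1 ≤ m) (hJ : N1 + A.J * t' ≤ m) (hx : m + A.C1 - t' ≤ x)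
    (hNx : N1 ≤ x) (hxx : x + A.D * A.C1 ≤ x') (c : Fin A.D) {i : ℕ} (hi : i < A.ll c Q m)
    {T : H →L[ℂ] H} (hT : A.RI R ((c : ℕ) + 1) Q x' δ T) (n : ℕ) :
    ∀ j : ℕ, A.D - j = n →
    ‖T * R.U (A.z c ^ (A.K c * Q * i)) * PerP A R j Q d -
      T * PerP A R j Q d * R.U (A.z c ^ (A.K c * Q * i))‖ ≤
      n * (A.C1 * (((A.C1 + 1) ^ A.D : ℕ) * 1 * δ)) := by
  have hQok : QOk A 0 Q N1 := by
    refine ⟨hQ, ?_, hN⟩
    intro e he
    have h1 := Finset.mem_Icc.mp he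
    have h2 : e = 1 := by
      have := h1.2
      simp at this
      omega
    rw [h2]
    exact one_dvd _
  have hPx : A.P0 * Q ≤ 2 ^ x := hN.trans (Nat.pow_le_pow_right (by norm_num) hNx)
  have hδ' : (0 : ℝ) ≤ ((A.C1 + 1) ^ A.D : ℕ) * 1 * δ := by positivity
  induction n with
  | zero =>
    intro j hj
    rw [PerP_top A R (by omega : A.D ≤ j)]
    simp
  | succ n ih =>
    intro j hj
    have hjD : j < A.D := by omega
    have h1 := ih (j + 1) (by omega)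
    obtain ⟨V, hV⟩ : ∃ V, V = PerP A R (j + 1) Q d := ⟨_, rfl⟩
    obtain ⟨u, hu⟩ : ∃ u, u = A.z c ^ (A.K c * Q * i) := ⟨_, rfl⟩
    obtain ⟨W, hW⟩ : ∃ W, W = A.per R ⟨j, hjD⟩ Q d := ⟨_, rfl⟩
    rw [PerP_succ A R hjD, ← hV, ← hW, ← hu]
    rw [← hV, ← hu] at h1
    have hloc : A.Loc R A.D x 1 V := by
      rw [hV]
      exact (loc_PerP A R hQok hd (j + 1)).mono le_rfl hNx le_rfl
    have hTV := Dat.RI.mul_loc hA hQ hT hloc hPx hxx
    have e : T * R.U u * (V * W) - T * (V * W) * R.U u =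
        (T * R.U u * V - T * V * R.U u) * W + (T * V * R.U u * W - T * V * W * R.U u) := by
      noncomm_ring
    have h2 : ‖T * V * R.U u * W - T * V * W * R.U u‖ ≤
        A.C1 * (((A.C1 + 1) ^ A.D : ℕ) * 1 * δ) := by
      have e2 : T * V * R.U u * W - T * V * W * R.U u =
          avg (Q / d) fun j' => T * V * R.U u * R.U (A.z ⟨j, hjD⟩ ^ (A.K ⟨j, hjD⟩ * d * j')) -
            T * V * R.U (A.z ⟨j, hjD⟩ ^ (A.K ⟨j, hjD⟩ * d * j')) * R.U u := by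
        rw [hW]
        unfold Dat.per
        rw [mul_avg, mul_avg, avg_mul, avg_sub]
      rw [e2]
      refine norm_avg_le (by positivity) fun j' hj' => ?_
      have h3 := comm_mem hA hQ hd hN hNm hJ hx c ⟨j, hjD⟩ hi hj'
      rw [← hu] at h3
      obtain ⟨y, hy⟩ : ∃ y, y = A.z ⟨j, hjD⟩ ^ (A.K ⟨j, hjD⟩ * d * j') := ⟨_, rfl⟩
      rw [← hy] at h3 ⊢
      have h4 := hTV.BN hδ' h3
      have e3 : T * V * R.U u * R.U y - T * V * R.U y * R.U u =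
          (T * V * R.U ⁅u, y⁆ - T * V) * (R.U y * R.U u) := by
        have e4 : R.U u * R.U y = R.U ⁅u, y⁆ * (R.U y * R.U u) := by
          rw [← map_mul, ← map_mul, ← map_mul]
          congr 1
          rw [commutatorElement_def]
          group
        calc T * V * R.U u * R.U y - T * V * R.U y * R.U u
            = T * V * (R.U u * R.U y) - T * V * (R.U y * R.U u) := by
              simp only [mul_assoc]
          _ = T * V * (R.U ⁅u, y⁆ * (R.U y * R.U u)) - T * V * (R.U y * R.U u) := by rw [e4]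
          _ = (T * V * R.U ⁅u, y⁆ - T * V) * (R.U y * R.U u) := by
              rw [sub_mul]
              simp only [mul_assoc]
      rw [e3]
      calc ‖(T * V * R.U ⁅u, y⁆ - T * V) * (R.U y * R.U u)‖
          ≤ ‖T * V * R.U ⁅u, y⁆ - T * V‖ * ‖R.U y * R.U u‖ := norm_mul_le _ _
        _ ≤ (A.C1 * (((A.C1 + 1) ^ A.D : ℕ) * 1 * δ)) * 1 := by
            refine mul_le_mul h4 ?_ (norm_nonneg _) (by positivity)
            rw [← map_mul]
            exact R.norm_le _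
        _ = _ := mul_one _
    have hW1 : ‖W‖ ≤ 1 := by
      rw [hW]
      exact norm_per_le A R _ _ _
    rw [e]
    calc ‖(T * R.U u * V - T * V * R.U u) * W + (T * V * R.U u * W - T * V * W * R.U u)‖
        ≤ ‖(T * R.U u * V - T * V * R.U u) * W‖ + ‖T * V * R.U u * W - T * V * W * R.U u‖ :=
          norm_add_le _ _
      _ ≤ ‖T * R.U u * V - T * V * R.U u‖ * ‖W‖ + ‖T * V * R.U u * W - T * V * W * R.U u‖ := by
          gcongr
          exact norm_mul_le _ _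
      _ ≤ (n * (A.C1 * (((A.C1 + 1) ^ A.D : ℕ) * 1 * δ))) * 1 +
          A.C1 * (((A.C1 + 1) ^ A.D : ℕ) * 1 * δ) := by
          refine add_le_add (mul_le_mul h1 hW1 (norm_nonneg _) (by positivity)) h2
      _ = ((n + 1 : ℕ) : ℝ) * (A.C1 * (((A.C1 + 1) ^ A.D : ℕ) * 1 * δ)) := by
          push_cast
          ring

end AbsRAux

open AbsRAux

theorem abs_per {A : Dat G} (hA : A.Ok) (R : Rep G H) : ∃ C E : ℕ, ∀ c0 Q d N1 m t : ℕ, 0 < Q →
    d ∣ Q → A.P0 * Q ≤ 2 ^ N1 → N1 + E * (t + 1) ≤ m →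
    ‖A.Ph R c0 Q m * PerP A R c0 Q d - A.Ph R c0 d m‖ ≤ C * (1 / 2) ^ t := by
  obtain ⟨C', E', hinv⟩ := Dat.inv_right hA R
  refine ⟨A.D * (A.D * (A.C1 * ((A.C1 + 1) ^ A.D * C')) + 2),
    A.J * (A.C1 + A.D * A.C1 + E') + A.D * A.C1 + A.C1 + E' + 1, ?_⟩
  intro c0 Q d N1 m t hQ hd hN hm
  -- numerical facts
  have f1 : (A.J * (A.C1 + A.D * A.C1 + E') + A.D * A.C1 + A.C1 + E' + 1) * (t + 1) =
      A.J * (A.C1 + A.D * A.C1 + E' * t) + A.D * A.C1 + E' * t + t +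
        (A.J * (A.C1 + A.D * A.C1) * t + A.J * E' + A.D * A.C1 * t + A.C1 * (t + 1) + E' + 1) := by
    ring
  have g1 : N1 + A.J * (A.C1 + A.D * A.C1 + E' * t) ≤ m := by omega
  have g2 : N1 + (A.D * A.C1 + E' * t) ≤ m := by omega
  have g3 : N1 + t ≤ m := by omega
  have g4 : N1 ≤ m := by omega
  obtain ⟨t', ht'⟩ : ∃ t', t' = A.C1 + A.D * A.C1 + E' * t := ⟨_, rfl⟩
  obtain ⟨x, hx⟩ : ∃ x, x = m - (A.D * A.C1 + E' * t) := ⟨_, rfl⟩
  obtain ⟨x', hx'⟩ : ∃ x', x' = m - E' * t := ⟨_, rfl⟩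
  have k1 : m + A.C1 - t' ≤ x := by omega
  have k2 : N1 ≤ x := by omega
  have k3 : x + A.D * A.C1 ≤ x' := by omega
  have k4 : x' + E' * t ≤ m := by omega
  have k5 : N1 + A.J * t' ≤ m := by rw [ht']; exact g1
  have hPm : A.P0 * Q ≤ 2 ^ m := hN.trans (Nat.pow_le_pow_right (by norm_num) g4)
  have hδ : (0 : ℝ) ≤ C' * (1 / 2) ^ t := by positivity
  obtain ⟨b, hb⟩ : ∃ b : ℝ, b = A.D * (A.C1 * (((A.C1 + 1) ^ A.D : ℕ) * 1 * (C' * (1 / 2) ^ t))) :=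
    ⟨_, rfl⟩
  have hb0 : 0 ≤ b := by rw [hb]; positivity
  -- the swap of one cyclic average
  have hswap : ∀ (c : ℕ) (hc : c < A.D),
      ‖A.Ph R (c + 1) Q m * A.Cc R ⟨c, hc⟩ Q m * PerP A R (c + 1) Q d -
        A.Ph R (c + 1) Q m * PerP A R (c + 1) Q d * A.Cc R ⟨c, hc⟩ Q m‖ ≤ b := by
    intro c hc
    have e : A.Ph R (c + 1) Q m * A.Cc R ⟨c, hc⟩ Q m * PerP A R (c + 1) Q d -
        A.Ph R (c + 1) Q m * PerP A R (c + 1) Q d * A.Cc R ⟨c, hc⟩ Q m =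
        avg (A.ll ⟨c, hc⟩ Q m) fun i =>
          A.Ph R (c + 1) Q m * R.U (A.z ⟨c, hc⟩ ^ (A.K ⟨c, hc⟩ * Q * i)) * PerP A R (c + 1) Q d -
          A.Ph R (c + 1) Q m * PerP A R (c + 1) Q d *
            R.U (A.z ⟨c, hc⟩ ^ (A.K ⟨c, hc⟩ * Q * i)) := by
      unfold Dat.Cc
      rw [mul_avg, mul_avg, avg_mul, avg_sub]
    rw [e]
    refine norm_avg_le hb0 fun i hi => ?_
    have h1 := swapU hA R hδ hQ hd hN g4 k5 k1 k2 k3 ⟨c, hc⟩ hi
      (hinv (c + 1) Q m x' t hQ hPm k4) (A.D - (c + 1)) (c + 1) rfl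
    refine h1.trans ?_
    rw [hb]
    have h2 : ((A.D - (c + 1) : ℕ) : ℝ) ≤ A.D := by exact_mod_cast Nat.sub_le _ _
    exact mul_le_mul_of_nonneg_right h2 (by positivity)
  -- downward induction
  have key : ∀ n c : ℕ, A.D - c = n →
      ‖A.Ph R c Q m * PerP A R c Q d - A.Ph R c d m‖ ≤ n * (b + 2 * (1 / 2) ^ t) := by
    intro n
    induction n with
    | zero =>
      intro c hc
      rw [PerP_top A R (by omega : A.D ≤ c), A.Ph_top R (by omega : A.D ≤ c),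
        A.Ph_top R (by omega : A.D ≤ c)]
      simp
    | succ n ih =>
      intro c hc
      have hcD : c < A.D := by omega
      have h1 := ih (c + 1) (by omega)
      have h2 := hswap c hcD
      have h3 := cyc_per A R ⟨c, hcD⟩ hQ hd hN g3
      have n1 := norm_per_le A R ⟨c, hcD⟩ Q d
      have n2 := A.norm_Cc_le R ⟨c, hcD⟩ Q m
      have n3 := A.norm_Ph_le R (c + 1) d m
      rw [PerP_succ A R hcD, A.Ph_succ R hcD, A.Ph_succ R hcD]
      obtain ⟨P, hP⟩ : ∃ P, P = A.Ph R (c + 1) Q m := ⟨_, rfl⟩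
      obtain ⟨P', hP'⟩ : ∃ P', P' = A.Ph R (c + 1) d m := ⟨_, rfl⟩
      obtain ⟨V, hV⟩ : ∃ V, V = PerP A R (c + 1) Q d := ⟨_, rfl⟩
      obtain ⟨W, hW⟩ : ∃ W, W = A.per R ⟨c, hcD⟩ Q d := ⟨_, rfl⟩
      obtain ⟨K, hK⟩ : ∃ K, K = A.Cc R ⟨c, hcD⟩ Q m := ⟨_, rfl⟩
      obtain ⟨K', hK'⟩ : ∃ K', K' = A.Cc R ⟨c, hcD⟩ d m := ⟨_, rfl⟩
      rw [← hP, ← hP', ← hV] at h1
      rw [← hP, ← hV, ← hK] at h2
      rw [← hK, ← hK', ← hW] at h3
      rw [← hW] at n1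
      rw [← hK] at n2
      rw [← hP'] at n3
      rw [← hP, ← hP', ← hV, ← hW, ← hK, ← hK']
      have e : P * K * (V * W) - P' * K' =
          (P * K * V - P * V * K) * W + (P * V - P') * (K * W) + P' * (K * W - K') := by
        noncomm_ring
      have n4 : ‖K * W‖ ≤ 1 := by
        calc ‖K * W‖ ≤ ‖K‖ * ‖W‖ := norm_mul_le _ _
          _ ≤ 1 * 1 := mul_le_mul n2 n1 (norm_nonneg _) zero_le_one
          _ = 1 := one_mul 1
      rw [e]
      have q1 : ‖(P * K * V - P * V * K) * W‖ ≤ b := by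
        calc _ ≤ ‖P * K * V - P * V * K‖ * ‖W‖ := norm_mul_le _ _
          _ ≤ b * 1 := mul_le_mul h2 n1 (norm_nonneg _) hb0
          _ = b := mul_one b
      have q2 : ‖(P * V - P') * (K * W)‖ ≤ n * (b + 2 * (1 / 2) ^ t) := by
        calc _ ≤ ‖P * V - P'‖ * ‖K * W‖ := norm_mul_le _ _
          _ ≤ (n * (b + 2 * (1 / 2) ^ t)) * 1 := mul_le_mul h1 n4 (norm_nonneg _) (by positivity)
          _ = _ := mul_one _
      have q3 : ‖P' * (K * W - K')‖ ≤ 2 * (1 / 2) ^ t := by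
        calc _ ≤ ‖P'‖ * ‖K * W - K'‖ := norm_mul_le _ _
          _ ≤ 1 * (2 * (1 / 2) ^ t) := mul_le_mul n3 h3 (norm_nonneg _) zero_le_one
          _ = _ := one_mul _
      calc _ ≤ ‖(P * K * V - P * V * K) * W + (P * V - P') * (K * W)‖ + ‖P' * (K * W - K')‖ :=
            norm_add_le _ _
        _ ≤ ‖(P * K * V - P * V * K) * W‖ + ‖(P * V - P') * (K * W)‖ + ‖P' * (K * W - K')‖ := by
            gcongr
            exact norm_add_le _ _
        _ ≤ b + n * (b + 2 * (1 / 2) ^ t) + 2 * (1 / 2) ^ t := by gcongr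
        _ = ((n + 1 : ℕ) : ℝ) * (b + 2 * (1 / 2) ^ t) := by
            push_cast
            ring
  have hfin := key (A.D - c0) c0 rfl
  refine hfin.trans ?_
  have h1 : ((A.D - c0 : ℕ) : ℝ) ≤ A.D := by exact_mod_cast Nat.sub_le _ _
  calc ((A.D - c0 : ℕ) : ℝ) * (b + 2 * (1 / 2) ^ t) ≤ A.D * (b + 2 * (1 / 2) ^ t) :=
        mul_le_mul_of_nonneg_right h1 (by positivity)
    _ = ((A.D * (A.D * (A.C1 * ((A.C1 + 1) ^ A.D * C')) + 2) : ℕ) : ℝ) * (1 / 2) ^ t := by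
        rw [hb]
        push_cast
        ring

end Pool.Agent.Lib.Npm
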