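import Pool.Agent.Lib.Npm.Defs

/-!
# NPW: choice of the modulus

`Q = (2^v)! * 2^(E2 (u+1))` with `v = a (u+1)`: every `d ∈ [1, 2^v]` divides `(2^v)!`; `(2^v)! ≤ (2^v)^(2^v) = 2^(v 2^v)`, `v 2^v ≤ 4^v`, so
`P0 Q ≤ 2^(P0 + 4^v + E2 (u+1))` (`P0 ≤ 2^P0`) and `P0 + 4^v + E2 (u+1) ≤ 2^(E1 (u+1))` for `E1 = 2 a + P0 + E2 + 2` or so (`x ≤ 2^x`, `x + y + z ≤ 4 max`).
-/

set_option autoImplicit false

open Finset

namespace Pool.Agent.Lib.Npm

open Pool.Agent.Lib.Npw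

theorem exists_Q {G : Type} [Group G] (A : Dat G) (a E2 : ℕ) : ∃ E1 : ℕ, ∀ E' : ℕ, E1 ≤ E' →
    ∀ u : ℕ, ∃ Q : ℕ, QOk A (a * (u + 1)) Q (2 ^ (E' * (u + 1))) ∧ 2 ^ (E2 * (u + 1)) ≤ Q := by
  refine ⟨2 * a + A.P0 + E2 + 2, fun E' hE u => ?_⟩
  have hf : 0 < (2 ^ (a * (u + 1))).factorial := Nat.factorial_pos _
  refine ⟨(2 ^ (a * (u + 1))).factorial * 2 ^ (E2 * (u + 1)), ⟨by positivity, ?_, ?_⟩, ?_⟩
  · intro d hd
    rw [Finset.mem_Icc] at hd
    exact Dvd.dvd.mul_right (Nat.dvd_factorial (by omega) hd.2) _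
  · have h1 : (2 ^ (a * (u + 1))).factorial ≤ 2 ^ (a * (u + 1) * 2 ^ (a * (u + 1))) := by
      calc (2 ^ (a * (u + 1))).factorial ≤ (2 ^ (a * (u + 1))) ^ (2 ^ (a * (u + 1))) :=
            Nat.factorial_le_pow _
        _ = 2 ^ (a * (u + 1) * 2 ^ (a * (u + 1))) := by rw [← pow_mul]
    have h2 : A.P0 ≤ 2 ^ A.P0 := Nat.lt_two_pow_self.le
    calc A.P0 * ((2 ^ (a * (u + 1))).factorial * 2 ^ (E2 * (u + 1)))
        ≤ 2 ^ A.P0 * (2 ^ (a * (u + 1) * 2 ^ (a * (u + 1))) * 2 ^ (E2 * (u + 1))) := by gcongr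
      _ = 2 ^ (A.P0 + a * (u + 1) * 2 ^ (a * (u + 1)) + E2 * (u + 1)) := by
          rw [pow_add, pow_add]; ring
      _ ≤ 2 ^ 2 ^ (E' * (u + 1)) := by
          apply Nat.pow_le_pow_right (by norm_num)
          have e1 : a * (u + 1) * 2 ^ (a * (u + 1)) ≤ 2 ^ (2 * a * (u + 1)) := by
            calc a * (u + 1) * 2 ^ (a * (u + 1)) ≤ 2 ^ (a * (u + 1)) * 2 ^ (a * (u + 1)) := by
                  gcongr
                  exact Nat.lt_two_pow_self.le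
              _ = 2 ^ (2 * a * (u + 1)) := by rw [← pow_add]; congr 1; ring
          have e2 : A.P0 ≤ 2 ^ (A.P0 * (u + 1)) :=
            h2.trans (Nat.pow_le_pow_right (by norm_num) (Nat.le_mul_of_pos_right _ (by omega)))
          have e3 : E2 * (u + 1) ≤ 2 ^ (E2 * (u + 1)) := Nat.lt_two_pow_self.le
          have m1 : 2 ^ (2 * a * (u + 1)) ≤
              2 ^ (2 * a * (u + 1) + A.P0 * (u + 1) + E2 * (u + 1)) :=
            Nat.pow_le_pow_right (by norm_num) (by omega)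
          have m2 : 2 ^ (A.P0 * (u + 1)) ≤
              2 ^ (2 * a * (u + 1) + A.P0 * (u + 1) + E2 * (u + 1)) :=
            Nat.pow_le_pow_right (by norm_num) (by omega)
          have m3 : 2 ^ (E2 * (u + 1)) ≤
              2 ^ (2 * a * (u + 1) + A.P0 * (u + 1) + E2 * (u + 1)) :=
            Nat.pow_le_pow_right (by norm_num) (by omega)
          have m4 : 2 ^ (2 * a * (u + 1) + A.P0 * (u + 1) + E2 * (u + 1) + 2) ≤
              2 ^ (E' * (u + 1)) := by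
            apply Nat.pow_le_pow_right (by norm_num)
            calc 2 * a * (u + 1) + A.P0 * (u + 1) + E2 * (u + 1) + 2
                ≤ (2 * a + A.P0 + E2 + 2) * (u + 1) := by nlinarith
              _ ≤ E' * (u + 1) := Nat.mul_le_mul_right _ hE
          rw [pow_add _ _ 2] at m4
          omega
  · exact Nat.le_mul_of_pos_left _ hf

end Pool.Agent.Lib.Npm
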