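import Pool.Agent.Lib.Npm.Defs

/-!
# NPW (Part VI): the product of averages over one period

`PerP_succ`: as `Dat.Ph_succ` (`A.D - c = (A.D - (c + 1)) + 1` and `A.D - 1 - (A.D - (c + 1)) = c`).
`loc_PerP`: `per c Q d` is the average of `U(z_c^(K_c d j))`, `j < Q / d` (`loc_avg`; `0 < Q / d` because `d ∣ Q`, `0 < Q`), and `K_c d j ≤ K_c Q ≤ P0 Q ≤ 2^N1 ≤ 2^(N1 w_c)` (`K_mul_le`), so
`z_c^(K_c d j) ∈ Sm N1 ⊆ SmN 1 N1` (`mem_SmN_one`, `loc_U`); induction on `A.D - c0` with `Loc.mul`.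
`loc_GG`: `q ∈ s ⊆ [1, 2^v]` and `d ∣ q` give `d ∈ [1, 2^v]`, `d ∣ Q` (`QOk.dvd`); `Loc.smul`, `Loc.sum`, `norm_moebius_le` (in `Npw.Moeb`; or `|μ| ≤ 1` directly:
`ArithmeticFunction.abs_moebius_le_one`); there are at most `2^v * 2^v = 4^v` pairs (`q.divisors.card ≤ q ≤ 2^v`).
-/

set_option autoImplicit false

open Finset

namespace Pool.Agent.Lib.Npm

open Pool.Agent.Lib.Npw

variable {G H : Type} [Group G] [NormedAddCommGroup H] [InnerProductSpace ℂ H] [CompleteSpace H]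
  (A : Dat G) (R : Rep G H)

theorem PerP_top {c : ℕ} (h : A.D ≤ c) (Q d : ℕ) : PerP A R c Q d = 1 := by
  unfold PerP
  rw [Nat.sub_eq_zero_of_le h]
  rfl

theorem PerP_succ {c : ℕ} (h : c < A.D) (Q d : ℕ) :
    PerP A R c Q d = PerP A R (c + 1) Q d * A.per R ⟨c, h⟩ Q d := by
  unfold PerP
  have h1 : A.D - c = (A.D - (c + 1)) + 1 := by omega
  have h2 : A.D - 1 - (A.D - (c + 1)) = c := by omega
  rw [h1]
  show perR A R Q d (A.D - (c + 1)) *
    (if h : A.D - 1 - (A.D - (c + 1)) < A.D then A.per R ⟨A.D - 1 - (A.D - (c + 1)), h⟩ Q d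
      else 1) = _
  rw [dif_pos (by omega)]
  congr 2
  exact Fin.ext h2

private theorem loc_per {Q N1 d : ℕ} (hQ0 : 0 < Q) (hle : A.P0 * Q ≤ 2 ^ N1) (hd : d ∣ Q)
    (c : Fin A.D) : A.Loc R 1 N1 1 (A.per R c Q d) := by
  have hd0 : 0 < d := Nat.pos_of_dvd_of_pos hd hQ0
  refine Dat.loc_avg (Nat.div_pos (Nat.le_of_dvd hQ0 hd) hd0) fun j hj => ?_
  refine Dat.loc_U (A.mem_SmN_one (Or.inl ⟨c, ((A.K c * d * j : ℕ) : ℤ), ?_, ?_⟩))
  · have h1 : A.K c * d * j ≤ 2 ^ (N1 * A.w c) := by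
      calc A.K c * d * j = A.K c * (d * j) := Nat.mul_assoc _ _ _
        _ ≤ A.K c * (d * (Q / d)) := Nat.mul_le_mul_left _ (Nat.mul_le_mul_left _ hj.le)
        _ = A.K c * Q := by rw [Nat.mul_div_cancel' hd]
        _ ≤ A.P0 * Q := A.K_mul_le c Q
        _ ≤ 2 ^ N1 := hle
        _ ≤ 2 ^ (N1 * A.w c) :=
          Nat.pow_le_pow_right (by norm_num) (Nat.le_mul_of_pos_right _ (Nat.succ_pos _))
    rw [Nat.abs_cast]
    exact_mod_cast h1
  · rw [zpow_natCast]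

theorem loc_PerP {v Q N1 d : ℕ} (hQ : QOk A v Q N1) (hd : d ∣ Q) (c0 : ℕ) :
    A.Loc R A.D N1 1 (PerP A R c0 Q d) := by
  have key : ∀ j : ℕ, A.Loc R j N1 1 (perR A R Q d j) := by
    intro j
    induction j with
    | zero => exact Dat.loc_one 0 N1
    | succ j ih =>
      have h1 : A.Loc R 1 N1 1
          (if h : A.D - 1 - j < A.D then A.per R ⟨A.D - 1 - j, h⟩ Q d else 1) := by
        split_ifs with h
        · exact loc_per A R hQ.pos hQ.le hd _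
        · exact Dat.loc_one 1 N1
      have h2 := ih.mul h1 zero_le_one
      rw [mul_one] at h2
      exact h2
  exact (key (A.D - c0)).mono (Nat.sub_le _ _) le_rfl le_rfl

theorem loc_GG {v Q N1 : ℕ} (hQ : QOk A v Q N1) {s : Finset ℕ} (hs : s ⊆ Icc 1 (2 ^ v)) :
    A.Loc R A.D N1 (4 ^ v) (GG A R s Q) := by
  have h1 : A.Loc R A.D N1 (∑ q ∈ s, (2 : ℝ) ^ v) (GG A R s Q) := by
    refine Dat.Loc.sum s fun q hq => ?_
    have hq1 := Finset.mem_Icc.mp (hs hq)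
    have h3 : A.Loc R A.D N1 (∑ d ∈ q.divisors, (1 : ℝ))
        (∑ d ∈ q.divisors, ((ArithmeticFunction.moebius (q / d) : ℤ) : ℂ) • PerP A R 0 Q d) := by
      refine Dat.Loc.sum q.divisors fun d hd => ?_
      have hd1 : d ∈ Icc 1 (2 ^ v) := by
        rw [Finset.mem_Icc]
        exact ⟨Nat.pos_of_mem_divisors hd, (Nat.divisor_le hd).trans hq1.2⟩
      have h2 := (loc_PerP A R hQ (hQ.dvd d hd1) 0).smul
        ((ArithmeticFunction.moebius (q / d) : ℤ) : ℂ)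
      refine h2.mono le_rfl le_rfl ?_
      rw [mul_one, Complex.norm_intCast]
      have h : |ArithmeticFunction.moebius (q / d)| ≤ 1 :=
        ArithmeticFunction.abs_moebius_le_one
      exact_mod_cast h
    refine h3.mono le_rfl le_rfl ?_
    rw [Finset.sum_const, nsmul_eq_mul, mul_one]
    have h4 : q.divisors.card ≤ 2 ^ v := (Nat.card_divisors_le_self q).trans hq1.2
    exact_mod_cast h4
  refine h1.mono le_rfl le_rfl ?_
  have h2 : s.card ≤ 2 ^ v := by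
    have := Finset.card_le_card hs
    rwa [Nat.card_Icc, Nat.add_sub_cancel] at this
  have h3 : (s.card : ℝ) ≤ 2 ^ v := by exact_mod_cast h2
  rw [Finset.sum_const, nsmul_eq_mul]
  calc (s.card : ℝ) * 2 ^ v ≤ 2 ^ v * 2 ^ v := mul_le_mul_of_nonneg_right h3 (by positivity)
    _ = 4 ^ v := by rw [← mul_pow]; norm_num

end Pool.Agent.Lib.Npm
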