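import Pool.Agent.Lib.Npm.Far
import Pool.Agent.Lib.Npm.Per

/-!
# NPW (Part VI, infinite range): the families `T_n` and `Y_n G` are almost orthogonal at large distance

`G = GG s Q` is `Loc D N1 (4^v)` (`loc_GG`), so `B0 = G * star G` is `Loc (2D) N1 (16^v)` (`Loc.mul`, `Loc.star`).
`far_T`: `(AA M' * XX m1' m2' * G) * star (AA M * XX m1 m2 * G) = AA M' * (XX m1' m2' * B0 * star (XX m1 m2)) * star (AA M)`, and the middle is
`(Ph m1' - Ph m2') B0 (star (Ph m1) - star (Ph m2))`: by `far` (`N = 2D`) each of the four products `Ph m' B0 star (Ph m)` is `≈ Ph m' B0`, so the sum is `≈ 0`: total error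
`4 C 16^v (1/2)^t`; `‖AA M‖ ≤ 1` (`norm_AA_le`).
`far_Y`: let `Φ = Ph 0 Q m`, `Φ' = Ph 0 Q m'`, `a = AA (P0 Q)` (`Loc 1 N1 1` by `loc_AA`), `V ∈ {AA M' * Φ', Φ' * a}`, `Y' = YY Q m' M' = AA M' * Φ' - Φ' * a`. Then
`(Y' G) star (YY Q m M * G) = Y' B0 star (YY Q m M) = Y' B0 star Φ star (AA M) - Y' B0 star a star Φ`. By `far` with the local operators `B0`, `a B0`, `B0 star a`, `a B0 star a` (`Loc (2D+2) N1 16^v`):
`Y' B0 star Φ ≈ Y' B0` and `Y' (B0 star a) star Φ ≈ Y' B0 star a`. By `eq_right` (local operators `B0`, `a B0`; `n := n`, `M ≤ 2^n`, `N1 ≤ n ≤ m`): `Y' B0 star (AA M) ≈ Y' B0 star a`. So the difference is `≈ 0`.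
-/

set_option autoImplicit false

open Finset

namespace Pool.Agent.Lib.Npm

open Pool.Agent.Lib.Npw

variable {G H : Type} [Group G] [NormedAddCommGroup H] [InnerProductSpace ℂ H] [CompleteSpace H]

namespace FarTAux

lemma nl {V X : H →L[ℂ] H} {b : ℝ} (hV : ‖V‖ ≤ 1) (hX : ‖X‖ ≤ b) : ‖V * X‖ ≤ b := by
  calc ‖V * X‖ ≤ ‖V‖ * ‖X‖ := norm_mul_le _ _
    _ ≤ 1 * b := mul_le_mul hV hX (norm_nonneg _) zero_le_one
    _ = b := one_mul b

lemma nr {V X : H →L[ℂ] H} {b : ℝ} (hV : ‖V‖ ≤ 1) (hX : ‖X‖ ≤ b) : ‖X * V‖ ≤ b := by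
  have hb : 0 ≤ b := (norm_nonneg _).trans hX
  calc ‖X * V‖ ≤ ‖X‖ * ‖V‖ := norm_mul_le _ _
    _ ≤ b * 1 := mul_le_mul hX hV (norm_nonneg _) hb
    _ = b := mul_one b

lemma loc_B0 {A : Dat G} {R : Rep G H} {v Q N1 : ℕ} (hQ : QOk A v Q N1) {s : Finset ℕ}
    (hs : s ⊆ Icc 1 (2 ^ v)) :
    A.Loc R (A.D + A.D) N1 (16 ^ v) (GG A R s Q * star (GG A R s Q)) := by
  have h1 : A.Loc R A.D N1 (4 ^ v) (GG A R s Q) := loc_GG A R hQ hs
  have h2 := h1.mul h1.star (by positivity)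
  refine h2.mono le_rfl le_rfl (le_of_eq ?_)
  rw [← mul_pow]
  norm_num

end FarTAux

open FarTAux

theorem far_T {A : Dat G} (hA : A.Ok) (R : Rep G H) : ∃ C E : ℕ,
    ∀ (v Q N1 m1 m2 m1' m2' M M' t : ℕ) (s : Finset ℕ), QOk A v Q N1 → s ⊆ Icc 1 (2 ^ v) →
    N1 ≤ m1 → N1 ≤ m2 → m1 + E * (t + 1) ≤ m1' → m1 + E * (t + 1) ≤ m2' →
    m2 + E * (t + 1) ≤ m1' → m2 + E * (t + 1) ≤ m2' →
    ‖(A.AA R M' * XX A R Q m1' m2' * GG A R s Q) *
      star (A.AA R M * XX A R Q m1 m2 * GG A R s Q)‖ ≤ C * 16 ^ v * (1 / 2) ^ t := by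
  obtain ⟨C, E, hfar⟩ := far hA R (A.D + A.D)
  refine ⟨4 * C, E, ?_⟩
  intro v Q N1 m1 m2 m1' m2' M M' t s hQ hs hm1 hm2 h11 h12 h21 h22
  have hB0 := loc_B0 (A := A) (R := R) hQ hs
  set B0 : H →L[ℂ] H := GG A R s Q * star (GG A R s Q) with hB0d
  have f11 := (hfar Q N1 m1' m1 t (16 ^ v) B0 hQ.pos hQ.le hB0 hm1 h11).1
  have f12 := (hfar Q N1 m2' m1 t (16 ^ v) B0 hQ.pos hQ.le hB0 hm1 h12).1
  have f21 := (hfar Q N1 m1' m2 t (16 ^ v) B0 hQ.pos hQ.le hB0 hm2 h21).1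
  have f22 := (hfar Q N1 m2' m2 t (16 ^ v) B0 hQ.pos hQ.le hB0 hm2 h22).1
  set P1' := A.Ph R 0 Q m1'
  set P2' := A.Ph R 0 Q m2'
  set P1 := A.Ph R 0 Q m1
  set P2 := A.Ph R 0 Q m2
  have e1 : (A.AA R M' * XX A R Q m1' m2' * GG A R s Q) *
      star (A.AA R M * XX A R Q m1 m2 * GG A R s Q) =
      A.AA R M' * (((P1' * B0 * star P1 - P1' * B0) - (P1' * B0 * star P2 - P1' * B0)) -
        ((P2' * B0 * star P1 - P2' * B0) - (P2' * B0 * star P2 - P2' * B0))) *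
        star (A.AA R M) := by
    show (A.AA R M' * (P1' - P2') * GG A R s Q) * star (A.AA R M * (P1 - P2) * GG A R s Q) = _
    rw [star_mul, star_mul, star_sub, hB0d]
    noncomm_ring
  rw [e1]
  refine nr (by rw [norm_star]; exact A.norm_AA_le R M) (nl (A.norm_AA_le R M') ?_)
  have g1 := norm_sub_le (P1' * B0 * star P1 - P1' * B0) (P1' * B0 * star P2 - P1' * B0)
  have g2 := norm_sub_le (P2' * B0 * star P1 - P2' * B0) (P2' * B0 * star P2 - P2' * B0)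
  have g3 := norm_sub_le ((P1' * B0 * star P1 - P1' * B0) - (P1' * B0 * star P2 - P1' * B0))
    ((P2' * B0 * star P1 - P2' * B0) - (P2' * B0 * star P2 - P2' * B0))
  push_cast
  linarith

theorem far_Y {A : Dat G} (hA : A.Ok) (R : Rep G H) : ∃ C E : ℕ,
    ∀ (v Q N1 n m m' M M' t : ℕ) (s : Finset ℕ), QOk A v Q N1 → s ⊆ Icc 1 (2 ^ v) →
    0 < M → A.P0 * Q ∣ M → M ≤ 2 ^ n → N1 ≤ n → n ≤ m → m + E * (t + 1) ≤ m' →
    ‖(YY A R Q m' M' * GG A R s Q) * star (YY A R Q m M * GG A R s Q)‖ ≤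
      C * 16 ^ v * (1 / 2) ^ t := by
  obtain ⟨C, E, hfar⟩ := far hA R (1 + (A.D + A.D) + 1)
  obtain ⟨C2, E2, heq⟩ := eq_right hA R (1 + (A.D + A.D) + 1)
  refine ⟨4 * C + 2 * C2, E + E2, ?_⟩
  intro v Q N1 n m m' M M' t s hQ hs hM hPM hMn hN1 hnm hmm
  have hEE : (E + E2) * (t + 1) = E * (t + 1) + E2 * (t + 1) := by ring
  have hm1 : m + E * (t + 1) ≤ m' := by omega
  have hm2 : n + E2 * (t + 1) ≤ m' := by omega
  have hN1m : N1 ≤ m := hN1.trans hnm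
  have hB0 := loc_B0 (A := A) (R := R) hQ hs
  set B0 : H →L[ℂ] H := GG A R s Q * star (GG A R s Q) with hB0d
  set a : H →L[ℂ] H := A.AA R (A.P0 * Q) with had
  have ha : A.Loc R 1 N1 1 a := Dat.loc_AA hQ.le
  have l0 : A.Loc R (1 + (A.D + A.D) + 1) N1 (16 ^ v) B0 :=
    hB0.mono (by omega) le_rfl le_rfl
  have l1' : A.Loc R (1 + (A.D + A.D)) N1 (16 ^ v) (a * B0) :=
    (ha.mul hB0 (by positivity)).mono le_rfl le_rfl (le_of_eq (one_mul _))
  have l1 : A.Loc R (1 + (A.D + A.D) + 1) N1 (16 ^ v) (a * B0) :=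
    l1'.mono (by omega) le_rfl le_rfl
  have l2 : A.Loc R (1 + (A.D + A.D) + 1) N1 (16 ^ v) (B0 * star a) :=
    (hB0.mul ha.star zero_le_one).mono (by omega) le_rfl (le_of_eq (mul_one _))
  have l3 : A.Loc R (1 + (A.D + A.D) + 1) N1 (16 ^ v) (a * B0 * star a) :=
    (l1'.mul ha.star zero_le_one).mono le_rfl le_rfl (le_of_eq (mul_one _))
  have f0 := (hfar Q N1 m' m t (16 ^ v) _ hQ.pos hQ.le l0 hN1m hm1).1
  have f1 := (hfar Q N1 m' m t (16 ^ v) _ hQ.pos hQ.le l1 hN1m hm1).1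
  have f2 := (hfar Q N1 m' m t (16 ^ v) _ hQ.pos hQ.le l2 hN1m hm1).1
  have f3 := (hfar Q N1 m' m t (16 ^ v) _ hQ.pos hQ.le l3 hN1m hm1).1
  have k0 := heq Q N1 n m' t M (16 ^ v) _ hQ.pos hQ.le l0 hM hPM hMn hN1 hm2
  have k1 := heq Q N1 n m' t M (16 ^ v) _ hQ.pos hQ.le l1 hM hPM hMn hN1 hm2
  rw [← had] at k0 k1
  set P' := A.Ph R 0 Q m'
  set P := A.Ph R 0 Q m
  set W' := A.AA R M'
  set W := A.AA R M
  have nW' : ‖W'‖ ≤ 1 := A.norm_AA_le R M'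
  have nW : ‖star W‖ ≤ 1 := by rw [norm_star]; exact A.norm_AA_le R M
  have e1 : (YY A R Q m' M' * GG A R s Q) * star (YY A R Q m M * GG A R s Q) =
      (W' * (P' * B0 * star P - P' * B0) - (P' * (a * B0) * star P - P' * (a * B0))) * star W -
      (W' * (P' * (B0 * star a) * star P - P' * (B0 * star a)) -
        (P' * (a * B0 * star a) * star P - P' * (a * B0 * star a))) +
      (W' * (P' * B0 * star W - P' * B0 * star a) -
        (P' * (a * B0) * star W - P' * (a * B0) * star a)) := by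
    show ((W' * P' - P' * a) * GG A R s Q) * star ((W * P - P * a) * GG A R s Q) = _
    rw [star_mul, star_sub, star_mul, star_mul, hB0d]
    noncomm_ring
  rw [e1]
  have g1 : ‖(W' * (P' * B0 * star P - P' * B0) -
      (P' * (a * B0) * star P - P' * (a * B0))) * star W‖ ≤
      C * 16 ^ v * (1 / 2) ^ t + C * 16 ^ v * (1 / 2) ^ t :=
    nr nW ((norm_sub_le _ _).trans (add_le_add (nl nW' f0) f1))
  have g2 : ‖W' * (P' * (B0 * star a) * star P - P' * (B0 * star a)) -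
        (P' * (a * B0 * star a) * star P - P' * (a * B0 * star a))‖ ≤
      C * 16 ^ v * (1 / 2) ^ t + C * 16 ^ v * (1 / 2) ^ t :=
    (norm_sub_le _ _).trans (add_le_add (nl nW' f2) f3)
  have g3 : ‖W' * (P' * B0 * star W - P' * B0 * star a) -
        (P' * (a * B0) * star W - P' * (a * B0) * star a)‖ ≤
      C2 * 16 ^ v * (1 / 2) ^ t + C2 * 16 ^ v * (1 / 2) ^ t :=
    (norm_sub_le _ _).trans (add_le_add (nl nW' k0) k1)
  refine (norm_add_le _ _).trans ?_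
  have g4 := norm_sub_le ((W' * (P' * B0 * star P - P' * B0) -
      (P' * (a * B0) * star P - P' * (a * B0))) * star W)
    (W' * (P' * (B0 * star a) * star P - P' * (B0 * star a)) -
        (P' * (a * B0 * star a) * star P - P' * (a * B0 * star a)))
  push_cast
  linarith

end Pool.Agent.Lib.Npm
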