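import Pool.Agent.Lib.Npm.DZmax
import Pool.Agent.Lib.Pf720nn.Blk

/-!
# The Dunford-Zygmund theorem for ordered products of cyclic averages

PROOF. `V i` is the composition with the measure preserving bijection `T i`. By induction on `n`
(for all lengths `l`), a.e.
`pr (fun i => cyc (V i) (l i)) n f x = (∏_{i<n} l i)⁻¹ ∑_{m ∈ ∏_{i<n} [1, l i]} f (T_0^{m_0 - 1} ⋯ T_{n-1}^{m_{n-1} - 1} x)`:
`pr` has the top index leftmost, and `(V n g)(x) = g (T n x)`, so `T n` stands at the right end of the word (acts first);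
`cyc (V n) l g` is a.e. `l⁻¹ ∑_{j<l} g (T_n^j x)` (see `IsComp.pow` and the proof of `cyc_le` in `DZmax`), and
`Fintype.piFinset` over `Fin (n+1)` splits off the last coordinate (`List.ofFn_succ'` / `Fin.snoc`).
The word is `Pool.Agent.Lib.Pf720nn.pw (fun i : Fin n => T i) (fun i => m i - 1)` and the a.e. convergence of the right hand side
as `min m_i → ∞` is `Pool.Agent.Lib.Pf720nn.conv_sep` with `k = d = n`, `P i = X i - C 1` (`vars ⊆ {i}`, so `Sep` holds with the
identity blocks), and `f` replaced by its `Lp` representative (`Lp.memLp`). Finally `fun m i => L i m` tends to `atTop` in `Fin n → ℕ`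
(`tendsto_atTop_atTop` coordinatewise / `Filter.tendsto_pi`-type lemma `tendsto_atTop_pi`), and the countably many a.e. identities (one for
every `m`) hold simultaneously.
-/

set_option autoImplicit false

open MeasureTheory Filter Topology

namespace Pool.Agent.Lib.Npm

open Pool.Agent.Lib.Pf720ae (pw)

variable {X : Type} [MeasurableSpace X] {μ : Measure X}

/-- the formula for a cyclic average -/
theorem cyc_ae {V : Lp ℂ 2 μ →L[ℂ] Lp ℂ 2 μ} {τ : X → X} (h : IsComp μ V τ)
    (hτ : MeasurePreserving τ μ μ) (f : Lp ℂ 2 μ) (l : ℕ) :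
    ∀ᵐ x ∂μ, cyc V l f x = (l : ℂ)⁻¹ * ∑ j ∈ Finset.range l, f (τ^[j] x) := by
  have h1 : ∀ᵐ x ∂μ, ∀ j : ℕ, (V ^ j) f x = f (τ^[j] x) :=
    ae_all_iff.2 fun j => h.pow hτ j f
  have h3 : ∀ᵐ x ∂μ, (∑ j ∈ Finset.range l, (V ^ j) f : Lp ℂ 2 μ) x =
      ∑ j ∈ Finset.range l, (V ^ j) f x := by
    have := Lp.coeFn_finsetSum (μ := μ) (Finset.range l) (fun j => (V ^ j) f)
    filter_upwards [this] with x hx
    rw [hx]
    simp
  have h4 : cyc V l f = (l : ℂ)⁻¹ • ∑ j ∈ Finset.range l, (V ^ j) f := by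
    simp [cyc]
  rw [h4]
  filter_upwards [h1, h3, Lp.coeFn_smul (l : ℂ)⁻¹ (∑ j ∈ Finset.range l, (V ^ j) f)]
    with x hx1 hx3 hx4
  rw [hx4, Pi.smul_apply, hx3, smul_eq_mul]
  congr 1
  exact Finset.sum_congr rfl fun j _ => hx1 j

theorem sum_piFinset_snoc {n : ℕ} (s : ℕ → Finset ℕ) (F : (Fin (n + 1) → ℕ) → ℂ) :
    ∑ m ∈ Fintype.piFinset (fun i : Fin (n + 1) => s i), F m =
      ∑ j ∈ s n, ∑ m ∈ Fintype.piFinset (fun i : Fin n => s i), F (Fin.snoc m j) := by
  rw [← Finset.sum_product']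
  refine Finset.sum_nbij' (fun m => (m (Fin.last n), fun i => m i.castSucc))
    (fun p => Fin.snoc p.2 p.1) ?_ ?_ ?_ ?_ ?_
  · intro m hm
    rw [Fintype.mem_piFinset] at hm
    rw [Finset.mem_product, Fintype.mem_piFinset]
    refine ⟨?_, fun i => ?_⟩
    · simpa using hm (Fin.last n)
    · simpa using hm i.castSucc
  · intro p hp
    rw [Finset.mem_product, Fintype.mem_piFinset] at hp
    rw [Fintype.mem_piFinset]
    intro i
    refine Fin.lastCases ?_ (fun i => ?_) i
    · simpa using hp.1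
    · simpa using hp.2 i
  · intro m hm
    funext i
    refine Fin.lastCases ?_ (fun i => ?_) i
    · simp
    · simp
  · intro p hp
    simp
  · intro m hm
    congr 1
    funext i
    refine Fin.lastCases ?_ (fun i => ?_) i
    · simp
    · simp

omit [MeasurableSpace X] in
theorem pw_snoc {T : ℕ → Equiv.Perm X} {n : ℕ} (m : Fin n → ℕ) (j : ℕ) :
    pw (fun i : Fin (n + 1) => T i)
        (fun i => ((Fin.snoc m j : Fin (n + 1) → ℕ) i : ℤ) - 1) =
      pw (fun i : Fin n => T i) (fun i => (m i : ℤ) - 1) * T n ^ ((j : ℤ) - 1) := by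
  unfold pw
  rw [List.ofFn_succ', List.concat_eq_append, List.prod_append]
  simp

theorem pr_ae {V : ℕ → Lp ℂ 2 μ →L[ℂ] Lp ℂ 2 μ}
    {T : ℕ → Equiv.Perm X} (h : ∀ i, IsComp μ (V i) (T i))
    (hT : ∀ i, Measurable (T i) ∧ Measurable (T i).symm ∧ MeasurePreserving (T i) μ μ)
    (l : ℕ → ℕ) (n : ℕ) (f : Lp ℂ 2 μ) :
    ∀ᵐ x ∂μ, pr (fun i => cyc (V i) (l i)) n f x =
      (∏ i : Fin n, (l i : ℂ))⁻¹ *
        ∑ m ∈ Fintype.piFinset (fun i : Fin n => Finset.Icc 1 (l i)),
          f (pw (fun i : Fin n => T i) (fun i => (m i : ℤ) - 1) x) := by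
  induction n with
  | zero =>
      refine Filter.Eventually.of_forall fun x => ?_
      simp [pr, pw]
  | succ n ih =>
      have hmp := fun j : ℕ => ((hT n).2.2.iterate j).quasiMeasurePreserving
      have h1 : ∀ᵐ x ∂μ, ∀ j : ℕ, pr (fun i => cyc (V i) (l i)) n f ((T n)^[j] x) =
          (∏ i : Fin n, (l i : ℂ))⁻¹ *
            ∑ m ∈ Fintype.piFinset (fun i : Fin n => Finset.Icc 1 (l i)),
              f (pw (fun i : Fin n => T i) (fun i => (m i : ℤ) - 1) ((T n)^[j] x)) :=
        ae_all_iff.2 fun j => (hmp j).ae ih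
      have h2 := cyc_ae (h n) (hT n).2.2 (pr (fun i => cyc (V i) (l i)) n f) (l n)
      have h3 : pr (fun i => cyc (V i) (l i)) (n + 1) f =
          cyc (V n) (l n) (pr (fun i => cyc (V i) (l i)) n f) := rfl
      rw [h3]
      filter_upwards [h1, h2] with x hx1 hx2
      rw [hx2, sum_piFinset_snoc (fun i => Finset.Icc 1 (l i)), Fin.prod_univ_castSucc]
      have e1 : ∑ j ∈ Finset.Icc 1 (l n),
          ∑ m ∈ Fintype.piFinset (fun i : Fin n => Finset.Icc 1 (l i)),
            f (pw (fun i : Fin (n + 1) => T i)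
              (fun i => ((Fin.snoc m j : Fin (n + 1) → ℕ) i : ℤ) - 1) x) =
          ∑ j ∈ Finset.range (l n),
            ∑ m ∈ Fintype.piFinset (fun i : Fin n => Finset.Icc 1 (l i)),
              f (pw (fun i : Fin n => T i) (fun i => (m i : ℤ) - 1) ((T n)^[j] x)) := by
        symm
        refine Finset.sum_nbij' (fun j => j + 1) (fun j => j - 1) ?_ ?_ ?_ ?_ ?_
        · intro j hj
          rw [Finset.mem_range] at hj
          rw [Finset.mem_Icc]
          omega
        · intro j hj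
          rw [Finset.mem_Icc] at hj
          rw [Finset.mem_range]
          omega
        · intro j hj
          simp
        · intro j hj
          rw [Finset.mem_Icc] at hj
          omega
        · intro j hj
          refine Finset.sum_congr rfl fun m _ => ?_
          rw [pw_snoc, Equiv.Perm.mul_apply]
          congr 2
          push_cast
          rw [add_sub_cancel_right, zpow_natCast, Equiv.Perm.iterate_eq_pow]
      rw [e1, mul_inv, Finset.sum_congr rfl fun j _ => hx1 j, ← Finset.mul_sum]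
      simp only [Fin.val_castSucc, Fin.val_last]
      ring

theorem dz_conv [IsProbabilityMeasure μ] {V : ℕ → Lp ℂ 2 μ →L[ℂ] Lp ℂ 2 μ}
    {T : ℕ → Equiv.Perm X} (h : ∀ i, IsComp μ (V i) (T i))
    (hT : ∀ i, Measurable (T i) ∧ Measurable (T i).symm ∧ MeasurePreserving (T i) μ μ)
    {L : ℕ → ℕ → ℕ} (hL : ∀ i, Tendsto (L i) atTop atTop) (n : ℕ) (f : Lp ℂ 2 μ) :
    ∀ᵐ x ∂μ, ∃ a : ℂ, Tendsto (fun m => pr (fun i => cyc (V i) (L i m)) n f x) atTop (𝓝 a) := by
  have h1 : ∀ᵐ x ∂μ, ∀ m : ℕ, pr (fun i => cyc (V i) (L i m)) n f x =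
      (∏ i : Fin n, (L i m : ℂ))⁻¹ *
        ∑ k ∈ Fintype.piFinset (fun i : Fin n => Finset.Icc 1 (L i m)),
          f (pw (fun i : Fin n => T i) (fun i => (k i : ℤ) - 1) x) :=
    ae_all_iff.2 fun m => pr_ae h hT (fun i => L i m) n f
  have hvars : ∀ i : Fin n,
      (MvPolynomial.X i - MvPolynomial.C 1 : MvPolynomial (Fin n) ℤ).vars ⊆ {i} := by
    intro i
    refine (MvPolynomial.vars_sub_subset _ ).trans ?_
    rw [MvPolynomial.vars_X, MvPolynomial.vars_C]
    simp
  have hSep : Pool.Agent.Lib.Pf720nn.Sep (fun i : Fin n => T i)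
      (fun i : Fin n => (MvPolynomial.X i - MvPolynomial.C 1 : MvPolynomial (Fin n) ℤ)) := by
    refine ⟨fun i => i, fun i j hij => hij, fun i i' _ _ => ⟨fun e => ?_, fun e => ?_⟩⟩
    · have : i = i' := Fin.ext e
      rw [this]
    · refine Finset.disjoint_of_subset_left (hvars i)
        (Finset.disjoint_of_subset_right (hvars i') ?_)
      rw [Finset.disjoint_singleton]
      intro h
      exact e (by rw [h])
  have h2 := Pool.Agent.Lib.Pf720nn.conv_sep (fun i : Fin n => T i) (fun i => hT i)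
    (fun i : Fin n => (MvPolynomial.X i - MvPolynomial.C 1 : MvPolynomial (Fin n) ℤ)) hSep
    (Lp.memLp f)
  have hLt : Tendsto (fun (m : ℕ) (i : Fin n) => L i m) atTop atTop := by
    rw [tendsto_atTop]
    intro b
    have : ∀ i : Fin n, ∀ᶠ m in atTop, b i ≤ L i m := fun i => (tendsto_atTop.1 (hL i)) (b i)
    exact (Filter.eventually_all.2 this).mono fun m hm => hm
  filter_upwards [h1, h2] with x hx1 hx2
  obtain ⟨a, ha⟩ := hx2
  refine ⟨a, (ha.comp hLt).congr fun m => ?_⟩
  rw [hx1 m]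
  simp only [Function.comp, map_sub, MvPolynomial.eval_X, MvPolynomial.eval_C]

end Pool.Agent.Lib.Npm
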