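import Pool.Agent.Lib.Npm.Mx
import Pool.Agent.Lib.Pf720ae.Max2

/-!
# The Dunford-Zygmund maximal inequality for ordered products of cyclic averages
-/

set_option autoImplicit false

open MeasureTheory Filter Topology
open scoped ENNReal

namespace Pool.Agent.Lib.Npm

open Pool.Agent.Lib.Pf720ae (Am Mx measurable_Mx strong)

variable {X : Type} [MeasurableSpace X] {μ : Measure X}

/-- `V` is the composition with `τ` -/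
def IsComp (μ : Measure X) (V : Lp ℂ 2 μ →L[ℂ] Lp ℂ 2 μ) (τ : X → X) : Prop :=
  ∀ f : Lp ℂ 2 μ, V f =ᵐ[μ] f ∘ τ

theorem IsComp.pow {V : Lp ℂ 2 μ →L[ℂ] Lp ℂ 2 μ} {τ : X → X} (h : IsComp μ V τ)
    (hτ : MeasurePreserving τ μ μ) (n : ℕ) : IsComp μ (V ^ n) τ^[n] := by
  induction n with
  | zero => intro f; simp
  | succ n ih =>
      intro f
      rw [pow_succ, mul_apply_eq_comp, Function.iterate_succ']
      have h1 := ih (V f)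
      have h2 : (V f) ∘ τ^[n] =ᵐ[μ] (f ∘ τ) ∘ τ^[n] :=
        ((hτ.iterate n).quasiMeasurePreserving.ae_eq_comp (h f))
      exact h1.trans h2

/-- the average of the first `l` powers -/
noncomputable def cyc (V : Lp ℂ 2 μ →L[ℂ] Lp ℂ 2 μ) (l : ℕ) : Lp ℂ 2 μ →L[ℂ] Lp ℂ 2 μ :=
  (l : ℂ)⁻¹ • ∑ j ∈ Finset.range l, V ^ j

theorem cyc_le {V : Lp ℂ 2 μ →L[ℂ] Lp ℂ 2 μ} {τ : X → X} (h : IsComp μ V τ)
    (hτ : MeasurePreserving τ μ μ) {f : Lp ℂ 2 μ} {φ : X → ℝ≥0∞}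
    (hf : ∀ᵐ x ∂μ, ‖f x‖ₑ ≤ φ x) {l : ℕ} (hl : 1 ≤ l) :
    ∀ᵐ x ∂μ, ‖cyc V l f x‖ₑ ≤ Mx τ φ x := by
  have h1 : ∀ᵐ x ∂μ, ∀ j : ℕ, (V ^ j) f x = f (τ^[j] x) :=
    ae_all_iff.2 fun j => h.pow hτ j f
  have h2 : ∀ᵐ x ∂μ, ∀ j : ℕ, ‖f (τ^[j] x)‖ₑ ≤ φ (τ^[j] x) :=
    ae_all_iff.2 fun j => (hτ.iterate j).quasiMeasurePreserving.ae hf
  have h3 : ∀ᵐ x ∂μ, (∑ j ∈ Finset.range l, (V ^ j) f : Lp ℂ 2 μ) x =
      ∑ j ∈ Finset.range l, (V ^ j) f x := by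
    have := Lp.coeFn_finsetSum (μ := μ) (Finset.range l) (fun j => (V ^ j) f)
    filter_upwards [this] with x hx
    rw [hx]
    simp
  have h4 : cyc V l f = (l : ℂ)⁻¹ • ∑ j ∈ Finset.range l, (V ^ j) f := by
    simp [cyc]
  rw [h4]
  filter_upwards [h1, h2, h3, Lp.coeFn_smul (l : ℂ)⁻¹ (∑ j ∈ Finset.range l, (V ^ j) f)]
    with x hx1 hx2 hx3 hx4
  rw [hx4, Pi.smul_apply, hx3, enorm_smul]
  obtain ⟨n, rfl⟩ : ∃ n, l = n + 1 := ⟨l - 1, by omega⟩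
  refine le_trans ?_ (le_iSup (fun n => Am τ φ n x) n)
  unfold Am
  have h5 : ‖((n + 1 : ℕ) : ℂ)⁻¹‖ₑ = ((n : ℝ≥0∞) + 1)⁻¹ := by
    rw [enorm_inv (by exact_mod_cast Nat.succ_ne_zero n)]
    congr 1
    rw [← ofReal_norm, Complex.norm_natCast, ENNReal.ofReal_natCast]
    push_cast
    rfl
  rw [h5]
  gcongr
  refine (enorm_sum_le _ _).trans (Finset.sum_le_sum fun j _ => ?_)
  rw [hx1 j]
  exact hx2 j

/-- ordered product, top index leftmost -/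
noncomputable def pr (A : ℕ → Lp ℂ 2 μ →L[ℂ] Lp ℂ 2 μ) : ℕ → Lp ℂ 2 μ →L[ℂ] Lp ℂ 2 μ
  | 0 => 1
  | n + 1 => A n * pr A n

theorem dz_max [IsProbabilityMeasure μ] {V : ℕ → Lp ℂ 2 μ →L[ℂ] Lp ℂ 2 μ} {τ : ℕ → X → X}
    (h : ∀ i, IsComp μ (V i) (τ i)) (hτ : ∀ i, MeasurePreserving (τ i) μ μ) {L : ℕ → ℕ → ℕ}
    (hL : ∀ i m, 1 ≤ L i m) (n : ℕ) (f : Lp ℂ 2 μ) :
    mx Set.univ (fun m => pr (fun i => cyc (V i) (L i m)) n f) ≤ 2 ^ n * ‖f‖ₑ := by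
  -- the majorant
  have key : ∃ φ : X → ℝ≥0∞, Measurable φ ∧
      (∀ m, ∀ᵐ x ∂μ, ‖pr (fun i => cyc (V i) (L i m)) n f x‖ₑ ≤ φ x) ∧
      ∫⁻ x, φ x ^ 2 ∂μ ≤ (2 ^ n * ‖f‖ₑ) ^ 2 := by
    induction n with
    | zero =>
        have hm := (Lp.stronglyMeasurable f).measurable.enorm
        refine ⟨fun x => ‖f x‖ₑ, hm, fun m => Filter.Eventually.of_forall fun x => le_rfl, ?_⟩
        have h1 := enorm_sq_eq f
        simp only [ENNReal.rpow_ofNat] at h1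
        rw [pow_zero, one_mul, h1]
    | succ n ih =>
        obtain ⟨φ, hφ, h1, h2⟩ := ih
        refine ⟨Mx (τ n) φ, measurable_Mx (hτ n).measurable hφ, fun m => ?_, ?_⟩
        · exact cyc_le (h n) (hτ n) (h1 m) (hL n m)
        · refine (strong (hτ n) hφ).trans ?_
          calc 4 * ∫⁻ x, φ x ^ 2 ∂μ ≤ 4 * (2 ^ n * ‖f‖ₑ) ^ 2 := by gcongr
            _ = (2 ^ (n + 1) * ‖f‖ₑ) ^ 2 := by ring
  obtain ⟨φ, hφ, h1, h2⟩ := key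
  have h3 : mx Set.univ (fun m => pr (fun i => cyc (V i) (L i m)) n f) ≤
      (∫⁻ x, φ x ^ (2 : ℝ) ∂μ) ^ (1 / 2 : ℝ) := by
    unfold mx
    refine ENNReal.rpow_le_rpow (lintegral_mono_ae ?_) (by norm_num)
    filter_upwards [ae_all_iff.2 h1] with x hx
    exact ENNReal.rpow_le_rpow (iSup₂_le fun m _ => hx m) (by norm_num)
  refine h3.trans ?_
  simp only [ENNReal.rpow_ofNat]
  calc (∫⁻ x, φ x ^ 2 ∂μ) ^ (1 / 2 : ℝ) ≤ ((2 ^ n * ‖f‖ₑ) ^ 2) ^ (1 / 2 : ℝ) := by gcongr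
    _ = 2 ^ n * ‖f‖ₑ := by
        rw [← ENNReal.rpow_natCast, ← ENNReal.rpow_mul]
        norm_num

end Pool.Agent.Lib.Npm
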