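import Pool.Agent.Lib.Npm.Defs
import Pool.Agent.Lib.Npm.DZmax
import Pool.Agent.Lib.Npm.DZconv

/-!
# NPW: the Koopman representation; `Ph` is an ordered product of cyclic averages

`exists_rep`: `U g = Lp.compMeasurePreservingₗᵢ ℂ (W g⁻¹) _` (as a continuous linear map); `U (g h) f = f ∘ W ((g h)⁻¹) = f ∘ W h⁻¹ ∘ W g⁻¹ = U g (U h f)`;
`star (U g) = U g⁻¹`: `⟪U g f, f'⟫ = ∫ conj (f (W g⁻¹ x)) f' x = ∫ conj (f x) f' (W g x)` (measure preserving), or: a surjective isometry, so its adjoint is its inverse.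
`ph_eq`: `Cc c Q m = cyc (R.U (z_c ^ (K_c Q))) (ll c Q m)` (`avg`, `cyc` are both `l⁻¹ ∑_{j<l}`; `U (g^(K q j)) = (U (g^(K q)))^j`), and `Ph 0 Q m = Cc (D-1) * ⋯ * Cc 0` (`Ph_succ`, which splits off the
RIGHTMOST factor `Cc c`), while `pr A (n+1) = A n * pr A n` splits off the leftmost one: prove `pr A (n+1) = pr (fun i => A (i+1)) n * A 0` and then `Ph c Q m = pr (fun i => V (c + i)) (D - c)` by downward induction.
`V i = if h : i < A.D then R.U (z_i^(K_i Q)) else 1`, lengths `L i m = if h : i < A.D then ll ⟨i,h⟩ Q m else m + 1`.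
`ph_max`: `dz_max`. `ph_conv`: `dz_conv` with `T i = W ((z_i ^ (K_i Q))⁻¹)` (or `1`), `ll c Q m ≥ 2^(m w_c) / (K_c Q) → ∞` (`lt_mul_ll`, `K_pos`, `0 < w_c`).
-/

set_option autoImplicit false

open MeasureTheory Filter Topology
open scoped ENNReal

namespace Pool.Agent.Lib.Npm

open Pool.Agent.Lib.Npw

variable {G : Type} [Group G] {X : Type} [MeasurableSpace X] {μ : Measure X}

/-- `U g f = f ∘ g⁻¹` -/
def IsKoop (R : Rep G (Lp ℂ 2 μ)) (W : G →* Equiv.Perm X) : Prop :=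
  ∀ (g : G) (f : Lp ℂ 2 μ), R.U g f =ᵐ[μ] f ∘ W g⁻¹

namespace KoopAux

theorem pr_shift (A : ℕ → Lp ℂ 2 μ →L[ℂ] Lp ℂ 2 μ) (n : ℕ) :
    pr A (n + 1) = pr (fun i => A (i + 1)) n * A 0 := by
  induction n with
  | zero =>
      show A 0 * pr A 0 = pr (fun i => A (i + 1)) 0 * A 0
      show A 0 * 1 = 1 * A 0
      rw [mul_one, one_mul]
  | succ n ih =>
      show A (n + 1) * pr A (n + 1) = A (n + 1) * pr (fun i => A (i + 1)) n * A 0
      rw [ih, mul_assoc]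

/-- the operators -/
noncomputable def VV (A : Dat G) (R : Rep G (Lp ℂ 2 μ)) (Q i : ℕ) : Lp ℂ 2 μ →L[ℂ] Lp ℂ 2 μ :=
  if h : i < A.D then R.U (A.z ⟨i, h⟩ ^ (A.K ⟨i, h⟩ * Q)) else 1

/-- the transformations -/
noncomputable def TT (A : Dat G) (W : G →* Equiv.Perm X) (Q i : ℕ) : Equiv.Perm X :=
  if h : i < A.D then W (A.z ⟨i, h⟩ ^ (A.K ⟨i, h⟩ * Q))⁻¹ else 1

/-- the lengths -/
def LL (A : Dat G) (Q i m : ℕ) : ℕ :=
  if h : i < A.D then A.ll ⟨i, h⟩ Q m else m + 1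

theorem Cc_eq (A : Dat G) (R : Rep G (Lp ℂ 2 μ)) (Q m : ℕ) {i : ℕ} (h : i < A.D) :
    A.Cc R ⟨i, h⟩ Q m = cyc (VV A R Q i) (LL A Q i m) := by
  unfold VV LL cyc Dat.Cc avg
  rw [dif_pos h, dif_pos h]
  congr 1
  refine Finset.sum_congr rfl fun j _ => ?_
  show R.U (A.z ⟨i, h⟩ ^ (A.K ⟨i, h⟩ * Q * j)) = R.U (A.z ⟨i, h⟩ ^ (A.K ⟨i, h⟩ * Q)) ^ j
  rw [← map_pow, ← pow_mul]

theorem Ph_eq (A : Dat G) (R : Rep G (Lp ℂ 2 μ)) (Q m : ℕ) (j : ℕ) :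
    ∀ c : ℕ, c + j = A.D →
      A.Ph R c Q m = pr (fun i => cyc (VV A R Q (c + i)) (LL A Q (c + i) m)) j := by
  induction j with
  | zero =>
      intro c hc
      rw [A.Ph_top R (by omega)]
      rfl
  | succ j ih =>
      intro c hc
      rw [A.Ph_succ R (by omega : c < A.D), ih (c + 1) (by omega), Cc_eq, pr_shift]
      congr 2
      funext i
      rw [show c + 1 + i = c + (i + 1) by omega]

theorem isComp_VV {W : G →* Equiv.Perm X} {R : Rep G (Lp ℂ 2 μ)}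
    (hR : IsKoop R W) (A : Dat G) (Q i : ℕ) : IsComp μ (VV A R Q i) (TT A W Q i) := by
  intro f
  unfold VV TT
  split_ifs with h
  · exact hR _ f
  · exact Filter.EventuallyEq.rfl

theorem TT_ok {W : G →* Equiv.Perm X}
    (hW : ∀ g, Measurable (W g) ∧ MeasurePreserving (W g) μ μ) (A : Dat G) (Q i : ℕ) :
    Measurable (TT A W Q i) ∧ Measurable (TT A W Q i).symm ∧
      MeasurePreserving (TT A W Q i) μ μ := by
  unfold TT
  split_ifs with h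
  · refine ⟨(hW _).1, ?_, (hW _).2⟩
    have e : (W (A.z ⟨i, h⟩ ^ (A.K ⟨i, h⟩ * Q))⁻¹).symm = W (A.z ⟨i, h⟩ ^ (A.K ⟨i, h⟩ * Q)) := by
      rw [map_inv]
      rfl
    rw [e]
    exact (hW _).1
  · exact ⟨measurable_id, measurable_id, MeasurePreserving.id μ⟩

theorem LL_pos (A : Dat G) (Q i m : ℕ) : 1 ≤ LL A Q i m := by
  unfold LL
  split_ifs with h
  · exact A.ll_pos _ Q m
  · omega

theorem LL_tendsto (A : Dat G) {Q : ℕ} (hQ : 0 < Q) (i : ℕ) :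
    Tendsto (LL A Q i) atTop atTop := by
  rw [tendsto_atTop]
  intro b
  by_cases h : i < A.D
  · filter_upwards [eventually_ge_atTop (A.K ⟨i, h⟩ * Q * b)] with m hm
    unfold LL
    rw [dif_pos h]
    have h1 := A.lt_mul_ll (c := ⟨i, h⟩) hQ m
    have h2 : A.K ⟨i, h⟩ * Q * b < A.K ⟨i, h⟩ * Q * A.ll ⟨i, h⟩ Q m := by
      calc A.K ⟨i, h⟩ * Q * b ≤ m := hm
        _ ≤ m * A.w ⟨i, h⟩ := Nat.le_mul_of_pos_right _ (Nat.succ_pos _)
        _ < 2 ^ (m * A.w ⟨i, h⟩) := Nat.lt_two_pow_self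
        _ < _ := h1
    exact (Nat.lt_of_mul_lt_mul_left h2).le
  · filter_upwards [eventually_ge_atTop b] with m hm
    unfold LL
    rw [dif_neg h]
    omega

end KoopAux

open KoopAux

theorem exists_rep (W : G →* Equiv.Perm X)
    (hW : ∀ g, Measurable (W g) ∧ MeasurePreserving (W g) μ μ) :
    ∃ R : Rep G (Lp ℂ 2 μ), IsKoop R W := by
  let U0 : G → (Lp ℂ 2 μ →L[ℂ] Lp ℂ 2 μ) := fun g =>
    (Lp.compMeasurePreservingₗᵢ ℂ (W g⁻¹) (hW g⁻¹).2).toContinuousLinearMap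
  have hU : ∀ (g : G) (f : Lp ℂ 2 μ), U0 g f =ᵐ[μ] f ∘ W g⁻¹ := fun g f =>
    Lp.coeFn_compMeasurePreserving f (hW g⁻¹).2
  have h1 : U0 1 = 1 := by
    refine ContinuousLinearMap.ext fun f => Lp.ext ?_
    refine (hU 1 f).trans ?_
    rw [inv_one, map_one]
    exact Filter.EventuallyEq.rfl
  have hm : ∀ g h, U0 (g * h) = U0 g * U0 h := by
    intro g h
    refine ContinuousLinearMap.ext fun f => Lp.ext ?_
    refine (hU (g * h) f).trans ?_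
    have h2 := hU g (U0 h f)
    have h3 : (U0 h f) ∘ W g⁻¹ =ᵐ[μ] (f ∘ W h⁻¹) ∘ W g⁻¹ :=
      (hW g⁻¹).2.quasiMeasurePreserving.ae_eq_comp (hU h f)
    have h4 : f ∘ W (g * h)⁻¹ = (f ∘ W h⁻¹) ∘ W g⁻¹ := by
      rw [mul_inv_rev, map_mul]
      rfl
    rw [h4]
    exact (h2.trans h3).symm
  let U : G →* (Lp ℂ 2 μ →L[ℂ] Lp ℂ 2 μ) := { toFun := U0, map_one' := h1, map_mul' := hm }
  have hs : ∀ g, star (U g) * U g = 1 := by
    intro g
    have h2 : ∀ x, ‖U g x‖ = ‖x‖ := fun x =>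
      (Lp.compMeasurePreservingₗᵢ ℂ (W g⁻¹) (hW g⁻¹).2).norm_map x
    exact (ContinuousLinearMap.norm_map_iff_adjoint_comp_self (U g)).1 h2
  refine ⟨⟨U, fun g => ?_⟩, hU⟩
  have e : U g * U g⁻¹ = 1 := by rw [← map_mul, mul_inv_cancel, map_one]
  calc star (U g) = star (U g) * (U g * U g⁻¹) := by rw [e, mul_one]
    _ = U g⁻¹ := by rw [← mul_assoc, hs, one_mul]

theorem ph_max [IsProbabilityMeasure μ] {W : G →* Equiv.Perm X}
    (hW : ∀ g, Measurable (W g) ∧ MeasurePreserving (W g) μ μ) {R : Rep G (Lp ℂ 2 μ)}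
    (hR : IsKoop R W) (A : Dat G) (Q : ℕ) (f : Lp ℂ 2 μ) :
    mx Set.univ (fun m => A.Ph R 0 Q m f) ≤ 2 ^ A.D * ‖f‖ₑ := by
  have h := dz_max (fun i => isComp_VV hR A Q i) (fun i => (TT_ok hW A Q i).2.2)
    (fun i m => LL_pos A Q i m) A.D f
  refine le_trans (le_of_eq (mx_congr fun m _ => ?_)) h
  rw [Ph_eq A R Q m A.D 0 (by omega)]
  simp only [Nat.zero_add]

theorem ph_conv [IsProbabilityMeasure μ] {W : G →* Equiv.Perm X}
    (hW : ∀ g, Measurable (W g) ∧ MeasurePreserving (W g) μ μ) {R : Rep G (Lp ℂ 2 μ)}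
    (hR : IsKoop R W) (A : Dat G) {Q : ℕ} (hQ : 0 < Q) (f : Lp ℂ 2 μ) :
    ∀ᵐ x ∂μ, ∃ a : ℂ, Tendsto (fun m => A.Ph R 0 Q m f x) atTop (𝓝 a) := by
  have h := dz_conv (fun i => isComp_VV hR A Q i) (fun i => TT_ok hW A Q i)
    (fun i => LL_tendsto A hQ i) A.D f
  filter_upwards [h] with x hx
  obtain ⟨a, ha⟩ := hx
  refine ⟨a, ha.congr fun m => ?_⟩
  rw [Ph_eq A R Q m A.D 0 (by omega)]
  simp only [Nat.zero_add]

end Pool.Agent.Lib.Npm
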