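import Pool.Agent.Lib.Npm.Mx

/-!
# The Rademacher-Menshov inequality in `L²(μ)`
-/

set_option autoImplicit false

open MeasureTheory Filter Topology
open scoped ENNReal

namespace Pool.Agent.Lib.Npm

variable {X : Type*} [MeasurableSpace X] {μ : Measure X}

theorem mx_zero (s : Set ℕ) : mx s (fun _ => (0 : Lp ℂ 2 μ)) = 0 := by
  have h := mx_const_le (μ := μ) s (0 : Lp ℂ 2 μ)
  simpa using h

theorem mx_sum_le {ι : Type*} (s : Set ℕ) (t : Finset ι) (F : ι → ℕ → Lp ℂ 2 μ) :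
    mx s (fun n => ∑ i ∈ t, F i n) ≤ ∑ i ∈ t, mx s (F i) := by
  classical
  induction t using Finset.induction_on with
  | empty => simp [mx_zero]
  | insert a t ha ih =>
      simp only [Finset.sum_insert ha]
      exact (mx_add_le s _ _).trans (add_le_add le_rfl ih)

/-- every `F n` (`n ∈ s`) is `0` or one of the `B k` (`k ∈ t`) -/
theorem mx_le_mx {s t : Set ℕ} {F B : ℕ → Lp ℂ 2 μ}
    (h : ∀ n ∈ s, F n = 0 ∨ ∃ k ∈ t, F n = B k) : mx s F ≤ mx t B := by
  refine mx_le_of_forall ?_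
  filter_upwards [Lp.coeFn_zero ℂ 2 μ] with x hx
  refine iSup₂_le fun n hn => ?_
  rcases h n hn with h0 | ⟨k, hk, h0⟩
  · rw [h0, hx]
    simp
  · rw [h0]
    exact le_iSup₂ (f := fun k (_ : k ∈ t) => ‖B k x‖ₑ) k hk

theorem rm (F : ℕ → Lp ℂ 2 μ) (n0 J : ℕ) :
    mx {n | n0 ≤ n ∧ n ≤ n0 + 2 ^ J} (fun n => F n - F n0) ≤
      ∑ j ∈ Finset.range (J + 1), ENNReal.ofReal
        √(∑ k ∈ Finset.range (2 ^ (J - j)), ‖F (n0 + (k + 1) * 2 ^ j) - F (n0 + k * 2 ^ j)‖ ^ 2) := by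
  set G : ℕ → ℕ → Lp ℂ 2 μ := fun j n =>
    F (n0 + (n - n0) / 2 ^ j * 2 ^ j) - F (n0 + (n - n0) / 2 ^ (j + 1) * 2 ^ (j + 1)) with hG
  have h1 : mx {n | n0 ≤ n ∧ n ≤ n0 + 2 ^ J} (fun n => F n - F n0) =
      mx {n | n0 ≤ n ∧ n ≤ n0 + 2 ^ J} (fun n => ∑ j ∈ Finset.range (J + 1), G j n) := by
    refine mx_congr fun n hn => ?_
    simp only [hG]
    rw [Finset.sum_range_sub' (fun j => F (n0 + (n - n0) / 2 ^ j * 2 ^ j)) (J + 1)]
    have h2 : (n - n0) / 2 ^ (J + 1) = 0 := by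
      refine Nat.div_eq_of_lt ?_
      have := hn.2
      rw [pow_succ]
      have h3 : 0 < 2 ^ J := by positivity
      omega
    rw [h2]
    have h4 : n0 + (n - n0) / 2 ^ 0 * 2 ^ 0 = n := by
      have := hn.1
      simp only [pow_zero, Nat.div_one, mul_one]
      omega
    rw [h4]
    simp
  rw [h1]
  refine (mx_sum_le _ _ _).trans (Finset.sum_le_sum fun j hj => ?_)
  have hj' : j ≤ J := by
    have := Finset.mem_range.1 hj
    omega
  have h5 : mx {n | n0 ≤ n ∧ n ≤ n0 + 2 ^ J} (G j) ≤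
      mx (Finset.range (2 ^ (J - j)) : Set ℕ)
        (fun k => F (n0 + (k + 1) * 2 ^ j) - F (n0 + k * 2 ^ j)) := by
    refine mx_le_mx fun n hn => ?_
    simp only [hG]
    set m := n - n0 with hm
    have h6 : m / 2 ^ (j + 1) = m / 2 ^ j / 2 := by
      rw [pow_succ, Nat.div_div_eq_div_mul]
    have h7 : 2 ^ (j + 1) = 2 ^ j * 2 := pow_succ _ _
    rcases Nat.mod_two_eq_zero_or_one (m / 2 ^ j) with h8 | h8
    · left
      have h9 : m / 2 ^ j * 2 ^ j = m / 2 ^ (j + 1) * 2 ^ (j + 1) := by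
        rw [h6, h7]
        have h10 : m / 2 ^ j = m / 2 ^ j / 2 * 2 := by omega
        calc m / 2 ^ j * 2 ^ j = (m / 2 ^ j / 2 * 2) * 2 ^ j := by rw [← h10]
          _ = _ := by ring
      rw [h9, sub_self]
    · right
      refine ⟨m / 2 ^ (j + 1) * 2, ?_, ?_⟩
      · simp only [Finset.coe_range, Set.mem_Iio]
        have h10 : m / 2 ^ j = m / 2 ^ j / 2 * 2 + 1 := by omega
        have h11 : m / 2 ^ j ≤ 2 ^ (J - j) := by
          have h12 : m ≤ 2 ^ J := by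
            have h13 : n ≤ n0 + 2 ^ J := hn.2
            rw [hm]
            exact Nat.sub_le_iff_le_add'.2 h13
          calc m / 2 ^ j ≤ 2 ^ J / 2 ^ j := Nat.div_le_div_right h12
            _ = 2 ^ (J - j) := Nat.pow_div hj' (by norm_num)
        rw [h6]
        omega
      · have h10 : m / 2 ^ j = m / 2 ^ j / 2 * 2 + 1 := by omega
        have h11 : m / 2 ^ j * 2 ^ j = (m / 2 ^ (j + 1) * 2 + 1) * 2 ^ j := by
          rw [h6, ← h10]
        have h12 : m / 2 ^ (j + 1) * 2 ^ (j + 1) = m / 2 ^ (j + 1) * 2 * 2 ^ j := by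
          rw [h7]
          ring
        rw [h11, h12]
  refine h5.trans (mx_le_sum (Real.sqrt_nonneg _) ?_)
  rw [Real.sq_sqrt]
  exact Finset.sum_nonneg fun k _ => by positivity

end Pool.Agent.Lib.Npm
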