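import Pool.Agent.Lib.Npm.SchurGeo
import Pool.Agent.Lib.Npm.RM

/-!
# Square functions of families with geometric decay of the correlations
-/

set_option autoImplicit false

open ContinuousLinearMap MeasureTheory
open scoped InnerProductSpace ENNReal

namespace Pool.Agent.Lib.Npm

theorem sum_half_div_le {E : ℕ} (hE : 0 < E) (t : Finset ℕ) :
    ∑ n ∈ t, (1 / 2 : ℝ) ^ (n / E) ≤ 2 * E := by
  classical
  set K := t.sup (fun n => n / E) + 1 with hK
  have hmap : ∀ n ∈ t, (n % E, n / E) ∈ Finset.range E ×ˢ Finset.range K := by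
    intro n hn
    rw [Finset.mem_product]
    refine ⟨Finset.mem_range.2 (Nat.mod_lt _ hE), Finset.mem_range.2 ?_⟩
    have h0 : n / E ≤ t.sup (fun n => n / E) := Finset.le_sup (f := fun n => n / E) hn
    omega
  have hinj : Set.InjOn (fun n : ℕ => (n % E, n / E)) t := by
    intro a _ b _ hab
    simp only [Prod.mk.injEq] at hab
    rw [← Nat.div_add_mod a E, ← Nat.div_add_mod b E, hab.1, hab.2]
  calc ∑ n ∈ t, (1 / 2 : ℝ) ^ (n / E)
      = ∑ p ∈ t.image (fun n : ℕ => (n % E, n / E)), (1 / 2 : ℝ) ^ p.2 := by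
        rw [Finset.sum_image hinj]
    _ ≤ ∑ p ∈ Finset.range E ×ˢ Finset.range K, (1 / 2 : ℝ) ^ p.2 := by
        refine Finset.sum_le_sum_of_subset_of_nonneg ?_ fun p _ _ => by positivity
        intro p hp
        obtain ⟨n, hn, rfl⟩ := Finset.mem_image.1 hp
        exact hmap n hn
    _ = E * ∑ k ∈ Finset.range K, (1 / 2 : ℝ) ^ k := by
        rw [Finset.sum_product]
        simp
    _ ≤ E * 2 := by
        gcongr
        have h := (summable_geometric_of_lt_one (by norm_num) (by norm_num : (1 / 2 : ℝ) < 1)).sum_le_tsum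
          (Finset.range K) fun k _ => by positivity
        rwa [tsum_geometric_of_lt_one (by norm_num) (by norm_num),
          show (1 - 1 / 2 : ℝ)⁻¹ = 2 by norm_num] at h
    _ = 2 * E := by ring

section schur

variable {H : Type*} [NormedAddCommGroup H] [InnerProductSpace ℂ H] [CompleteSpace H]

theorem schur_nat {s : Finset ℕ} {T : ℕ → H →L[ℂ] H} {α κ : ℝ}
    (hα : 0 ≤ α) (hκ : 0 ≤ κ) {g E : ℕ} (hg : 1 ≤ g) (hE : 0 < E)
    (h1 : ∀ i ∈ s, ‖T i‖ ≤ α)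
    (h2 : ∀ i ∈ s, ∀ j ∈ s, i + g ≤ j → ‖T j * adjoint (T i)‖ ≤ κ * (1 / 2) ^ ((j - i - g) / E))
    (f : H) :
    ∑ i ∈ s, ‖T i f‖ ^ 2 ≤ (2 * g * α ^ 2 + 4 * E * κ) * ‖f‖ ^ 2 := by
  refine schur s T (by positivity) (fun i hi => ?_) f
  classical
  have hp : ∀ n, 0 ≤ κ * (1 / 2 : ℝ) ^ n := fun n => by positivity
  have h3 : ∀ j ∈ s, ‖T i * adjoint (T j)‖ ≤
      (if j ∈ Finset.Ico (i + 1 - g) (i + g) then α ^ 2 else 0) +
      ((if i + g ≤ j then κ * (1 / 2) ^ ((j - i - g) / E) else 0) +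
        (if j + g ≤ i then κ * (1 / 2) ^ ((i - j - g) / E) else 0)) := by
    intro j hj
    have hp1 : 0 ≤ (if i + g ≤ j then κ * (1 / 2 : ℝ) ^ ((j - i - g) / E) else 0) := by
      split_ifs
      · exact hp _
      · exact le_rfl
    have hp2 : 0 ≤ (if j + g ≤ i then κ * (1 / 2 : ℝ) ^ ((i - j - g) / E) else 0) := by
      split_ifs
      · exact hp _
      · exact le_rfl
    by_cases hm : j ∈ Finset.Ico (i + 1 - g) (i + g)
    · rw [if_pos hm]
      have := norm_mul_adj_le (T i) (T j)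
      have h4 : ‖T i‖ * ‖T j‖ ≤ α ^ 2 := by
        rw [sq]
        exact mul_le_mul (h1 i hi) (h1 j hj) (norm_nonneg _) hα
      linarith
    · rw [if_neg hm, zero_add]
      rw [Finset.mem_Ico, not_and_or, not_le, not_lt] at hm
      rcases hm with hm | hm
      · have := h2 j hj i hi (by omega)
        rw [if_neg (by omega : ¬ i + g ≤ j), if_pos (by omega : j + g ≤ i), zero_add]
        exact this
      · have := h2 i hi j hj (by omega)
        rw [if_pos (by omega : i + g ≤ j), if_neg (by omega : ¬ j + g ≤ i), add_zero,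
          norm_mul_adj_comm]
        exact this
  refine (Finset.sum_le_sum h3).trans ?_
  rw [Finset.sum_add_distrib, Finset.sum_add_distrib, Finset.sum_ite_mem,
    Finset.sum_const, nsmul_eq_mul]
  have hsum : ∀ (t : Finset ℕ) (F : ℕ → ℕ), Set.InjOn F t →
      ∑ j ∈ t, κ * (1 / 2 : ℝ) ^ (F j / E) ≤ 2 * E * κ := by
    intro t F hF
    rw [← Finset.mul_sum]
    have h6 : ∑ j ∈ t, (1 / 2 : ℝ) ^ (F j / E) = ∑ n ∈ t.image F, (1 / 2 : ℝ) ^ (n / E) := by
      rw [Finset.sum_image hF]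
    rw [h6]
    have := mul_le_mul_of_nonneg_left (sum_half_div_le hE (t.image F)) hκ
    linarith
  have e : 2 * (g : ℝ) * α ^ 2 + 4 * E * κ = 2 * g * α ^ 2 + (2 * E * κ + 2 * E * κ) := by ring
  rw [e]
  refine add_le_add ?_ (add_le_add ?_ ?_)
  · refine mul_le_mul_of_nonneg_right ?_ (sq_nonneg α)
    have h5 : (s ∩ Finset.Ico (i + 1 - g) (i + g)).card ≤ 2 * g := by
      refine (Finset.card_le_card Finset.inter_subset_right).trans ?_
      rw [Nat.card_Ico]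
      omega
    exact_mod_cast h5
  · rw [← Finset.sum_filter]
    refine hsum _ (fun j => j - i - g) ?_
    intro a ha b hb hab
    simp only [Finset.coe_filter, Set.mem_ofPred_eq] at ha hb hab
    omega
  · rw [← Finset.sum_filter]
    refine hsum _ (fun j => i - j - g) ?_
    intro a ha b hb hab
    simp only [Finset.coe_filter, Set.mem_ofPred_eq] at ha hb hab
    omega

end schur

variable {X : Type*} [MeasurableSpace X] {μ : Measure X}

theorem mx_schur_nat {S : Set ℕ} {T : ℕ → Lp ℂ 2 μ →L[ℂ] Lp ℂ 2 μ} {α κ B : ℝ}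
    (hα : 0 ≤ α) (hκ : 0 ≤ κ) {g E : ℕ} (hg : 1 ≤ g) (hE : 0 < E)
    (h1 : ∀ i ∈ S, ‖T i‖ ≤ α)
    (h2 : ∀ i ∈ S, ∀ j ∈ S, i + g ≤ j → ‖T j * adjoint (T i)‖ ≤ κ * (1 / 2) ^ ((j - i - g) / E))
    (hB : 0 ≤ B) (hB2 : 2 * g * α ^ 2 + 4 * E * κ ≤ B ^ 2) (f : Lp ℂ 2 μ) :
    mx S (fun n => T n f) ≤ ENNReal.ofReal (B * ‖f‖) := by
  refine mx_le_of_finite (by positivity) fun t ht => ?_
  refine (schur_nat hα hκ hg hE (fun i hi => h1 i (ht hi))
    (fun i hi j hj hij => h2 i (ht hi) j (ht hj) hij) f).trans ?_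
  rw [mul_pow]
  exact mul_le_mul_of_nonneg_right hB2 (by positivity)

theorem mx_geo {S : Set ℕ} {F : ℕ → Lp ℂ 2 μ} {n0 E : ℕ} (hE : 0 < E) {κ : ℝ} (hκ : 0 ≤ κ)
    (hS : ∀ n ∈ S, n0 ≤ n) (h : ∀ n ∈ S, ‖F n‖ ≤ κ * (1 / 2) ^ ((n - n0) / E)) :
    mx S F ≤ ENNReal.ofReal (2 * E * κ) := by
  classical
  refine mx_le_of_finite (by positivity) fun t ht => ?_
  have hinj : Set.InjOn (fun n => n - n0) (t : Set ℕ) := by
    intro a ha b hb hab
    have h1 := hS a (ht ha)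
    have h2 := hS b (ht hb)
    simp only at hab
    omega
  have h3 : ∀ n ∈ t, ‖F n‖ ^ 2 ≤ κ ^ 2 * (1 / 2 : ℝ) ^ ((n - n0) / E) := by
    intro n hn
    have h4 := h n (ht hn)
    have h5 : (1 / 2 : ℝ) ^ ((n - n0) / E) ≤ 1 := pow_le_one₀ (by norm_num) (by norm_num)
    have h6 : (0 : ℝ) ≤ (1 / 2 : ℝ) ^ ((n - n0) / E) := by positivity
    calc ‖F n‖ ^ 2 ≤ (κ * (1 / 2) ^ ((n - n0) / E)) ^ 2 := by gcongr
      _ = κ ^ 2 * ((1 / 2) ^ ((n - n0) / E) * (1 / 2) ^ ((n - n0) / E)) := by ring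
      _ ≤ κ ^ 2 * ((1 / 2) ^ ((n - n0) / E) * 1) := by gcongr
      _ = _ := by ring
  refine (Finset.sum_le_sum h3).trans ?_
  rw [← Finset.mul_sum]
  have h7 : ∑ n ∈ t, (1 / 2 : ℝ) ^ ((n - n0) / E) =
      ∑ n ∈ t.image (fun n => n - n0), (1 / 2 : ℝ) ^ (n / E) := by
    rw [Finset.sum_image hinj]
  rw [h7]
  have h8 := mul_le_mul_of_nonneg_left (sum_half_div_le hE (t.image fun n => n - n0))
    (sq_nonneg κ)
  have hE1 : (1 : ℝ) ≤ E := by exact_mod_cast hE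
  have hE2 : (0 : ℝ) ≤ κ ^ 2 := sq_nonneg κ
  refine h8.trans ?_
  have e : (2 * (E : ℝ) * κ) ^ 2 = κ ^ 2 * (4 * (E * E)) := by ring
  rw [e]
  refine mul_le_mul_of_nonneg_left ?_ hE2
  nlinarith

theorem mx_union_le (S S' : Set ℕ) (F : ℕ → Lp ℂ 2 μ) : mx (S ∪ S') F ≤ mx S F + mx S' F := by
  have h1 : mx (S ∪ S') F ≤
      (∫⁻ x, ((fun x => ⨆ n ∈ S, ‖F n x‖ₑ) + fun x => ⨆ n ∈ S', ‖F n x‖ₑ) x ^ (2 : ℝ) ∂μ) ^
        (1 / 2 : ℝ) := by
    unfold mx
    refine ENNReal.rpow_le_rpow (lintegral_mono fun x => ?_) (by norm_num)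
    refine ENNReal.rpow_le_rpow (iSup₂_le fun n hn => ?_) (by norm_num)
    rcases hn with hn | hn
    · exact (le_iSup₂ (f := fun n (_ : n ∈ S) => ‖F n x‖ₑ) n hn).trans
        (le_add_of_nonneg_right (by positivity))
    · exact (le_iSup₂ (f := fun n (_ : n ∈ S') => ‖F n x‖ₑ) n hn).trans
        (le_add_of_nonneg_left (by positivity))
  exact h1.trans (ENNReal.lintegral_Lp_add_le (aemeasurable_iSup_enorm S F)
    (aemeasurable_iSup_enorm S' F) (by norm_num))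

end Pool.Agent.Lib.Npm
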