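import Pool.Agent.Lib.Npm.NearX
import Pool.Agent.Lib.Npm.FarT
import Pool.Agent.Lib.Npm.ExQ
import Pool.Agent.Lib.Npm.Koop
import Pool.Agent.Lib.Npm.SchurNat

/-!
# NPW (Part VI): convergence and maximal inequality for a fixed `u`

`u`, `a`, `b` are fixed; constants may depend on them. `s = Icc 1 (2^(a u)) ⊆ Icc 1 (2^v)`, `v = a (u+1)`, `Q`, `N1` from `exists_Q`, `l = b u`, `G = GG s Q`, `c n = cut A Q (M n)`. For `n ≥ n0`:
`AA (M n) Pi s (n - l) = (AA (M n) - AA (c n)) Pi s (n-l) + AA (c n) (Pi s (n-l) - Ph(n-l) G) + AA (c n) XX(n-l)(n+1) G + YY(n+1)(c n) G + Ph 0 Q (n+1) (AA (P0 Q) G)`.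
First two summands: norm `≤ C (1/2)^((n - n0)/E)` (`AA_cut`, `norm_Pi_le`, `g_pi`): `D n`. `T n = AA (c n) XX(n-l)(n+1) G` and `T' n = YY(n+1)(c n) G`: norms `≤ 2 · 4^v`, and `far_T`, `far_Y`
(`n := i+1`, `m := i+1`, `m' := j+1`) give correlations `≤ κ (1/2)^((j-i-g)/E)` for a fixed gap `g`. So by `schur_nat` the sums `∑ ‖T n f‖²`, `∑ ‖T' n f‖²`, `∑ ‖D n f‖²` over all finite sets of `n ≥ n0` are bounded by `C² ‖f‖²`; hence
(i) `mx` of each is `≤ C ‖f‖` (`mx_schur_nat`, `mx_geo`), (ii) a.e. `T n f x → 0` etc. (`ae_tendsto_zero`). The last summand: `ph_max`, `ph_conv` with `g = AA (P0 Q) (G f)` and the shift `n ↦ n + 1`.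
For `n < n0` (second theorem): `mx` over a finite set is at most the sum of the norms (`mx_le_tsum` or `mx_union_le` and induction), each `≤ 4^v ‖f‖`. Take `M`-independent constants throughout.
`ae_tendsto_zero`: `∫ ∑' n |F n|² = ∑' ‖F n‖² < ∞` (`lintegral_tsum`, `enorm_sq_eq`), so a.e. `∑' n |F n x|² < ∞` and `F n x → 0` (`ENNReal.tendsto_atTop_zero_of_tsum_ne_top`).
-/

set_option autoImplicit false

open MeasureTheory Finset Filter Topology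
open scoped ENNReal

namespace Pool.Agent.Lib.Npm

open Pool.Agent.Lib.Npw

namespace ConvUAux

section setup

variable {G H : Type} [Group G] [NormedAddCommGroup H] [InnerProductSpace ℂ H] [CompleteSpace H]

lemma half_le {x y : ℕ} (h : y ≤ x) : (1 / 2 : ℝ) ^ x ≤ (1 / 2) ^ y :=
  pow_le_pow_of_le_one (by norm_num) (by norm_num) h

theorem setup {A : Dat G} (hA : A.Ok) (R : Rep G H) (a b u : ℕ) :
    ∃ (Q n0 g E : ℕ) (Γ : H →L[ℂ] H) (α κ : ℝ), 0 < Q ∧ 1 ≤ g ∧ 0 < E ∧ 0 ≤ α ∧ 0 ≤ κ ∧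
      ∀ M : ℕ → ℕ, (∀ n, 2 ^ n ≤ M n ∧ M n < 2 ^ (n + 1)) →
      ∃ D T T' : ℕ → (H →L[ℂ] H),
        (∀ n, A.AA R (M n) * A.Pi R 0 (Icc 1 (2 ^ (a * u))) (n - b * u) =
          D n + T n + T' n + A.Ph R 0 Q (n + 1) * Γ) ∧
        (∀ n, n0 ≤ n → ‖D n‖ ≤ κ * (1 / 2) ^ ((n - n0) / E)) ∧
        (∀ n, ‖T n‖ ≤ α) ∧ (∀ n, ‖T' n‖ ≤ α) ∧
        (∀ i j, n0 ≤ i → i + g ≤ j →
          ‖T j * star (T i)‖ ≤ κ * (1 / 2) ^ ((j - i - g) / E)) ∧
        (∀ i j, n0 ≤ i → i + g ≤ j →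
          ‖T' j * star (T' i)‖ ≤ κ * (1 / 2) ^ ((j - i - g) / E)) := by
  obtain ⟨E1, hE1⟩ := exists_Q A a 0
  obtain ⟨Q, hQ, -⟩ := hE1 E1 le_rfl u
  obtain ⟨N1, hN1⟩ : ∃ N1, N1 = 2 ^ (E1 * (u + 1)) := ⟨_, rfl⟩
  rw [← hN1] at hQ
  obtain ⟨C0, h0⟩ := AA_cut A R
  obtain ⟨C1, e1, h1⟩ := g_pi hA R
  obtain ⟨C2, e2, h2⟩ := far_T hA R
  obtain ⟨C3, e3, h3⟩ := far_Y hA R
  obtain ⟨v, hv⟩ : ∃ v, v = a * (u + 1) := ⟨_, rfl⟩
  rw [← hv] at hQ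
  obtain ⟨s, hs⟩ : ∃ s : Finset ℕ, s = Icc 1 (2 ^ (a * u)) := ⟨_, rfl⟩
  have hsv : s ⊆ Icc 1 (2 ^ v) := by
    rw [hs, hv]
    exact Finset.Icc_subset_Icc le_rfl (Nat.pow_le_pow_right (by norm_num)
      (Nat.mul_le_mul_left _ (Nat.le_succ u)))
  obtain ⟨E, hE⟩ : ∃ E, E = e1 + e2 + e3 + 1 := ⟨_, rfl⟩
  obtain ⟨l, hl⟩ : ∃ l, l = b * u := ⟨_, rfl⟩
  have hEp : 0 < E := by omega
  refine ⟨Q, N1 + l + E, l + 1 + E, E, A.AA R (A.P0 * Q) * GG A R s Q, 2 * ‖GG A R s Q‖,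
    C0 * 4 ^ v + C1 * 4 ^ v + C2 * 16 ^ v + C3 * 16 ^ v, hQ.pos, by omega, hEp, by positivity,
    by positivity, ?_⟩
  intro M hM
  refine ⟨fun n => (A.AA R (M n) - A.AA R (cut A Q (M n))) * A.Pi R 0 s (n - l) +
      A.AA R (cut A Q (M n)) * (A.Pi R 0 s (n - l) - A.Ph R 0 Q (n - l) * GG A R s Q),
    fun n => A.AA R (cut A Q (M n)) * XX A R Q (n - l) (n + 1) * GG A R s Q,
    fun n => YY A R Q (n + 1) (cut A Q (M n)) * GG A R s Q, ?_, ?_, ?_, ?_, ?_, ?_⟩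
  · intro n
    rw [← hs, ← hl]
    show _ = (A.AA R (M n) - A.AA R (cut A Q (M n))) * A.Pi R 0 s (n - l) +
      A.AA R (cut A Q (M n)) * (A.Pi R 0 s (n - l) - A.Ph R 0 Q (n - l) * GG A R s Q) +
      A.AA R (cut A Q (M n)) * (A.Ph R 0 Q (n - l) - A.Ph R 0 Q (n + 1)) * GG A R s Q +
      (A.AA R (cut A Q (M n)) * A.Ph R 0 Q (n + 1) - A.Ph R 0 Q (n + 1) * A.AA R (A.P0 * Q)) *
        GG A R s Q + A.Ph R 0 Q (n + 1) * (A.AA R (A.P0 * Q) * GG A R s Q)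
    noncomm_ring
  · intro n hn
    obtain ⟨t, ht⟩ : ∃ t, t = (n - (N1 + l + E)) / E := ⟨_, rfl⟩
    rw [← ht]
    have hEt : E * t ≤ n - (N1 + l + E) := by rw [ht]; exact Nat.mul_div_le _ _
    have htn : t ≤ n - N1 := by
      have : t ≤ E * t := Nat.le_mul_of_pos_left t hEp
      omega
    have he1 : e1 * (t + 1) ≤ E * t + E := by
      calc e1 * (t + 1) ≤ E * (t + 1) := Nat.mul_le_mul_right _ (by omega)
        _ = E * t + E := by ring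
    have g0 := h0 v Q N1 n (M n) (n - N1) hQ (hM n).1 (by omega)
    have g1 := h1 v Q N1 (n - l) t s hQ hsv (by omega)
    have hp : (0 : ℝ) < (1 / 2) ^ t := by positivity
    have a1 : ‖(A.AA R (M n) - A.AA R (cut A Q (M n))) * A.Pi R 0 s (n - l)‖ ≤
        C0 * (1 / 2) ^ t * 4 ^ v := by
      refine (norm_mul_le _ _).trans (mul_le_mul ?_ (A.norm_Pi_le R 0 hsv _) (norm_nonneg _)
        (by positivity))
      rw [norm_sub_rev]
      exact g0.trans (mul_le_mul_of_nonneg_left (half_le htn) (Nat.cast_nonneg _))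
    have a2 : ‖A.AA R (cut A Q (M n)) *
        (A.Pi R 0 s (n - l) - A.Ph R 0 Q (n - l) * GG A R s Q)‖ ≤ 1 * (C1 * 4 ^ v * (1 / 2) ^ t) := by
      refine (norm_mul_le _ _).trans (mul_le_mul (A.norm_AA_le R _) ?_ (norm_nonneg _) zero_le_one)
      rw [norm_sub_rev]
      exact g1
    refine (norm_add_le _ _).trans ((add_le_add a1 a2).trans ?_)
    have a3 : (0 : ℝ) ≤ (C2 * 16 ^ v + C3 * 16 ^ v) * (1 / 2) ^ t := by positivity
    linarith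
  · intro n
    have a1 : ‖XX A R Q (n - l) (n + 1)‖ ≤ 2 := by
      have b1 := norm_sub_le (A.Ph R 0 Q (n - l)) (A.Ph R 0 Q (n + 1))
      have b2 := A.norm_Ph_le R 0 Q (n - l)
      have b3 := A.norm_Ph_le R 0 Q (n + 1)
      show ‖A.Ph R 0 Q (n - l) - A.Ph R 0 Q (n + 1)‖ ≤ 2
      linarith
    refine (norm_mul_le _ _).trans (mul_le_mul_of_nonneg_right ?_ (norm_nonneg _))
    refine (norm_mul_le _ _).trans ?_
    calc ‖A.AA R (cut A Q (M n))‖ * ‖XX A R Q (n - l) (n + 1)‖ ≤ 1 * 2 :=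
          mul_le_mul (A.norm_AA_le R _) a1 (norm_nonneg _) zero_le_one
      _ = 2 := by norm_num
  · intro n
    refine (norm_mul_le _ _).trans (mul_le_mul_of_nonneg_right ?_ (norm_nonneg _))
    have b1 := norm_sub_le (A.AA R (cut A Q (M n)) * A.Ph R 0 Q (n + 1))
      (A.Ph R 0 Q (n + 1) * A.AA R (A.P0 * Q))
    have b2 : ‖A.AA R (cut A Q (M n)) * A.Ph R 0 Q (n + 1)‖ ≤ 1 * 1 :=
      (norm_mul_le _ _).trans (mul_le_mul (A.norm_AA_le R _) (A.norm_Ph_le R 0 Q _)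
        (norm_nonneg _) zero_le_one)
    have b3 : ‖A.Ph R 0 Q (n + 1) * A.AA R (A.P0 * Q)‖ ≤ 1 * 1 :=
      (norm_mul_le _ _).trans (mul_le_mul (A.norm_Ph_le R 0 Q _) (A.norm_AA_le R _)
        (norm_nonneg _) zero_le_one)
    show ‖A.AA R (cut A Q (M n)) * A.Ph R 0 Q (n + 1) -
      A.Ph R 0 Q (n + 1) * A.AA R (A.P0 * Q)‖ ≤ 2
    linarith
  · intro i j hi hij
    obtain ⟨t, ht⟩ : ∃ t, t = (j - i - (l + 1 + E)) / E := ⟨_, rfl⟩
    rw [← ht]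
    have hEt : E * t ≤ j - i - (l + 1 + E) := by rw [ht]; exact Nat.mul_div_le _ _
    have he : e2 * (t + 1) ≤ E * t + E := by
      calc e2 * (t + 1) ≤ E * (t + 1) := Nat.mul_le_mul_right _ (by omega)
        _ = E * t + E := by ring
    refine (h2 v Q N1 (i - l) (i + 1) (j - l) (j + 1) (cut A Q (M i)) (cut A Q (M j)) t s hQ hsv
      (by omega) (by omega) (by omega) (by omega) (by omega) (by omega)).trans ?_
    apply mul_le_mul_of_nonneg_right _ (by positivity)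
    have a3 : (0 : ℝ) ≤ C0 * 4 ^ v + C1 * 4 ^ v + C3 * 16 ^ v := by positivity
    linarith
  · intro i j hi hij
    obtain ⟨t, ht⟩ : ∃ t, t = (j - i - (l + 1 + E)) / E := ⟨_, rfl⟩
    rw [← ht]
    have hEt : E * t ≤ j - i - (l + 1 + E) := by rw [ht]; exact Nat.mul_div_le _ _
    have he : e3 * (t + 1) ≤ E * t + E := by
      calc e3 * (t + 1) ≤ E * (t + 1) := Nat.mul_le_mul_right _ (by omega)
        _ = E * t + E := by ring
    have hPM : A.P0 * Q ≤ M i :=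
      (hQ.le.trans (Nat.pow_le_pow_right (by norm_num) (by omega))).trans (hM i).1
    refine (h3 v Q N1 (i + 1) (i + 1) (j + 1) (cut A Q (M i)) (cut A Q (M j)) t s hQ hsv
      (cut_pos hQ.pos hPM) (dvd_cut A Q (M i)) ((cut_le A Q (M i)).trans (hM i).2.le)
      (by omega) le_rfl (by omega)).trans ?_
    apply mul_le_mul_of_nonneg_right _ (by positivity)
    have a3 : (0 : ℝ) ≤ C0 * 4 ^ v + C1 * 4 ^ v + C2 * 16 ^ v := by positivity
    linarith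

end setup

theorem geo_sum {V : Type*} [SeminormedAddCommGroup V] {F : ℕ → V} {n0 E : ℕ} (hE : 0 < E)
    {κ : ℝ} (hκ : 0 ≤ κ) (h : ∀ n, n0 ≤ n → ‖F n‖ ≤ κ * (1 / 2) ^ ((n - n0) / E))
    (t : Finset ℕ) (ht : ∀ n ∈ t, n0 ≤ n) :
    ∑ n ∈ t, ‖F n‖ ^ 2 ≤ κ ^ 2 * (2 * E) := by
  classical
  have hinj : Set.InjOn (fun n => n - n0) (t : Set ℕ) := by
    intro a ha b hb hab
    have h1 := ht a ha
    have h2 := ht b hb
    simp only at hab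
    omega
  have h3 : ∀ n ∈ t, ‖F n‖ ^ 2 ≤ κ ^ 2 * (1 / 2 : ℝ) ^ ((n - n0) / E) := by
    intro n hn
    have h4 := h n (ht n hn)
    have h5 : (1 / 2 : ℝ) ^ ((n - n0) / E) ≤ 1 := pow_le_one₀ (by norm_num) (by norm_num)
    have h6 : (0 : ℝ) ≤ (1 / 2 : ℝ) ^ ((n - n0) / E) := by positivity
    calc ‖F n‖ ^ 2 ≤ (κ * (1 / 2) ^ ((n - n0) / E)) ^ 2 := by gcongr
      _ = κ ^ 2 * ((1 / 2) ^ ((n - n0) / E) * (1 / 2) ^ ((n - n0) / E)) := by ring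
      _ ≤ κ ^ 2 * ((1 / 2) ^ ((n - n0) / E) * 1) := by gcongr
      _ = _ := by ring
  refine (Finset.sum_le_sum h3).trans ?_
  rw [← Finset.mul_sum]
  have h7 : ∑ n ∈ t, (1 / 2 : ℝ) ^ ((n - n0) / E) =
      ∑ n ∈ t.image (fun n => n - n0), (1 / 2 : ℝ) ^ (n / E) := by
    rw [Finset.sum_image hinj]
  rw [h7]
  exact mul_le_mul_of_nonneg_left (sum_half_div_le hE _) (sq_nonneg κ)

end ConvUAux

open ConvUAux

variable {G : Type} [Group G] {X : Type} [MeasurableSpace X] {μ : Measure X}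

theorem ae_tendsto_zero {F : ℕ → Lp ℂ 2 μ} {n0 : ℕ} {B : ℝ}
    (h : ∀ t : Finset ℕ, (∀ n ∈ t, n0 ≤ n) → ∑ n ∈ t, ‖F n‖ ^ 2 ≤ B) :
    ∀ᵐ x ∂μ, Tendsto (fun n => F n x) atTop (𝓝 0) := by
  have h1 : ∑' k : ℕ, ‖F (k + n0)‖ₑ ^ (2 : ℝ) ≤ ENNReal.ofReal B := by
    rw [ENNReal.tsum_eq_iSup_sum]
    refine iSup_le fun t => ?_
    have h2 : ∑ k ∈ t, ‖F (k + n0)‖ₑ ^ (2 : ℝ) =
        ENNReal.ofReal (∑ n ∈ t.map (addRightEmbedding n0), ‖F n‖ ^ 2) := by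
      rw [ENNReal.ofReal_sum_of_nonneg fun n _ => by positivity, Finset.sum_map]
      exact Finset.sum_congr rfl fun n _ => enorm_rpow_two _
    rw [h2]
    refine ENNReal.ofReal_le_ofReal (h _ ?_)
    intro n hn
    rw [Finset.mem_map] at hn
    obtain ⟨k, -, rfl⟩ := hn
    exact Nat.le_add_left n0 k
  have h2 : ∫⁻ x, ∑' k : ℕ, ‖F (k + n0) x‖ₑ ^ (2 : ℝ) ∂μ ≠ ∞ := by
    rw [lintegral_tsum fun n => ((Lp.aestronglyMeasurable (F (n + n0))).enorm).pow_const _]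
    have h3 : ∀ k : ℕ, ∫⁻ x, ‖F (k + n0) x‖ₑ ^ (2 : ℝ) ∂μ = ‖F (k + n0)‖ₑ ^ (2 : ℝ) :=
      fun k => (enorm_sq_eq _).symm
    rw [tsum_congr h3]
    exact (h1.trans_lt ENNReal.ofReal_lt_top).ne
  have h4 := ae_lt_top' (AEMeasurable.ennreal_tsum fun n =>
    ((Lp.aestronglyMeasurable (F (n + n0))).enorm).pow_const 2) h2
  filter_upwards [h4] with x hx
  have h5 := ENNReal.tendsto_atTop_zero_of_tsum_ne_top hx.ne
  have h6 : Tendsto (fun k => (‖F (k + n0) x‖ₑ ^ (2 : ℝ)) ^ (1 / 2 : ℝ)) atTop (𝓝 0) := by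
    have h7 := (ENNReal.continuous_rpow_const (y := (1 / 2 : ℝ))).tendsto (0 : ℝ≥0∞)
    rw [ENNReal.zero_rpow_of_pos (by norm_num)] at h7
    exact h7.comp h5
  have h8 : Tendsto (fun k => ‖F (k + n0) x‖) atTop (𝓝 0) := by
    have h9 := (ENNReal.tendsto_toReal ENNReal.zero_ne_top).comp h6
    rw [ENNReal.toReal_zero] at h9
    refine h9.congr fun k => ?_
    show ((‖F (k + n0) x‖ₑ ^ (2 : ℝ)) ^ (1 / 2 : ℝ)).toReal = _
    rw [← ENNReal.rpow_mul]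
    norm_num
  have h10 : Tendsto (fun k => F (k + n0) x) atTop (𝓝 0) := tendsto_zero_iff_norm_tendsto_zero.2 h8
  exact (tendsto_add_atTop_iff_nat (f := fun n => F n x) n0).1 h10

theorem conv_u [IsProbabilityMeasure μ] {W : G →* Equiv.Perm X}
    (hW : ∀ g, Measurable (W g) ∧ MeasurePreserving (W g) μ μ) {R : Rep G (Lp ℂ 2 μ)}
    (hR : IsKoop R W) {A : Dat G} (hA : A.Ok) (a b u : ℕ) (M : ℕ → ℕ)
    (hM : ∀ n, 2 ^ n ≤ M n ∧ M n < 2 ^ (n + 1)) (f : Lp ℂ 2 μ) :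
    ∀ᵐ x ∂μ, ∃ L : ℂ, Tendsto (fun n => (A.AA R (M n) *
      A.Pi R 0 (Icc 1 (2 ^ (a * u))) (n - b * u)) f x) atTop (𝓝 L) := by
  obtain ⟨Q, n0, g, E, Γ, α, κ, hQ, hg, hE, hα, hκ, hset⟩ := setup hA R a b u
  obtain ⟨D, T, T', hid, hD, hT, hT', hcT, hcT'⟩ := hset M hM
  have zT := ae_tendsto_zero (F := fun n => T n f) (n0 := n0)
    (B := (2 * g * α ^ 2 + 4 * E * κ) * ‖f‖ ^ 2) (fun t ht => schur_nat hα hκ hg hE
      (fun i _ => hT i) (fun i hi j _ hij => hcT i j (ht i hi) hij) f)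
  have zT' := ae_tendsto_zero (F := fun n => T' n f) (n0 := n0)
    (B := (2 * g * α ^ 2 + 4 * E * κ) * ‖f‖ ^ 2) (fun t ht => schur_nat hα hκ hg hE
      (fun i _ => hT' i) (fun i hi j _ hij => hcT' i j (ht i hi) hij) f)
  have zD := ae_tendsto_zero (F := fun n => D n f) (n0 := n0)
    (B := (κ * ‖f‖) ^ 2 * (2 * E)) (geo_sum hE (by positivity) (fun n hn => by
      refine ((D n).le_opNorm f).trans ?_
      calc ‖D n‖ * ‖f‖ ≤ κ * (1 / 2) ^ ((n - n0) / E) * ‖f‖ :=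
            mul_le_mul_of_nonneg_right (hD n hn) (norm_nonneg _)
        _ = κ * ‖f‖ * (1 / 2) ^ ((n - n0) / E) := by ring))
  have cP := ph_conv hW hR A hQ (Γ f)
  have hc : ∀ n, ∀ᵐ x ∂μ, (A.AA R (M n) *
      A.Pi R 0 (Icc 1 (2 ^ (a * u))) (n - b * u)) f x =
      D n f x + T n f x + T' n f x + A.Ph R 0 Q (n + 1) (Γ f) x := by
    intro n
    have e1 : (A.AA R (M n) * A.Pi R 0 (Icc 1 (2 ^ (a * u))) (n - b * u)) f =
        D n f + T n f + T' n f + A.Ph R 0 Q (n + 1) (Γ f) := by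
      rw [hid n]
      rfl
    rw [e1]
    filter_upwards [Lp.coeFn_add (D n f + T n f + T' n f) (A.Ph R 0 Q (n + 1) (Γ f)),
      Lp.coeFn_add (D n f + T n f) (T' n f), Lp.coeFn_add (D n f) (T n f)] with x h1 h2 h3
    rw [h1, Pi.add_apply, h2, Pi.add_apply, h3, Pi.add_apply]
  filter_upwards [zT, zT', zD, cP, ae_all_iff.2 hc] with x x1 x2 x3 x4 x5
  obtain ⟨L, hL⟩ := x4
  refine ⟨L, ?_⟩
  have h1 := ((x3.add x1).add x2).add ((tendsto_add_atTop_iff_nat 1).2 hL)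
  rw [add_zero, add_zero, zero_add] at h1
  exact h1.congr fun n => (x5 n).symm

theorem max_u [IsProbabilityMeasure μ] {W : G →* Equiv.Perm X}
    (hW : ∀ g, Measurable (W g) ∧ MeasurePreserving (W g) μ μ) {R : Rep G (Lp ℂ 2 μ)}
    (hR : IsKoop R W) {A : Dat G} (hA : A.Ok) (a b u : ℕ) :
    ∃ C : ℝ, 0 ≤ C ∧ ∀ M : ℕ → ℕ, (∀ n, 2 ^ n ≤ M n ∧ M n < 2 ^ (n + 1)) → ∀ f : Lp ℂ 2 μ,
      mx Set.univ (fun n => (A.AA R (M n) *
        A.Pi R 0 (Icc 1 (2 ^ (a * u))) (n - b * u)) f) ≤ ENNReal.ofReal (C * ‖f‖) := by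
  obtain ⟨Q, n0, g, E, Γ, α, κ, hQ, hg, hE, hα, hκ, hset⟩ := setup hA R a b u
  obtain ⟨B, hB⟩ : ∃ B : ℝ, B = 2 * g * α ^ 2 + 4 * E * κ + 1 := ⟨_, rfl⟩
  have hB0 : 0 ≤ B := by rw [hB]; positivity
  have hB1 : 2 * g * α ^ 2 + 4 * E * κ ≤ B ^ 2 := by
    have h1 : 0 ≤ 2 * (g : ℝ) * α ^ 2 + 4 * E * κ := by positivity
    rw [hB]
    nlinarith
  refine ⟨(n0 + 1) * 4 ^ (a * u) + (2 * E * κ + B + B + 2 ^ A.D * ‖Γ‖), by positivity, ?_⟩
  intro M hM f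
  obtain ⟨D, T, T', hid, hD, hT, hT', hcT, hcT'⟩ := hset M hM
  have hf := norm_nonneg f
  obtain ⟨F, hF⟩ : ∃ F : ℕ → Lp ℂ 2 μ, F = fun n => (A.AA R (M n) *
        A.Pi R 0 (Icc 1 (2 ^ (a * u))) (n - b * u)) f := ⟨_, rfl⟩
  rw [← hF]
  have hF1 : ∀ n, ‖F n‖ ≤ 4 ^ (a * u) * ‖f‖ := by
    intro n
    rw [hF]
    refine (ContinuousLinearMap.le_opNorm _ f).trans (mul_le_mul_of_nonneg_right ?_ hf)
    refine (norm_mul_le _ _).trans ?_
    calc ‖A.AA R (M n)‖ * ‖A.Pi R 0 (Icc 1 (2 ^ (a * u))) (n - b * u)‖ ≤ 1 * 4 ^ (a * u) :=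
          mul_le_mul (A.norm_AA_le R _) (A.norm_Pi_le R 0 (Finset.Subset.refl _) _) (norm_nonneg _)
            zero_le_one
      _ = 4 ^ (a * u) := one_mul _
  -- small indices
  have m1 : mx ((range n0 : Finset ℕ) : Set ℕ) F ≤
      ENNReal.ofReal ((n0 + 1) * 4 ^ (a * u) * ‖f‖) := by
    apply mx_le_sum (by positivity)
    have h1 : ∀ n ∈ range n0, ‖F n‖ ^ 2 ≤ (4 ^ (a * u) * ‖f‖) ^ 2 := fun n _ =>
      pow_le_pow_left₀ (norm_nonneg _) (hF1 n) 2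
    refine (Finset.sum_le_card_nsmul _ _ _ h1).trans ?_
    rw [card_range, nsmul_eq_mul]
    have h2 : 0 ≤ (4 ^ (a * u) * ‖f‖) ^ 2 := by positivity
    have h3 : ((n0 : ℝ) + 1) * 4 ^ (a * u) * ‖f‖ = (n0 + 1) * (4 ^ (a * u) * ‖f‖) := by ring
    have h5 : ((n0 + 1) * (4 ^ (a * u) * ‖f‖)) ^ 2 = ((n0 : ℝ) + 1) ^ 2 * (4 ^ (a * u) * ‖f‖) ^ 2 :=
      mul_pow _ _ _
    rw [h3, h5]
    apply mul_le_mul_of_nonneg_right _ h2
    have h4 : (0 : ℝ) ≤ n0 := Nat.cast_nonneg n0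
    nlinarith
  -- large indices
  have m2 : mx {n | n0 ≤ n} F ≤ mx {n | n0 ≤ n} (fun n => D n f) + mx {n | n0 ≤ n} (fun n => T n f) +
      mx {n | n0 ≤ n} (fun n => T' n f) + mx {n | n0 ≤ n} (fun n => A.Ph R 0 Q (n + 1) (Γ f)) := by
    have h1 : mx {n | n0 ≤ n} F = mx {n | n0 ≤ n}
        (fun n => D n f + T n f + T' n f + A.Ph R 0 Q (n + 1) (Γ f)) := by
      apply mx_congr
      intro n _
      rw [hF]
      show (A.AA R (M n) * A.Pi R 0 (Icc 1 (2 ^ (a * u))) (n - b * u)) f = _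
      rw [hid n]
      rfl
    rw [h1]
    refine (mx_add_le _ (fun n => D n f + T n f + T' n f) _).trans (add_le_add ?_ le_rfl)
    refine (mx_add_le _ (fun n => D n f + T n f) _).trans (add_le_add ?_ le_rfl)
    exact mx_add_le _ (fun n => D n f) _
  have m3 : mx {n | n0 ≤ n} (fun n => D n f) ≤ ENNReal.ofReal (2 * E * (κ * ‖f‖)) := by
    apply mx_geo hE (by positivity) (fun n hn => hn)
    intro n hn
    refine ((D n).le_opNorm f).trans ?_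
    calc ‖D n‖ * ‖f‖ ≤ κ * (1 / 2) ^ ((n - n0) / E) * ‖f‖ :=
          mul_le_mul_of_nonneg_right (hD n hn) (norm_nonneg _)
      _ = κ * ‖f‖ * (1 / 2) ^ ((n - n0) / E) := by ring
  have m4 : mx {n | n0 ≤ n} (fun n => T n f) ≤ ENNReal.ofReal (B * ‖f‖) :=
    mx_schur_nat hα hκ hg hE (fun i _ => hT i) (fun i hi j _ hij => hcT i j hi hij) hB0 hB1 f
  have m5 : mx {n | n0 ≤ n} (fun n => T' n f) ≤ ENNReal.ofReal (B * ‖f‖) :=
    mx_schur_nat hα hκ hg hE (fun i _ => hT' i) (fun i hi j _ hij => hcT' i j hi hij) hB0 hB1 f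
  have m6 : mx {n | n0 ≤ n} (fun n => A.Ph R 0 Q (n + 1) (Γ f)) ≤
      ENNReal.ofReal (2 ^ A.D * (‖Γ‖ * ‖f‖)) := by
    have h1 : mx {n | n0 ≤ n} (fun n => A.Ph R 0 Q (n + 1) (Γ f)) ≤
        mx Set.univ (fun m => A.Ph R 0 Q m (Γ f)) :=
      mx_le_mx fun n _ => Or.inr ⟨n + 1, Set.mem_univ _, rfl⟩
    refine h1.trans ((ph_max hW hR A Q (Γ f)).trans ?_)
    have h2 : ENNReal.ofReal (2 : ℝ) = 2 := by norm_num
    rw [ENNReal.ofReal_mul (by positivity), ENNReal.ofReal_pow (by norm_num), h2]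
    apply mul_le_mul_right
    rw [← ofReal_norm]
    exact ENNReal.ofReal_le_ofReal (Γ.le_opNorm f)
  have m7 : mx Set.univ F ≤ mx ((range n0 : Finset ℕ) : Set ℕ) F + mx {n | n0 ≤ n} F := by
    refine (mx_mono ?_ F).trans (mx_union_le _ _ F)
    intro n _
    rcases lt_or_ge n n0 with h | h
    · left
      exact Finset.mem_coe.2 (Finset.mem_range.2 h)
    · right
      exact h
  refine m7.trans ((add_le_add m1 (m2.trans (add_le_add (add_le_add (add_le_add m3 m4) m5)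
    m6))).trans (le_of_eq ?_))
  rw [← ENNReal.ofReal_add (by positivity) (by positivity),
    ← ENNReal.ofReal_add (by positivity) (by positivity),
    ← ENNReal.ofReal_add (by positivity) (by positivity),
    ← ENNReal.ofReal_add (by positivity) (by positivity)]
  congr 1
  ring

end Pool.Agent.Lib.Npm
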