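import Pool.Agent.Lib.Npw.ApiB

/-!
# NPW (Part VI): averages over cubes

`cube_avg`: every `v ∈ [0,M)^k` is `r + P w` with `r ∈ [0,P)^k`, `w ∈ [0,M/P)^k` (`r l = v l % P`), so `∑_v F (v % P) = (M/P)^k ∑_r F r` and the difference of the two averages
is the average of `F v - F (v % P)`. (Every residue `r` has exactly `(M/P)^k` preimages: `Finset.sum_fiberwise` and a product of `card` computations, or an equivalence
`Fin k → ℕ` restricted to the cube `≃` pairs.)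
`cube_cmp`: `[0,M)^k ⊆ [0,M')^k`; `‖M^{-k} ∑_{[0,M)^k} F - M'^{-k} ∑_{[0,M')^k} F‖ ≤ (M^{-k} - M'^{-k}) M^k + M'^{-k} (M'^k - M^k) = 2 (1 - (M/M')^k) ≤ 2 k (M' - M) / M'`
(Bernoulli's inequality `one_add_mul_le_pow`).
-/

set_option autoImplicit false

open Finset

namespace Pool.Agent.Lib.Npm

open Pool.Agent.Lib.Npw

variable {G H : Type} [Group G] [NormedAddCommGroup H] [InnerProductSpace ℂ H] [CompleteSpace H]

theorem cube_sum_mod {k P M : ℕ} (hP : 0 < P) (hd : P ∣ M) (F : (Fin k → ℕ) → H →L[ℂ] H) :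
    ∑ v ∈ Fintype.piFinset (fun _ : Fin k => range M), F (fun l => v l % P) =
      ((M / P : ℕ) : ℂ) ^ k • ∑ v ∈ Fintype.piFinset (fun _ : Fin k => range P), F v := by
  classical
  have hmaps : ∀ v ∈ Fintype.piFinset (fun _ : Fin k => range M),
      (fun l => v l % P) ∈ Fintype.piFinset (fun _ : Fin k => range P) := by
    intro v _
    rw [Fintype.mem_piFinset]
    intro l
    rw [mem_range]
    exact Nat.mod_lt _ hP
  rw [← Finset.sum_fiberwise_of_maps_to hmaps, Finset.smul_sum]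
  refine Finset.sum_congr rfl fun r hr => ?_
  rw [Fintype.mem_piFinset] at hr
  have h1 : (Fintype.piFinset (fun _ : Fin k => range M)).filter
      (fun v => (fun l => v l % P) = r) =
      Fintype.piFinset (fun l : Fin k => (range M).filter (fun x => x ≡ r l [MOD P])) := by
    ext v
    simp only [Finset.mem_filter, Fintype.mem_piFinset, mem_range, funext_iff, Nat.ModEq]
    constructor
    · rintro ⟨h1, h2⟩ l
      refine ⟨h1 l, ?_⟩
      rw [h2 l, Nat.mod_eq_of_lt (mem_range.mp (hr l))]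
    · intro h
      refine ⟨fun l => (h l).1, fun l => ?_⟩
      rw [(h l).2, Nat.mod_eq_of_lt (mem_range.mp (hr l))]
  have h2 : ∀ v ∈ (Fintype.piFinset (fun _ : Fin k => range M)).filter
      (fun v => (fun l => v l % P) = r), F (fun l => v l % P) = F r := by
    intro v hv
    rw [(Finset.mem_filter.mp hv).2]
  rw [Finset.sum_congr rfl h2, Finset.sum_const, h1, Fintype.card_piFinset]
  have h3 : ∀ l : Fin k, ((range M).filter (fun x => x ≡ r l [MOD P])).card = M / P := by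
    intro l
    have h4 := Nat.count_modEq_card M hP (r l)
    rw [Nat.count_eq_card_filter_range] at h4
    rw [h4, Nat.mod_eq_zero_of_dvd hd]
    simp
  rw [Finset.prod_congr rfl fun l _ => h3 l, Finset.prod_const, Finset.card_univ,
    Fintype.card_fin, ← Nat.cast_smul_eq_nsmul ℂ]
  push_cast
  rfl

theorem cube_avg {k P M : ℕ} (hP : 0 < P) (hM : 0 < M) (hd : P ∣ M) (F : (Fin k → ℕ) → H →L[ℂ] H)
    {δ : ℝ} (hδ : 0 ≤ δ) (h : ∀ v, (∀ l, v l < M) → ‖F v - F (fun l => v l % P)‖ ≤ δ) :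
    ‖((M : ℂ) ^ k)⁻¹ • ∑ v ∈ Fintype.piFinset (fun _ : Fin k => range M), F v -
      ((P : ℂ) ^ k)⁻¹ • ∑ v ∈ Fintype.piFinset (fun _ : Fin k => range P), F v‖ ≤ δ := by
  have hMP : 0 < M / P := Nat.div_pos (Nat.le_of_dvd hM hd) hP
  have hMe : (M : ℂ) = ((M / P : ℕ) : ℂ) * P := by
    rw [← Nat.cast_mul, Nat.div_mul_cancel hd]
  have hq : ((M / P : ℕ) : ℂ) ≠ 0 := by exact_mod_cast hMP.ne'
  have hPc : (P : ℂ) ≠ 0 := by exact_mod_cast hP.ne'
  have e1 : ((P : ℂ) ^ k)⁻¹ • ∑ v ∈ Fintype.piFinset (fun _ : Fin k => range P), F v =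
      ((M : ℂ) ^ k)⁻¹ • ∑ v ∈ Fintype.piFinset (fun _ : Fin k => range M),
        F (fun l => v l % P) := by
    rw [cube_sum_mod hP hd F, smul_smul]
    congr 1
    rw [hMe, mul_pow]
    field_simp
  rw [e1, ← smul_sub, ← Finset.sum_sub_distrib, norm_smul, norm_inv, norm_pow,
    Complex.norm_natCast]
  have hM' : (0 : ℝ) < (M : ℝ) ^ k := by positivity
  have h5 : ‖∑ v ∈ Fintype.piFinset (fun _ : Fin k => range M),
      (F v - F (fun l => v l % P))‖ ≤ (M : ℝ) ^ k * δ := by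
    refine (norm_sum_le_of_le _ (f := fun v => F v - F (fun l => v l % P))
      (n := fun _ => δ) fun v hv => ?_).trans ?_
    · apply h
      intro l
      exact mem_range.mp (Fintype.mem_piFinset.mp hv l)
    · rw [Finset.sum_const, Fintype.card_piFinset, Finset.prod_const, Finset.card_univ,
        Fintype.card_fin, Finset.card_range, nsmul_eq_mul]
      push_cast
      rfl
  rw [inv_mul_le_iff₀ hM']
  exact h5

theorem cube_cmp {k M M' : ℕ} (hM : 0 < M) (hMM : M ≤ M') (F : (Fin k → ℕ) → H →L[ℂ] H)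
    (hF : ∀ v, ‖F v‖ ≤ 1) :
    ‖((M : ℂ) ^ k)⁻¹ • ∑ v ∈ Fintype.piFinset (fun _ : Fin k => range M), F v -
      ((M' : ℂ) ^ k)⁻¹ • ∑ v ∈ Fintype.piFinset (fun _ : Fin k => range M'), F v‖ ≤
      2 * k * ((M' : ℝ) - M) / M' := by
  classical
  have hM' : 0 < M' := lt_of_lt_of_le hM hMM
  have hMr : (0 : ℝ) < M := by exact_mod_cast hM
  have hMr' : (0 : ℝ) < M' := by exact_mod_cast hM'
  have hMMr : (M : ℝ) ≤ M' := by exact_mod_cast hMM
  set S := Fintype.piFinset (fun _ : Fin k => range M) with hS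
  set S' := Fintype.piFinset (fun _ : Fin k => range M') with hS'
  have hsub : S ⊆ S' := by
    intro v hv
    rw [hS, Fintype.mem_piFinset] at hv
    rw [hS', Fintype.mem_piFinset]
    intro l
    exact mem_range.mpr (lt_of_lt_of_le (mem_range.mp (hv l)) hMM)
  have hcS : (S.card : ℝ) = (M : ℝ) ^ k := by
    rw [hS, Fintype.card_piFinset, Finset.prod_const, Finset.card_univ, Fintype.card_fin,
      Finset.card_range]
    push_cast
    rfl
  have hcS' : (S'.card : ℝ) = (M' : ℝ) ^ k := by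
    rw [hS', Fintype.card_piFinset, Finset.prod_const, Finset.card_univ, Fintype.card_fin,
      Finset.card_range]
    push_cast
    rfl
  have hpow : (M : ℝ) ^ k ≤ (M' : ℝ) ^ k := pow_le_pow_left₀ hMr.le hMMr k
  have e1 : ((M : ℂ) ^ k)⁻¹ • ∑ v ∈ S, F v - ((M' : ℂ) ^ k)⁻¹ • ∑ v ∈ S', F v =
      (((M : ℂ) ^ k)⁻¹ - ((M' : ℂ) ^ k)⁻¹) • ∑ v ∈ S, F v -
        ((M' : ℂ) ^ k)⁻¹ • ∑ v ∈ S' \ S, F v := by
    rw [← Finset.sum_sdiff hsub, smul_add, sub_smul]
    abel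
  have hn1 : ‖((M : ℂ) ^ k)⁻¹ - ((M' : ℂ) ^ k)⁻¹‖ = ((M : ℝ) ^ k)⁻¹ - ((M' : ℝ) ^ k)⁻¹ := by
    have : ((M : ℂ) ^ k)⁻¹ - ((M' : ℂ) ^ k)⁻¹ =
        ((((M : ℝ) ^ k)⁻¹ - ((M' : ℝ) ^ k)⁻¹ : ℝ) : ℂ) := by
      push_cast
      rfl
    rw [this, Complex.norm_real, Real.norm_of_nonneg]
    rw [sub_nonneg]
    exact inv_anti₀ (by positivity) hpow
  have hn2 : ‖((M' : ℂ) ^ k)⁻¹‖ = ((M' : ℝ) ^ k)⁻¹ := by
    rw [norm_inv, norm_pow, Complex.norm_natCast]
  have hs1 : ‖∑ v ∈ S, F v‖ ≤ (M : ℝ) ^ k := by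
    refine (norm_sum_le_of_le _ (n := fun _ => (1 : ℝ)) fun v _ => hF v).trans ?_
    rw [Finset.sum_const, nsmul_eq_mul, mul_one, hcS]
  have hs2 : ‖∑ v ∈ S' \ S, F v‖ ≤ (M' : ℝ) ^ k - (M : ℝ) ^ k := by
    refine (norm_sum_le_of_le _ (n := fun _ => (1 : ℝ)) fun v _ => hF v).trans ?_
    rw [Finset.sum_const, nsmul_eq_mul, mul_one, Finset.cast_card_sdiff hsub, hcS, hcS']
  have hb : 1 - k * (((M' : ℝ) - M) / M') ≤ ((M : ℝ) / M') ^ k := by
    have h := one_add_mul_le_pow (a := -(((M' : ℝ) - M) / M')) (by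
      have : ((M' : ℝ) - M) / M' ≤ 1 := by
        rw [div_le_one hMr']
        linarith
      linarith) k
    have e : 1 + -(((M' : ℝ) - M) / M') = (M : ℝ) / M' := by
      field_simp
      ring
    rw [e] at h
    linarith
  rw [e1]
  refine (norm_sub_le _ _).trans ?_
  rw [norm_smul, norm_smul, hn1, hn2]
  have hnn : 0 ≤ ((M : ℝ) ^ k)⁻¹ - ((M' : ℝ) ^ k)⁻¹ := by
    rw [sub_nonneg]
    exact inv_anti₀ (by positivity) hpow
  have hnn' : (0 : ℝ) ≤ ((M' : ℝ) ^ k)⁻¹ := by positivity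
  have hp : (0 : ℝ) < (M : ℝ) ^ k := by positivity
  have hp' : (0 : ℝ) < (M' : ℝ) ^ k := by positivity
  calc (((M : ℝ) ^ k)⁻¹ - ((M' : ℝ) ^ k)⁻¹) * ‖∑ v ∈ S, F v‖ +
        ((M' : ℝ) ^ k)⁻¹ * ‖∑ v ∈ S' \ S, F v‖ ≤
      (((M : ℝ) ^ k)⁻¹ - ((M' : ℝ) ^ k)⁻¹) * (M : ℝ) ^ k +
        ((M' : ℝ) ^ k)⁻¹ * ((M' : ℝ) ^ k - (M : ℝ) ^ k) := by
        gcongr
    _ = 2 * (1 - ((M : ℝ) / M') ^ k) := by
        rw [div_pow]
        field_simp
        ring
    _ ≤ 2 * (k * (((M' : ℝ) - M) / M')) := by linarith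
    _ = 2 * k * ((M' : ℝ) - M) / M' := by ring

end Pool.Agent.Lib.Npm
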