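import Pool.Agent.Lib.Npw.ResOne

/-!
# NPW, Parts VI-VII: definitions
-/

set_option autoImplicit false

open Finset

namespace Pool.Agent.Lib.Npm

open Pool.Agent.Lib.Npw

/-- `2^(-1/16)` -/
noncomputable def rho : ℝ := (1 / 2 : ℝ) ^ (1 / 16 : ℝ)

theorem rho_pos : 0 < rho := by unfold rho; positivity

theorem rho_pow : rho ^ 16 = 1 / 2 := by
  unfold rho
  rw [← Real.rpow_natCast, ← Real.rpow_mul (by norm_num)]
  norm_num

theorem rho_lt_one : rho < 1 := by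
  unfold rho
  exact Real.rpow_lt_one (by norm_num) (by norm_num) (by norm_num)

variable {G H : Type} [Group G] [NormedAddCommGroup H] [InnerProductSpace ℂ H] [CompleteSpace H]

/-- the core proposition for fixed constants -/
def CPab (A : Dat G) (R : Rep G H) (a b C : ℕ) : Prop :=
  ∀ u n M : ℕ, 2 * b * u ≤ n → 2 ^ n ≤ M → M < 2 ^ (n + 1) →
    ‖A.AA R M * (1 - A.Pi R 0 (Icc 1 (2 ^ (a * u))) (n - b * u))‖ ≤ C * (1 / 2) ^ u

/-- the block of moduli between `2^(a u)` and `2^(a (u+1))` -/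
def blk (a u : ℕ) : Finset ℕ := Ioc (2 ^ (a * u)) (2 ^ (a * (u + 1)))

/-- the product of the last `j` averages over one period -/
noncomputable def perR (A : Dat G) (R : Rep G H) (Q d : ℕ) : ℕ → (H →L[ℂ] H)
  | 0 => 1
  | j + 1 => perR A R Q d j * if h : A.D - 1 - j < A.D then A.per R ⟨A.D - 1 - j, h⟩ Q d else 1

/-- `per (D-1) Q d * ⋯ * per c0 Q d`, where `per c Q d` is the average of `U(z_c^(K_c d j))` over
`0 ≤ j < Q / d` -/
noncomputable def PerP (A : Dat G) (R : Rep G H) (c0 Q d : ℕ) : H →L[ℂ] H :=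
  perR A R Q d (A.D - c0)

/-- the operator with `Pi 0 s m ≈ Ph 0 Q m * GG s Q` for all large `m` (all `q ∈ s` divide `Q`) -/
noncomputable def GG (A : Dat G) (R : Rep G H) (s : Finset ℕ) (Q : ℕ) : H →L[ℂ] H :=
  ∑ q ∈ s, ∑ d ∈ q.divisors, ((ArithmeticFunction.moebius (q / d) : ℤ) : ℂ) • PerP A R 0 Q d

/-- the hypotheses on the modulus `Q` and the scale `N1` -/
structure QOk (A : Dat G) (v Q N1 : ℕ) : Prop where
  pos : 0 < Q
  dvd : ∀ d ∈ Icc 1 (2 ^ v), d ∣ Q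
  le : A.P0 * Q ≤ 2 ^ N1

/-- the commutator term -/
noncomputable def YY (A : Dat G) (R : Rep G H) (Q m M : ℕ) : H →L[ℂ] H :=
  A.AA R M * A.Ph R 0 Q m - A.Ph R 0 Q m * A.AA R (A.P0 * Q)

/-- the difference term -/
noncomputable def XX (A : Dat G) (R : Rep G H) (Q m m' : ℕ) : H →L[ℂ] H :=
  A.Ph R 0 Q m - A.Ph R 0 Q m'

end Pool.Agent.Lib.Npm
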