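import Pool.Agent.Lib.Npm.CubeAvg
import Pool.Agent.Lib.Npm.Defs
import Pool.Agent.Lib.Npw.Com

/-!
# NPW (F2), (I3): cube averages times `Ph`, from the left

`eq_left`: by `cube_avg` (`P = P0 Q`, `F v = U(S v) * Ph 0 Q m`; `AA M * T = M^{-k} ∑ U(S v) * T`) it is enough that `‖F v - F (v % P)‖ ≤ C (1/2)^t` for `v ∈ [0,M)^k`. Let `r = v % P`, `h = v - r`, so `P0 Q ∣ h l`,
`h l, r l ≤ M ≤ 2^n`. (A3) with `m := n + 0`, `x := n`, `t := 0` (`P0 Q ≤ 2^n` because `0 < M ≤ 2^n` is a multiple of `P0 Q`): `y = (S r)⁻¹ S (r + h) ∈ BN C1 0 Q (n + C1)`, so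
`F v - F r = U(S r) (U(y) Ph - Ph)` and `LI.BN` with `inv_left` (`x := n + C1`, `n + C1 + E' t ≤ m`): `≤ C1 C' (1/2)^t`.
`comm_AA`: `comm_loc` with `loc_AA` (`N = 1`, `B = 1`).
`near_Y`: `YY Q m M = (AA M * Ph - AA (P0 Q) * Ph) + (AA (P0 Q) * Ph - Ph * AA (P0 Q))`.
-/

set_option autoImplicit false

open Finset

namespace Pool.Agent.Lib.Npm

open Pool.Agent.Lib.Npw

variable {G H : Type} [Group G] [NormedAddCommGroup H] [InnerProductSpace ℂ H] [CompleteSpace H]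

theorem eq_left {A : Dat G} (hA : A.Ok) (R : Rep G H) : ∃ C E : ℕ, ∀ Q n m t M : ℕ, 0 < Q → 0 < M →
    A.P0 * Q ∣ M → M ≤ 2 ^ n → n + E * (t + 1) ≤ m →
    ‖A.AA R M * A.Ph R 0 Q m - A.AA R (A.P0 * Q) * A.Ph R 0 Q m‖ ≤ C * (1 / 2) ^ t := by
  obtain ⟨C', E', hinv⟩ := Dat.inv_left hA R
  refine ⟨A.C1 * C', A.C1 + E', ?_⟩
  intro Q n m t M hQ hM hd hMn hm
  have hx : n + A.C1 + E' * t ≤ m := by
    have h1 : (A.C1 + E') * (t + 1) = A.C1 * t + A.C1 + E' * t + E' := by ring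
    omega
  have hnm : n ≤ m := by omega
  have hP : A.P0 * Q ≤ M := Nat.le_of_dvd hM hd
  have hP0 : 0 < A.P0 * Q := by
    rcases Nat.eq_zero_or_pos (A.P0 * Q) with h | h
    · rw [h] at hd
      have := Nat.eq_zero_of_zero_dvd hd
      omega
    · exact h
  have hPm : A.P0 * Q ≤ 2 ^ m := hP.trans (hMn.trans (Nat.pow_le_pow_right (by norm_num) hnm))
  have hLI := hinv 0 Q m (n + A.C1) t hQ hPm hx
  unfold Dat.AA
  rw [smul_mul_assoc, smul_mul_assoc, Finset.sum_mul, Finset.sum_mul]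
  have hc : (((A.C1 * C' : ℕ) : ℝ)) * (1 / 2) ^ t = A.C1 * (C' * (1 / 2) ^ t) := by
    push_cast
    ring
  rw [hc]
  refine cube_avg (k := A.k) hP0 hM hd (fun v => R.U (A.S v) * A.Ph R 0 Q m) (by positivity) ?_
  intro v hv
  set r : Fin A.k → ℕ := fun l => v l % (A.P0 * Q) with hr
  set h : Fin A.k → ℕ := fun l => A.P0 * Q * (v l / (A.P0 * Q)) with hh
  have hv' : v = r + h := by
    funext l
    simp only [hr, hh, Pi.add_apply]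
    exact (Nat.mod_add_div _ _).symm
  have hr2 : ∀ l, r l ≤ 2 ^ n := fun l =>
    ((Nat.mod_le _ _).trans (hv l).le).trans hMn
  have hh2 : ∀ l, h l ≤ 2 ^ n := fun l =>
    ((Nat.mul_div_le _ _).trans (hv l).le).trans hMn
  have h1 := hA.A3 r h Q n n 0 hQ (fun l => Dvd.intro _ rfl) hr2 hh2 (by simp)
  rw [Nat.sub_zero, ← hv'] at h1
  have h2 := hLI.BN (by positivity) h1
  have e : R.U (A.S v) * A.Ph R 0 Q m - R.U (A.S r) * A.Ph R 0 Q m =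
      R.U (A.S r) * (R.U ((A.S r)⁻¹ * A.S v) * A.Ph R 0 Q m - A.Ph R 0 Q m) := by
    rw [mul_sub, ← mul_assoc, ← map_mul]
    congr 3
    group
  show ‖R.U (A.S v) * A.Ph R 0 Q m - R.U (A.S r) * A.Ph R 0 Q m‖ ≤ _
  rw [e]
  refine (norm_mul_le _ _).trans ?_
  calc ‖R.U (A.S r)‖ * ‖R.U ((A.S r)⁻¹ * A.S v) * A.Ph R 0 Q m - A.Ph R 0 Q m‖
      ≤ 1 * ‖R.U ((A.S r)⁻¹ * A.S v) * A.Ph R 0 Q m - A.Ph R 0 Q m‖ :=
        mul_le_mul_of_nonneg_right (R.norm_le _) (norm_nonneg _)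
    _ = ‖R.U ((A.S r)⁻¹ * A.S v) * A.Ph R 0 Q m - A.Ph R 0 Q m‖ := one_mul _
    _ ≤ _ := h2

theorem comm_AA {A : Dat G} (hA : A.Ok) (R : Rep G H) : ∃ C E : ℕ, ∀ Q n m t M : ℕ, 0 < Q →
    A.P0 * Q ≤ 2 ^ m → M ≤ 2 ^ n → n + E * (t + 1) ≤ m →
    ‖A.AA R M * A.Ph R 0 Q m - A.Ph R 0 Q m * A.AA R M‖ ≤ C * (1 / 2) ^ t := by
  obtain ⟨C, E, h⟩ := Dat.comm_loc hA R
  refine ⟨C, E, ?_⟩
  intro Q n m t M hQ hPm hMn hm
  have hx : n + E * t ≤ m := by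
    have h1 : E * (t + 1) = E * t + E := by ring
    omega
  have h1 := h 0 Q m n t 1 1 (A.AA R M) hQ hPm hx (Dat.loc_AA hMn)
  simpa using h1

theorem near_Y {A : Dat G} (hA : A.Ok) (R : Rep G H) : ∃ C E : ℕ, ∀ Q n m t M : ℕ, 0 < Q → 0 < M →
    A.P0 * Q ∣ M → M ≤ 2 ^ n → n + E * (t + 1) ≤ m →
    ‖YY A R Q m M‖ ≤ C * (1 / 2) ^ t := by
  obtain ⟨C, E, h⟩ := eq_left hA R
  obtain ⟨C', E', h'⟩ := comm_AA hA R
  refine ⟨C + C', E + E', ?_⟩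
  intro Q n m t M hQ hM hd hMn hm
  have hm1 : n + E * (t + 1) ≤ m := by
    have h1 : (E + E') * (t + 1) = E * (t + 1) + E' * (t + 1) := by ring
    omega
  have hm2 : n + E' * (t + 1) ≤ m := by
    have h1 : (E + E') * (t + 1) = E * (t + 1) + E' * (t + 1) := by ring
    omega
  have hnm : n ≤ m := by omega
  have hP : A.P0 * Q ≤ M := Nat.le_of_dvd hM hd
  have hPn : A.P0 * Q ≤ 2 ^ n := hP.trans hMn
  have hPm : A.P0 * Q ≤ 2 ^ m := hPn.trans (Nat.pow_le_pow_right (by norm_num) hnm)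
  have h1 := h Q n m t M hQ hM hd hMn hm1
  have h2 := h' Q n m t (A.P0 * Q) hQ hPm hPn hm2
  have e : YY A R Q m M =
      (A.AA R M * A.Ph R 0 Q m - A.AA R (A.P0 * Q) * A.Ph R 0 Q m) +
        (A.AA R (A.P0 * Q) * A.Ph R 0 Q m - A.Ph R 0 Q m * A.AA R (A.P0 * Q)) := by
    unfold YY
    abel
  rw [e]
  refine (norm_add_le _ _).trans ?_
  push_cast
  linarith

end Pool.Agent.Lib.Npm
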