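import Pool.Agent.Lib.Npm.EqL

/-!
# NPW (F2): `(AA M - AA M') * Pi s m` is small for `m` much larger than the scale of `M, M'`

`Pi 0 s m = ∑_{q ∈ s} ∑_{d ∣ q} μ(q/d) Ph 0 d m`: at most `4^v` terms, `d ≤ 2^v`. For each `d`: let `P = P0 d ≤ P0 2^v`, `M1 = P (M / P)` (the largest multiple of `P` below `M`; `M1 > 0` because
`P ≤ 2^(E (v+t+1)) ≤ M` if `E` is large). `‖AA M - AA M1‖ ≤ 2 k P / M ≤ 2 k P0 2^v / 2^(E (v+t+1))` (`cube_cmp`, `M - M1 < P`; `AA` is the average in `cube_cmp` with `F v = U(S v)`), and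
`‖AA M1 * Ph d m - AA P * Ph d m‖ ≤ C (1/2)^t'` (`eq_left`, `M1 ≤ 2^n`, `n + E' (t' + 1) ≤ m`) with `t' = t + 2 v`. The same for `M'`. Total `4^v (C (1/2)^(t + 2v) + C 2^v / 2^(E (v+t+1))) ≤ C (1/2)^t`.
-/

set_option autoImplicit false

open Finset

namespace Pool.Agent.Lib.Npm

open Pool.Agent.Lib.Npw

variable {G H : Type} [Group G] [NormedAddCommGroup H] [InnerProductSpace ℂ H] [CompleteSpace H]

namespace F2Aux

theorem key {A : Dat G} (R : Rep G H) {C1 E1 : ℕ}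
    (h1 : ∀ Q n m t M : ℕ, 0 < Q → 0 < M →
      A.P0 * Q ∣ M → M ≤ 2 ^ n → n + E1 * (t + 1) ≤ m →
      ‖A.AA R M * A.Ph R 0 Q m - A.AA R (A.P0 * Q) * A.Ph R 0 Q m‖ ≤ C1 * (1 / 2) ^ t)
    (v n m t L d : ℕ) (hd0 : 0 < d) (hd : d ≤ 2 ^ v)
    (hL : 2 ^ ((2 * E1 + A.P0 + 4) * (v + t + 1)) ≤ L) (hLn : L ≤ 2 ^ n)
    (hm : n + (2 * E1 + A.P0 + 4) * (v + t + 1) ≤ m) :
    ‖A.AA R L * A.Ph R 0 d m - A.AA R (A.P0 * d) * A.Ph R 0 d m‖ ≤
      (C1 + 2 * A.k * A.P0) * (1 / 2) ^ (t + 2 * v) := by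
  have hP0 : 0 < A.P0 := A.P0_pos
  set P : ℕ := A.P0 * d with hP
  have hPpos : 0 < P := Nat.mul_pos hP0 hd0
  have hL0 : 0 < L := lt_of_lt_of_le (by positivity) hL
  -- `P ≤ L`
  have hP1 : A.P0 ≤ 2 ^ A.P0 := Nat.lt_two_pow_self.le
  have hPL : P ≤ L := by
    calc P = A.P0 * d := hP
      _ ≤ 2 ^ A.P0 * 2 ^ v := Nat.mul_le_mul hP1 hd
      _ = 2 ^ (A.P0 + v) := by rw [pow_add]
      _ ≤ 2 ^ ((2 * E1 + A.P0 + 4) * (v + t + 1)) := by
          apply Nat.pow_le_pow_right (by norm_num)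
          nlinarith [Nat.zero_le (A.P0 * (v + t)), Nat.zero_le (E1 * (v + t + 1))]
      _ ≤ L := hL
  set L1 : ℕ := P * (L / P) with hL1
  have hq1 : 0 < L / P := Nat.div_pos hPL hPpos
  have hL10 : 0 < L1 := Nat.mul_pos hPpos hq1
  have hL1L : L1 ≤ L := Nat.mul_div_le L P
  have hLL1 : L < L1 + P := by
    have := Nat.lt_mul_div_succ L hPpos
    calc L < P * (L / P + 1) := this
      _ = L1 + P := by rw [hL1]; ring
  -- comparison of the two cubes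
  have hcmp := cube_cmp (k := A.k) hL10 hL1L (fun w => R.U (A.S w)) (fun w => R.norm_le _)
  have hcmp2 : ‖A.AA R L1 - A.AA R L‖ ≤ 2 * A.k * A.P0 * (1 / 2) ^ (t + 2 * v) := by
    unfold Dat.AA
    refine hcmp.trans ?_
    have hLr : (0 : ℝ) < L := by exact_mod_cast hL0
    rw [div_le_iff₀ hLr]
    have e1 : (L : ℝ) - L1 ≤ A.P0 * 2 ^ v := by
      have : (L : ℝ) ≤ L1 + P := by exact_mod_cast hLL1.le
      have h2 : (P : ℝ) ≤ A.P0 * 2 ^ v := by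
        rw [hP]
        push_cast
        have : (d : ℝ) ≤ 2 ^ v := by exact_mod_cast hd
        gcongr
      linarith
    have e2 : (2 : ℝ) ^ v ≤ (1 / 2) ^ (t + 2 * v) * L := by
      have e3 : (2 : ℝ) ^ (t + 3 * v) ≤ L := by
        have e4 : 2 ^ (t + 3 * v) ≤ L := by
          refine le_trans ?_ hL
          apply Nat.pow_le_pow_right (by norm_num)
          nlinarith [Nat.zero_le ((2 * E1 + A.P0) * (v + t + 1))]
        exact_mod_cast e4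
      calc (2 : ℝ) ^ v = ((1 / 2) ^ (t + 2 * v) * 2 ^ (t + 2 * v)) * 2 ^ v := by
            rw [← mul_pow]
            norm_num
        _ = (1 / 2) ^ (t + 2 * v) * 2 ^ (t + 3 * v) := by
            rw [mul_assoc, ← pow_add]
            congr 2
            ring
        _ ≤ (1 / 2) ^ (t + 2 * v) * L := by gcongr
    calc 2 * (A.k : ℝ) * ((L : ℝ) - L1) ≤ 2 * A.k * (A.P0 * 2 ^ v) := by gcongr
      _ ≤ 2 * A.k * (A.P0 * ((1 / 2) ^ (t + 2 * v) * L)) := by gcongr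
      _ = 2 * A.k * A.P0 * (1 / 2) ^ (t + 2 * v) * L := by ring
  have hA1 : ‖A.AA R L * A.Ph R 0 d m - A.AA R L1 * A.Ph R 0 d m‖ ≤
      2 * A.k * A.P0 * (1 / 2) ^ (t + 2 * v) := by
    rw [← sub_mul]
    refine (norm_mul_le _ _).trans ?_
    have h2 : ‖A.Ph R 0 d m‖ ≤ 1 := A.norm_Ph_le R 0 d m
    rw [norm_sub_rev]
    calc ‖A.AA R L1 - A.AA R L‖ * ‖A.Ph R 0 d m‖
        ≤ (2 * A.k * A.P0 * (1 / 2) ^ (t + 2 * v)) * 1 := by gcongr
      _ = 2 * A.k * A.P0 * (1 / 2) ^ (t + 2 * v) := mul_one _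
  have hA2 : ‖A.AA R L1 * A.Ph R 0 d m - A.AA R (A.P0 * d) * A.Ph R 0 d m‖ ≤
      C1 * (1 / 2) ^ (t + 2 * v) := by
    apply h1 d n m (t + 2 * v) L1 hd0 hL10 ⟨L / P, rfl⟩ (hL1L.trans hLn)
    refine le_trans ?_ hm
    have : E1 * (t + 2 * v + 1) ≤ (2 * E1 + A.P0 + 4) * (v + t + 1) := by
      calc E1 * (t + 2 * v + 1) ≤ E1 * (2 * (v + t + 1)) :=
            Nat.mul_le_mul_left _ (by omega)
        _ = (2 * E1) * (v + t + 1) := by ring
        _ ≤ (2 * E1 + A.P0 + 4) * (v + t + 1) := Nat.mul_le_mul_right _ (by omega)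
    omega
  have hsum := norm_add_le (A.AA R L * A.Ph R 0 d m - A.AA R L1 * A.Ph R 0 d m)
    (A.AA R L1 * A.Ph R 0 d m - A.AA R (A.P0 * d) * A.Ph R 0 d m)
  rw [sub_add_sub_cancel] at hsum
  refine hsum.trans ?_
  calc ‖A.AA R L * A.Ph R 0 d m - A.AA R L1 * A.Ph R 0 d m‖ +
        ‖A.AA R L1 * A.Ph R 0 d m - A.AA R (A.P0 * d) * A.Ph R 0 d m‖
      ≤ 2 * A.k * A.P0 * (1 / 2) ^ (t + 2 * v) + C1 * (1 / 2) ^ (t + 2 * v) :=
        add_le_add hA1 hA2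
    _ = (C1 + 2 * A.k * A.P0) * (1 / 2) ^ (t + 2 * v) := by ring

end F2Aux

open F2Aux

theorem f2 {A : Dat G} (hA : A.Ok) (R : Rep G H) : ∃ C E : ℕ,
    ∀ (v n m t M M' : ℕ) (s : Finset ℕ), s ⊆ Icc 1 (2 ^ v) → 2 ^ (E * (v + t + 1)) ≤ M →
    2 ^ (E * (v + t + 1)) ≤ M' → M ≤ 2 ^ n → M' ≤ 2 ^ n → n + E * (v + t + 1) ≤ m →
    ‖(A.AA R M - A.AA R M') * A.Pi R 0 s m‖ ≤ C * (1 / 2) ^ t := by
  obtain ⟨C1, E1, h1⟩ := eq_left hA R
  refine ⟨2 * (C1 + 2 * A.k * A.P0), 2 * E1 + A.P0 + 4,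
    fun v n m t M M' s hs hM hM' hMn hMn' hm => ?_⟩
  have hterm : ∀ d : ℕ, 0 < d → d ≤ 2 ^ v →
      ‖(A.AA R M - A.AA R M') * A.Ph R 0 d m‖ ≤
        2 * ((C1 + 2 * A.k * A.P0) * (1 / 2) ^ (t + 2 * v)) := by
    intro d hd0 hd
    have k1 := key R h1 v n m t M d hd0 hd hM hMn hm
    have k2 := key R h1 v n m t M' d hd0 hd hM' hMn' hm
    have e1 : (A.AA R M - A.AA R M') * A.Ph R 0 d m =
        (A.AA R M * A.Ph R 0 d m - A.AA R (A.P0 * d) * A.Ph R 0 d m) -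
        (A.AA R M' * A.Ph R 0 d m - A.AA R (A.P0 * d) * A.Ph R 0 d m) := by
      rw [sub_mul]
      abel
    rw [e1]
    refine (norm_sub_le _ _).trans ?_
    linarith
  have hFF : ∀ q ∈ s, ‖(A.AA R M - A.AA R M') * A.FF R 0 q m‖ ≤
      2 ^ v * (2 * ((C1 + 2 * A.k * A.P0) * (1 / 2) ^ (t + 2 * v))) := by
    intro q hq
    have hq1 := mem_Icc.1 (hs hq)
    unfold Dat.FF
    rw [Finset.mul_sum]
    refine (norm_sum_le _ _).trans ?_
    refine (Finset.sum_le_card_nsmul _ _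
      (2 * (((C1 : ℝ) + 2 * A.k * A.P0) * (1 / 2) ^ (t + 2 * v))) fun d hd => ?_).trans ?_
    · rw [mul_smul_comm, norm_smul, Complex.norm_intCast]
      have hmu : |((ArithmeticFunction.moebius (q / d) : ℤ) : ℝ)| ≤ 1 := by
        have h := ArithmeticFunction.abs_moebius_le_one (n := q / d)
        exact_mod_cast h
      have hd1 := Nat.pos_of_mem_divisors hd
      have hd2 := (Nat.divisor_le hd).trans hq1.2
      have ht := hterm d hd1 hd2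
      calc |((ArithmeticFunction.moebius (q / d) : ℤ) : ℝ)| *
            ‖(A.AA R M - A.AA R M') * A.Ph R 0 d m‖
          ≤ 1 * (2 * ((C1 + 2 * A.k * A.P0) * (1 / 2) ^ (t + 2 * v))) := by gcongr
        _ = _ := one_mul _
    · rw [nsmul_eq_mul]
      have hc : (q.divisors.card : ℝ) ≤ 2 ^ v := by
        exact_mod_cast (Nat.card_divisors_le_self q).trans hq1.2
      gcongr
  unfold Dat.Pi
  rw [Finset.mul_sum]
  refine (norm_sum_le _ _).trans ?_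
  refine (Finset.sum_le_card_nsmul _ _ _ hFF).trans ?_
  rw [nsmul_eq_mul]
  have hcs : (s.card : ℝ) ≤ 2 ^ v := by
    have := Finset.card_le_card hs
    rw [Nat.card_Icc, Nat.add_sub_cancel] at this
    exact_mod_cast this
  calc (s.card : ℝ) * (2 ^ v * (2 * ((C1 + 2 * A.k * A.P0) * (1 / 2) ^ (t + 2 * v))))
      ≤ 2 ^ v * (2 ^ v * (2 * ((C1 + 2 * A.k * A.P0) * (1 / 2) ^ (t + 2 * v)))) := by gcongr
    _ = 2 * (C1 + 2 * A.k * A.P0) * (1 / 2) ^ t * ((2 ^ v) * (2 ^ v) * (1 / 2) ^ (2 * v)) := by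
        rw [pow_add]
        ring
    _ = 2 * (C1 + 2 * A.k * A.P0) * (1 / 2) ^ t := by
        have e6 : (2 : ℝ) ^ v * 2 ^ v * (1 / 2) ^ (2 * v) = 1 := by
          rw [← pow_add, ← two_mul, ← mul_pow]
          norm_num
        rw [e6, mul_one]
    _ = ((2 * (C1 + 2 * A.k * A.P0) : ℕ) : ℝ) * (1 / 2) ^ t := by
        push_cast
        ring

end Pool.Agent.Lib.Npm
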