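import Pool.Agent.Lib.Npm.CubeAvg
import Pool.Agent.Lib.Npm.Defs
import Pool.Agent.Lib.Npw.AbsS

/-!
# NPW (I2), (I3): absorption from the right, with a local operator in between

Let `B0` be local: `Loc N N1 κ B0`, `P0 Q ≤ 2^N1`, `N1 ≤ m'`. Then `T = Ph 0 Q m * B0` is `RI 0 Q x (C κ (1/2)^t)` for every `x` with `N1 ≤ x`, `x + E (t + 1) ≤ m`
(`ri_loc`: `inv_right` and `RI.mul_loc` with `x' = x + N C1`; `P0 Q ≤ 2^N1 ≤ 2^x`; `B0` is local of scale `x` by `Loc.mono`).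
`far`: `ri_mul_Ph` (in `Npw.AbsS`).
`eq_right`: by `cube_avg` with `P = P0 Q`, `F v = T * star (U(S v)) = T * U((S v)⁻¹)` (`star (AA M) = M^{-k} ∑ U((S v)⁻¹)`: `star_smul`, `star_sum`, `R.star_U`, the coefficients are real). Let `r = v % P`,
`h = v - r`. (A3) with `m := n`, `x := n`, `t := 0` (`P0 Q ∣ M`, `0 < M ≤ 2^n` give `P0 Q ≤ 2^n`): `y = (S r)⁻¹ S (r+h) ∈ BN C1 0 Q (n + C1)`, `U((S v)⁻¹) = U(y⁻¹) U((S r)⁻¹)`, so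
`F v - F r = (T U(y⁻¹) - T) U((S r)⁻¹)`, `≤ C1 C κ (1/2)^t` by `RI.BN` and `ri_loc` (`x = n + C1 ≥ N1`).
-/

set_option autoImplicit false

open Finset

namespace Pool.Agent.Lib.Npm

open Pool.Agent.Lib.Npw

variable {G H : Type} [Group G] [NormedAddCommGroup H] [InnerProductSpace ℂ H] [CompleteSpace H]

private theorem loc_nonneg {A : Dat G} {R : Rep G H} {N x : ℕ} {B : ℝ} {T : H →L[ℂ] H}
    (h : A.Loc R N x B T) : 0 ≤ B := by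
  obtain ⟨n, a, g, _, ha, _⟩ := h
  exact (Finset.sum_nonneg fun i _ => norm_nonneg _).trans ha

theorem ri_loc {A : Dat G} (hA : A.Ok) (R : Rep G H) (N : ℕ) : ∃ C E : ℕ,
    ∀ (Q N1 m x t : ℕ) (κ : ℝ) (B0 : H →L[ℂ] H), 0 < Q → A.P0 * Q ≤ 2 ^ N1 →
    A.Loc R N N1 κ B0 → N1 ≤ x → x + E * (t + 1) ≤ m →
    A.RI R 0 Q x (C * κ * (1 / 2) ^ t) (A.Ph R 0 Q m * B0) := by
  obtain ⟨Ci, Ei, hinv⟩ := Dat.inv_right hA R
  refine ⟨(A.C1 + 1) ^ N * Ci, N * A.C1 + Ei, ?_⟩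
  intro Q N1 m x t κ B0 hQ hP hB hNx hxm
  have hxm' : x + N * A.C1 + Ei * t ≤ m := by
    have e : (N * A.C1 + Ei) * (t + 1) = N * A.C1 * t + N * A.C1 + Ei * t + Ei := by ring
    rw [e] at hxm
    omega
  have hPx : A.P0 * Q ≤ 2 ^ x := hP.trans (Nat.pow_le_pow_right (by norm_num) hNx)
  have hPm : A.P0 * Q ≤ 2 ^ m := hPx.trans (Nat.pow_le_pow_right (by norm_num) (by omega))
  have h1 := hinv 0 Q m (x + N * A.C1) t hQ hPm hxm'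
  have h2 := Dat.RI.mul_loc hA hQ h1 (hB.mono le_rfl hNx le_rfl) hPx le_rfl
  refine h2.mono le_rfl dvd_rfl le_rfl (le_of_eq ?_)
  push_cast
  ring

theorem far {A : Dat G} (hA : A.Ok) (R : Rep G H) (N : ℕ) : ∃ C E : ℕ,
    ∀ (Q N1 m m' t : ℕ) (κ : ℝ) (B0 : H →L[ℂ] H), 0 < Q → A.P0 * Q ≤ 2 ^ N1 →
    A.Loc R N N1 κ B0 → N1 ≤ m' → m' + E * (t + 1) ≤ m →
    ‖A.Ph R 0 Q m * B0 * star (A.Ph R 0 Q m') - A.Ph R 0 Q m * B0‖ ≤ C * κ * (1 / 2) ^ t ∧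
    ‖A.Ph R 0 Q m * B0 * A.Ph R 0 Q m' - A.Ph R 0 Q m * B0‖ ≤ C * κ * (1 / 2) ^ t := by
  obtain ⟨C, E, h⟩ := ri_loc hA R N
  refine ⟨A.D * C, E, ?_⟩
  intro Q N1 m m' t κ B0 hQ hP hB hNx hxm
  have hκ : 0 ≤ κ := loc_nonneg hB
  obtain ⟨h1, h2⟩ := A.ri_mul_Ph R (by positivity) (h Q N1 m m' t κ B0 hQ hP hB hNx hxm)
  have e : ((A.D * C : ℕ) : ℝ) * κ * (1 / 2) ^ t = A.D * (C * κ * (1 / 2) ^ t) := by
    push_cast
    ring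
  rw [e]
  exact ⟨h2, h1⟩

private theorem mul_star_AA (A : Dat G) (R : Rep G H) (T : H →L[ℂ] H) (M : ℕ) :
    T * star (A.AA R M) = ((M : ℂ) ^ A.k)⁻¹ •
      ∑ v ∈ Fintype.piFinset (fun _ : Fin A.k => range M), T * R.U (A.S v)⁻¹ := by
  have e : star (((M : ℂ) ^ A.k)⁻¹) = ((M : ℂ) ^ A.k)⁻¹ := by
    rw [star_inv₀, star_pow, star_natCast]
  unfold Dat.AA
  rw [star_smul, star_sum, e, mul_smul_comm, Finset.mul_sum]
  simp only [R.star_U]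

theorem eq_right {A : Dat G} (hA : A.Ok) (R : Rep G H) (N : ℕ) : ∃ C E : ℕ,
    ∀ (Q N1 n m t M : ℕ) (κ : ℝ) (B0 : H →L[ℂ] H), 0 < Q → A.P0 * Q ≤ 2 ^ N1 →
    A.Loc R N N1 κ B0 → 0 < M → A.P0 * Q ∣ M → M ≤ 2 ^ n → N1 ≤ n → n + E * (t + 1) ≤ m →
    ‖A.Ph R 0 Q m * B0 * star (A.AA R M) - A.Ph R 0 Q m * B0 * star (A.AA R (A.P0 * Q))‖ ≤
      C * κ * (1 / 2) ^ t := by
  obtain ⟨C, E, h⟩ := ri_loc hA R N
  refine ⟨A.C1 * C, E + A.C1, ?_⟩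
  intro Q N1 n m t M κ B0 hQ hP hB hM hdvd hMn hNn hnm
  have hκ : 0 ≤ κ := loc_nonneg hB
  have hnm' : n + A.C1 + E * (t + 1) ≤ m := by
    have e : (E + A.C1) * (t + 1) = E * (t + 1) + A.C1 * t + A.C1 := by ring
    rw [e] at hnm
    omega
  have hRI := h Q N1 m (n + A.C1) t κ B0 hQ hP hB (by omega) hnm'
  set T := A.Ph R 0 Q m * B0 with hT
  have hPpos : 0 < A.P0 * Q := by
    rcases Nat.eq_zero_or_pos (A.P0 * Q) with h0 | h0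
    · rw [h0] at hdvd
      have := Nat.eq_zero_of_zero_dvd hdvd
      omega
    · exact h0
  have hPM : A.P0 * Q ≤ M := Nat.le_of_dvd hM hdvd
  rw [mul_star_AA, mul_star_AA]
  have e : ((A.C1 * C : ℕ) : ℝ) * κ * (1 / 2) ^ t = A.C1 * (C * κ * (1 / 2) ^ t) := by
    push_cast
    ring
  rw [e]
  refine cube_avg hPpos hM hdvd (fun v => T * R.U (A.S v)⁻¹) (by positivity) ?_
  intro v hv
  set r : Fin A.k → ℕ := fun l => v l % (A.P0 * Q) with hr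
  set g : Fin A.k → ℕ := fun l => A.P0 * Q * (v l / (A.P0 * Q)) with hg
  have hv2 : r + g = v := by
    funext l
    exact Nat.mod_add_div (v l) (A.P0 * Q)
  have hy := hA.A3 r g Q n n 0 hQ (fun l => dvd_mul_right _ _)
    (fun l => ((Nat.mod_le _ _).trans (hv l).le).trans hMn)
    (fun l => ((Nat.mul_div_le _ _).trans (hv l).le).trans hMn) (by omega)
  rw [hv2, Nat.sub_zero] at hy
  have hyi := A.BN_inv hy
  have h1 := hRI.BN (by positivity) hyi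
  have e2 : T * R.U (A.S v)⁻¹ - T * R.U (A.S r)⁻¹ =
      (T * R.U ((A.S r)⁻¹ * A.S v)⁻¹ - T) * R.U (A.S r)⁻¹ := by
    have e3 : R.U (A.S v)⁻¹ = R.U ((A.S r)⁻¹ * A.S v)⁻¹ * R.U (A.S r)⁻¹ := by
      rw [← map_mul]
      congr 1
      group
    rw [e3]
    noncomm_ring
  show ‖T * R.U (A.S v)⁻¹ - T * R.U (A.S r)⁻¹‖ ≤ _
  rw [e2]
  calc _ ≤ ‖T * R.U ((A.S r)⁻¹ * A.S v)⁻¹ - T‖ * ‖R.U (A.S r)⁻¹‖ := norm_mul_le _ _
    _ ≤ ‖T * R.U ((A.S r)⁻¹ * A.S v)⁻¹ - T‖ * 1 := by gcongr; exact R.norm_le _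
    _ ≤ _ := by rw [mul_one]; exact h1

end Pool.Agent.Lib.Npm
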