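import Pool.Agent.Lib.Npm.Schur

/-!
# Square functions of families which are almost orthogonal at distance `≥ g`
-/

set_option autoImplicit false

open ContinuousLinearMap
open scoped InnerProductSpace

namespace Pool.Agent.Lib.Npm

variable {H : Type*} [NormedAddCommGroup H] [InnerProductSpace ℂ H] [CompleteSpace H]

theorem norm_mul_adj_comm (S T : H →L[ℂ] H) : ‖S * adjoint T‖ = ‖T * adjoint S‖ := by
  have h : adjoint (S * adjoint T) = T * adjoint S := by
    simp only [← star_eq_adjoint, star_mul, star_star]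
  rw [← h]
  exact (LinearIsometryEquiv.norm_map (adjoint (𝕜 := ℂ) (E := H) (F := H)) _).symm

theorem norm_mul_adj_le (S T : H →L[ℂ] H) : ‖S * adjoint T‖ ≤ ‖S‖ * ‖T‖ := by
  refine (norm_mul_le _ _).trans_eq ?_
  rw [LinearIsometryEquiv.norm_map]

/-- PROOF. `schur` with `B = 2 g α ^ 2 + N ε`: for a fixed `i` there are at most `2 g` indices `j`
with `|i - j| < g`, each contributes at most `α ^ 2`. -/
theorem schur_gap {s : Finset ℕ} {N : ℕ} (hN : s.card ≤ N) {T : ℕ → H →L[ℂ] H} {α ε : ℝ}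
    (hα : 0 ≤ α) (hε : 0 ≤ ε) {g : ℕ} (hg : 1 ≤ g) (h1 : ∀ i ∈ s, ‖T i‖ ≤ α)
    (h2 : ∀ i ∈ s, ∀ j ∈ s, i + g ≤ j → ‖T j * adjoint (T i)‖ ≤ ε) (f : H) :
    ∑ i ∈ s, ‖T i f‖ ^ 2 ≤ (2 * g * α ^ 2 + N * ε) * ‖f‖ ^ 2 := by
  refine schur s T (by positivity) (fun i hi => ?_) f
  classical
  have h3 : ∀ j ∈ s, ‖T i * adjoint (T j)‖ ≤
      (if j ∈ Finset.Ico (i + 1 - g) (i + g) then α ^ 2 else 0) + ε := by
    intro j hj
    split_ifs with hm
    · have := norm_mul_adj_le (T i) (T j)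
      have h4 : ‖T i‖ * ‖T j‖ ≤ α ^ 2 := by
        rw [sq]
        exact mul_le_mul (h1 i hi) (h1 j hj) (norm_nonneg _) hα
      linarith
    · rw [Finset.mem_Ico, not_and_or, not_le, not_lt] at hm
      rw [zero_add]
      rcases hm with hm | hm
      · exact h2 j hj i hi (by omega)
      · rw [norm_mul_adj_comm]
        exact h2 i hi j hj (by omega)
  refine (Finset.sum_le_sum h3).trans ?_
  rw [Finset.sum_add_distrib, Finset.sum_const, nsmul_eq_mul, Finset.sum_ite_mem,
    Finset.sum_const, nsmul_eq_mul]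
  refine add_le_add ?_ ?_
  · refine mul_le_mul_of_nonneg_right ?_ (sq_nonneg α)
    have h5 : (s ∩ Finset.Ico (i + 1 - g) (i + g)).card ≤ 2 * g := by
      refine (Finset.card_le_card Finset.inter_subset_right).trans ?_
      rw [Nat.card_Ico]
      omega
    exact_mod_cast h5
  · refine mul_le_mul_of_nonneg_right ?_ hε
    exact_mod_cast hN

/-- geometric decay instead of the number of terms -/
theorem schur_geo {s : Finset ℕ} {T : ℕ → H →L[ℂ] H} {α κ ρ : ℝ}
    (hα : 0 ≤ α) (hκ : 0 ≤ κ) (hρ : 0 ≤ ρ) (hρ1 : ρ < 1) {g : ℕ} (hg : 1 ≤ g)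
    (h1 : ∀ i ∈ s, ‖T i‖ ≤ α)
    (h2 : ∀ i ∈ s, ∀ j ∈ s, i + g ≤ j → ‖T j * adjoint (T i)‖ ≤ κ * ρ ^ (j - i)) (f : H) :
    ∑ i ∈ s, ‖T i f‖ ^ 2 ≤ (2 * g * α ^ 2 + 2 * (κ * ρ ^ g / (1 - ρ))) * ‖f‖ ^ 2 := by
  have hρ1' : 0 < 1 - ρ := by linarith
  refine schur s T (by positivity) (fun i hi => ?_) f
  classical
  have h3 : ∀ j ∈ s, ‖T i * adjoint (T j)‖ ≤
      (if j ∈ Finset.Ico (i + 1 - g) (i + g) then α ^ 2 else 0) +
      ((if i + g ≤ j then κ * ρ ^ (j - i) else 0) + (if j + g ≤ i then κ * ρ ^ (i - j) else 0)) := by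
    intro j hj
    have hp : ∀ n, 0 ≤ κ * ρ ^ n := fun n => by positivity
    have hp1 : 0 ≤ (if i + g ≤ j then κ * ρ ^ (j - i) else 0) := by
      split_ifs
      · exact hp _
      · exact le_rfl
    have hp2 : 0 ≤ (if j + g ≤ i then κ * ρ ^ (i - j) else 0) := by
      split_ifs
      · exact hp _
      · exact le_rfl
    by_cases hm : j ∈ Finset.Ico (i + 1 - g) (i + g)
    · rw [if_pos hm]
      have := norm_mul_adj_le (T i) (T j)
      have h4 : ‖T i‖ * ‖T j‖ ≤ α ^ 2 := by
        rw [sq]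
        exact mul_le_mul (h1 i hi) (h1 j hj) (norm_nonneg _) hα
      linarith
    · rw [if_neg hm, zero_add]
      rw [Finset.mem_Ico, not_and_or, not_le, not_lt] at hm
      rcases hm with hm | hm
      · have := h2 j hj i hi (by omega)
        rw [if_neg (by omega : ¬ i + g ≤ j), if_pos (by omega : j + g ≤ i), zero_add]
        exact this
      · have := h2 i hi j hj (by omega)
        rw [if_pos (by omega : i + g ≤ j), if_neg (by omega : ¬ j + g ≤ i), add_zero,
          norm_mul_adj_comm]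
        exact this
  refine (Finset.sum_le_sum h3).trans ?_
  rw [Finset.sum_add_distrib, Finset.sum_add_distrib, Finset.sum_ite_mem,
    Finset.sum_const, nsmul_eq_mul, two_mul (κ * ρ ^ g / (1 - ρ))]
  have hgeo : ∀ t : Finset ℕ, (∀ n ∈ t, g ≤ n) → ∑ n ∈ t, κ * ρ ^ n ≤ κ * ρ ^ g / (1 - ρ) := by
    intro t ht
    have hsum : Summable fun n : ℕ => κ * ρ ^ (n + g) :=
      ((summable_nat_add_iff g).2 (summable_geometric_of_lt_one hρ hρ1)).mul_left κ
    have h6 : ∑ n ∈ t, κ * ρ ^ n = ∑ n ∈ t.image (fun n => n - g), κ * ρ ^ (n + g) := by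
      rw [Finset.sum_image]
      · exact Finset.sum_congr rfl fun n hn => by rw [Nat.sub_add_cancel (ht n hn)]
      · intro a ha b hb hab
        have h7 := ht a ha
        have h8 := ht b hb
        simp only at hab
        omega
    rw [h6]
    refine (hsum.sum_le_tsum _ fun n _ => by positivity).trans_eq ?_
    rw [tsum_mul_left]
    have h9 : ∑' n : ℕ, ρ ^ (n + g) = ρ ^ g / (1 - ρ) := by
      simp only [pow_add]
      rw [tsum_mul_right, tsum_geometric_of_lt_one hρ hρ1]
      field_simp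
    rw [h9]
    ring
  refine add_le_add ?_ (add_le_add ?_ ?_)
  · refine mul_le_mul_of_nonneg_right ?_ (sq_nonneg α)
    have h5 : (s ∩ Finset.Ico (i + 1 - g) (i + g)).card ≤ 2 * g := by
      refine (Finset.card_le_card Finset.inter_subset_right).trans ?_
      rw [Nat.card_Ico]
      omega
    exact_mod_cast h5
  · rw [← Finset.sum_filter]
    have h6 : ∑ j ∈ s.filter (fun j => i + g ≤ j), κ * ρ ^ (j - i) =
        ∑ n ∈ (s.filter (fun j => i + g ≤ j)).image (fun j => j - i), κ * ρ ^ n := by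
      rw [Finset.sum_image]
      intro a ha b hb hab
      simp only [Finset.coe_filter, Set.mem_setOf_eq] at ha hb hab
      omega
    rw [h6]
    refine hgeo _ fun n hn => ?_
    simp only [Finset.mem_image, Finset.mem_filter] at hn
    obtain ⟨j, hj, rfl⟩ := hn
    omega
  · rw [← Finset.sum_filter]
    have h6 : ∑ j ∈ s.filter (fun j => j + g ≤ i), κ * ρ ^ (i - j) =
        ∑ n ∈ (s.filter (fun j => j + g ≤ i)).image (fun j => i - j), κ * ρ ^ n := by
      rw [Finset.sum_image]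
      intro a ha b hb hab
      simp only [Finset.coe_filter, Set.mem_setOf_eq] at ha hb hab
      omega
    rw [h6]
    refine hgeo _ fun n hn => ?_
    simp only [Finset.mem_image, Finset.mem_filter] at hn
    obtain ⟨j, hj, rfl⟩ := hn
    omega

end Pool.Agent.Lib.Npm
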