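import Pool.Agent.Lib.Npm.RM
import Pool.Agent.Lib.Npm.SchurGeo

/-!
# The finite range: an abstract maximal inequality
-/

set_option autoImplicit false
set_option maxHeartbeats 4000000

open MeasureTheory ContinuousLinearMap
open scoped ENNReal

namespace Pool.Agent.Lib.Npm

section algebra

variable {H : Type*} [NormedAddCommGroup H] [InnerProductSpace ℂ H] [CompleteSpace H]

theorem cross_le {P : ℕ → H →L[ℂ] H} {m0 s : ℕ} {ε : ℝ}
    (hc : ∀ m m', m0 ≤ m' → m' + s ≤ m → ‖P m * adjoint (P m') - P m‖ ≤ ε)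
    {a b c d : ℕ} (hc0 : m0 ≤ c) (hd0 : m0 ≤ d) (hac : c + s ≤ a) (had : d + s ≤ a)
    (hbc : c + s ≤ b) (hbd : d + s ≤ b) :
    ‖(P a - P b) * adjoint (P c - P d)‖ ≤ 4 * ε := by
  have e : (P a - P b) * adjoint (P c - P d) =
      (P a * adjoint (P c) - P a) - (P a * adjoint (P d) - P a) -
        (P b * adjoint (P c) - P b) + (P b * adjoint (P d) - P b) := by
    rw [map_sub]
    noncomm_ring
  rw [e]
  have h1 := hc a c hc0 hac
  have h2 := hc a d hd0 had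
  have h3 := hc b c hc0 hbc
  have h4 := hc b d hd0 hbd
  refine (norm_add_le _ _).trans ?_
  have h5 := norm_sub_le ((P a * adjoint (P c) - P a) - (P a * adjoint (P d) - P a))
    (P b * adjoint (P c) - P b)
  have h6 := norm_sub_le (P a * adjoint (P c) - P a) (P a * adjoint (P d) - P a)
  linarith

theorem norm_mul_mul_adj_le {A A' X X' : H →L[ℂ] H} {ε : ℝ} (hA : ‖A‖ ≤ 1) (hA' : ‖A'‖ ≤ 1)
    (h : ‖X * adjoint X'‖ ≤ ε) : ‖A * X * adjoint (A' * X')‖ ≤ ε := by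
  have e : A * X * adjoint (A' * X') = A * (X * adjoint X') * adjoint A' := by
    simp only [← star_eq_adjoint, star_mul, mul_assoc]
  rw [e]
  have h0 : 0 ≤ ε := (norm_nonneg _).trans h
  calc ‖A * (X * adjoint X') * adjoint A'‖ ≤ ‖A‖ * ‖X * adjoint X'‖ * ‖adjoint A'‖ :=
        (norm_mul_le _ _).trans (mul_le_mul_of_nonneg_right (norm_mul_le _ _) (norm_nonneg _))
    _ ≤ 1 * ε * 1 := by
        rw [LinearIsometryEquiv.norm_map]
        gcongr
    _ = ε := by ring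

end algebra

variable {X : Type*} [MeasurableSpace X] {μ : Measure X}

theorem mx_le_schur {n0 N J : ℕ} (hJ : N ≤ n0 + 2 ^ J)
    {T : ℕ → Lp ℂ 2 μ →L[ℂ] Lp ℂ 2 μ} {κ : ℝ} (hκ : 0 ≤ κ) (f : Lp ℂ 2 μ)
    (h : ∀ s : Finset ℕ, (∀ n ∈ s, n0 ≤ n ∧ n ≤ N) → s.card ≤ 2 ^ (J + 1) →
      ∑ n ∈ s, ‖T n f‖ ^ 2 ≤ κ ^ 2 * ‖f‖ ^ 2) :
    mx {n | n0 ≤ n ∧ n ≤ N} (fun n => T n f) ≤ ENNReal.ofReal (κ * ‖f‖) := by
  refine mx_le_of_finite (by positivity) fun t ht => ?_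
  rw [mul_pow]
  refine h t (fun n hn => ht hn) ?_
  have h1 : t ⊆ Finset.Icc n0 N := fun n hn => Finset.mem_Icc.2 (ht hn)
  refine (Finset.card_le_card h1).trans ?_
  rw [Nat.card_Icc, pow_succ]
  have h3 : 0 < 2 ^ J := by positivity
  omega

theorem fin_range {n0 N J : ℕ} (hJ : N ≤ n0 + 2 ^ J)
    {A P R : ℕ → Lp ℂ 2 μ →L[ℂ] Lp ℂ 2 μ} {As : Lp ℂ 2 μ →L[ℂ] Lp ℂ 2 μ} {l l' h s m0 : ℕ}
    (hl : l' ≤ l) (hm0 : m0 + s + l ≤ n0) {α β ε : ℝ} (hα : 0 ≤ α) (hβ : 1 ≤ β)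
    (hε : 0 ≤ ε) (hε1 : ε ≤ 1)
    (hA : ∀ n, ‖A n‖ ≤ 1) (hAs : ‖As‖ ≤ 1) (hP : ∀ m, m0 ≤ m → ‖P m‖ ≤ β)
    (a1 : ∀ n m, n0 ≤ n → m0 ≤ m → ‖A n * P m‖ ≤ α)
    (a2 : ∀ n, n0 ≤ n → ‖A n * (R (n - l) - R (n - l'))‖ ≤ α)
    (a3 : ‖As * P m0‖ ≤ α)
    (c1 : ∀ m m', m0 ≤ m' → m' + s ≤ m → ‖P m * adjoint (P m') - P m‖ ≤ ε)
    (c2 : ∀ m m', m0 ≤ m' → m' + s ≤ m → ‖R m * adjoint (R m') - R m‖ ≤ ε)
    (d1 : ∀ m, m0 + s ≤ m → ‖P m0 * P m - P m‖ ≤ ε)
    (d2 : ∀ n, n0 ≤ n → ‖(A n - As) * P (n + h)‖ ≤ ε) (f : Lp ℂ 2 μ) :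
    mx {n | n0 ≤ n ∧ n ≤ N} (fun n => A n ((P (n - l) + R (n - l) - R (n - l')) f)) ≤
      ENNReal.ofReal (14 * (J + 1) *
        √((s + h + l + 1) * (α * β) ^ 2 + (1 + α ^ 2) * (2 ^ J * ε)) * ‖f‖) := by
  set κ : ℝ := √((s + h + l + 1) * (α * β) ^ 2 + (1 + α ^ 2) * (2 ^ J * ε)) with hκ
  have hκ0 : 0 ≤ κ := Real.sqrt_nonneg _
  have hβ0 : 0 ≤ β := by linarith
  have hκ2 : κ ^ 2 = (s + h + l + 1) * (α * β) ^ 2 + (1 + α ^ 2) * (2 ^ J * ε) := by
    rw [hκ, Real.sq_sqrt (by positivity)]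
  have hJ1 : (1 : ℝ) ≤ 2 ^ J := one_le_pow₀ (by norm_num)
  have hJε : ε ≤ 2 ^ J * ε := le_mul_of_one_le_left hε hJ1
  have hαβ : α ≤ α * β := le_mul_of_one_le_right hα hβ
  have hαβ2 : α ^ 2 ≤ (α * β) ^ 2 := by gcongr
  have hnn : (0 : ℝ) ≤ (s + h + l + 1) * (α * β) ^ 2 := by positivity
  have hnn2 : (0 : ℝ) ≤ 2 ^ J * ε := by positivity
  have hnn3 : 2 ^ J * ε ≤ (1 + α ^ 2) * (2 ^ J * ε) :=
    le_mul_of_one_le_left hnn2 (by nlinarith [sq_nonneg α])
  have hgα : ((s : ℝ) + h + l + 1) * α ^ 2 ≤ (s + h + l + 1) * (α * β) ^ 2 := by gcongr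
  have hκ3 : (3 * κ) ^ 2 =
      9 * ((s + h + l + 1) * (α * β) ^ 2 + (1 + α ^ 2) * (2 ^ J * ε)) := by
    rw [mul_pow, hκ2]; norm_num
  have hκ22 : (2 * κ) ^ 2 =
      4 * ((s + h + l + 1) * (α * β) ^ 2 + (1 + α ^ 2) * (2 ^ J * ε)) := by
    rw [mul_pow, hκ2]; norm_num
  have hκ4 : (4 * κ) ^ 2 =
      16 * ((s + h + l + 1) * (α * β) ^ 2 + (1 + α ^ 2) * (2 ^ J * ε)) := by
    rw [mul_pow, hκ2]; norm_num
  -- the first piece
  have p1 : mx {n | n0 ≤ n ∧ n ≤ N} (fun n => (A n * (P (n - l) - P (n + h))) f) ≤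
      ENNReal.ofReal ((3 * κ) * ‖f‖) := by
    refine mx_le_schur hJ (T := fun n => A n * (P (n - l) - P (n + h))) (by positivity) f
      fun t ht hc => ?_
    refine (schur_gap (α := 2 * α) (ε := 4 * ε) (g := s + h + l + 1) hc (by positivity)
      (by positivity) (by omega) ?_ ?_ f).trans ?_
    · intro n hn
      have h1 := ht n hn
      rw [mul_sub]
      refine (norm_sub_le _ _).trans ?_
      have := a1 n (n - l) h1.1 (by omega)
      have := a1 n (n + h) h1.1 (by omega)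
      linarith
    · intro i hi j hj hij
      have h1 := ht i hi
      exact norm_mul_mul_adj_le (hA _) (hA _) (cross_le c1 (by omega) (by omega) (by omega)
        (by omega) (by omega) (by omega))
    · refine mul_le_mul_of_nonneg_right ?_ (by positivity)
      push_cast
      rw [hκ3]
      have e1 : 2 * ((s : ℝ) + h + l + 1) * (2 * α) ^ 2 = 8 * ((s + h + l + 1) * α ^ 2) := by ring
      have e2 : (2 : ℝ) ^ (J + 1) * (4 * ε) = 8 * (2 ^ J * ε) := by ring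
      rw [e1, e2]
      linarith
  have p2 : mx {n | n0 ≤ n ∧ n ≤ N} (fun n => (A n * (R (n - l) - R (n - l'))) f) ≤
      ENNReal.ofReal ((3 * κ) * ‖f‖) := by
    refine mx_le_schur hJ (T := fun n => A n * (R (n - l) - R (n - l'))) (by positivity) f
      fun t ht hc => ?_
    refine (schur_gap (α := α) (ε := 4 * ε) (g := s + h + l + 1) hc (by positivity)
      (by positivity) (by omega) ?_ ?_ f).trans ?_
    · intro n hn
      exact a2 n (ht n hn).1
    · intro i hi j hj hij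
      have h1 := ht i hi
      exact norm_mul_mul_adj_le (hA _) (hA _) (cross_le c2 (by omega) (by omega) (by omega)
        (by omega) (by omega) (by omega))
    · refine mul_le_mul_of_nonneg_right ?_ (by positivity)
      push_cast
      rw [hκ3]
      have e1 : 2 * ((s : ℝ) + h + l + 1) * α ^ 2 = 2 * ((s + h + l + 1) * α ^ 2) := by ring
      have e2 : (2 : ℝ) ^ (J + 1) * (4 * ε) = 8 * (2 ^ J * ε) := by ring
      rw [e1, e2]
      linarith
  have p3 : mx {n | n0 ≤ n ∧ n ≤ N} (fun n => ((A n - As) * P (n + h)) f) ≤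
      ENNReal.ofReal ((2 * κ) * ‖f‖) := by
    refine mx_le_schur hJ (T := fun n => (A n - As) * P (n + h)) (by positivity) f
      fun t ht hc => ?_
    have h1 : ∀ n ∈ t, ‖((A n - As) * P (n + h)) f‖ ^ 2 ≤ ε * ‖f‖ ^ 2 := by
      intro n hn
      have h2 := ((A n - As) * P (n + h)).le_opNorm f
      have h3 := d2 n (ht n hn).1
      have h4 : ‖((A n - As) * P (n + h)) f‖ ≤ ε * ‖f‖ :=
        h2.trans (mul_le_mul_of_nonneg_right h3 (norm_nonneg _))
      calc ‖((A n - As) * P (n + h)) f‖ ^ 2 ≤ (ε * ‖f‖) ^ 2 := by gcongr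
        _ = ε * ε * ‖f‖ ^ 2 := by ring
        _ ≤ ε * 1 * ‖f‖ ^ 2 := by gcongr
        _ = _ := by ring
    refine (Finset.sum_le_sum h1).trans ?_
    rw [Finset.sum_const, nsmul_eq_mul]
    have h2 : (t.card : ℝ) ≤ 2 ^ (J + 1) := by exact_mod_cast hc
    calc (t.card : ℝ) * (ε * ‖f‖ ^ 2) ≤ 2 ^ (J + 1) * (ε * ‖f‖ ^ 2) := by gcongr
      _ = (2 * (2 ^ J * ε)) * ‖f‖ ^ 2 := by ring
      _ ≤ (2 * κ) ^ 2 * ‖f‖ ^ 2 := by
          refine mul_le_mul_of_nonneg_right ?_ (by positivity)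
          rw [hκ22]
          linarith
  -- the main piece
  set F : ℕ → Lp ℂ 2 μ := fun n => (As * P (n + h)) f with hF
  have hAsP : ∀ m, m0 + s ≤ m → ∀ v, ‖As (P m v)‖ ≤ α * ‖P m v‖ + ε * ‖v‖ := by
    intro m hm v
    have e : As (P m v) = (As * P m0) (P m v) - As ((P m0 * P m - P m) v) := by
      simp
    rw [e]
    refine (norm_sub_le _ _).trans (add_le_add ?_ ?_)
    · exact ((As * P m0).le_opNorm _).trans (mul_le_mul_of_nonneg_right a3 (norm_nonneg _))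
    · refine (As.le_opNorm _).trans ?_
      have h1 := (P m0 * P m - P m).le_opNorm v
      have h2 := mul_le_mul_of_nonneg_right (d1 m hm) (norm_nonneg v)
      calc ‖As‖ * ‖(P m0 * P m - P m) v‖ ≤ 1 * ‖(P m0 * P m - P m) v‖ := by gcongr
        _ ≤ ε * ‖v‖ := by rw [one_mul]; exact h1.trans h2
  have p4 : mx {n | n0 ≤ n ∧ n ≤ N} F ≤ ENNReal.ofReal ((4 * (J + 1) * κ + 2 * κ) * ‖f‖) := by
    have h1 : mx {n | n0 ≤ n ∧ n ≤ N} F ≤
        mx {n | n0 ≤ n ∧ n ≤ n0 + 2 ^ J} (fun n => F n - F n0) + ‖F n0‖ₑ := by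
      calc mx {n | n0 ≤ n ∧ n ≤ N} F
          ≤ mx {n | n0 ≤ n ∧ n ≤ n0 + 2 ^ J} F :=
            mx_mono (fun n (hn : n0 ≤ n ∧ n ≤ N) => And.intro hn.1 (hn.2.trans hJ)) F
        _ = mx {n | n0 ≤ n ∧ n ≤ n0 + 2 ^ J} (fun n => (F n - F n0) + F n0) :=
            mx_congr fun n _ => by simp
        _ ≤ _ := (mx_add_le _ _ _).trans (add_le_add le_rfl (mx_const_le _ _))
    refine h1.trans ?_
    have h2 := rm F n0 J
    have h3 : ∀ j ∈ Finset.range (J + 1), ENNReal.ofReal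
        √(∑ k ∈ Finset.range (2 ^ (J - j)), ‖F (n0 + (k + 1) * 2 ^ j) - F (n0 + k * 2 ^ j)‖ ^ 2) ≤
        ENNReal.ofReal (4 * κ * ‖f‖) := by
      intro j hj
      refine ENNReal.ofReal_le_ofReal (Real.sqrt_le_left (by positivity) |>.2 ?_)
      set T : ℕ → Lp ℂ 2 μ →L[ℂ] Lp ℂ 2 μ := fun k =>
        P (n0 + (k + 1) * 2 ^ j + h) - P (n0 + k * 2 ^ j + h) with hT
      have hj1 : 1 ≤ 2 ^ j := Nat.one_le_two_pow
      have h4 : ∀ k ∈ Finset.range (2 ^ (J - j)),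
          ‖F (n0 + (k + 1) * 2 ^ j) - F (n0 + k * 2 ^ j)‖ ^ 2 ≤
            2 * α ^ 2 * ‖T k f‖ ^ 2 + 8 * ε * ‖f‖ ^ 2 := by
        intro k _
        have e : F (n0 + (k + 1) * 2 ^ j) - F (n0 + k * 2 ^ j) =
            (As * P m0) (T k f) - As ((P m0 * P (n0 + (k + 1) * 2 ^ j + h) -
              P (n0 + (k + 1) * 2 ^ j + h)) f) + As ((P m0 * P (n0 + k * 2 ^ j + h) -
              P (n0 + k * 2 ^ j + h)) f) := by
          simp only [hF, hT, mul_apply_eq_comp, sub_apply, map_sub]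
          abel
        have h5 : ∀ m, m0 + s ≤ m → ‖As ((P m0 * P m - P m) f)‖ ≤ ε * ‖f‖ := by
          intro m hm
          refine (As.le_opNorm _).trans ?_
          have h1 := (P m0 * P m - P m).le_opNorm f
          have h2 := mul_le_mul_of_nonneg_right (d1 m hm) (norm_nonneg f)
          calc ‖As‖ * ‖(P m0 * P m - P m) f‖ ≤ 1 * ‖(P m0 * P m - P m) f‖ := by gcongr
            _ ≤ ε * ‖f‖ := by rw [one_mul]; exact h1.trans h2
        have h6 := h5 (n0 + (k + 1) * 2 ^ j + h) (by omega)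
        have h7 := h5 (n0 + k * 2 ^ j + h) (by omega)
        have h8 : ‖(As * P m0) (T k f)‖ ≤ α * ‖T k f‖ :=
          ((As * P m0).le_opNorm _).trans (mul_le_mul_of_nonneg_right a3 (norm_nonneg _))
        have h9 : ‖F (n0 + (k + 1) * 2 ^ j) - F (n0 + k * 2 ^ j)‖ ≤
            α * ‖T k f‖ + 2 * ε * ‖f‖ := by
          rw [e]
          refine (norm_add_le _ _).trans ?_
          have := norm_sub_le ((As * P m0) (T k f)) (As ((P m0 * P (n0 + (k + 1) * 2 ^ j + h) -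
              P (n0 + (k + 1) * 2 ^ j + h)) f))
          linarith
        have h10 : 0 ≤ α * ‖T k f‖ := by positivity
        calc ‖F (n0 + (k + 1) * 2 ^ j) - F (n0 + k * 2 ^ j)‖ ^ 2
            ≤ (α * ‖T k f‖ + 2 * ε * ‖f‖) ^ 2 := by gcongr
          _ ≤ 2 * (α * ‖T k f‖) ^ 2 + 2 * (2 * ε * ‖f‖) ^ 2 := by
              nlinarith [sq_nonneg (α * ‖T k f‖ - 2 * ε * ‖f‖)]
          _ = 2 * α ^ 2 * ‖T k f‖ ^ 2 + 8 * (ε * ε) * ‖f‖ ^ 2 := by ring
          _ ≤ 2 * α ^ 2 * ‖T k f‖ ^ 2 + 8 * (ε * 1) * ‖f‖ ^ 2 := by gcongr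
          _ = _ := by ring
      refine (Finset.sum_le_sum h4).trans ?_
      rw [Finset.sum_add_distrib, ← Finset.mul_sum, Finset.sum_const, Finset.card_range,
        nsmul_eq_mul]
      have hcard : 2 ^ (J - j) ≤ 2 ^ J := Nat.pow_le_pow_right (by norm_num) (by omega)
      have h11 := schur_gap (s := Finset.range (2 ^ (J - j))) (N := 2 ^ J) (T := T)
        (α := 2 * β) (ε := 4 * ε) (g := s + 1)
        (by rw [Finset.card_range]; exact hcard) (by positivity) (by positivity) (by omega)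
        (by
          intro k _
          refine (norm_sub_le _ _).trans ?_
          have := hP (n0 + (k + 1) * 2 ^ j + h) (by omega)
          have := hP (n0 + k * 2 ^ j + h) (by omega)
          linarith)
        (by
          intro i _ k _ hik
          have h12 : (i + 1) * 2 ^ j + s ≤ k * 2 ^ j := by
            calc (i + 1) * 2 ^ j + s ≤ (i + 1) * 2 ^ j + s * 2 ^ j := by
                  gcongr
                  exact Nat.le_mul_of_pos_right _ (by positivity)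
              _ = (i + 1 + s) * 2 ^ j := by ring
              _ ≤ k * 2 ^ j := Nat.mul_le_mul_right _ (by omega)
          have h13 : i * 2 ^ j ≤ (i + 1) * 2 ^ j := Nat.mul_le_mul_right _ (by omega)
          have h14 : k * 2 ^ j ≤ (k + 1) * 2 ^ j := Nat.mul_le_mul_right _ (by omega)
          exact cross_le c1 (by omega) (by omega) (by omega) (by omega) (by omega) (by omega)) f
      have h15 : ((2 ^ (J - j) : ℕ) : ℝ) ≤ 2 ^ J := by exact_mod_cast hcard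
      push_cast at h11
      calc 2 * α ^ 2 * ∑ k ∈ Finset.range (2 ^ (J - j)), ‖T k f‖ ^ 2 +
            ((2 ^ (J - j) : ℕ) : ℝ) * (8 * ε * ‖f‖ ^ 2)
          ≤ 2 * α ^ 2 * ((2 * (s + 1) * (2 * β) ^ 2 + 2 ^ J * (4 * ε)) * ‖f‖ ^ 2) +
            2 ^ J * (8 * ε * ‖f‖ ^ 2) := by gcongr
        _ = (16 * ((s + 1) * (α * β) ^ 2) + 8 * α ^ 2 * (2 ^ J * ε) + 8 * (2 ^ J * ε)) *
              ‖f‖ ^ 2 := by ring
        _ ≤ (4 * κ) ^ 2 * ‖f‖ ^ 2 := by
            refine mul_le_mul_of_nonneg_right ?_ (by positivity)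
            rw [hκ4]
            have h16 : (0 : ℝ) ≤ (h + l) * (α * β) ^ 2 := by positivity
            have e1 : ((s : ℝ) + h + l + 1) * (α * β) ^ 2 =
              (s + 1) * (α * β) ^ 2 + (h + l) * (α * β) ^ 2 := by ring
            have e2 : 8 * α ^ 2 * (2 ^ J * ε) = 8 * (α ^ 2 * (2 ^ J * ε)) := by ring
            have e3 : (1 + α ^ 2) * (2 ^ J * ε) = 2 ^ J * ε + α ^ 2 * (2 ^ J * ε) := by ring
            have h17 : 0 ≤ α ^ 2 * (2 ^ J * ε) := by positivity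
            rw [e1, e2, e3]
            linarith
        _ = (4 * κ * ‖f‖) ^ 2 := by ring
    have h4 : mx {n | n0 ≤ n ∧ n ≤ n0 + 2 ^ J} (fun n => F n - F n0) ≤
        ENNReal.ofReal (4 * (J + 1) * κ * ‖f‖) := by
      refine (h2.trans (Finset.sum_le_sum h3)).trans_eq ?_
      rw [Finset.sum_const, Finset.card_range, nsmul_eq_mul, ← ENNReal.ofReal_natCast,
        ← ENNReal.ofReal_mul (by positivity)]
      congr 1
      push_cast
      ring
    have h5 : ‖F n0‖ₑ ≤ ENNReal.ofReal (2 * κ * ‖f‖) := by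
      rw [← ofReal_norm]
      refine ENNReal.ofReal_le_ofReal ?_
      have h6 := hAsP (n0 + h) (by omega) f
      have h7 : ‖P (n0 + h) f‖ ≤ β * ‖f‖ := ((P (n0 + h)).le_opNorm f).trans
        (mul_le_mul_of_nonneg_right (hP _ (by omega)) (norm_nonneg _))
      have h8 : α * β ≤ κ := by
        refine Real.le_sqrt_of_sq_le ?_
        have h16 : (0 : ℝ) ≤ (s + h + l) * (α * β) ^ 2 := by positivity
        have e1 : ((s : ℝ) + h + l + 1) * (α * β) ^ 2 =
          (s + h + l) * (α * β) ^ 2 + (α * β) ^ 2 := by ring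
        rw [e1]
        linarith
      have h9 : ε ≤ κ := by
        refine Real.le_sqrt_of_sq_le ?_
        have h16 : ε ^ 2 ≤ ε := by nlinarith
        linarith
      calc ‖F n0‖ = ‖As (P (n0 + h) f)‖ := rfl
        _ ≤ α * ‖P (n0 + h) f‖ + ε * ‖f‖ := h6
        _ ≤ α * (β * ‖f‖) + ε * ‖f‖ := by gcongr
        _ = (α * β + ε) * ‖f‖ := by ring
        _ ≤ (κ + κ) * ‖f‖ := by gcongr
        _ = 2 * κ * ‖f‖ := by ring
    refine (add_le_add h4 h5).trans_eq ?_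
    rw [← ENNReal.ofReal_add (by positivity) (by positivity)]
    congr 1
    ring
  have key : mx {n | n0 ≤ n ∧ n ≤ N} (fun n => A n ((P (n - l) + R (n - l) - R (n - l')) f)) =
      mx {n | n0 ≤ n ∧ n ≤ N} (fun n => ((A n * (P (n - l) - P (n + h))) f +
        (A n * (R (n - l) - R (n - l'))) f) + (((A n - As) * P (n + h)) f + F n)) := by
    refine mx_congr fun n _ => ?_
    simp only [hF, mul_apply_eq_comp, sub_apply, add_apply, map_sub, map_add]
    abel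
  rw [key]
  refine (mx_add_le _ _ _).trans ((add_le_add (mx_add_le _ _ _) (mx_add_le _ _ _)).trans ?_)
  refine (add_le_add (add_le_add p1 p2) (add_le_add p3 p4)).trans ?_
  rw [← ENNReal.ofReal_add (by positivity) (by positivity),
    ← ENNReal.ofReal_add (by positivity) (by positivity),
    ← ENNReal.ofReal_add (by positivity) (by positivity)]
  refine ENNReal.ofReal_le_ofReal ?_
  have hf := norm_nonneg f
  have hκf : 0 ≤ κ * ‖f‖ := by positivity
  have hJ0 : (0 : ℝ) ≤ J := by positivity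
  nlinarith [mul_nonneg hJ0 hκf]

end Pool.Agent.Lib.Npm
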