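import Pool.Agent.Lib.Npm.Orth2

/-!
# NPW (L1), (L2)

`Pi_add`: `Icc 1 (2^(a(u+1)))` is the disjoint union of `Icc 1 (2^(a u))` and `blk a u`.
`l1`: let `w = u / 2`, `s = Icc 1 (2^(a w))`, `P = Pi 0 (blk a u) m`, `A = AA M`. `A P = A (1 - Pi s (n - b w)) P + A (Pi s (n - b w) * P)`. First summand: `CPab` at `w` (`2 b w ≤ n`) and `norm_blk`:
`≤ C (1/2)^w C' rho⁻¹^u`, and `(1/2)^w = rho^(16 w)`, `16 w ≥ 8 u - 16`, so `≤ C'' rho^(8u) rho⁻¹^u = C'' rho^(7u)`. Second summand: `‖A‖ ≤ 1` (`norm_AA_le`) and `orth2` with `v = a (u+1)`, `t = u`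
(`blk a u` and `s` are disjoint because `a w ≤ a u`; `n - b w ≥ n / 2`-type bounds for `E (u + 1) ≤ n`, `E` large): `≤ C (1/2)^u ≤ C rho^(7u)`.
`l2`: with `R_u(m) = Pi 0 (Icc 1 (2^(a u))) m` and `m = n - (b u + b)`: `R_u(m) - R_u(n - b u) = (1 - R_u(n - b u)) - (1 - R_(u+1)(m)) - Pi 0 (blk a u) m` (`Pi_add`); `CPab` at `u` and at `u + 1` (`m = n - b (u + 1)`,
`2 b (u+1) ≤ n`) and `l1`.
-/

set_option autoImplicit false

open Finset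

namespace Pool.Agent.Lib.Npm

open Pool.Agent.Lib.Npw

variable {G H : Type} [Group G] [NormedAddCommGroup H] [InnerProductSpace ℂ H] [CompleteSpace H]

namespace L12Aux

theorem half_pow (w : ℕ) : ((1 : ℝ) / 2) ^ w = rho ^ (16 * w) := by
  rw [pow_mul, rho_pow]

theorem half_le (u : ℕ) : ((1 : ℝ) / 2) ^ (u / 2) ≤ 2 * rho ^ (8 * u) := by
  have h1 : rho ^ (16 * (u / 2) + 16) ≤ rho ^ (8 * u) := by
    apply pow_le_pow_of_le_one rho_pos.le rho_lt_one.le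
    omega
  rw [pow_add, rho_pow, ← half_pow] at h1
  linarith

theorem half_le' (u : ℕ) : ((1 : ℝ) / 2) ^ u ≤ rho ^ (7 * u) := by
  rw [half_pow]
  apply pow_le_pow_of_le_one rho_pos.le rho_lt_one.le
  omega

theorem rho_mul (u : ℕ) : rho ^ (8 * u) * rho⁻¹ ^ u = rho ^ (7 * u) := by
  have h : rho ^ u * rho⁻¹ ^ u = 1 := by
    rw [← mul_pow, mul_inv_cancel₀ rho_pos.ne', one_pow]
  calc rho ^ (8 * u) * rho⁻¹ ^ u = rho ^ (7 * u) * (rho ^ u * rho⁻¹ ^ u) := by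
        rw [show 8 * u = 7 * u + u by ring, pow_add]; ring
    _ = rho ^ (7 * u) := by rw [h, mul_one]

theorem blk_sub (a u : ℕ) : blk a u ⊆ Icc 1 (2 ^ (a * (u + 1))) := by
  intro q hq
  rw [blk, mem_Ioc] at hq
  rw [mem_Icc]
  exact ⟨(Nat.zero_le _).trans_lt hq.1, hq.2⟩

theorem blk_disj (a : ℕ) {w u : ℕ} (h : w ≤ u) :
    Disjoint (Icc 1 (2 ^ (a * w))) (blk a u) := by
  rw [Finset.disjoint_left]
  intro q hq hq'
  rw [mem_Icc] at hq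
  rw [blk, mem_Ioc] at hq'
  have : 2 ^ (a * w) ≤ 2 ^ (a * u) :=
    Nat.pow_le_pow_right (by norm_num) (Nat.mul_le_mul_left a h)
  omega

end L12Aux

theorem Pi_add (A : Dat G) (R : Rep G H) (a u m : ℕ) :
    A.Pi R 0 (Icc 1 (2 ^ (a * (u + 1)))) m =
      A.Pi R 0 (Icc 1 (2 ^ (a * u))) m + A.Pi R 0 (blk a u) m := by
  have h1 : Icc 1 (2 ^ (a * (u + 1))) = Icc 1 (2 ^ (a * u)) ∪ blk a u := by
    have h2 : 2 ^ (a * u) ≤ 2 ^ (a * (u + 1)) :=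
      Nat.pow_le_pow_right (by norm_num) (Nat.mul_le_mul_left a (by omega))
    have h3 : 0 < 2 ^ (a * u) := Nat.two_pow_pos _
    ext q
    rw [mem_union, mem_Icc, mem_Icc, blk, mem_Ioc]
    generalize 2 ^ (a * u) = X at h2 h3 ⊢
    generalize 2 ^ (a * (u + 1)) = Y at h2 ⊢
    omega
  unfold Dat.Pi
  rw [h1, sum_union (L12Aux.blk_disj a le_rfl)]

open L12Aux in
theorem l1 {A : Dat G} (hA : A.Ok) (R : Rep G H) {a b C0 : ℕ} (h : CPab A R a b C0) : ∃ C E : ℕ,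
    ∀ u n m M : ℕ, E * (u + 1) ≤ n → E * (u + 1) ≤ m → 2 ^ n ≤ M → M < 2 ^ (n + 1) →
    ‖A.AA R M * A.Pi R 0 (blk a u) m‖ ≤ C * rho ^ (7 * u) := by
  obtain ⟨C1, E1, h1⟩ := norm_blk hA R a
  obtain ⟨C2, E2, h2⟩ := orth2 hA R
  refine ⟨2 * C0 * C1 + C2, E1 + E2 * (a + 1) + 2 * b, ?_⟩
  intro u n m M hn hm hM hM'
  have eE : (E1 + E2 * (a + 1) + 2 * b) * (u + 1) =
      E1 * (u + 1) + E2 * (a * (u + 1) + u + 1) + 2 * (b * (u + 1)) := by ring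
  rw [eE] at hn hm
  have hw : u / 2 ≤ u := Nat.div_le_self u 2
  have hbw : b * (u / 2) ≤ b * (u + 1) := Nat.mul_le_mul_left b (by omega)
  set P := A.Pi R 0 (blk a u) m with hP
  set S := A.Pi R 0 (Icc 1 (2 ^ (a * (u / 2)))) (n - b * (u / 2)) with hS
  have e1 : A.AA R M * P = A.AA R M * (1 - S) * P + A.AA R M * (S * P) := by noncomm_ring
  have n1 : ‖A.AA R M * (1 - S)‖ ≤ C0 * (1 / 2) ^ (u / 2) := by
    refine h (u / 2) n M ?_ hM hM'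
    have : 2 * b * (u / 2) = 2 * (b * (u / 2)) := by ring
    rw [this]
    omega
  have n2 : ‖P‖ ≤ C1 * rho⁻¹ ^ u := h1 u m (blk a u) (blk_sub a u) (by omega)
  have n3 : ‖S * P‖ ≤ C2 * (1 / 2) ^ u := by
    refine h2 (a * (u + 1)) (n - b * (u / 2)) m u _ _ ?_ (blk_sub a u) (blk_disj a hw) ?_ ?_
    · refine Icc_subset_Icc le_rfl (Nat.pow_le_pow_right (by norm_num) ?_)
      exact Nat.mul_le_mul_left a (by omega)
    · omega
    · omega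
  have n4 : ‖A.AA R M * (S * P)‖ ≤ C2 * (1 / 2) ^ u := by
    refine (norm_mul_le _ _).trans ?_
    calc ‖A.AA R M‖ * ‖S * P‖ ≤ 1 * ‖S * P‖ :=
          mul_le_mul_of_nonneg_right (A.norm_AA_le R M) (norm_nonneg _)
      _ ≤ _ := by rw [one_mul]; exact n3
  have n5 : ‖A.AA R M * (1 - S) * P‖ ≤ (C0 * (1 / 2) ^ (u / 2)) * (C1 * rho⁻¹ ^ u) :=
    (norm_mul_le _ _).trans (mul_le_mul n1 n2 (norm_nonneg _) (by positivity))
  have hr : (0 : ℝ) ≤ rho⁻¹ ^ u := pow_nonneg (inv_nonneg.2 rho_pos.le) u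
  have n6 : ((C0 : ℝ) * (1 / 2) ^ (u / 2)) * (C1 * rho⁻¹ ^ u) ≤ 2 * C0 * C1 * rho ^ (7 * u) := by
    rw [← rho_mul u]
    calc ((C0 : ℝ) * (1 / 2) ^ (u / 2)) * (C1 * rho⁻¹ ^ u)
        = C0 * C1 * rho⁻¹ ^ u * (1 / 2) ^ (u / 2) := by ring
      _ ≤ C0 * C1 * rho⁻¹ ^ u * (2 * rho ^ (8 * u)) :=
          mul_le_mul_of_nonneg_left (half_le u) (by positivity)
      _ = _ := by ring
  have n7 : (C2 : ℝ) * (1 / 2) ^ u ≤ C2 * rho ^ (7 * u) :=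
    mul_le_mul_of_nonneg_left (half_le' u) (by positivity)
  rw [e1]
  refine (norm_add_le _ _).trans ?_
  push_cast
  calc _ ≤ ((C0 : ℝ) * (1 / 2) ^ (u / 2)) * (C1 * rho⁻¹ ^ u) + C2 * (1 / 2) ^ u :=
        add_le_add n5 n4
    _ ≤ 2 * C0 * C1 * rho ^ (7 * u) + C2 * rho ^ (7 * u) := add_le_add n6 n7
    _ = _ := by ring

open L12Aux in
theorem l2 {A : Dat G} (hA : A.Ok) (R : Rep G H) {a b C0 : ℕ} (h : CPab A R a b C0) : ∃ C E : ℕ,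
    ∀ u n M : ℕ, E * (u + 1) ≤ n → 2 ^ n ≤ M → M < 2 ^ (n + 1) →
    ‖A.AA R M * (A.Pi R 0 (Icc 1 (2 ^ (a * u))) (n - (b * u + b)) -
      A.Pi R 0 (Icc 1 (2 ^ (a * u))) (n - b * u))‖ ≤ C * rho ^ (7 * u) := by
  obtain ⟨C1, E1, h1⟩ := l1 hA R h
  refine ⟨2 * C0 + C1, E1 + 2 * b, ?_⟩
  intro u n M hn hM hM'
  have eE : (E1 + 2 * b) * (u + 1) = E1 * (u + 1) + 2 * (b * u + b) := by ring
  rw [eE] at hn
  set m := n - (b * u + b) with hm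
  have e1 : A.Pi R 0 (Icc 1 (2 ^ (a * u))) m - A.Pi R 0 (Icc 1 (2 ^ (a * u))) (n - b * u) =
      (1 - A.Pi R 0 (Icc 1 (2 ^ (a * u))) (n - b * u)) -
        (1 - A.Pi R 0 (Icc 1 (2 ^ (a * (u + 1)))) m) - A.Pi R 0 (blk a u) m := by
    rw [Pi_add A R a u m]
    abel
  have n1 : ‖A.AA R M * (1 - A.Pi R 0 (Icc 1 (2 ^ (a * u))) (n - b * u))‖ ≤
      C0 * (1 / 2) ^ u := by
    refine h u n M ?_ hM hM'
    have : 2 * b * u = 2 * (b * u) := by ring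
    rw [this]
    omega
  have n2 : ‖A.AA R M * (1 - A.Pi R 0 (Icc 1 (2 ^ (a * (u + 1)))) m)‖ ≤
      C0 * (1 / 2) ^ (u + 1) := by
    have h3 := h (u + 1) n M (by
      have : 2 * b * (u + 1) = 2 * (b * u + b) := by ring
      rw [this]
      omega) hM hM'
    have e2 : n - b * (u + 1) = m := by
      rw [hm, mul_add, mul_one]
    rwa [e2] at h3
  have n3 : ‖A.AA R M * A.Pi R 0 (blk a u) m‖ ≤ C1 * rho ^ (7 * u) :=
    h1 u n m M (by omega) (by omega) hM hM'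
  have k1 : (C0 : ℝ) * (1 / 2) ^ u ≤ C0 * rho ^ (7 * u) :=
    mul_le_mul_of_nonneg_left (half_le' u) (by positivity)
  have k2 : (C0 : ℝ) * (1 / 2) ^ (u + 1) ≤ C0 * rho ^ (7 * u) := by
    refine le_trans (mul_le_mul_of_nonneg_left ?_ (by positivity)) k1
    exact pow_le_pow_of_le_one (by norm_num) (by norm_num) (by omega)
  rw [e1, mul_sub, mul_sub]
  refine (norm_sub_le _ _).trans ?_
  refine (add_le_add (norm_sub_le _ _) le_rfl).trans ?_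
  push_cast
  calc _ ≤ (C0 : ℝ) * (1 / 2) ^ u + C0 * (1 / 2) ^ (u + 1) + C1 * rho ^ (7 * u) :=
        add_le_add (add_le_add n1 n2) n3
    _ ≤ C0 * rho ^ (7 * u) + C0 * rho ^ (7 * u) + C1 * rho ^ (7 * u) :=
        add_le_add (add_le_add k1 k2) le_rfl
    _ = _ := by ring

end Pool.Agent.Lib.Npm
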