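import Pool.Agent.Lib.Npm.Fin
import Pool.Agent.Lib.Npm.F2
import Pool.Agent.Lib.Npm.L12
import Pool.Agent.Lib.Npm.Koop

/-!
# NPW (Part VI): the finite range

`fin_range` with `P m = Pi 0 (blk a u) m`, `R m = Pi 0 (Icc 1 (2^(a u))) m` (`Pi_add`: `Pi (Icc 1 (2^(a(u+1)))) (n-l) = P (n-l) + R (n-l)`), `l = b u + b`, `l' = b u`, `A n = AA (M n)`, `As = AA (2^m0)`,
`m0 = κ0 (u+1)`, `s = s0 (u+1)`, `h = h0 (u+1)`, `n0 = B0 2^u`, `N = 2^(E0 (u+1))`, `J = E0 (u+1)`, `v = a (u+1)`, `ε = C' (1/2)^(T (u+1))` with `T` so large that `C' (1/2)^T ≤ 1` and `T ≥ E0 + 2`;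
`C'` = the maximum of the constants of `pi4`, `f2`.
Let `E` be the maximum of the constants of `l1`, `l2`, `norm_blk`, `pi4`, `f2`. `κ0 = E (a + T + 2)`: gives (L1) for `m ≥ m0` and `n ≥ m0`, `‖P m‖ ≤ β := C rho⁻¹^u` (`norm_blk`, `C ≥ 1`), the lower scale condition of `pi4`
(`v`, `t = T (u+1)`), and `2^(E (v + t + 1)) ≤ 2^m0`, `≤ M n` for `f2`. `s0 = E (a + T)`: (c1), (c2) = third form of `pi4` (`s ∩ s = s`; `adjoint = star`), (d1) = second form. `h0 = E (a + T + 1) + 1`: (d2) = `f2` with `n := n + 1`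
(`M n ≤ 2^(n+1)`, `2^m0 ≤ 2^(n+1)`). `B0` so large that `m0 + s + l ≤ B0 2^u` for all `u` (`u + 1 ≤ 2^(u+1)`) and `E (u+1) ≤ B0 2^u`. `α = C rho^(7u)`: (a1), (a2), (a3) by `l1`, `l2`, `l1` (`2^m0 ≤ 2^m0 < 2^(m0+1)`, `m0 ≥ E (u+1)`).
If `N < n0` the set is empty (or take `N := max ..`); `hJ : N ≤ n0 + 2^J` is clear. The bound is `14 (J+1) √((s+h+l+1) (C² rho^(6u))² + (1 + α²) 2^J ε)`, `2^J ε ≤ C' 2^(E0 (u+1)) (1/2)^(T (u+1)) ≤ C' (1/2)^(2 (u+1)) ≤ C' rho^(12 u)`, so it is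
`≤ C (u+1)² rho^(6u) ≤ C rho^u`.
-/

set_option autoImplicit false

open MeasureTheory Finset
open scoped ENNReal

namespace Pool.Agent.Lib.Npm

open Pool.Agent.Lib.Npw

variable {G : Type} [Group G] {X : Type} [MeasurableSpace X] {μ : Measure X}

namespace FinUAux

theorem sq_geo : ∃ B : ℝ, 0 ≤ B ∧ ∀ u : ℕ, ((u : ℝ) + 1) ^ 2 * rho ^ (5 * u) ≤ B := by
  have hr0 : 0 < rho ^ 5 := pow_pos rho_pos 5
  have hr1 : rho ^ 5 < 1 := pow_lt_one₀ rho_pos.le rho_lt_one (by norm_num)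
  have h := tendsto_pow_const_mul_const_pow_of_abs_lt_one 2 (r := rho ^ 5)
    (by rw [abs_of_pos hr0]; exact hr1)
  obtain ⟨B, hB⟩ := h.bddAbove_range
  have hB' : ∀ n : ℕ, (n : ℝ) ^ 2 * (rho ^ 5) ^ n ≤ B := fun n => hB ⟨n, rfl⟩
  have hB0 : 0 ≤ B := by
    have := hB' 0
    simpa using this
  refine ⟨B / rho ^ 5, by positivity, fun u => ?_⟩
  have h1 := hB' (u + 1)
  rw [le_div_iff₀ hr0, pow_mul]
  push_cast at h1
  calc ((u : ℝ) + 1) ^ 2 * (rho ^ 5) ^ u * rho ^ 5 = ((u : ℝ) + 1) ^ 2 * (rho ^ 5) ^ (u + 1) := by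
        rw [pow_succ (rho ^ 5) u]; ring
    _ ≤ B := h1

theorem nat_half (C T : ℕ) (h : C ≤ T) : (C : ℝ) * (1 / 2) ^ T ≤ 1 := by
  have h1 : (C : ℝ) ≤ 2 ^ C := by exact_mod_cast (Nat.lt_two_pow_self (n := C)).le
  have h2 : ((1 : ℝ) / 2) ^ T ≤ (1 / 2) ^ C := pow_le_pow_of_le_one (by norm_num) (by norm_num) h
  calc (C : ℝ) * (1 / 2) ^ T ≤ 2 ^ C * (1 / 2) ^ C := by gcongr
    _ = 1 := by rw [← mul_pow]; norm_num

/-- the final numerical estimate -/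
theorem num {s0 h0 b E0 T C : ℕ} (hT : E0 + 2 ≤ T) : ∃ D : ℝ, 0 ≤ D ∧ ∀ u : ℕ,
    14 * (((E0 * (u + 1) : ℕ) : ℝ) + 1) *
      √((((s0 * (u + 1) : ℕ) : ℝ) + ((h0 * (u + 1) : ℕ) : ℝ) + ((b * u + b : ℕ) : ℝ) + 1) *
        ((C * rho ^ (7 * u)) * (C * rho⁻¹ ^ u)) ^ 2 +
        (1 + (C * rho ^ (7 * u)) ^ 2) * (2 ^ (E0 * (u + 1)) * (C * (1 / 2) ^ (T * (u + 1))))) ≤
      D * rho ^ u := by
  obtain ⟨B, hB0, hB⟩ := sq_geo
  set D1 : ℝ := (s0 : ℝ) + h0 + b + 1 with hD1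
  set D2 : ℝ := D1 * (C : ℝ) ^ 4 + (1 + (C : ℝ) ^ 2) * C with hD2
  have hD10 : 0 ≤ D1 := by positivity
  have hD20 : 0 ≤ D2 := by positivity
  refine ⟨14 * ((E0 : ℝ) + 1) * √D2 * B, by positivity, fun u => ?_⟩
  have hr0 := rho_pos
  have hr1 := rho_lt_one
  have hu1 : (1 : ℝ) ≤ (u : ℝ) + 1 := by
    have : (0 : ℝ) ≤ (u : ℝ) := Nat.cast_nonneg u
    linarith
  have e1 : (C * rho ^ (7 * u)) * (C * rho⁻¹ ^ u) = (C : ℝ) ^ 2 * rho ^ (6 * u) := by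
    have h : rho ^ u * rho⁻¹ ^ u = 1 := by
      rw [← mul_pow, mul_inv_cancel₀ rho_pos.ne', one_pow]
    have h2 : rho ^ (7 * u) = rho ^ (6 * u) * rho ^ u := by
      rw [← pow_add]; congr 1; ring
    calc (C * rho ^ (7 * u)) * (C * rho⁻¹ ^ u) = (C : ℝ) ^ 2 * rho ^ (6 * u) * (rho ^ u * rho⁻¹ ^ u) := by
          rw [h2]; ring
      _ = _ := by rw [h, mul_one]
  have h1 : (((s0 * (u + 1) : ℕ) : ℝ) + ((h0 * (u + 1) : ℕ) : ℝ) + ((b * u + b : ℕ) : ℝ) + 1) ≤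
      D1 * (u + 1) := by
    push_cast
    rw [hD1]
    nlinarith
  have h2 : rho ^ (7 * u) ≤ 1 := pow_le_one₀ hr0.le hr1.le
  have h2' : (C * rho ^ (7 * u)) ^ 2 ≤ (C : ℝ) ^ 2 := by
    rw [mul_pow]
    have : (rho ^ (7 * u)) ^ 2 ≤ 1 := pow_le_one₀ (by positivity) h2
    nlinarith [sq_nonneg (C : ℝ)]
  have h3 : (2 : ℝ) ^ (E0 * (u + 1)) * (C * (1 / 2) ^ (T * (u + 1))) ≤ C * rho ^ (12 * u) := by
    have h4 : ((1 : ℝ) / 2) ^ (T * (u + 1)) ≤ (1 / 2) ^ (E0 * (u + 1) + u) := by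
      apply pow_le_pow_of_le_one (by norm_num) (by norm_num)
      nlinarith
    have h5 : (2 : ℝ) ^ (E0 * (u + 1)) * (1 / 2) ^ (E0 * (u + 1) + u) = (1 / 2) ^ u := by
      rw [pow_add, ← mul_assoc, ← mul_pow]
      norm_num
    have h6 : ((1 : ℝ) / 2) ^ u ≤ rho ^ (12 * u) := by
      rw [L12Aux.half_pow]
      apply pow_le_pow_of_le_one hr0.le hr1.le
      omega
    calc (2 : ℝ) ^ (E0 * (u + 1)) * (C * (1 / 2) ^ (T * (u + 1)))
        ≤ (2 : ℝ) ^ (E0 * (u + 1)) * (C * (1 / 2) ^ (E0 * (u + 1) + u)) := by gcongr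
      _ = C * (1 / 2) ^ u := by rw [← h5]; ring
      _ ≤ C * rho ^ (12 * u) := by gcongr
  have h7 : (((s0 * (u + 1) : ℕ) : ℝ) + ((h0 * (u + 1) : ℕ) : ℝ) + ((b * u + b : ℕ) : ℝ) + 1) *
        ((C * rho ^ (7 * u)) * (C * rho⁻¹ ^ u)) ^ 2 +
        (1 + (C * rho ^ (7 * u)) ^ 2) * (2 ^ (E0 * (u + 1)) * (C * (1 / 2) ^ (T * (u + 1)))) ≤
        (√D2 * ((u : ℝ) + 1) * rho ^ (6 * u)) ^ 2 := by
    rw [e1]
    have e2 : (√D2 * ((u : ℝ) + 1) * rho ^ (6 * u)) ^ 2 =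
        D2 * ((u : ℝ) + 1) ^ 2 * rho ^ (12 * u) := by
      rw [mul_pow, mul_pow, Real.sq_sqrt hD20, ← pow_mul]
      congr 2; ring
    rw [e2]
    have e3 : ((C : ℝ) ^ 2 * rho ^ (6 * u)) ^ 2 = (C : ℝ) ^ 4 * rho ^ (12 * u) := by
      rw [mul_pow, ← pow_mul, ← pow_mul]
      congr 2; ring
    rw [e3]
    have hp : 0 ≤ rho ^ (12 * u) := by positivity
    have k1 : (((s0 * (u + 1) : ℕ) : ℝ) + ((h0 * (u + 1) : ℕ) : ℝ) + ((b * u + b : ℕ) : ℝ) + 1) *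
        ((C : ℝ) ^ 4 * rho ^ (12 * u)) ≤ D1 * (u + 1) * ((C : ℝ) ^ 4 * rho ^ (12 * u)) := by
      gcongr
    have k2 : (1 + (C * rho ^ (7 * u)) ^ 2) *
        (2 ^ (E0 * (u + 1)) * (C * (1 / 2) ^ (T * (u + 1)))) ≤
        (1 + (C : ℝ) ^ 2) * (C * rho ^ (12 * u)) := by
      gcongr
    have k3 : D1 * (u + 1) * ((C : ℝ) ^ 4 * rho ^ (12 * u)) ≤
        D1 * (C : ℝ) ^ 4 * ((u : ℝ) + 1) ^ 2 * rho ^ (12 * u) := by
      have : (u : ℝ) + 1 ≤ ((u : ℝ) + 1) ^ 2 := by nlinarith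
      calc D1 * (u + 1) * ((C : ℝ) ^ 4 * rho ^ (12 * u)) =
          D1 * (C : ℝ) ^ 4 * ((u : ℝ) + 1) * rho ^ (12 * u) := by ring
        _ ≤ _ := by gcongr
    have k4 : (1 + (C : ℝ) ^ 2) * (C * rho ^ (12 * u)) ≤
        (1 + (C : ℝ) ^ 2) * C * ((u : ℝ) + 1) ^ 2 * rho ^ (12 * u) := by
      have : (1 : ℝ) ≤ ((u : ℝ) + 1) ^ 2 := one_le_pow₀ hu1
      calc (1 + (C : ℝ) ^ 2) * (C * rho ^ (12 * u)) =
          (1 + (C : ℝ) ^ 2) * C * 1 * rho ^ (12 * u) := by ring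
        _ ≤ _ := by gcongr
    calc _ ≤ D1 * (u + 1) * ((C : ℝ) ^ 4 * rho ^ (12 * u)) +
          (1 + (C : ℝ) ^ 2) * (C * rho ^ (12 * u)) := add_le_add k1 k2
      _ ≤ D1 * (C : ℝ) ^ 4 * ((u : ℝ) + 1) ^ 2 * rho ^ (12 * u) +
          (1 + (C : ℝ) ^ 2) * C * ((u : ℝ) + 1) ^ 2 * rho ^ (12 * u) := add_le_add k3 k4
      _ = D2 * ((u : ℝ) + 1) ^ 2 * rho ^ (12 * u) := by rw [hD2]; ring
  have h8 : √((((s0 * (u + 1) : ℕ) : ℝ) + ((h0 * (u + 1) : ℕ) : ℝ) + ((b * u + b : ℕ) : ℝ) + 1) *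
        ((C * rho ^ (7 * u)) * (C * rho⁻¹ ^ u)) ^ 2 +
        (1 + (C * rho ^ (7 * u)) ^ 2) * (2 ^ (E0 * (u + 1)) * (C * (1 / 2) ^ (T * (u + 1))))) ≤
        √D2 * ((u : ℝ) + 1) * rho ^ (6 * u) := by
    refine (Real.sqrt_le_sqrt h7).trans ?_
    rw [Real.sqrt_sq (by positivity)]
  have h9 : (((E0 * (u + 1) : ℕ) : ℝ) + 1) ≤ ((E0 : ℝ) + 1) * ((u : ℝ) + 1) := by
    push_cast
    nlinarith
  have h10 : rho ^ (6 * u) = rho ^ (5 * u) * rho ^ u := by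
    rw [← pow_add]; congr 1; ring
  have hBu := hB u
  have hru : 0 ≤ rho ^ u := by positivity
  calc _ ≤ 14 * (((E0 : ℝ) + 1) * ((u : ℝ) + 1)) * (√D2 * ((u : ℝ) + 1) * rho ^ (6 * u)) := by
        gcongr
    _ = 14 * ((E0 : ℝ) + 1) * √D2 * (((u : ℝ) + 1) ^ 2 * rho ^ (5 * u)) * rho ^ u := by
        rw [h10]; ring
    _ ≤ 14 * ((E0 : ℝ) + 1) * √D2 * B * rho ^ u := by gcongr

end FinUAux

theorem fin_u {R : Rep G (Lp ℂ 2 μ)} {A : Dat G} (hA : A.Ok) {a b C0 : ℕ}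
    (hCP : CPab A R a b C0) (E0 : ℕ) :
    ∃ (C : ℝ) (B0 : ℕ), 0 ≤ C ∧ ∀ (u : ℕ) (M : ℕ → ℕ), (∀ n, 2 ^ n ≤ M n ∧ M n < 2 ^ (n + 1)) →
      ∀ f : Lp ℂ 2 μ, mx {n | B0 * 2 ^ u ≤ n ∧ n ≤ 2 ^ (E0 * (u + 1))} (fun n => (A.AA R (M n) *
        (A.Pi R 0 (Icc 1 (2 ^ (a * (u + 1)))) (n - (b * u + b)) -
          A.Pi R 0 (Icc 1 (2 ^ (a * u))) (n - b * u))) f) ≤
        ENNReal.ofReal (C * rho ^ u * ‖f‖) := by
  obtain ⟨C1, E1, h1⟩ := l1 hA R hCP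
  obtain ⟨C2, E2, h2⟩ := l2 hA R hCP
  obtain ⟨C3, E3, h3⟩ := norm_blk hA R a
  obtain ⟨C4, E4, h4⟩ := Dat.pi4 hA R
  obtain ⟨C5, E5, h5⟩ := f2 hA R
  set Cm : ℕ := C1 + C2 + C3 + C4 + C5 + 1 with hCm
  set Em : ℕ := E1 + E2 + E3 + E4 + E5 + 1 with hEm
  set T : ℕ := Cm + E0 + 2 with hT
  set κ0 : ℕ := Em * (a + T + 2) with hκ0
  set s0 : ℕ := Em * (a + T) with hs0
  set h0 : ℕ := Em * (a + T + 1) + 1 with hh0
  set B0 : ℕ := κ0 + s0 + b with hB0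
  obtain ⟨D, hD0, hD⟩ := FinUAux.num (s0 := s0) (h0 := h0) (b := b) (E0 := E0) (T := T) (C := Cm)
    (by omega)
  refine ⟨D, B0, hD0, fun u M hM f => ?_⟩
  have hr0 := rho_pos
  have hr1 := rho_lt_one
  have hu2 : u + 1 ≤ 2 ^ u := Nat.lt_two_pow_self
  have hCle : ∀ {c : ℕ}, c ≤ Cm → (c : ℝ) ≤ (Cm : ℝ) := fun h => by exact_mod_cast h
  have hβ1 : (1 : ℝ) ≤ rho⁻¹ ^ u := one_le_pow₀ (one_le_inv_iff₀.2 ⟨hr0, hr1.le⟩)
  have hCm1 : (1 : ℝ) ≤ (Cm : ℝ) := by exact_mod_cast (by omega : 1 ≤ Cm)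
  set m0 : ℕ := κ0 * (u + 1) with hm0
  set s : ℕ := s0 * (u + 1) with hs
  set h : ℕ := h0 * (u + 1) with hh
  have q1 : B0 * (u + 1) ≤ B0 * 2 ^ u := Nat.mul_le_mul_left _ hu2
  have hn0 : m0 + s + (b * u + b) ≤ B0 * 2 ^ u := by
    refine le_trans (le_of_eq ?_) q1
    rw [hm0, hs, hB0]; ring
  have hm0n : m0 ≤ B0 * 2 ^ u := by omega
  -- scale conditions
  have g0 : Em * (u + 1) ≤ m0 := by
    rw [hm0, hκ0]
    have : Em * 1 ≤ Em * (a + T + 2) := Nat.mul_le_mul_left _ (by omega)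
    calc Em * (u + 1) = Em * 1 * (u + 1) := by ring
      _ ≤ _ := Nat.mul_le_mul_right _ this
  have gE : ∀ {e : ℕ}, e ≤ Em → e * (u + 1) ≤ m0 := fun he =>
    (Nat.mul_le_mul_right _ he).trans g0
  have gk : ∀ {e : ℕ}, e ≤ Em → e * (a * (u + 1) + T * (u + 1) + 1) ≤ m0 := fun he => by
    calc _ ≤ Em * (a * (u + 1) + T * (u + 1) + 1) := Nat.mul_le_mul_right _ he
      _ ≤ Em * ((a + T + 2) * (u + 1)) := Nat.mul_le_mul_left _ (by nlinarith)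
      _ = m0 := by rw [hm0, hκ0]; ring
  have gs : ∀ {e : ℕ}, e ≤ Em → e * (a * (u + 1) + T * (u + 1)) ≤ s := fun he => by
    calc _ ≤ Em * (a * (u + 1) + T * (u + 1)) := Nat.mul_le_mul_right _ he
      _ = s := by rw [hs, hs0]; ring
  have gh : ∀ {e : ℕ}, e ≤ Em → e * (a * (u + 1) + T * (u + 1) + 1) + 1 ≤ h := fun he => by
    calc _ ≤ Em * (a * (u + 1) + T * (u + 1) + 1) + 1 :=
          Nat.add_le_add_right (Nat.mul_le_mul_right _ he) 1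
      _ ≤ Em * ((a + T + 1) * (u + 1)) + (u + 1) := by
          refine Nat.add_le_add (Nat.mul_le_mul_left _ (by nlinarith)) (by omega)
      _ = h := by rw [hh, hh0]; ring
  have hblk : blk a u ⊆ Icc 1 (2 ^ (a * (u + 1))) := L12Aux.blk_sub a u
  have hicc : Icc 1 (2 ^ (a * u)) ⊆ Icc 1 (2 ^ (a * (u + 1))) := by
    apply Icc_subset_Icc le_rfl
    exact Nat.pow_le_pow_right (by norm_num) (Nat.mul_le_mul_left a (by omega))
  set ε : ℝ := (Cm : ℝ) * (1 / 2) ^ (T * (u + 1)) with hε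
  have hεC : ∀ {c : ℕ}, c ≤ Cm → (c : ℝ) * (1 / 2) ^ (T * (u + 1)) ≤ ε := fun hc => by
    rw [hε]
    have := hCle hc
    gcongr
  have hε1 : ε ≤ 1 := by
    refine FinUAux.nat_half Cm _ ?_
    calc Cm ≤ T * 1 := by omega
      _ ≤ T * (u + 1) := Nat.mul_le_mul_left _ (by omega)
  have key := fin_range (μ := μ) (n0 := B0 * 2 ^ u) (N := 2 ^ (E0 * (u + 1))) (J := E0 * (u + 1))
    (by omega) (A := fun n => A.AA R (M n)) (P := fun m => A.Pi R 0 (blk a u) m)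
    (R := fun m => A.Pi R 0 (Icc 1 (2 ^ (a * u))) m) (As := A.AA R (2 ^ m0))
    (l := b * u + b) (l' := b * u) (h := h) (s := s) (m0 := m0) (by omega) hn0
    (α := Cm * rho ^ (7 * u)) (β := Cm * rho⁻¹ ^ u) (ε := ε) (by positivity)
    (by nlinarith) (by positivity) hε1 (fun n => Dat.norm_AA_le A R _) (Dat.norm_AA_le A R _)
    ?_ ?_ ?_ ?_ ?_ ?_ ?_ ?_ f
  · refine le_trans (le_of_eq ?_) (key.trans (ENNReal.ofReal_le_ofReal ?_))
    · refine mx_congr fun n _ => ?_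
      have e1 : A.AA R (M n) * (A.Pi R 0 (Icc 1 (2 ^ (a * (u + 1)))) (n - (b * u + b)) -
          A.Pi R 0 (Icc 1 (2 ^ (a * u))) (n - b * u)) =
          A.AA R (M n) * (A.Pi R 0 (blk a u) (n - (b * u + b)) +
          A.Pi R 0 (Icc 1 (2 ^ (a * u))) (n - (b * u + b)) -
          A.Pi R 0 (Icc 1 (2 ^ (a * u))) (n - b * u)) := by
        rw [Pi_add, add_comm]
      rw [e1]
      rfl
    · have := hD u
      exact mul_le_mul_of_nonneg_right this (norm_nonneg _)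
  · -- norm of P
    intro m hm
    have k := h3 u m (blk a u) hblk ((gE (by omega)).trans hm)
    refine k.trans ?_
    have := hCle (c := C3) (by omega)
    gcongr
  · -- a1
    intro n m hn hm
    have k := h1 u n m (M n) ((gE (by omega)).trans (hm0n.trans hn)) ((gE (by omega)).trans hm)
      (hM n).1 (hM n).2
    refine k.trans ?_
    have := hCle (c := C1) (by omega)
    gcongr
  · -- a2
    intro n hn
    have k := h2 u n (M n) ((gE (by omega)).trans (hm0n.trans hn)) (hM n).1 (hM n).2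
    refine k.trans ?_
    have := hCle (c := C2) (by omega)
    gcongr
  · -- a3
    have k := h1 u m0 m0 (2 ^ m0) (gE (by omega)) (gE (by omega)) le_rfl
      (Nat.pow_lt_pow_right (by norm_num) (Nat.lt_succ_self _))
    refine k.trans ?_
    have := hCle (c := C1) (by omega)
    gcongr
  · -- c1
    intro m m' hm' hmm
    have k := (h4 0 (a * (u + 1)) m m' (T * (u + 1)) (blk a u) (blk a u) hblk hblk
      ((Nat.add_le_add_left (gs (by omega)) _).trans hmm) ((gk (by omega)).trans hm')).2.2.1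
    rw [Finset.inter_self] at k
    rw [← ContinuousLinearMap.star_eq_adjoint]
    exact k.trans (hεC (by omega))
  · -- c2
    intro m m' hm' hmm
    have k := (h4 0 (a * (u + 1)) m m' (T * (u + 1)) (Icc 1 (2 ^ (a * u))) (Icc 1 (2 ^ (a * u)))
      hicc hicc
      ((Nat.add_le_add_left (gs (by omega)) _).trans hmm) ((gk (by omega)).trans hm')).2.2.1
    rw [Finset.inter_self] at k
    rw [← ContinuousLinearMap.star_eq_adjoint]
    exact k.trans (hεC (by omega))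
  · -- d1
    intro m hm
    have k := (h4 0 (a * (u + 1)) m m0 (T * (u + 1)) (blk a u) (blk a u) hblk hblk
      ((Nat.add_le_add_left (gs (by omega)) _).trans hm) (gk (by omega))).2.1
    rw [Finset.inter_self] at k
    exact k.trans (hεC (by omega))
  · -- d2
    intro n hn
    have hmn : m0 ≤ n := hm0n.trans hn
    have k := h5 (a * (u + 1)) (n + 1) (n + h) (T * (u + 1)) (M n) (2 ^ m0) (blk a u) hblk
      ((Nat.pow_le_pow_right (by norm_num) ((gk (by omega)).trans hmn)).trans (hM n).1)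
      (Nat.pow_le_pow_right (by norm_num) (gk (by omega)))
      (hM n).2.le
      (Nat.pow_le_pow_right (by norm_num) (by omega))
      (by have := gh (e := E5) (by omega); omega)
    exact k.trans (hεC (by omega))

end Pool.Agent.Lib.Npm
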