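import Pool.Agent.Lib.Npm.AbsR

/-!
# NPW (I1): `Pi 0 s m ≈ Ph 0 Q m * GG s Q`

`Ph 0 Q m * GG s Q - Pi 0 s m = ∑_{q ∈ s} ∑_{d ∣ q} μ(q/d) (Ph 0 Q m * PerP 0 Q d - Ph 0 d m)`; at most `4^v` terms with coefficients `|μ| ≤ 1`, each bounded by `abs_per` (`d ∈ [1, 2^v]`
divides `Q`).
-/

set_option autoImplicit false

open Finset

namespace Pool.Agent.Lib.Npm

open Pool.Agent.Lib.Npw

variable {G H : Type} [Group G] [NormedAddCommGroup H] [InnerProductSpace ℂ H] [CompleteSpace H]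

theorem g_pi {A : Dat G} (hA : A.Ok) (R : Rep G H) : ∃ C E : ℕ,
    ∀ (v Q N1 m t : ℕ) (s : Finset ℕ), QOk A v Q N1 → s ⊆ Icc 1 (2 ^ v) → N1 + E * (t + 1) ≤ m →
    ‖A.Ph R 0 Q m * GG A R s Q - A.Pi R 0 s m‖ ≤ C * 4 ^ v * (1 / 2) ^ t := by
  obtain ⟨C, E, h⟩ := abs_per hA R
  refine ⟨C, E, fun v Q N1 m t s hQ hs hm => ?_⟩
  have key : A.Ph R 0 Q m * GG A R s Q - A.Pi R 0 s m =
      ∑ q ∈ s, ∑ d ∈ q.divisors, ((ArithmeticFunction.moebius (q / d) : ℤ) : ℂ) •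
        (A.Ph R 0 Q m * PerP A R 0 Q d - A.Ph R 0 d m) := by
    unfold GG Dat.Pi Dat.FF
    rw [Finset.mul_sum, ← Finset.sum_sub_distrib]
    refine Finset.sum_congr rfl fun q _ => ?_
    rw [Finset.mul_sum, ← Finset.sum_sub_distrib]
    refine Finset.sum_congr rfl fun d _ => ?_
    rw [mul_smul_comm, smul_sub]
  rw [key]
  have hb : ∀ q ∈ s, ‖∑ d ∈ q.divisors, ((ArithmeticFunction.moebius (q / d) : ℤ) : ℂ) •
        (A.Ph R 0 Q m * PerP A R 0 Q d - A.Ph R 0 d m)‖ ≤ 2 ^ v * (C * (1 / 2 : ℝ) ^ t) := by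
    intro q hq
    have hq1 := Finset.mem_Icc.mp (hs hq)
    have h0 : (0 : ℝ) ≤ C * (1 / 2) ^ t := by positivity
    have h1 : ∀ d ∈ q.divisors, ‖((ArithmeticFunction.moebius (q / d) : ℤ) : ℂ) •
        (A.Ph R 0 Q m * PerP A R 0 Q d - A.Ph R 0 d m)‖ ≤ C * (1 / 2 : ℝ) ^ t := by
      intro d hd
      have hd1 : d ∈ Icc 1 (2 ^ v) := by
        rw [Finset.mem_Icc]
        exact ⟨Nat.pos_of_mem_divisors hd, (Nat.divisor_le hd).trans hq1.2⟩
      have h2 := h 0 Q d N1 m t hQ.pos (hQ.dvd d hd1) hQ.le hm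
      rw [norm_smul, Complex.norm_intCast]
      have h3 : |((ArithmeticFunction.moebius (q / d) : ℤ) : ℝ)| ≤ 1 := by
        have h : |ArithmeticFunction.moebius (q / d)| ≤ 1 :=
          ArithmeticFunction.abs_moebius_le_one
        exact_mod_cast h
      calc _ ≤ 1 * (C * (1 / 2 : ℝ) ^ t) :=
            mul_le_mul h3 h2 (norm_nonneg _) zero_le_one
        _ = _ := one_mul _
    refine (norm_sum_le_of_le _ h1).trans ?_
    rw [Finset.sum_const, nsmul_eq_mul]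
    refine mul_le_mul_of_nonneg_right ?_ h0
    have h4 : q.divisors.card ≤ 2 ^ v := (Nat.card_divisors_le_self q).trans hq1.2
    exact_mod_cast h4
  refine (norm_sum_le_of_le _ hb).trans ?_
  rw [Finset.sum_const, nsmul_eq_mul]
  have h2 : s.card ≤ 2 ^ v := by
    have := Finset.card_le_card hs
    rwa [Nat.card_Icc, Nat.add_sub_cancel] at this
  have h3 : (s.card : ℝ) ≤ 2 ^ v := by exact_mod_cast h2
  calc (s.card : ℝ) * (2 ^ v * (C * (1 / 2 : ℝ) ^ t))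
      ≤ 2 ^ v * (2 ^ v * (C * (1 / 2 : ℝ) ^ t)) :=
        mul_le_mul_of_nonneg_right h3 (by positivity)
    _ = C * 4 ^ v * (1 / 2) ^ t := by
        rw [show (4 : ℝ) = 2 * 2 by norm_num, mul_pow]; ring

end Pool.Agent.Lib.Npm
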