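import Pool.Agent.Lib.Npm.NearX
import Pool.Agent.Lib.Npm.FarT
import Pool.Agent.Lib.Npm.L12
import Pool.Agent.Lib.Npm.ExQ
import Pool.Agent.Lib.Npm.Koop
import Pool.Agent.Lib.Npm.SchurNat

/-!
# NPW (Part VI): the infinite range

Notation: `v = a (u+1)`, `s = Icc 1 (2^(a u))`, `P = blk a u` (both `⊆ Icc 1 (2^v)`), `l = b u + b`, `Q, N1 = 2^(E1 (u+1))` from `exists_Q` (with `E2` at least the constant of `l1`), `N2 = 2 N1`, `h = h0 (u+1)`,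
`g = g0 (u+1)`, `c n = cut A Q (M n)`, `G = GG s Q`, `G1 = GG P Q`, `n0 = 2^(E0 (u+1))`. All constants below depend only on `A, R, a, b, C0`. Choose in this order: `E` = maximum of the constants of `near_T`, `dec`, `far_T`,
`far_Y`, `near_Y`, `l1`, `l2`, `g_pi` (increase them, all statements are monotone in `C`, `E`); `h0 = E (3 a + 3) + 2`; `g0 = (b + 1) + h0 + E (5 a + 4) + 2`; `E1 ≥` what `exists_Q` needs and `2^(E1 (u+1)) ≥ (E (6 a + 6) + b + h0 + 4) (u+1)`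
(as `x ≤ 2^x`); `E0 = E1 + 3` (`n0 = 8^(u+1) N1 ≥ 8 N1`). So for `n ≥ n0`: `n - l ≥ 3 N1 ≥ N2 + E (..)`.
By `dec` (with `t = u + (n - n0) / E`; `N2 + E (v + t + 1) + l ≤ n` because `E ((n - n0)/E) ≤ n - n0` and `n0 ≥ N2 + E (a + 1 + 1)(u+1) + l`) the operator is, for `n ≥ n0`,
`T1 n + T2 n + T3 n + Ph 0 Q (n+h) K + D n`, `T1 n = AA (c n) XX(n-l)(n - b u) G`, `T2 n = AA (c n) XX(n-l)(n+h) G1`, `T3 n = YY(n+h)(c n) G1`, `K = AA (P0 Q) Ph 0 Q N2 G1`, `‖D n‖ ≤ C (1/2)^(u + (n-n0)/E)`.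
* `mx (D n f) ≤ C (1/2)^u ‖f‖` (`mx_geo`), and `(1/2)^u = rho^(16u) ≤ rho^u`.
* `mx (Ph 0 Q (n+h) (K f)) ≤ 2^D ‖K f‖` (`ph_max`, `mx_mono`/reindexing `n ↦ n + h`: `mx S (fun n => F (n+h)) ≤ mx univ F`), and `‖K‖ ≤ ‖AA (P0 Q) Pi P N2‖ + ‖Ph Q N2 G1 - Pi P N2‖ ≤ C rho^(7u) + C 4^v (1/2)^(2v+u)` by `l1`
  (`P0 Q ≥ 2^(E2 (u+1))`: `2^m ≤ P0 Q < 2^(m+1)` with `m = Nat.log 2 (P0 Q) ≥ E2 (u+1)`; `N2 ≥ E (u+1)`) and `g_pi` (`N1 + E (2v + u + 1) ≤ N2`).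
* `T1`, `T2`, `T3` by `mx_schur_nat` with `α = C rho^(7u)`, `κ = C (1/2)^u`, gap `g`, decay `E`; `2 g α² + 4 E κ ≤ C (u+1) rho^(14u) + C rho^(16u) ≤ (C rho^u)^2` (`(u+1) rho^u` is bounded).
  Near: `‖T1 n‖ ≤ ‖AA (M n) (Pi s (n-l) - Pi s (n - b u))‖ + C (1/2)^u` (`near_T`, `t = u`) and `l2`; `‖T2 n‖ ≤ ‖AA (M n) Pi P (n-l)‖ + ‖AA (M n) Pi P (n+h)‖ + C (1/2)^u`, `l1` twice; `‖T3 n‖ ≤ ‖YY‖ 4^v` (`loc_GG`, `Loc.norm_le`) with
  `near_Y` (`c n ≤ M n ≤ 2^(n+1)`, `m = n + h`, `t = 2 v + u`: `(n+1) + E (2v+u+1) ≤ n + h`).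
  Far (`i + g ≤ j`): `far_T` with `t = 4 v + u + (j - i - g)/E`: the scales of index `i` are `≤ i + h`, those of index `j` are `≥ j - l`, and `i + h + E (t + 1) ≤ j - l` because `g ≥ h + l + E (4v + u + 1)`; bound `C 16^v (1/2)^t = C (1/2)^(u + ..)`.
  For `T3`: `far_Y` with `n := i + 1`, `m := i + h`, `m' := j + h`.
-/

set_option autoImplicit false

open MeasureTheory Finset
open scoped ENNReal

namespace Pool.Agent.Lib.Npm

open Pool.Agent.Lib.Npw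

namespace InfUAux

variable {G H : Type} [Group G] [NormedAddCommGroup H] [InnerProductSpace ℂ H] [CompleteSpace H]

theorem near1 {A : Dat G} (hA : A.Ok) (R : Rep G H) {a b C0 : ℕ} (h : CPab A R a b C0) :
    ∃ C E : ℕ, ∀ u Q N1 n M : ℕ, QOk A (a * (u + 1)) Q N1 → 2 ^ n ≤ M → M < 2 ^ (n + 1) →
      N1 + E * (u + 1) + (b * u + b) ≤ n →
      ‖A.AA R (cut A Q M) * XX A R Q (n - (b * u + b)) (n - b * u) *
        GG A R (Icc 1 (2 ^ (a * u))) Q‖ ≤ C * rho ^ (7 * u) := by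
  obtain ⟨C1, E1, h1⟩ := near_T hA R
  obtain ⟨C2, E2, h2⟩ := l2 hA R h
  refine ⟨C1 + C2, E1 * (a + 1) + E2, fun u Q N1 n M hQ hM hM' hn => ?_⟩
  have e1 : E1 * (a * (u + 1) + u + 1) = E1 * (a + 1) * (u + 1) := by ring
  have e2 : (E1 * (a + 1) + E2) * (u + 1) = E1 * (a + 1) * (u + 1) + E2 * (u + 1) := by ring
  rw [e2] at hn
  have hs : Icc 1 (2 ^ (a * u)) ⊆ Icc 1 (2 ^ (a * (u + 1))) :=
    Icc_subset_Icc_right (Nat.pow_le_pow_right (by norm_num)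
      (Nat.mul_le_mul_left a (Nat.le_succ u)))
  have k1 := h1 (a * (u + 1)) Q N1 n M (n - (b * u + b)) (n - b * u) u _ hQ hs hM
    (by rw [e1]; omega) (by rw [e1]; omega) (by rw [e1]; omega)
  have k2 := h2 u n M (by omega) hM hM'
  have k3 := (L12Aux.half_le' u)
  have := norm_sub_norm_le (A.AA R (cut A Q M) * XX A R Q (n - (b * u + b)) (n - b * u) *
        GG A R (Icc 1 (2 ^ (a * u))) Q) (A.AA R M * (A.Pi R 0 (Icc 1 (2 ^ (a * u)))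
          (n - (b * u + b)) - A.Pi R 0 (Icc 1 (2 ^ (a * u))) (n - b * u)))
  push_cast
  have k4 : (C1 : ℝ) * (1 / 2) ^ u ≤ C1 * rho ^ (7 * u) :=
    mul_le_mul_of_nonneg_left k3 (Nat.cast_nonneg _)
  linarith

theorem near2 {A : Dat G} (hA : A.Ok) (R : Rep G H) {a b C0 : ℕ} (h : CPab A R a b C0) :
    ∃ C E : ℕ, ∀ u Q N1 n M k : ℕ, QOk A (a * (u + 1)) Q N1 → 2 ^ n ≤ M → M < 2 ^ (n + 1) →
      N1 + E * (u + 1) + (b * u + b) ≤ n →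
      ‖A.AA R (cut A Q M) * XX A R Q (n - (b * u + b)) (n + k) *
        GG A R (blk a u) Q‖ ≤ C * rho ^ (7 * u) := by
  obtain ⟨C1, E1, h1⟩ := near_T hA R
  obtain ⟨C2, E2, h2⟩ := l1 hA R h
  refine ⟨C1 + 2 * C2, E1 * (a + 1) + E2, fun u Q N1 n M k hQ hM hM' hn => ?_⟩
  have e1 : E1 * (a * (u + 1) + u + 1) = E1 * (a + 1) * (u + 1) := by ring
  have e2 : (E1 * (a + 1) + E2) * (u + 1) = E1 * (a + 1) * (u + 1) + E2 * (u + 1) := by ring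
  rw [e2] at hn
  have k1 := h1 (a * (u + 1)) Q N1 n M (n - (b * u + b)) (n + k) u _ hQ (L12Aux.blk_sub a u) hM
    (by rw [e1]; omega) (by rw [e1]; omega) (by rw [e1]; omega)
  have k2 := h2 u n (n - (b * u + b)) M (by omega) (by omega) hM hM'
  have k2' := h2 u n (n + k) M (by omega) (by omega) hM hM'
  have k3 := (L12Aux.half_le' u)
  have := norm_sub_norm_le (A.AA R (cut A Q M) * XX A R Q (n - (b * u + b)) (n + k) *
        GG A R (blk a u) Q) (A.AA R M * (A.Pi R 0 (blk a u)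
          (n - (b * u + b)) - A.Pi R 0 (blk a u) (n + k)))
  have k5 := norm_sub_le (A.AA R M * A.Pi R 0 (blk a u) (n - (b * u + b)))
    (A.AA R M * A.Pi R 0 (blk a u) (n + k))
  rw [← mul_sub] at k5
  push_cast
  have k4 : (C1 : ℝ) * (1 / 2) ^ u ≤ C1 * rho ^ (7 * u) :=
    mul_le_mul_of_nonneg_left k3 (Nat.cast_nonneg _)
  linarith

theorem near3 {A : Dat G} (hA : A.Ok) (R : Rep G H) (a : ℕ) :
    ∃ C E : ℕ, ∀ u Q N1 n M k : ℕ, QOk A (a * (u + 1)) Q N1 → 2 ^ n ≤ M → M < 2 ^ (n + 1) →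
      N1 ≤ n → 1 + E * (u + 1) ≤ k →
      ‖YY A R Q (n + k) (cut A Q M) * GG A R (blk a u) Q‖ ≤ C * rho ^ (7 * u) := by
  obtain ⟨C1, E1, h1⟩ := near_Y hA R
  refine ⟨C1, E1 * (2 * a + 1), fun u Q N1 n M k hQ hM hM' hn hk => ?_⟩
  have hle : A.P0 * Q ≤ M := hQ.le.trans ((Nat.pow_le_pow_right (by norm_num) hn).trans hM)
  have e1 : E1 * (2 * (a * (u + 1)) + u + 1) = E1 * (2 * a + 1) * (u + 1) := by ring
  have k1 := h1 Q (n + 1) (n + k) (u + 2 * (a * (u + 1))) (cut A Q M) hQ.pos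
    (cut_pos hQ.pos hle) (dvd_cut A Q M) ((cut_le A Q M).trans hM'.le)
    (by rw [add_comm u, e1]; omega)
  have k2 := NearXAux.nm (v := a * (u + 1)) (c := 1) (Y := GG A R (blk a u) Q) k1
    (by rw [one_mul]; exact NearXAux.norm_GG hQ (L12Aux.blk_sub a u)) (Nat.cast_nonneg _)
  have k3 := mul_le_mul_of_nonneg_left ((L12Aux.half_le' u)) (Nat.cast_nonneg (α := ℝ) C1)
  linarith

theorem tbd {E E' v u x : ℕ} (hE : E ≤ E') : E * (4 * v + u + x / E' + 1) ≤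
    E * (4 * v + u + 1) + x := by
  have h1 : E * (x / E') ≤ x := (Nat.mul_le_mul_right _ hE).trans (Nat.mul_div_le x E')
  have : E * (4 * v + u + x / E' + 1) = E * (4 * v + u + 1) + E * (x / E') := by ring
  omega

theorem pw (v u x : ℕ) : (16 : ℝ) ^ v * (1 / 2) ^ (4 * v + u + x) = (1 / 2) ^ u * (1 / 2) ^ x := by
  rw [pow_add, pow_add, pow_mul]
  have : (16 : ℝ) ^ v * ((1 / 2) ^ 4) ^ v = 1 := by rw [← mul_pow]; norm_num
  calc (16 : ℝ) ^ v * (((1 / 2) ^ 4) ^ v * (1 / 2) ^ u * (1 / 2) ^ x)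
      = ((16 : ℝ) ^ v * ((1 / 2) ^ 4) ^ v) * ((1 / 2) ^ u * (1 / 2) ^ x) := by ring
    _ = _ := by rw [this, one_mul]

/-- the far estimate for the differences -/
theorem far1 {A : Dat G} (hA : A.Ok) (R : Rep G H) (a : ℕ) :
    ∃ C E c : ℕ, 0 < E ∧ ∀ (u Q N1 l l' k k' g i j M M' : ℕ) (s : Finset ℕ),
      QOk A (a * (u + 1)) Q N1 → s ⊆ Icc 1 (2 ^ (a * (u + 1))) →
      N1 + l + l' ≤ i → i + g ≤ j → c * (u + 1) + l + l' + k + k' ≤ g →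
      ‖(A.AA R M' * XX A R Q (j - l) (j + k - l') * GG A R s Q) *
        star (A.AA R M * XX A R Q (i - l) (i + k - l') * GG A R s Q)‖ ≤
      C * (1 / 2) ^ u * (1 / 2) ^ ((j - i - g) / E) := by
  obtain ⟨C, E, h⟩ := far_T hA R
  refine ⟨C, E + 1, E * (4 * a + 1), Nat.succ_pos _,
    fun u Q N1 l l' k k' g i j M M' s hQ hs hi hj hg => ?_⟩
  have e1 : E * (4 * (a * (u + 1)) + u + 1) = E * (4 * a + 1) * (u + 1) := by ring
  have t1 := tbd (E := E) (E' := E + 1) (v := a * (u + 1)) (u := u) (x := j - i - g) (Nat.le_succ _)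
  rw [e1] at t1
  have k1 := h (a * (u + 1)) Q N1 (i - l) (i + k - l') (j - l) (j + k - l') M M'
    (4 * (a * (u + 1)) + u + (j - i - g) / (E + 1)) s hQ hs
    (by omega) (by omega) (by omega) (by omega) (by omega) (by omega)
  rw [mul_assoc (C : ℝ), pw] at k1
  linarith

theorem far3 {A : Dat G} (hA : A.Ok) (R : Rep G H) (a : ℕ) :
    ∃ C E c : ℕ, 0 < E ∧ ∀ (u Q N1 k g i j M M' : ℕ),
      QOk A (a * (u + 1)) Q N1 → 2 ^ i ≤ M → M < 2 ^ (i + 1) → 1 ≤ k →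
      N1 ≤ i → i + g ≤ j → c * (u + 1) ≤ g →
      ‖(YY A R Q (j + k) (cut A Q M') * GG A R (blk a u) Q) *
        star (YY A R Q (i + k) (cut A Q M) * GG A R (blk a u) Q)‖ ≤
      C * (1 / 2) ^ u * (1 / 2) ^ ((j - i - g) / E) := by
  obtain ⟨C, E, h⟩ := far_Y hA R
  refine ⟨C, E + 1, E * (4 * a + 1), Nat.succ_pos _,
    fun u Q N1 k g i j M M' hQ hM hM' hk hi hj hg => ?_⟩
  have e1 : E * (4 * (a * (u + 1)) + u + 1) = E * (4 * a + 1) * (u + 1) := by ring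
  have t1 := tbd (E := E) (E' := E + 1) (v := a * (u + 1)) (u := u) (x := j - i - g) (Nat.le_succ _)
  rw [e1] at t1
  have hle : A.P0 * Q ≤ M := hQ.le.trans ((Nat.pow_le_pow_right (by norm_num) hi).trans hM)
  have k1 := h (a * (u + 1)) Q N1 (i + 1) (i + k) (j + k) (cut A Q M) (cut A Q M')
    (4 * (a * (u + 1)) + u + (j - i - g) / (E + 1)) _ hQ (L12Aux.blk_sub a u)
    (cut_pos hQ.pos hle) (dvd_cut A Q M) ((cut_le A Q M).trans hM'.le)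
    (by omega) (by omega) (by omega)
  rw [mul_assoc (C : ℝ), pw] at k1
  linarith

theorem bdd : ∃ c : ℝ, 0 ≤ c ∧ ∀ u : ℕ, ((u : ℝ) + 1) * rho ^ (12 * u) ≤ c := by
  have h1 : (0 : ℝ) ≤ rho ^ 12 := pow_nonneg rho_pos.le _
  have h2 : rho ^ 12 < 1 := pow_lt_one₀ rho_pos.le rho_lt_one (by norm_num)
  obtain ⟨c, hc⟩ := (tendsto_self_mul_const_pow_of_lt_one h1 h2).bddAbove_range
  have hc' : ∀ u : ℕ, (u : ℝ) * (rho ^ 12) ^ u ≤ c := fun u => hc ⟨u, rfl⟩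
  refine ⟨c + 1, ?_, fun u => ?_⟩
  · have := hc' 0
    simp at this
    linarith
  · rw [pow_mul, add_mul, one_mul]
    exact add_le_add (hc' u) (pow_le_one₀ h1 h2.le)

theorem sq_bd (α κ : ℝ) (hκ : 0 ≤ κ) (g0 E : ℕ) : ∃ B : ℝ, 0 ≤ B ∧ ∀ u : ℕ,
    2 * ((g0 * (u + 1) : ℕ) : ℝ) * (α * rho ^ (7 * u)) ^ 2 + 4 * E * (κ * (1 / 2) ^ u) ≤
      (B * rho ^ u) ^ 2 := by
  obtain ⟨c, hc0, hc⟩ := bdd
  refine ⟨2 * g0 * α ^ 2 * c + 4 * E * κ + 1, by positivity, fun u => ?_⟩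
  have hr := rho_pos
  have e1 : 2 * ((g0 * (u + 1) : ℕ) : ℝ) * (α * rho ^ (7 * u)) ^ 2 =
      2 * g0 * α ^ 2 * (((u : ℝ) + 1) * rho ^ (12 * u)) * rho ^ (2 * u) := by
    push_cast
    have : (α * rho ^ (7 * u)) ^ 2 = α ^ 2 * (rho ^ (12 * u) * rho ^ (2 * u)) := by
      rw [mul_pow, ← pow_mul, ← pow_add]
      congr 2
      ring
    rw [this]
    ring
  have e2 : ((1 : ℝ) / 2) ^ u ≤ rho ^ (2 * u) := by
    rw [L12Aux.half_pow]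
    exact pow_le_pow_of_le_one hr.le rho_lt_one.le (by omega)
  have h2 : (0 : ℝ) ≤ rho ^ (2 * u) := by positivity
  have e3 : 2 * g0 * α ^ 2 * (((u : ℝ) + 1) * rho ^ (12 * u)) * rho ^ (2 * u) ≤
      2 * g0 * α ^ 2 * c * rho ^ (2 * u) :=
    mul_le_mul_of_nonneg_right (mul_le_mul_of_nonneg_left (hc u) (by positivity)) h2
  have e4 : 4 * (E : ℝ) * (κ * (1 / 2) ^ u) ≤ 4 * E * κ * rho ^ (2 * u) := by
    calc 4 * (E : ℝ) * (κ * (1 / 2) ^ u) = 4 * E * κ * (1 / 2) ^ u := by ring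
      _ ≤ _ := mul_le_mul_of_nonneg_left e2 (by positivity)
  rw [e1, mul_pow, ← pow_mul, mul_comm u 2]
  set y : ℝ := 2 * g0 * α ^ 2 * c + 4 * E * κ with hy
  have hy0 : 0 ≤ y := by positivity
  have e5 : y ≤ (y + 1) ^ 2 := by nlinarith
  have e6 := mul_le_mul_of_nonneg_right e5 h2
  have e7 : y * rho ^ (2 * u) = 2 * g0 * α ^ 2 * c * rho ^ (2 * u) +
      4 * E * κ * rho ^ (2 * u) := by rw [hy]; ring
  linarith

theorem normK {A : Dat G} (hA : A.Ok) (R : Rep G H) {a b C0 : ℕ} (h : CPab A R a b C0) :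
    ∃ C E : ℕ, ∀ u Q N1 : ℕ, QOk A (a * (u + 1)) Q N1 → 2 ^ (E * (u + 1)) ≤ Q →
      E * (u + 1) ≤ N1 →
      ‖A.AA R (A.P0 * Q) * A.Ph R 0 Q (2 * N1) * GG A R (blk a u) Q‖ ≤ C * rho ^ (7 * u) := by
  obtain ⟨C1, E1, h1⟩ := g_pi hA R
  obtain ⟨C2, E2, h2⟩ := l1 hA R h
  refine ⟨C1 + C2, E1 * (2 * a + 1) + E2, fun u Q N1 hQ hQE hN => ?_⟩
  have e1 : E1 * (u + 2 * (a * (u + 1)) + 1) = E1 * (2 * a + 1) * (u + 1) := by ring
  have e2 : (E1 * (2 * a + 1) + E2) * (u + 1) = E1 * (2 * a + 1) * (u + 1) + E2 * (u + 1) := by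
    ring
  have hP0 : 0 < A.P0 := by unfold Dat.P0; positivity
  have hPQ : 0 < A.P0 * Q := Nat.mul_pos hP0 hQ.pos
  have hQP : Q ≤ A.P0 * Q := Nat.le_mul_of_pos_left _ hP0
  have hlog : E2 * (u + 1) ≤ Nat.log 2 (A.P0 * Q) := by
    apply Nat.le_log_of_pow_le (by norm_num)
    refine le_trans ?_ (hQE.trans hQP)
    exact Nat.pow_le_pow_right (by norm_num) (by rw [e2]; omega)
  rw [e2] at hN
  have k1 := h1 (a * (u + 1)) Q N1 (2 * N1) (u + 2 * (a * (u + 1))) _ hQ (L12Aux.blk_sub a u)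
    (by rw [e1]; omega)
  rw [mul_assoc (C1 : ℝ), NearXAux.four_two] at k1
  have k2 := h2 u (Nat.log 2 (A.P0 * Q)) (2 * N1) (A.P0 * Q) hlog (by omega)
    (Nat.pow_log_le_self 2 hPQ.ne') (Nat.lt_pow_succ_log_self (by norm_num) _)
  have e3 : A.AA R (A.P0 * Q) * A.Ph R 0 Q (2 * N1) * GG A R (blk a u) Q =
      A.AA R (A.P0 * Q) * (A.Ph R 0 Q (2 * N1) * GG A R (blk a u) Q -
        A.Pi R 0 (blk a u) (2 * N1)) + A.AA R (A.P0 * Q) * A.Pi R 0 (blk a u) (2 * N1) := by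
    noncomm_ring
  have k3 : ‖A.AA R (A.P0 * Q) * (A.Ph R 0 Q (2 * N1) * GG A R (blk a u) Q -
        A.Pi R 0 (blk a u) (2 * N1))‖ ≤ C1 * (1 / 2) ^ u :=
    NearXAux.nl (Dat.norm_AA_le (A := A) (R := R) _) k1
  have k4 := mul_le_mul_of_nonneg_left ((L12Aux.half_le' u)) (Nat.cast_nonneg (α := ℝ) C1)
  rw [e3]
  refine (norm_add_le _ _).trans ?_
  push_cast
  linarith

end InfUAux

variable {G : Type} [Group G] {X : Type} [MeasurableSpace X] {μ : Measure X}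

namespace InfUAux

open ContinuousLinearMap

theorem mx1 {R : Rep G (Lp ℂ 2 μ)} {A : Dat G} (hA : A.Ok) {a b C0 : ℕ}
    (h : CPab A R a b C0) : ∃ (C : ℝ) (c : ℕ), 0 ≤ C ∧ ∀ (u Q N1 n0 : ℕ) (M : ℕ → ℕ),
      QOk A (a * (u + 1)) Q N1 → (∀ n, 2 ^ n ≤ M n ∧ M n < 2 ^ (n + 1)) →
      N1 + c * (u + 1) ≤ n0 → ∀ f : Lp ℂ 2 μ,
      mx {n | n0 ≤ n} (fun n => (A.AA R (cut A Q (M n)) *
        XX A R Q (n - (b * u + b)) (n - b * u) * GG A R (Icc 1 (2 ^ (a * u))) Q) f) ≤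
      ENNReal.ofReal (C * rho ^ u * ‖f‖) := by
  obtain ⟨C1, E1, h1⟩ := near1 hA R h
  obtain ⟨C2, E2, c2, hE2, h2⟩ := far1 hA R a
  obtain ⟨B, hB0, hB⟩ := sq_bd C1 C2 (Nat.cast_nonneg _) (c2 + 3 * b + 1) E2
  refine ⟨B, E1 + 2 * b, hB0, fun u Q N1 n0 M hQ hM hn0 f => ?_⟩
  have hr := rho_pos
  have hs : Icc 1 (2 ^ (a * u)) ⊆ Icc 1 (2 ^ (a * (u + 1))) :=
    Icc_subset_Icc_right (Nat.pow_le_pow_right (by norm_num)
      (Nat.mul_le_mul_left a (Nat.le_succ u)))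
  have e1 : (E1 + 2 * b) * (u + 1) = E1 * (u + 1) + 2 * (b * u) + 2 * b := by ring
  have e2 : (c2 + 3 * b + 1) * (u + 1) = c2 * (u + 1) + 3 * (b * u) + 3 * b + (u + 1) := by ring
  rw [e1] at hn0
  refine mx_schur_nat (α := C1 * rho ^ (7 * u)) (κ := C2 * (1 / 2) ^ u) (by positivity)
    (by positivity) (g := (c2 + 3 * b + 1) * (u + 1)) (E := E2) ?_ hE2 ?_ ?_
    (by positivity) (hB u) f
  · rw [e2]; omega
  · intro i hi
    have hi' : n0 ≤ i := hi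
    exact h1 u Q N1 i (M i) hQ (hM i).1 (hM i).2 (by omega)
  · intro i hi j hj hij
    have hi' : n0 ≤ i := hi
    rw [← star_eq_adjoint]
    exact h2 u Q N1 (b * u + b) (b * u) 0 0 _ i j (cut A Q (M i)) (cut A Q (M j)) _ hQ hs
      (by omega) hij (by rw [e2]; omega)

theorem mx2 {R : Rep G (Lp ℂ 2 μ)} {A : Dat G} (hA : A.Ok) {a b C0 : ℕ}
    (h : CPab A R a b C0) (h0 : ℕ) :
    ∃ (C : ℝ) (c : ℕ), 0 ≤ C ∧ ∀ (u Q N1 n0 : ℕ) (M : ℕ → ℕ),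
      QOk A (a * (u + 1)) Q N1 → (∀ n, 2 ^ n ≤ M n ∧ M n < 2 ^ (n + 1)) →
      N1 + c * (u + 1) ≤ n0 → ∀ f : Lp ℂ 2 μ,
      mx {n | n0 ≤ n} (fun n => (A.AA R (cut A Q (M n)) *
        XX A R Q (n - (b * u + b)) (n + h0 * (u + 1)) * GG A R (blk a u) Q) f) ≤
      ENNReal.ofReal (C * rho ^ u * ‖f‖) := by
  obtain ⟨C1, E1, h1⟩ := near2 hA R h
  obtain ⟨C2, E2, c2, hE2, h2⟩ := far1 hA R a
  obtain ⟨B, hB0, hB⟩ := sq_bd C1 C2 (Nat.cast_nonneg _) (c2 + 3 * b + h0 + 1) E2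
  refine ⟨B, E1 + 2 * b, hB0, fun u Q N1 n0 M hQ hM hn0 f => ?_⟩
  have hr := rho_pos
  have e1 : (E1 + 2 * b) * (u + 1) = E1 * (u + 1) + 2 * (b * u) + 2 * b := by ring
  have e2 : (c2 + 3 * b + h0 + 1) * (u + 1) =
    c2 * (u + 1) + 3 * (b * u) + 3 * b + h0 * (u + 1) + (u + 1) := by ring
  rw [e1] at hn0
  refine mx_schur_nat (α := C1 * rho ^ (7 * u)) (κ := C2 * (1 / 2) ^ u) (by positivity)
    (by positivity) (g := (c2 + 3 * b + h0 + 1) * (u + 1)) (E := E2) ?_ hE2 ?_ ?_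
    (by positivity) (hB u) f
  · rw [e2]; omega
  · intro i hi
    have hi' : n0 ≤ i := hi
    exact h1 u Q N1 i (M i) _ hQ (hM i).1 (hM i).2 (by omega)
  · intro i hi j hj hij
    have hi' : n0 ≤ i := hi
    rw [← star_eq_adjoint]
    exact h2 u Q N1 (b * u + b) 0 (h0 * (u + 1)) 0 _ i j (cut A Q (M i)) (cut A Q (M j)) _ hQ
      (L12Aux.blk_sub a u) (by omega) hij (by rw [e2]; omega)

theorem mx3 {R : Rep G (Lp ℂ 2 μ)} {A : Dat G} (hA : A.Ok) (a : ℕ) :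
    ∃ (C : ℝ) (c h0 : ℕ), 0 ≤ C ∧ ∀ (u Q N1 n0 : ℕ) (M : ℕ → ℕ),
      QOk A (a * (u + 1)) Q N1 → (∀ n, 2 ^ n ≤ M n ∧ M n < 2 ^ (n + 1)) →
      N1 + c * (u + 1) ≤ n0 → ∀ f : Lp ℂ 2 μ,
      mx {n | n0 ≤ n} (fun n => (YY A R Q (n + h0 * (u + 1)) (cut A Q (M n)) *
        GG A R (blk a u) Q) f) ≤
      ENNReal.ofReal (C * rho ^ u * ‖f‖) := by
  obtain ⟨C1, E1, h1⟩ := near3 hA R a
  obtain ⟨C2, E2, c2, hE2, h2⟩ := far3 hA R a
  obtain ⟨B, hB0, hB⟩ := sq_bd C1 C2 (Nat.cast_nonneg _) (c2 + 1) E2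
  refine ⟨B, 0, E1 + 1, hB0, fun u Q N1 n0 M hQ hM hn0 f => ?_⟩
  have hr := rho_pos
  have e1 : (E1 + 1) * (u + 1) = E1 * (u + 1) + (u + 1) := by ring
  have e2 : (c2 + 1) * (u + 1) = c2 * (u + 1) + (u + 1) := by ring
  rw [zero_mul, add_zero] at hn0
  refine mx_schur_nat (α := C1 * rho ^ (7 * u)) (κ := C2 * (1 / 2) ^ u) (by positivity)
    (by positivity) (g := (c2 + 1) * (u + 1)) (E := E2) ?_ hE2 ?_ ?_
    (by positivity) (hB u) f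
  · rw [e2]; omega
  · intro i hi
    have hi' : n0 ≤ i := hi
    exact h1 u Q N1 i (M i) _ hQ (hM i).1 (hM i).2 (by omega) (by rw [e1]; omega)
  · intro i hi j hj hij
    have hi' : n0 ≤ i := hi
    rw [← star_eq_adjoint]
    exact h2 u Q N1 _ _ i j (M i) (M j) hQ (hM i).1 (hM i).2 (by rw [e1]; omega)
      (by omega) hij (by rw [e2]; omega)

end InfUAux

open InfUAux in
theorem inf_u [IsProbabilityMeasure μ] {W : G →* Equiv.Perm X}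
    (hW : ∀ g, Measurable (W g) ∧ MeasurePreserving (W g) μ μ) {R : Rep G (Lp ℂ 2 μ)}
    (hR : IsKoop R W) {A : Dat G} (hA : A.Ok) {a b C0 : ℕ} (hCP : CPab A R a b C0) :
    ∃ (C : ℝ) (E0 : ℕ), 0 ≤ C ∧ ∀ (u : ℕ) (M : ℕ → ℕ), (∀ n, 2 ^ n ≤ M n ∧ M n < 2 ^ (n + 1)) →
      ∀ f : Lp ℂ 2 μ, mx {n | 2 ^ (E0 * (u + 1)) ≤ n} (fun n => (A.AA R (M n) *
        (A.Pi R 0 (Icc 1 (2 ^ (a * (u + 1)))) (n - (b * u + b)) -
          A.Pi R 0 (Icc 1 (2 ^ (a * u))) (n - b * u))) f) ≤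
        ENNReal.ofReal (C * rho ^ u * ‖f‖) := by
  obtain ⟨C1, c1, hC1, h1⟩ := mx1 hA hCP
  obtain ⟨C3, c3, h0, hC3, h3⟩ := mx3 (μ := μ) (R := R) hA a
  obtain ⟨C2, c2, hC2, h2⟩ := mx2 hA hCP h0
  obtain ⟨C4, E4, h4⟩ := normK hA R hCP
  obtain ⟨C5, E5, h5⟩ := dec hA R
  obtain ⟨Ex, hEx⟩ := exists_Q A a E4
  set c0 : ℕ := c1 + c2 + c3 + E4 + E5 * (a + 1) + E5 + b + 1 with hc0
  set E1 : ℕ := Ex + c0 with hE1
  have hr := rho_pos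
  refine ⟨C1 + C2 + C3 + 2 ^ A.D * C4 + 2 * (E5 + 1) * C5, E1 + 3, by positivity,
    fun u M hM f => ?_⟩
  obtain ⟨Q, hQ, hQE⟩ := hEx E1 (Nat.le_add_right _ _) u
  set N1 : ℕ := 2 ^ (E1 * (u + 1)) with hN1
  set n0 : ℕ := 2 ^ ((E1 + 3) * (u + 1)) with hn0
  have hN1c : c0 * (u + 1) ≤ N1 := by
    have := Nat.lt_two_pow_self (n := E1 * (u + 1))
    have h' : c0 * (u + 1) ≤ E1 * (u + 1) := Nat.mul_le_mul_right _ (Nat.le_add_left _ _)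
    omega
  have hn0N : 8 * N1 ≤ n0 := by
    have : n0 = 2 ^ (E1 * (u + 1)) * 2 ^ (3 * (u + 1)) := by
      rw [hn0, ← pow_add]; congr 1; ring
    rw [this, mul_comm]
    refine Nat.mul_le_mul_left _ ?_
    calc 8 = 2 ^ 3 := by norm_num
      _ ≤ 2 ^ (3 * (u + 1)) := Nat.pow_le_pow_right (by norm_num) (by omega)
  have ec : c0 * (u + 1) = c1 * (u + 1) + c2 * (u + 1) + c3 * (u + 1) + E4 * (u + 1) +
      E5 * (a + 1) * (u + 1) + E5 * (u + 1) + (b * u + b) + (u + 1) := by rw [hc0]; ring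
  have h1' := h1 u Q N1 n0 M hQ hM (by omega) f
  have h2' := h2 u Q N1 n0 M hQ hM (by omega) f
  have h3' := h3 u Q N1 n0 M hQ hM (by omega) f
  have h4' := h4 u Q N1 hQ hQE (by omega)
  set K := A.AA R (A.P0 * Q) * A.Ph R 0 Q (2 * N1) * GG A R (blk a u) Q with hK
  set l : ℕ := b * u + b with hl
  set T : ℕ → (Lp ℂ 2 μ →L[ℂ] Lp ℂ 2 μ) := fun n => A.AA R (M n) *
        (A.Pi R 0 (Icc 1 (2 ^ (a * (u + 1)))) (n - l) -
          A.Pi R 0 (Icc 1 (2 ^ (a * u))) (n - b * u)) with hT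
  set T1 : ℕ → (Lp ℂ 2 μ →L[ℂ] Lp ℂ 2 μ) := fun n => A.AA R (cut A Q (M n)) *
        XX A R Q (n - l) (n - b * u) * GG A R (Icc 1 (2 ^ (a * u))) Q with hT1
  set T2 : ℕ → (Lp ℂ 2 μ →L[ℂ] Lp ℂ 2 μ) := fun n => A.AA R (cut A Q (M n)) *
        XX A R Q (n - l) (n + h0 * (u + 1)) * GG A R (blk a u) Q with hT2
  set T3 : ℕ → (Lp ℂ 2 μ →L[ℂ] Lp ℂ 2 μ) := fun n =>
    YY A R Q (n + h0 * (u + 1)) (cut A Q (M n)) * GG A R (blk a u) Q with hT3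
  set T4 : ℕ → (Lp ℂ 2 μ →L[ℂ] Lp ℂ 2 μ) := fun n => A.Ph R 0 Q (n + h0 * (u + 1)) * K with hT4
  have hD : ∀ n, n0 ≤ n → ‖T n - (T1 n + T2 n + T3 n + T4 n)‖ ≤
      C5 * (1 / 2) ^ (u + (n - n0) / (E5 + 1)) := by
    intro n hn
    have hdiv : E5 * ((n - n0) / (E5 + 1)) ≤ n - n0 :=
      (Nat.mul_le_mul_right _ (Nat.le_succ E5)).trans (Nat.mul_div_le _ _)
    have e5 : E5 * (a * (u + 1) + (u + (n - n0) / (E5 + 1)) + 1) =
        E5 * (a + 1) * (u + 1) + E5 * ((n - n0) / (E5 + 1)) := by ring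
    exact h5 a u b (h0 * (u + 1)) n (M n) N1 (2 * N1) Q (u + (n - n0) / (E5 + 1)) hQ (hM n).1
      (by omega) (by rw [e5]; omega)
  have b5 : mx {n | n0 ≤ n} (fun n => (T n - (T1 n + T2 n + T3 n + T4 n)) f) ≤
      ENNReal.ofReal (2 * (E5 + 1 : ℕ) * (C5 * (1 / 2) ^ u * ‖f‖)) := by
    refine mx_geo (n0 := n0) (E := E5 + 1) (Nat.succ_pos _) (by positivity) (fun n hn => hn)
      (fun n hn => ?_)
    refine (ContinuousLinearMap.le_opNorm _ f).trans ?_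
    refine (mul_le_mul_of_nonneg_right (hD n hn) (norm_nonneg f)).trans (le_of_eq ?_)
    rw [pow_add]
    ring
  have b4 : mx {n | n0 ≤ n} (fun n => T4 n f) ≤
      ENNReal.ofReal (2 ^ A.D * (C4 * rho ^ (7 * u) * ‖f‖)) := by
    refine (mx_le_mx (t := Set.univ) (B := fun m => A.Ph R 0 Q m (K f)) (fun n _ =>
      Or.inr ⟨n + h0 * (u + 1), Set.mem_univ _, rfl⟩)).trans ?_
    refine (ph_max hW hR A Q (K f)).trans ?_
    rw [ENNReal.ofReal_mul (by positivity)]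
    have e6 : ENNReal.ofReal ((2 : ℝ) ^ A.D) = 2 ^ A.D := by
      rw [ENNReal.ofReal_pow (by norm_num)]; norm_num
    rw [e6]
    refine mul_le_mul_right ?_ _
    rw [← ofReal_norm_eq_enorm]
    exact ENNReal.ofReal_le_ofReal ((ContinuousLinearMap.le_opNorm K f).trans
      (mul_le_mul_of_nonneg_right h4' (norm_nonneg f)))
  have hsum : (fun n => T n f) = fun n => (((T1 n f + T2 n f) + T3 n f) + T4 n f) +
      (T n - (T1 n + T2 n + T3 n + T4 n)) f := by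
    funext n
    simp only [ContinuousLinearMap.sub_apply, ContinuousLinearMap.add_apply]
    abel
  have hmain : mx {n | n0 ≤ n} (fun n => T n f) ≤
      ENNReal.ofReal (C1 * rho ^ u * ‖f‖) + ENNReal.ofReal (C2 * rho ^ u * ‖f‖) +
      ENNReal.ofReal (C3 * rho ^ u * ‖f‖) +
      ENNReal.ofReal (2 ^ A.D * (C4 * rho ^ (7 * u) * ‖f‖)) +
      ENNReal.ofReal (2 * (E5 + 1 : ℕ) * (C5 * (1 / 2) ^ u * ‖f‖)) := by
    rw [hsum]
    refine (mx_add_le _ _ _).trans (add_le_add ?_ b5)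
    refine (mx_add_le _ _ _).trans (add_le_add ?_ b4)
    refine (mx_add_le _ _ _).trans (add_le_add ?_ h3')
    exact (mx_add_le _ _ _).trans (add_le_add h1' h2')
  refine hmain.trans ?_
  rw [← ENNReal.ofReal_add (by positivity) (by positivity),
    ← ENNReal.ofReal_add (by positivity) (by positivity),
    ← ENNReal.ofReal_add (by positivity) (by positivity),
    ← ENNReal.ofReal_add (by positivity) (by positivity)]
  apply ENNReal.ofReal_le_ofReal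
  have r7 : rho ^ (7 * u) ≤ rho ^ u := pow_le_pow_of_le_one hr.le rho_lt_one.le (by omega)
  have r2 : (1 / 2 : ℝ) ^ u ≤ rho ^ u := (L12Aux.half_le' u).trans r7
  have q7 : 2 ^ A.D * ((C4 : ℝ) * rho ^ (7 * u) * ‖f‖) ≤ 2 ^ A.D * (C4 * rho ^ u * ‖f‖) := by
    gcongr
  have q2 : 2 * ((E5 + 1 : ℕ) : ℝ) * ((C5 : ℝ) * (1 / 2) ^ u * ‖f‖) ≤
      2 * ((E5 + 1 : ℕ) : ℝ) * (C5 * rho ^ u * ‖f‖) := by
    gcongr
  push_cast at q2 ⊢
  nlinarith [q7, q2]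

end Pool.Agent.Lib.Npm
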