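import Mathlib.MeasureTheory.Measure.MeasureSpace
import Mathlib.Topology.Instances.Real.Lemmas
import Mathlib.Analysis.SpecificLimits.Basic

/-!
# From lacunary sequences to all averages

PROOF. For `N ≥ 1` and `i ≤ N` put `s n = 2 ^ n + 2 ^ n * i / N` (natural division; for `i < N` it lies in `[2^n, 2^(n+1))`, for `i = N` it is `2^(n+1)`).
All these sequences (countably many), and the sequences which alternate (`n` even: the sequence of `(N, i)`; `n` odd: `2 ^ n`) converge for a.e. `x`; fix such an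
`x` and let `a` be the limit along `2 ^ n`; because of the alternating sequences all limits are equal to `a` (compare along the odd and the even `n`).
Let `2 ^ n ≤ M < 2 ^ (n+1)` and let `i < N` be the largest index with `s_i n ≤ M`; then `M < s_{i+1} n` and for `2 ^ n ≥ N`: `s_{i+1} n ≤ s_i n + 2^n / N + 1 ≤ s_i n (1 + 2 / N)`.
Monotonicity of `M ^ k F M` gives `(1 + 2/N)^{-k} F (s_i n) ≤ F M ≤ (1 + 2/N)^k F (s_{i+1} n)`. So for every `N` the `limsup` of `F M x` is at most `(1+2/N)^k a` and the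
`liminf` at least `(1+2/N)^{-k} a` (both over the finitely many `i`), and `N → ∞`.
-/

set_option autoImplicit false

open MeasureTheory Filter Topology

namespace Pool.Agent.Lib.Npm

variable {X : Type*} [MeasurableSpace X] {μ : Measure X}

namespace SandwichAux

/-- the intermediate points -/
def s (N i n : ℕ) : ℕ := 2 ^ n + 2 ^ n * i / N

/-- the alternating sequences -/
def alt (e N i n : ℕ) : ℕ := if (n + e) % 2 = 0 then s N i n else 2 ^ n

lemma s_lt {N i : ℕ} (h : i < N) (n : ℕ) : s N i n < 2 ^ (n + 1) := by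
  unfold s
  have h1 : 2 ^ n * i / N < 2 ^ n := by
    rw [Nat.div_lt_iff_lt_mul (by omega)]
    exact Nat.mul_lt_mul_of_pos_left h (by positivity)
  rw [pow_succ]
  omega

lemma alt_mem {e N i : ℕ} (h : i < N) (n : ℕ) : 2 ^ n ≤ alt e N i n ∧ alt e N i n < 2 ^ (n + 1) := by
  unfold alt
  split_ifs
  · exact ⟨Nat.le_add_right _ _, s_lt h n⟩
  · exact ⟨le_rfl, Nat.pow_lt_pow_right (by norm_num) (by omega)⟩

lemma s_self {N : ℕ} (h : 0 < N) (n : ℕ) : s N N n = 2 ^ (n + 1) := by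
  unfold s
  rw [Nat.mul_div_cancel _ h, pow_succ]
  ring

lemma s_eq_alt (N i n : ℕ) : s N i n = alt 0 N i n ∨ s N i n = alt 1 N i n := by
  unfold alt
  rcases Nat.mod_two_eq_zero_or_one n with h | h
  · left
    rw [if_pos (by omega)]
  · right
    rw [if_pos (by omega)]

lemma alt_odd (e N i m : ℕ) : alt e N i (2 * m + 1 + e) = 2 ^ (2 * m + 1 + e) := by
  unfold alt
  rw [if_neg (by omega)]

/-- the limits along the alternating sequences -/
lemma tendsto_alt {G : ℕ → ℝ} {a b : ℝ} {e N i : ℕ}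
    (h1 : Tendsto (fun n => G (2 ^ n)) atTop (𝓝 a))
    (h2 : Tendsto (fun n => G (alt e N i n)) atTop (𝓝 b)) : b = a := by
  have hsub : Tendsto (fun m : ℕ => 2 * m + 1 + e) atTop atTop := by
    apply tendsto_atTop_mono (f := fun m : ℕ => m) _ tendsto_id
    intro m
    show m ≤ 2 * m + 1 + e
    omega
  have h3 := h2.comp hsub
  have h4 := h1.comp hsub
  have h5 : ((fun n => G (alt e N i n)) ∘ fun m : ℕ => 2 * m + 1 + e) =
      ((fun n => G (2 ^ n)) ∘ fun m : ℕ => 2 * m + 1 + e) := by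
    funext m
    simp only [Function.comp_apply]
    rw [alt_odd]
  rw [h5] at h3
  exact tendsto_nhds_unique h3 h4

/-- the deterministic part -/
lemma det (k : ℕ) {G : ℕ → ℝ} (h0 : ∀ M, 0 ≤ G M)
    (hm : ∀ M M' : ℕ, M ≤ M' → (M : ℝ) ^ k * G M ≤ (M' : ℝ) ^ k * G M') {a : ℝ}
    (hs : ∀ N i : ℕ, 0 < N → i ≤ N → Tendsto (fun n => G (s N i n)) atTop (𝓝 a)) :
    Tendsto G atTop (𝓝 a) := by
  rw [Metric.tendsto_atTop]
  intro ε hε
  -- choice of `N`
  have hc : Tendsto (fun N : ℕ => (1 + 2 / (N : ℝ)) ^ k) atTop (𝓝 1) := by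
    have h1 : Tendsto (fun N : ℕ => (2 : ℝ) / (N : ℝ)) atTop (𝓝 0) :=
      tendsto_const_div_atTop_nhds_zero_nat 2
    have h2 := (h1.const_add 1).pow k
    simpa using h2
  have h1 : Tendsto (fun N : ℕ => (1 + 2 / (N : ℝ)) ^ k * (a + ε / 2)) atTop
      (𝓝 (1 * (a + ε / 2))) := hc.mul_const _
  have h2 : Tendsto (fun N : ℕ => (a - ε / 2) / (1 + 2 / (N : ℝ)) ^ k) atTop
      (𝓝 ((a - ε / 2) / 1)) := tendsto_const_nhds.div hc one_ne_zero
  have h3 : ∀ᶠ N : ℕ in atTop, (1 + 2 / (N : ℝ)) ^ k * (a + ε / 2) < a + ε :=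
    h1.eventually_lt_const (by linarith)
  have h4 : ∀ᶠ N : ℕ in atTop, a - ε < (a - ε / 2) / (1 + 2 / (N : ℝ)) ^ k :=
    h2.eventually_const_lt (by linarith)
  obtain ⟨N, hN1, hN2, hN⟩ := (h3.and (h4.and (eventually_gt_atTop 0))).exists
  have hN0 : (0 : ℝ) < N := by exact_mod_cast hN
  set c : ℝ := (1 + 2 / (N : ℝ)) ^ k with hcdef
  have hc0 : 0 < c := by positivity
  -- the finitely many sequences
  have h5 : ∀ᶠ n : ℕ in atTop, ∀ i ∈ Finset.range (N + 1), dist (G (s N i n)) a < ε / 2 := by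
    rw [eventually_all_finset]
    intro i hi
    have hi' : i ≤ N := Nat.lt_succ_iff.1 (Finset.mem_range.1 hi)
    exact (Metric.tendsto_nhds.1 (hs N i hN hi')) (ε / 2) (by linarith)
  have h6 : ∀ᶠ n : ℕ in atTop, N ≤ 2 ^ n :=
    (tendsto_pow_atTop_atTop_of_one_lt (by norm_num : 1 < 2)).eventually_ge_atTop N
  obtain ⟨n₀, hn₀⟩ := eventually_atTop.1 (h5.and h6)
  refine ⟨2 ^ n₀, fun M hM => ?_⟩
  have hM0 : M ≠ 0 := by
    have : 0 < 2 ^ n₀ := by positivity
    omega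
  set n := Nat.log 2 M with hn
  have hn1 : 2 ^ n ≤ M := Nat.pow_log_le_self 2 hM0
  have hn2 : M < 2 ^ (n + 1) := Nat.lt_pow_succ_log_self (by norm_num) M
  have hn3 : n₀ ≤ n := (Nat.le_log_iff_pow_le (by norm_num) hM0).2 hM
  obtain ⟨hn4, hn5⟩ := hn₀ n hn3
  set i := (M - 2 ^ n) * N / 2 ^ n with hi
  have hpow : 0 < 2 ^ n := by positivity
  have hiN : i < N := by
    rw [hi, Nat.div_lt_iff_lt_mul hpow, mul_comm N]
    apply Nat.mul_lt_mul_of_pos_right _ hN
    rw [pow_succ] at hn2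
    omega
  have hlow : s N i n ≤ M := by
    unfold s
    have : 2 ^ n * i / N ≤ M - 2 ^ n := by
      apply Nat.div_le_of_le_mul
      rw [hi, mul_comm N]
      exact Nat.mul_div_le _ _
    omega
  have hup : M ≤ s N (i + 1) n := by
    unfold s
    have : M - 2 ^ n ≤ 2 ^ n * (i + 1) / N := by
      rw [Nat.le_div_iff_mul_le hN]
      have := Nat.lt_mul_div_succ ((M - 2 ^ n) * N) hpow
      rw [← hi] at this
      exact this.le
    omega
  have hs0 : (0 : ℝ) < s N i n := by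
    have : 0 < s N i n := by unfold s; positivity
    exact_mod_cast this
  have hs0' : (0 : ℝ) < s N (i + 1) n := by
    have : 0 < s N (i + 1) n := by unfold s; positivity
    exact_mod_cast this
  have hMr : (0 : ℝ) < M := by exact_mod_cast Nat.pos_of_ne_zero hM0
  have hratio : (s N (i + 1) n : ℝ) ≤ (1 + 2 / (N : ℝ)) * s N i n := by
    have e1 : ((2 ^ n * (i + 1) / N : ℕ) : ℝ) ≤ (2 ^ n : ℝ) * (i + 1) / N := by
      have := @Nat.cast_div_le ℝ _ _ _ (2 ^ n * (i + 1)) N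
      push_cast at this
      exact this
    have e2 : (2 ^ n : ℝ) * i / N ≤ ((2 ^ n * i / N : ℕ) : ℝ) + 1 := by
      have h7 := Nat.lt_div_mul_add hN (a := 2 ^ n * i)
      have h8 : ((2 ^ n * i : ℕ) : ℝ) < ((2 ^ n * i / N : ℕ) : ℝ) * N + N := by exact_mod_cast h7
      rw [div_le_iff₀ hN0]
      push_cast at h8
      push_cast
      linarith
    have e3 : (N : ℝ) ≤ 2 ^ n := by exact_mod_cast hn5
    have e4 : (1 : ℝ) ≤ 2 ^ n / N := by rwa [one_le_div hN0]
    have e5 : (s N (i + 1) n : ℝ) = 2 ^ n + ((2 ^ n * (i + 1) / N : ℕ) : ℝ) := by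
      unfold s; push_cast; rfl
    have e6 : (s N i n : ℝ) = 2 ^ n + ((2 ^ n * i / N : ℕ) : ℝ) := by
      unfold s; push_cast; rfl
    have e7 : (2 ^ n : ℝ) ≤ s N i n := by
      rw [e6]
      have : (0 : ℝ) ≤ ((2 ^ n * i / N : ℕ) : ℝ) := Nat.cast_nonneg _
      linarith
    have e8 : 2 * (2 ^ n / (N : ℝ)) ≤ 2 / (N : ℝ) * s N i n := by
      rw [show 2 * (2 ^ n / (N : ℝ)) = 2 / (N : ℝ) * 2 ^ n by ring]
      exact mul_le_mul_of_nonneg_left e7 (by positivity)
    have e9 : (2 ^ n : ℝ) * (i + 1) / N = 2 ^ n * i / N + 2 ^ n / N := by ring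
    rw [e5]
    rw [e9] at e1
    nlinarith
  have hMle : (M : ℝ) ≤ (1 + 2 / (N : ℝ)) * s N i n := by
    refine le_trans ?_ hratio
    exact_mod_cast hup
  have hcMi : (M : ℝ) ^ k ≤ c * (s N i n : ℝ) ^ k := by
    rw [hcdef, ← mul_pow]
    exact pow_le_pow_left₀ hMr.le hMle k
  have hcsi : (s N (i + 1) n : ℝ) ^ k ≤ c * (M : ℝ) ^ k := by
    rw [hcdef, ← mul_pow]
    apply pow_le_pow_left₀ hs0'.le
    refine le_trans hratio ?_
    apply mul_le_mul_of_nonneg_left _ (by positivity)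
    exact_mod_cast hlow
  have hMk : (0 : ℝ) < (M : ℝ) ^ k := by positivity
  have hsk : (0 : ℝ) < (s N i n : ℝ) ^ k := by positivity
  -- upper bound
  have hU : G M ≤ c * G (s N (i + 1) n) := by
    have h7 := hm M (s N (i + 1) n) hup
    have h8 : (M : ℝ) ^ k * G M ≤ (M : ℝ) ^ k * (c * G (s N (i + 1) n)) := by
      refine le_trans h7 ?_
      rw [← mul_assoc, mul_comm ((M : ℝ) ^ k)]
      exact mul_le_mul_of_nonneg_right hcsi (h0 _)
    exact le_of_mul_le_mul_left h8 hMk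
  -- lower bound
  have hL : G (s N i n) ≤ c * G M := by
    have h7 := hm (s N i n) M hlow
    have h8 : (s N i n : ℝ) ^ k * G (s N i n) ≤ (s N i n : ℝ) ^ k * (c * G M) := by
      refine le_trans h7 ?_
      rw [← mul_assoc, mul_comm ((s N i n : ℝ) ^ k)]
      exact mul_le_mul_of_nonneg_right hcMi (h0 _)
    exact le_of_mul_le_mul_left h8 hsk
  have hA := hn4 i (Finset.mem_range.2 (by omega))
  have hB := hn4 (i + 1) (Finset.mem_range.2 (by omega))
  rw [Real.dist_eq, abs_lt] at hA hB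
  rw [Real.dist_eq, abs_lt]
  constructor
  · have h9 : (a - ε / 2) / c ≤ G M := by
      rw [div_le_iff₀ hc0]
      linarith
    linarith
  · have h9 : G M ≤ c * (a + ε / 2) := by
      refine le_trans hU ?_
      exact mul_le_mul_of_nonneg_left (by linarith) hc0.le
    linarith

end SandwichAux

open SandwichAux in
theorem sandwich (k : ℕ) {F : ℕ → X → ℝ} (h0 : ∀ M x, 0 ≤ F M x)
    (hm : ∀ (M M' : ℕ) (x : X), M ≤ M' → (M : ℝ) ^ k * F M x ≤ (M' : ℝ) ^ k * F M' x)
    (h : ∀ s : ℕ → ℕ, (∀ n, 2 ^ n ≤ s n ∧ s n < 2 ^ (n + 1)) →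
      ∀ᵐ x ∂μ, ∃ a : ℝ, Tendsto (fun n => F (s n) x) atTop (𝓝 a)) :
    ∀ᵐ x ∂μ, ∃ a : ℝ, Tendsto (fun M => F M x) atTop (𝓝 a) := by
  have hbase : ∀ᵐ x ∂μ, ∃ a : ℝ, Tendsto (fun n => F (2 ^ n) x) atTop (𝓝 a) :=
    h (fun n => 2 ^ n) (fun n => ⟨le_rfl, Nat.pow_lt_pow_right (by norm_num) (by omega)⟩)
  have halt : ∀ᵐ x ∂μ, ∀ e N i : ℕ, i < N →
      ∃ a : ℝ, Tendsto (fun n => F (alt e N i n) x) atTop (𝓝 a) := by
    rw [ae_all_iff]
    intro e
    rw [ae_all_iff]
    intro N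
    rw [ae_all_iff]
    intro i
    by_cases hi : i < N
    · filter_upwards [h (alt e N i) (fun n => alt_mem hi n)] with x hx
      intro _
      exact hx
    · exact Eventually.of_forall fun x hi' => absurd hi' hi
  filter_upwards [hbase, halt] with x ⟨a, ha⟩ hx
  refine ⟨a, det k (fun M => h0 M x) (fun M M' hMM => hm M M' x hMM) ?_⟩
  intro N i hN hi
  rcases hi.lt_or_eq with hlt | rfl
  · have hal : ∀ e, Tendsto (fun n => F (alt e N i n) x) atTop (𝓝 a) := by
      intro e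
      obtain ⟨b, hb⟩ := hx e N i hlt
      have := tendsto_alt (G := fun M => F M x) ha hb
      rwa [this] at hb
    rw [Metric.tendsto_nhds]
    intro ε hε
    filter_upwards [Metric.tendsto_nhds.1 (hal 0) ε hε, Metric.tendsto_nhds.1 (hal 1) ε hε]
      with n h1 h2
    rcases s_eq_alt N i n with h3 | h3
    · rw [h3]; exact h1
    · rw [h3]; exact h2
  · have h1 : (fun n => F (s i i n) x) = fun n => F (2 ^ (n + 1)) x := by
      funext n
      rw [s_self hN]
    rw [h1]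
    exact ha.comp (tendsto_add_atTop_nat 1)

end Pool.Agent.Lib.Npm
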