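import Pool.Agent.Lib.Npm.MaxU
import Pool.Agent.Lib.Npm.Sandwich

/-!
# NPW: the pointwise ergodic theorem and the maximal inequality for averages over cubes
-/

set_option autoImplicit false

open MeasureTheory Finset Filter Topology
open scoped ENNReal NNReal

namespace Pool.Agent.Lib.Npm

open Pool.Agent.Lib.Npw

variable {G : Type} [Group G] {X : Type} [MeasurableSpace X] {μ : Measure X}

/-- the operator `AA` is the average -/
theorem AA_ae {W : G →* Equiv.Perm X} {R : Rep G (Lp ℂ 2 μ)} (hR : IsKoop R W) (A : Dat G) (M : ℕ)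
    (f : Lp ℂ 2 μ) : A.AA R M f =ᵐ[μ] fun x => ((M : ℂ) ^ A.k)⁻¹ *
      ∑ v ∈ Fintype.piFinset (fun _ : Fin A.k => range M), f (W (A.S v)⁻¹ x) := by
  have h1 : A.AA R M f = ((M : ℂ) ^ A.k)⁻¹ •
      ∑ v ∈ Fintype.piFinset (fun _ : Fin A.k => range M), R.U (A.S v) f := by
    simp [Dat.AA]
  rw [h1]
  have h2 : ∀ᵐ x ∂μ, ∀ v ∈ Fintype.piFinset (fun _ : Fin A.k => range M),
      R.U (A.S v) f x = f (W (A.S v)⁻¹ x) := by
    rw [eventually_all_finset]
    intro v _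
    exact hR _ _
  filter_upwards [h2, Lp.coeFn_smul ((M : ℂ) ^ A.k)⁻¹
    (∑ v ∈ Fintype.piFinset (fun _ : Fin A.k => range M), R.U (A.S v) f),
    Lp.coeFn_finsetSum (μ := μ) (Fintype.piFinset (fun _ : Fin A.k => range M))
      (fun v => R.U (A.S v) f)] with x hx hx2 hx3
  rw [hx2, Pi.smul_apply, hx3, smul_eq_mul]
  simp only [Finset.sum_apply]
  congr 1
  exact Finset.sum_congr rfl fun v hv => hx v hv

section main

variable [IsProbabilityMeasure μ] {W : G →* Equiv.Perm X}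
  (hW : ∀ g, Measurable (W g) ∧ MeasurePreserving (W g) μ μ) {A : Dat G} (hA : A.Ok)

include hW

/-- an a.e. identity holds along all orbits -/
theorem ae_orbit {p : X → Prop} (hp : ∀ᵐ x ∂μ, p x) (A : Dat G) :
    ∀ᵐ x ∂μ, ∀ v, p (W (A.S v)⁻¹ x) :=
  ae_all_iff.2 fun _ => (hW _).2.quasiMeasurePreserving.ae hp

include hA

theorem conv_nonneg {f : X → ℝ} (h0 : ∀ x, 0 ≤ f x) (hf : MemLp f 2 μ) :
    ∀ᵐ x ∂μ, ∃ a : ℝ, Tendsto (fun M : ℕ => ((M : ℝ) ^ A.k)⁻¹ *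
      ∑ v ∈ Fintype.piFinset (fun _ : Fin A.k => range M), f (W (A.S v)⁻¹ x)) atTop (𝓝 a) := by
  obtain ⟨R, hR⟩ := exists_rep W hW (μ := μ)
  refine sandwich A.k (F := fun M x => ((M : ℝ) ^ A.k)⁻¹ *
      ∑ v ∈ Fintype.piFinset (fun _ : Fin A.k => range M), f (W (A.S v)⁻¹ x)) ?_ ?_ ?_
  · intro M x
    have : 0 ≤ ∑ v ∈ Fintype.piFinset (fun _ : Fin A.k => range M), f (W (A.S v)⁻¹ x) :=
      Finset.sum_nonneg fun v _ => h0 _
    positivity
  · intro M M' x hMM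
    have hs : ∑ v ∈ Fintype.piFinset (fun _ : Fin A.k => range M), f (W (A.S v)⁻¹ x) ≤
        ∑ v ∈ Fintype.piFinset (fun _ : Fin A.k => range M'), f (W (A.S v)⁻¹ x) := by
      refine Finset.sum_le_sum_of_subset_of_nonneg ?_ fun v _ _ => h0 _
      refine Fintype.piFinset_subset _ _ fun _ => ?_
      exact Finset.range_subset_range.2 hMM
    have h1 : 0 ≤ ∑ v ∈ Fintype.piFinset (fun _ : Fin A.k => range M'), f (W (A.S v)⁻¹ x) :=
      Finset.sum_nonneg fun v _ => h0 _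
    show (M : ℝ) ^ A.k * (((M : ℝ) ^ A.k)⁻¹ * _) ≤ (M' : ℝ) ^ A.k * (((M' : ℝ) ^ A.k)⁻¹ * _)
    rw [← mul_assoc, ← mul_assoc]
    by_cases hM : (M : ℝ) ^ A.k = 0
    · rw [hM]
      simp only [zero_mul]
      positivity
    · have hM' : (M' : ℝ) ^ A.k ≠ 0 := by
        intro h
        apply hM
        rcases Nat.eq_zero_or_pos A.k with hk | hk
        · rw [hk] at h
          simp at h
        · have h2 : (M' : ℝ) = 0 := (pow_eq_zero_iff (by omega)).1 h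
          have h3 : M' = 0 := by exact_mod_cast h2
          have h4 : M = 0 := by omega
          rw [h4]
          simp only [Nat.cast_zero]
          exact zero_pow (by omega)
      rw [mul_inv_cancel₀ hM, mul_inv_cancel₀ hM', one_mul, one_mul]
      exact hs
  · intro s hs
    have hfc : MemLp (fun x => (f x : ℂ)) 2 μ := hf.ofReal
    set g : Lp ℂ 2 μ := hfc.toLp _ with hg
    have h1 := conv_seq hW hR hA hs g
    have h2 : ∀ᵐ x ∂μ, ∀ n, A.AA R (s n) g x = (((s n : ℕ) : ℂ) ^ A.k)⁻¹ *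
        ∑ v ∈ Fintype.piFinset (fun _ : Fin A.k => range (s n)), g (W (A.S v)⁻¹ x) :=
      ae_all_iff.2 fun n => AA_ae hR A (s n) g
    have h3 := ae_orbit hW (A := A) (hfc.coeFn_toLp)
    filter_upwards [h1, h2, h3] with x hx1 hx2 hx3
    obtain ⟨L, hL⟩ := hx1
    refine ⟨L.re, ?_⟩
    have h4 := (Complex.continuous_re.tendsto L).comp hL
    refine h4.congr fun n => ?_
    simp only [Function.comp_apply]
    rw [hx2 n]
    have h5 : (((s n : ℕ) : ℂ) ^ A.k)⁻¹ *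
        ∑ v ∈ Fintype.piFinset (fun _ : Fin A.k => range (s n)), g (W (A.S v)⁻¹ x) =
        (((((s n : ℕ) : ℝ) ^ A.k)⁻¹ *
        ∑ v ∈ Fintype.piFinset (fun _ : Fin A.k => range (s n)), f (W (A.S v)⁻¹ x) : ℝ) : ℂ) := by
      push_cast
      congr 1
      refine Finset.sum_congr rfl fun v _ => ?_
      exact hx3 v
    rw [h5, Complex.ofReal_re]

theorem conv_real {f : X → ℝ} (hf : MemLp f 2 μ) :
    ∀ᵐ x ∂μ, ∃ a : ℝ, Tendsto (fun M : ℕ => ((M : ℝ) ^ A.k)⁻¹ *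
      ∑ v ∈ Fintype.piFinset (fun _ : Fin A.k => range M), f (W (A.S v)⁻¹ x)) atTop (𝓝 a) := by
  have h1 : MemLp (fun x => max (f x) 0) 2 μ := hf.pos_part
  have h2 : MemLp (fun x => max (-f x) 0) 2 μ := hf.neg_part
  filter_upwards [conv_nonneg hW hA (fun x => le_max_right _ _) h1,
    conv_nonneg hW hA (fun x => le_max_right _ _) h2] with x ⟨a, ha⟩ ⟨b, hb⟩
  refine ⟨a - b, (ha.sub hb).congr fun M => ?_⟩
  rw [← mul_sub, ← Finset.sum_sub_distrib]
  congr 1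
  refine Finset.sum_congr rfl fun v _ => ?_
  exact max_zero_sub_max_neg_zero_eq_self _

theorem npw_conv' {f : X → ℂ} (hf : MemLp f 2 μ) : ∀ᵐ x ∂μ, ∃ a : ℂ, Tendsto (fun M : ℕ =>
      ((M : ℂ) ^ A.k)⁻¹ * ∑ v ∈ Fintype.piFinset (fun _ : Fin A.k => range M),
        f (W (A.S v)⁻¹ x)) atTop (𝓝 a) := by
  filter_upwards [conv_real hW hA hf.re, conv_real hW hA hf.im] with x ⟨a, ha⟩ ⟨b, hb⟩
  have ha' := (Complex.continuous_ofReal.tendsto a).comp ha
  have hb' := ((Complex.continuous_ofReal.tendsto b).comp hb).mul_const Complex.I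
  refine ⟨(a : ℂ) + (b : ℂ) * Complex.I, (ha'.add hb').congr fun M => ?_⟩
  simp only [Function.comp_apply]
  push_cast
  rw [mul_assoc, ← mul_add, Finset.sum_mul, ← Finset.sum_add_distrib]
  congr 1
  refine Finset.sum_congr rfl fun v _ => ?_
  exact Complex.re_add_im _

end main

theorem npw_conv [IsProbabilityMeasure μ] (W : G →* Equiv.Perm X)
    (hW : ∀ g, Measurable (W g) ∧ MeasurePreserving (W g) μ μ) {A : Dat G} (hA : A.Ok)
    {f : X → ℂ} (hf : MemLp f 2 μ) : ∀ᵐ x ∂μ, ∃ a : ℂ, Tendsto (fun M : ℕ =>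
      ((M : ℂ) ^ A.k)⁻¹ * ∑ v ∈ Fintype.piFinset (fun _ : Fin A.k => range M),
        f (W (A.S v)⁻¹ x)) atTop (𝓝 a) :=
  npw_conv' hW hA hf

theorem npw_max [IsProbabilityMeasure μ] (W : G →* Equiv.Perm X)
    (hW : ∀ g, Measurable (W g) ∧ MeasurePreserving (W g) μ μ) {A : Dat G} (hA : A.Ok) :
    ∃ C : ℝ≥0, ∀ f : X → ℝ≥0∞, Measurable f →
      ∫⁻ x, (⨆ M : ℕ, ((M : ℝ≥0∞) ^ A.k)⁻¹ *
        ∑ v ∈ Fintype.piFinset (fun _ : Fin A.k => range M), f (W (A.S v)⁻¹ x)) ^ 2 ∂μ ≤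
        C * ∫⁻ x, (f x) ^ 2 ∂μ := by
  obtain ⟨R, hR⟩ := exists_rep W hW (μ := μ)
  obtain ⟨C, hC, hmax⟩ := max_seq hW hR hA
  set C' : ℝ≥0 := Real.toNNReal ((2 ^ A.k * C + 1) ^ 2) with hC'
  have hC'0 : (C' : ℝ≥0∞) ≠ 0 := by
    have : 0 < C' := by
      rw [hC', Real.toNNReal_pos]
      positivity
    exact_mod_cast this.ne'
  refine ⟨C', fun f hf => ?_⟩
  by_cases hI : ∫⁻ x, (f x) ^ 2 ∂μ = ∞
  · rw [hI, ENNReal.mul_top hC'0]
    exact le_top
  -- the function in `L²`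
  have hfin : ∀ᵐ x ∂μ, f x < ∞ := by
    filter_upwards [ae_lt_top (hf.pow_const 2) hI] with x hx
    by_contra h
    rw [not_lt, top_le_iff] at h
    rw [h] at hx
    simp at hx
  have hen : ∀ x, f x < ∞ → ‖(((f x).toReal : ℝ) : ℂ)‖ₑ = f x := by
    intro x hx
    rw [← ofReal_norm, Complex.norm_real, Real.norm_of_nonneg ENNReal.toReal_nonneg,
      ENNReal.ofReal_toReal hx.ne]
  have hI2 : ∫⁻ x, ‖(((f x).toReal : ℝ) : ℂ)‖ₑ ^ (2 : ℝ) ∂μ = ∫⁻ x, (f x) ^ 2 ∂μ := by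
    refine lintegral_congr_ae ?_
    filter_upwards [hfin] with x hx
    rw [hen x hx]
    norm_num
  have hfc : MemLp (fun x => (((f x).toReal : ℝ) : ℂ)) 2 μ := by
    refine ⟨(Complex.measurable_ofReal.comp hf.ennreal_toReal).aestronglyMeasurable, ?_⟩
    rw [eLpNorm_eq_lintegral_rpow_enorm_toReal (by norm_num) (by norm_num)]
    simp only [ENNReal.toReal_ofNat]
    rw [hI2]
    exact ENNReal.rpow_lt_top_of_nonneg (by norm_num) hI
  set g : Lp ℂ 2 μ := hfc.toLp _ with hg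
  have hgn : ‖g‖ₑ ^ (2 : ℝ) = ∫⁻ x, (f x) ^ 2 ∂μ := by
    rw [enorm_sq_eq, ← hI2]
    refine lintegral_congr_ae ?_
    filter_upwards [hfc.coeFn_toLp] with x hx
    rw [hx]
  have hM2 : ∀ n, 2 ^ n ≤ (fun n => 2 ^ n : ℕ → ℕ) n ∧ (fun n => 2 ^ n : ℕ → ℕ) n < 2 ^ (n + 1) :=
    fun n => ⟨le_rfl, Nat.pow_lt_pow_right (by norm_num) (by omega)⟩
  have hmx := hmax (fun n => 2 ^ n) hM2 g
  -- pointwise
  have h2 : ∀ᵐ x ∂μ, ∀ n, A.AA R (2 ^ n) g x = (((2 ^ n : ℕ) : ℂ) ^ A.k)⁻¹ *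
      ∑ v ∈ Fintype.piFinset (fun _ : Fin A.k => range (2 ^ n)), g (W (A.S v)⁻¹ x) :=
    ae_all_iff.2 fun n => AA_ae hR A (2 ^ n) g
  have h3 := ae_orbit hW (hfc.coeFn_toLp) A
  have h4 := ae_orbit hW hfin A
  have key : ∀ᵐ x ∂μ, (⨆ M : ℕ, ((M : ℝ≥0∞) ^ A.k)⁻¹ *
      ∑ v ∈ Fintype.piFinset (fun _ : Fin A.k => range M), f (W (A.S v)⁻¹ x)) ≤
      2 ^ A.k * ⨆ n ∈ (Set.univ : Set ℕ), ‖A.AA R (2 ^ n) g x‖ₑ := by
    filter_upwards [h2, h3, h4] with x hx2 hx3 hx4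
    have hE : ∀ n, ‖A.AA R (2 ^ n) g x‖ₑ = (((2 ^ n : ℕ) : ℝ≥0∞) ^ A.k)⁻¹ *
        ∑ v ∈ Fintype.piFinset (fun _ : Fin A.k => range (2 ^ n)), f (W (A.S v)⁻¹ x) := by
      intro n
      rw [hx2 n]
      have e1 : (((2 ^ n : ℕ) : ℂ) ^ A.k)⁻¹ *
          ∑ v ∈ Fintype.piFinset (fun _ : Fin A.k => range (2 ^ n)), g (W (A.S v)⁻¹ x) =
          (((((2 ^ n : ℕ) : ℝ) ^ A.k)⁻¹ *
          ∑ v ∈ Fintype.piFinset (fun _ : Fin A.k => range (2 ^ n)),
            (f (W (A.S v)⁻¹ x)).toReal : ℝ) : ℂ) := by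
        push_cast
        congr 1
        refine Finset.sum_congr rfl fun v _ => ?_
        exact hx3 v
      have e2 : (0 : ℝ) ≤ ∑ v ∈ Fintype.piFinset (fun _ : Fin A.k => range (2 ^ n)),
            (f (W (A.S v)⁻¹ x)).toReal := Finset.sum_nonneg fun v _ => ENNReal.toReal_nonneg
      rw [e1, ← ofReal_norm, Complex.norm_real, Real.norm_of_nonneg (by positivity),
        ENNReal.ofReal_mul (by positivity), ENNReal.ofReal_inv_of_pos (by positivity),
        ENNReal.ofReal_pow (by positivity), ENNReal.ofReal_natCast,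
        ENNReal.ofReal_sum_of_nonneg fun v _ => ENNReal.toReal_nonneg]
      congr 1
      refine Finset.sum_congr rfl fun v _ => ?_
      rw [ENNReal.ofReal_toReal (hx4 v).ne]
    have hle : ∀ n, ‖A.AA R (2 ^ n) g x‖ₑ ≤ ⨆ n ∈ (Set.univ : Set ℕ), ‖A.AA R (2 ^ n) g x‖ₑ :=
      fun n => le_iSup₂ (f := fun n (_ : n ∈ (Set.univ : Set ℕ)) => ‖A.AA R (2 ^ n) g x‖ₑ) n
        (Set.mem_univ n)
    refine iSup_le fun M => ?_
    rcases Nat.eq_zero_or_pos M with hM | hM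
    · rcases Nat.eq_zero_or_pos A.k with hk | hk
      · have hemp : IsEmpty (Fin A.k) := by rw [hk]; infer_instance
        have h5 := hle 0
        rw [hE 0] at h5
        refine le_trans (le_of_eq ?_) (h5.trans (le_mul_of_one_le_left (by positivity)
          (one_le_pow₀ (by norm_num))))
        have h6 : Fintype.piFinset (fun _ : Fin A.k => range M) =
            Fintype.piFinset (fun _ : Fin A.k => range (2 ^ 0)) := by
          ext v
          simp only [Fintype.mem_piFinset]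
          exact ⟨fun _ l => isEmptyElim l, fun _ l => isEmptyElim l⟩
        have h7 : ((M : ℝ≥0∞) ^ A.k) = (((2 ^ 0 : ℕ) : ℝ≥0∞) ^ A.k) := by
          have h8 : ∀ a : ℝ≥0∞, a ^ A.k = 1 := by
            intro a
            have h9 : a ^ 0 = 1 := pow_zero a
            rwa [← hk] at h9
          rw [h8, h8]
        rw [h6, h7]
      · have h6 : Fintype.piFinset (fun _ : Fin A.k => range M) = ∅ := by
          rw [hM]
          ext v
          simp only [Fintype.mem_piFinset, range_zero, notMem_empty, iff_false, not_forall]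
          exact ⟨⟨0, hk⟩, not_false⟩
        rw [h6, Finset.sum_empty, mul_zero]
        positivity
    · set n := Nat.clog 2 M with hn
      have hMn : M ≤ 2 ^ n := Nat.le_pow_clog (by norm_num) M
      have hnM : 2 ^ n ≤ 2 * M := by
        rcases Nat.eq_or_lt_of_le hM with h1 | h1
        · have : M = 1 := h1.symm
          rw [hn, this]
          simp
        · have h7 : 2 ^ (n - 1) < M := by
            have := Nat.pow_pred_clog_lt_self (b := 2) (by norm_num) (x := M) (by omega)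
            simpa [hn, Nat.pred_eq_sub_one] using this
          have h8 : 1 ≤ n := Nat.clog_pos (by norm_num) (by omega)
          obtain ⟨m, hm⟩ : ∃ m, n = m + 1 := ⟨n - 1, by omega⟩
          rw [hm] at h7 ⊢
          simp only [Nat.add_sub_cancel] at h7
          rw [pow_succ]
          omega
      refine le_trans ?_ (mul_le_mul_right (hle n) (2 ^ A.k))
      rw [hE n, ← mul_assoc]
      refine mul_le_mul' ?_ ?_
      · have h9 : ((2 ^ n : ℕ) : ℝ≥0∞) ^ A.k ≤ 2 ^ A.k * (M : ℝ≥0∞) ^ A.k := by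
          rw [← mul_pow]
          gcongr
          exact_mod_cast hnM
        have h10 : ((2 : ℝ≥0∞) ^ A.k * (M : ℝ≥0∞) ^ A.k)⁻¹ ≤ (((2 ^ n : ℕ) : ℝ≥0∞) ^ A.k)⁻¹ :=
          ENNReal.inv_le_inv.2 h9
        have h11 : ((M : ℝ≥0∞) ^ A.k)⁻¹ = 2 ^ A.k * ((2 : ℝ≥0∞) ^ A.k * (M : ℝ≥0∞) ^ A.k)⁻¹ := by
          rw [ENNReal.mul_inv (Or.inl (by positivity)) (Or.inl (by finiteness)), ← mul_assoc,
            ENNReal.mul_inv_cancel (by positivity) (by finiteness), one_mul]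
        rw [h11]
        exact mul_le_mul_right h10 _
      · refine Finset.sum_le_sum_of_subset ?_
        exact Fintype.piFinset_subset _ _ fun _ => Finset.range_subset_range.2 hMn
  calc ∫⁻ x, (⨆ M : ℕ, ((M : ℝ≥0∞) ^ A.k)⁻¹ *
        ∑ v ∈ Fintype.piFinset (fun _ : Fin A.k => range M), f (W (A.S v)⁻¹ x)) ^ 2 ∂μ
      ≤ ∫⁻ x, (2 ^ A.k * ⨆ n ∈ (Set.univ : Set ℕ), ‖A.AA R (2 ^ n) g x‖ₑ) ^ 2 ∂μ := by
        refine lintegral_mono_ae ?_
        filter_upwards [key] with x hx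
        gcongr
    _ = (2 ^ A.k) ^ 2 * ∫⁻ x, (⨆ n ∈ (Set.univ : Set ℕ), ‖A.AA R (2 ^ n) g x‖ₑ) ^ (2 : ℝ) ∂μ := by
        simp only [mul_pow, ENNReal.rpow_ofNat]
        rw [lintegral_const_mul' _ _ (by finiteness)]
    _ = (2 ^ A.k) ^ 2 * (mx Set.univ (fun n => A.AA R (2 ^ n) g)) ^ (2 : ℝ) := by
        congr 1
        unfold mx
        rw [← ENNReal.rpow_mul]
        norm_num
    _ ≤ (2 ^ A.k) ^ 2 * (ENNReal.ofReal (C * ‖g‖)) ^ (2 : ℝ) := by gcongr
    _ = (2 ^ A.k) ^ 2 * (ENNReal.ofReal C ^ (2 : ℝ) * ∫⁻ x, (f x) ^ 2 ∂μ) := by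
        rw [ENNReal.ofReal_mul hC, ENNReal.mul_rpow_of_nonneg _ _ (by norm_num), ofReal_norm, hgn]
    _ ≤ C' * ∫⁻ x, (f x) ^ 2 ∂μ := by
        rw [← mul_assoc]
        gcongr
        have e1 : ((2 : ℝ≥0∞) ^ A.k) ^ 2 * ENNReal.ofReal C ^ (2 : ℝ) =
            ENNReal.ofReal ((2 ^ A.k * C) ^ 2) := by
          rw [mul_pow, ENNReal.ofReal_mul (by positivity), ENNReal.ofReal_pow (by positivity),
            ENNReal.ofReal_pow (by positivity), ENNReal.ofReal_pow hC]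
          norm_num
        rw [e1, hC']
        show ENNReal.ofReal _ ≤ ENNReal.ofReal _
        refine ENNReal.ofReal_le_ofReal ?_
        gcongr
        linarith

end Pool.Agent.Lib.Npm
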