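import Mathlib.Analysis.PSeries
import Pool.Agent.Lib.Npm.SchurNat

/-!
# The telescoping argument

For `n ≥ B0` let `U n` be the largest `u` with `B0 * 2 ^ u ≤ n` (`U n = Nat.log 2 (n / B0)`), so `n < 2 B0 2 ^ U n`, `(1/2)^(U n) ≤ 2 B0 / n`.
`tele`: (1) `D n = (A n - R (U n) n) f` has norm `≤ 2 C B0 ‖f‖ / n`, so `∑ ‖D n‖ ^ 2 < ∞`, hence a.e. `∑ |D n x| ^ 2 < ∞` (`lintegral_tsum`, `enorm_sq_eq`) and `D n x → 0`.
(2) `g v x = sup_{n ≥ B0 2^v} |(R (v+1) n - R v n) f x|` has `L²` norm `≤ C ρ ^ v ‖f‖` (that is `mx`), so `∑_v g v x < ∞` a.e. (e.g. a.e. `g v x ≤ K_x r^v` with `r² = ρ` or `r = (1+ρ)/2`: `∑_v ∫ (g v)² / r^(2v) < ∞`).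
(3) for a.e. `x` and every `u`: `|R (U n) n f x - R u n f x| ≤ ∑_{v ≥ u} g v x` for all large `n` (summands `u ≤ v < U n`, `B0 2^v ≤ n`; the a.e. identities
`((R (v+1) n - R v n) f) x = R (v+1) n f x - R v n f x` hold simultaneously for all `n, v`). As `R u n f x` converges for every `u`, `R (U n) n f x` is a Cauchy sequence, so `A n f x` converges.
`tele_max`: for `n ≥ B0`: `A n f = D n + R 0 n f + ∑_{v < U n} (R (v+1) n - R v n) f`. `mx (D n) ≤ (∑_{n ≥ 1} (2 C B0 / n)²)^(1/2) ‖f‖` (`mx_le_of_finite`), and for every `K` the part with `n < B0 2^K` (so `U n < K`) satisfies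
`mx {B0 ≤ n < B0 2^K} (∑_{v < U n} ..) ≤ ∑_{v < K} mx {B0 2^v ≤ n} (..) ≤ C ‖f‖ / (1 - ρ)` (`mx_sum_le` of `RM` with the summand replaced by `0` if `n < B0 2^v`); `mx S F = sup_K mx (S ∩ {n < K}) F` (monotone convergence).
-/

set_option autoImplicit false

open MeasureTheory Filter Topology
open scoped ENNReal

namespace Pool.Agent.Lib.Npm

variable {X : Type*} [MeasurableSpace X] {μ : Measure X}

namespace TeleAux

/-- the level of `n` -/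
def lev (B0 n : ℕ) : ℕ := Nat.log 2 (n / B0)

theorem pow_lev_le {B0 n : ℕ} (hB0 : 1 ≤ B0) (hn : B0 ≤ n) : B0 * 2 ^ lev B0 n ≤ n := by
  have h0 : n / B0 ≠ 0 := by
    have := Nat.div_pos hn hB0
    omega
  calc B0 * 2 ^ lev B0 n ≤ B0 * (n / B0) := Nat.mul_le_mul_left _ (Nat.pow_log_le_self 2 h0)
    _ ≤ n := Nat.mul_div_le n B0

theorem lt_pow_lev {B0 n : ℕ} (hB0 : 1 ≤ B0) : n < B0 * 2 ^ (lev B0 n + 1) := by
  have h := Nat.lt_pow_succ_log_self Nat.one_lt_two (n / B0)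
  rw [Nat.div_lt_iff_lt_mul (by omega), mul_comm] at h
  exact h

theorem le_lev {B0 n u : ℕ} (hB0 : 1 ≤ B0) (h : B0 * 2 ^ u ≤ n) : u ≤ lev B0 n := by
  refine Nat.le_log_of_pow_le Nat.one_lt_two ?_
  rw [Nat.le_div_iff_mul_le (by omega), mul_comm]
  exact h

theorem pow_le_of_lt {B0 n v : ℕ} (hB0 : 1 ≤ B0) (hn : B0 ≤ n) (hv : v < lev B0 n) :
    B0 * 2 ^ v ≤ n :=
  le_trans (Nat.mul_le_mul_left _ (Nat.pow_le_pow_right (by norm_num) hv.le))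
    (pow_lev_le hB0 hn)

theorem half_pow_lev {B0 n : ℕ} (hB0 : 1 ≤ B0) (hn : B0 ≤ n) :
    (1 / 2 : ℝ) ^ lev B0 n ≤ 2 * B0 / n := by
  have h1 : (n : ℝ) ≤ B0 * 2 ^ (lev B0 n + 1) := by exact_mod_cast (lt_pow_lev hB0).le
  have hn0 : (0 : ℝ) < n := by exact_mod_cast (lt_of_lt_of_le hB0 hn)
  rw [one_div, inv_pow, inv_le_comm₀ (by positivity) (by positivity), inv_div,
    div_le_iff₀ (by positivity)]
  rw [pow_succ] at h1
  linarith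

theorem iSup_rpow {f : ℕ → ℝ≥0∞} {p : ℝ} (hp : 0 < p) : (⨆ n, f n) ^ p = ⨆ n, f n ^ p := by
  have := (ENNReal.orderIsoRpow p hp).map_iSup f
  simpa only [ENNReal.orderIsoRpow_apply] using this

/-- countable Minkowski inequality -/
theorem minkowski {G : ℕ → X → ℝ≥0∞} (hG : ∀ v, AEMeasurable (G v) μ) :
    (∫⁻ x, (∑' v, G v x) ^ (2 : ℝ) ∂μ) ^ (1 / 2 : ℝ) ≤
      ∑' v, (∫⁻ x, G v x ^ (2 : ℝ) ∂μ) ^ (1 / 2 : ℝ) := by
  have hm : ∀ K, AEMeasurable (fun x => ∑ v ∈ Finset.range K, G v x) μ := fun K =>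
    Finset.aemeasurable_fun_sum _ fun v _ => hG v
  have h1 : ∀ x, (∑' v, G v x) ^ (2 : ℝ) = ⨆ K, (∑ v ∈ Finset.range K, G v x) ^ (2 : ℝ) := by
    intro x
    rw [ENNReal.tsum_eq_iSup_nat, iSup_rpow (by norm_num)]
  have h2 : ∫⁻ x, (∑' v, G v x) ^ (2 : ℝ) ∂μ =
      ⨆ K, ∫⁻ x, (∑ v ∈ Finset.range K, G v x) ^ (2 : ℝ) ∂μ := by
    rw [lintegral_congr h1, lintegral_iSup' (fun K => (hm K).pow_const _)]
    refine Filter.Eventually.of_forall fun x => ?_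
    intro K L hKL
    refine ENNReal.rpow_le_rpow ?_ (by norm_num)
    exact Finset.sum_le_sum_of_subset (Finset.range_mono hKL)
  rw [h2, iSup_rpow (by norm_num)]
  refine iSup_le fun K => ?_
  refine le_trans ?_ (ENNReal.sum_le_tsum (Finset.range K))
  induction K with
  | zero => simp
  | succ K ih =>
    rw [Finset.sum_range_succ]
    refine le_trans ?_ (add_le_add_left ih _)
    have h3 : ∀ x, ∑ v ∈ Finset.range (K + 1), G v x =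
        ((fun x => ∑ v ∈ Finset.range K, G v x) + G K) x := by
      intro x
      rw [Finset.sum_range_succ]
      rfl
    simp only [h3]
    exact ENNReal.lintegral_Lp_add_le (hm K) (hG K) (by norm_num)

variable {A : ℕ → Lp ℂ 2 μ →L[ℂ] Lp ℂ 2 μ} {R : ℕ → ℕ → Lp ℂ 2 μ →L[ℂ] Lp ℂ 2 μ} {B0 : ℕ}

/-- the remainder -/
noncomputable def DD (A : ℕ → Lp ℂ 2 μ →L[ℂ] Lp ℂ 2 μ) (R : ℕ → ℕ → Lp ℂ 2 μ →L[ℂ] Lp ℂ 2 μ)
    (B0 : ℕ) (f : Lp ℂ 2 μ) (n : ℕ) : Lp ℂ 2 μ :=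
  if B0 ≤ n then (A n - R (lev B0 n) n) f else 0

/-- the maximal function of level `v` -/
noncomputable def GG (R : ℕ → ℕ → Lp ℂ 2 μ →L[ℂ] Lp ℂ 2 μ)
    (B0 : ℕ) (f : Lp ℂ 2 μ) (v : ℕ) (x : X) : ℝ≥0∞ :=
  ⨆ n ∈ {n | B0 * 2 ^ v ≤ n}, ‖((R (v + 1) n - R v n) f : Lp ℂ 2 μ) x‖ₑ

theorem norm_DD_le (hB0 : 1 ≤ B0) {C : ℝ} (hC : 0 ≤ C) (f : Lp ℂ 2 μ)
    (h1 : ∀ u n, B0 * 2 ^ u ≤ n → ‖A n - R u n‖ ≤ C * (1 / 2) ^ u) (n : ℕ) :
    ‖DD A R B0 f n‖ ≤ (2 * C * B0 * ‖f‖) * (1 / n) := by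
  unfold DD
  split_ifs with hn
  · calc ‖(A n - R (lev B0 n) n) f‖ ≤ ‖A n - R (lev B0 n) n‖ * ‖f‖ :=
          ContinuousLinearMap.le_opNorm _ _
      _ ≤ (C * (1 / 2) ^ lev B0 n) * ‖f‖ := by
          gcongr
          exact h1 _ _ (pow_lev_le hB0 hn)
      _ ≤ (C * (2 * B0 / n)) * ‖f‖ := by
          gcongr
          exact half_pow_lev hB0 hn
      _ = (2 * C * B0 * ‖f‖) * (1 / n) := by ring
  · rw [norm_zero]
    positivity

theorem sq_DD_le (hB0 : 1 ≤ B0) {C : ℝ} (hC : 0 ≤ C) (f : Lp ℂ 2 μ)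
    (h1 : ∀ u n, B0 * 2 ^ u ≤ n → ‖A n - R u n‖ ≤ C * (1 / 2) ^ u) (t : Finset ℕ) :
    ∑ n ∈ t, ‖DD A R B0 f n‖ ^ 2 ≤
      (2 * C * B0 * √(∑' n : ℕ, 1 / (n : ℝ) ^ 2) * ‖f‖) ^ 2 := by
  have hs : Summable fun n : ℕ => 1 / (n : ℝ) ^ 2 := Real.summable_one_div_nat_pow.2 (by norm_num)
  have hS : 0 ≤ ∑' n : ℕ, 1 / (n : ℝ) ^ 2 := tsum_nonneg fun n => by positivity
  calc ∑ n ∈ t, ‖DD A R B0 f n‖ ^ 2
      ≤ ∑ n ∈ t, (2 * C * B0 * ‖f‖) ^ 2 * (1 / (n : ℝ) ^ 2) := by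
        refine Finset.sum_le_sum fun n _ => ?_
        calc ‖DD A R B0 f n‖ ^ 2 ≤ ((2 * C * B0 * ‖f‖) * (1 / n)) ^ 2 := by
              gcongr
              exact norm_DD_le hB0 hC f h1 n
          _ = _ := by ring
    _ = (2 * C * B0 * ‖f‖) ^ 2 * ∑ n ∈ t, 1 / (n : ℝ) ^ 2 := by rw [Finset.mul_sum]
    _ ≤ (2 * C * B0 * ‖f‖) ^ 2 * ∑' n : ℕ, 1 / (n : ℝ) ^ 2 := by
        gcongr
        exact hs.sum_le_tsum t fun n _ => by positivity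
    _ = _ := by
        linear_combination -(2 * C * B0 * ‖f‖) ^ 2 * Real.sq_sqrt hS

theorem mx_DD (hB0 : 1 ≤ B0) {C : ℝ} (hC : 0 ≤ C) (f : Lp ℂ 2 μ)
    (h1 : ∀ u n, B0 * 2 ^ u ≤ n → ‖A n - R u n‖ ≤ C * (1 / 2) ^ u) (s : Set ℕ) :
    mx s (DD A R B0 f) ≤
      ENNReal.ofReal (2 * C * B0 * √(∑' n : ℕ, 1 / (n : ℝ) ^ 2) * ‖f‖) :=
  mx_le_of_finite (by positivity) fun t _ => sq_DD_le hB0 hC f h1 t

theorem tsum_GG {C ρ : ℝ} (hC : 0 ≤ C) (hρ : 0 ≤ ρ) (hρ1 : ρ < 1) (f : Lp ℂ 2 μ)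
    (h2 : ∀ u, mx {n | B0 * 2 ^ u ≤ n} (fun n => (R (u + 1) n - R u n) f) ≤
      ENNReal.ofReal (C * ρ ^ u * ‖f‖)) :
    (∫⁻ x, (∑' v, GG R B0 f v x) ^ (2 : ℝ) ∂μ) ^ (1 / 2 : ℝ) ≤
      ENNReal.ofReal (C / (1 - ρ) * ‖f‖) := by
  refine (minkowski fun v => aemeasurable_iSup_enorm _ _).trans ?_
  have hs : Summable fun v : ℕ => C * ρ ^ v * ‖f‖ :=
    ((summable_geometric_of_lt_one hρ hρ1).mul_left C).mul_right ‖f‖
  have h3 : C / (1 - ρ) * ‖f‖ = ∑' v : ℕ, C * ρ ^ v * ‖f‖ := by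
    rw [tsum_mul_right, tsum_mul_left, tsum_geometric_of_lt_one hρ hρ1]
    ring
  rw [h3, ENNReal.ofReal_tsum_of_nonneg (fun v => by positivity) hs]
  exact ENNReal.tsum_le_tsum fun v => h2 v

end TeleAux

open TeleAux in
theorem tele {A : ℕ → Lp ℂ 2 μ →L[ℂ] Lp ℂ 2 μ} {R : ℕ → ℕ → Lp ℂ 2 μ →L[ℂ] Lp ℂ 2 μ} {B0 : ℕ}
    (hB0 : 1 ≤ B0) {C ρ : ℝ} (hC : 0 ≤ C) (hρ : 0 ≤ ρ) (hρ1 : ρ < 1) (f : Lp ℂ 2 μ)
    (h1 : ∀ u n, B0 * 2 ^ u ≤ n → ‖A n - R u n‖ ≤ C * (1 / 2) ^ u)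
    (h2 : ∀ u, mx {n | B0 * 2 ^ u ≤ n} (fun n => (R (u + 1) n - R u n) f) ≤
      ENNReal.ofReal (C * ρ ^ u * ‖f‖))
    (h3 : ∀ u, ∀ᵐ x ∂μ, ∃ a : ℂ, Tendsto (fun n => R u n f x) atTop (𝓝 a)) :
    ∀ᵐ x ∂μ, ∃ a : ℂ, Tendsto (fun n => A n f x) atTop (𝓝 a) := by
  -- the sum of the maximal functions is finite almost everywhere
  have hG : ∀ᵐ x ∂μ, (∑' v, GG R B0 f v x) ≠ ⊤ := by
    have hm : AEMeasurable (fun x => (∑' v, GG R B0 f v x) ^ (2 : ℝ)) μ :=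
      (AEMeasurable.ennreal_tsum fun v => aemeasurable_iSup_enorm _ _).pow_const _
    have hfin : ∫⁻ x, (∑' v, GG R B0 f v x) ^ (2 : ℝ) ∂μ ≠ ⊤ := by
      intro h
      have := tsum_GG hC hρ hρ1 f h2
      rw [h, ENNReal.top_rpow_of_pos (by norm_num), top_le_iff] at this
      exact ENNReal.ofReal_ne_top this
    filter_upwards [ae_lt_top' hm hfin] with x hx h
    rw [h, ENNReal.top_rpow_of_pos (by norm_num)] at hx
    exact lt_irrefl _ hx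
  have hD : ∀ᵐ x ∂μ, Tendsto (fun n => ‖DD A R B0 f n x‖ₑ) atTop (𝓝 0) := by
    have hm : ∀ n, AEMeasurable (fun x => ‖DD A R B0 f n x‖ₑ ^ (2 : ℝ)) μ := fun n =>
      ((Lp.aestronglyMeasurable _).enorm).pow_const _
    have hfin : ∫⁻ x, ∑' n, ‖DD A R B0 f n x‖ₑ ^ (2 : ℝ) ∂μ ≠ ⊤ := by
      rw [lintegral_tsum hm]
      simp only [← enorm_sq_eq]
      have h4 : ∑' n, ‖DD A R B0 f n‖ₑ ^ (2 : ℝ) ≤
          ENNReal.ofReal ((2 * C * B0 * √(∑' n : ℕ, 1 / (n : ℝ) ^ 2) * ‖f‖) ^ 2) := by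
        rw [ENNReal.tsum_eq_iSup_sum]
        refine iSup_le fun t => ?_
        rw [Finset.sum_congr rfl fun n _ => enorm_rpow_two (DD A R B0 f n),
          ← ENNReal.ofReal_sum_of_nonneg fun n _ => by positivity]
        exact ENNReal.ofReal_le_ofReal (sq_DD_le hB0 hC f h1 t)
      exact ne_top_of_le_ne_top ENNReal.ofReal_ne_top h4
    filter_upwards [ae_lt_top' (AEMeasurable.ennreal_tsum hm) hfin] with x hx
    have h5 := ENNReal.tendsto_atTop_zero_of_tsum_ne_top hx.ne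
    have h6 := h5.ennrpow_const (1 / 2 : ℝ)
    rw [ENNReal.zero_rpow_of_pos (by norm_num)] at h6
    refine h6.congr fun n => ?_
    rw [← ENNReal.rpow_mul]
    norm_num
  have hI1 : ∀ᵐ x ∂μ, ∀ v n, ((R (v + 1) n - R v n) f : Lp ℂ 2 μ) x =
      R (v + 1) n f x - R v n f x := by
    rw [ae_all_iff]
    intro v
    rw [ae_all_iff]
    intro n
    rw [_root_.sub_apply]
    exact Lp.coeFn_sub _ _
  have hI2 : ∀ᵐ x ∂μ, ∀ n, B0 ≤ n → DD A R B0 f n x = A n f x - R (lev B0 n) n f x := by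
    rw [ae_all_iff]
    intro n
    by_cases hn : B0 ≤ n
    · unfold DD
      rw [if_pos hn, _root_.sub_apply]
      filter_upwards [Lp.coeFn_sub (A n f) (R (lev B0 n) n f)] with x hx _
      exact hx
    · exact Filter.Eventually.of_forall fun x h => absurd h hn
  filter_upwards [hG, hD, hI1, hI2, ae_all_iff.2 h3] with x xG xD xI1 xI2 x3
  refine cauchySeq_tendsto_of_complete ?_
  rw [EMetric.cauchySeq_iff]
  intro ε hε
  have hδ : 0 < ε / 6 := ENNReal.div_pos hε.ne' (by norm_num)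
  have hT := ENNReal.tendsto_sum_nat_add _ xG
  obtain ⟨u, hu⟩ := (hT.eventually_lt_const hδ).exists
  obtain ⟨a, ha⟩ := x3 u
  have ha' : Tendsto (fun n => edist (R u n f x) a) atTop (𝓝 0) := tendsto_iff_edist_tendsto_0.1 ha
  obtain ⟨N, hN⟩ := eventually_atTop.1 ((xD.eventually_lt_const hδ).and
    ((ha'.eventually_lt_const hδ).and (eventually_ge_atTop (B0 * 2 ^ u))))
  have key : ∀ n, N ≤ n → edist (A n f x) a < ε / 6 + ε / 6 + ε / 6 := by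
    intro n hn
    obtain ⟨k1, k2, k3⟩ := hN n hn
    have hBn : B0 ≤ n := le_trans (Nat.le_mul_of_pos_right _ (by positivity)) k3
    have hul := le_lev hB0 k3
    have e1 : A n f x = R u n f x + (DD A R B0 f n x +
        ∑ v ∈ Finset.Ico u (lev B0 n), (R (v + 1) n f x - R v n f x)) := by
      rw [Finset.sum_Ico_eq_sub _ hul, Finset.sum_range_sub (fun v => R v n f x),
        Finset.sum_range_sub (fun v => R v n f x), xI2 n hBn]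
      ring
    have e2 : edist (A n f x) (R u n f x) ≤ ‖DD A R B0 f n x‖ₑ + ∑' k, GG R B0 f (k + u) x := by
      rw [edist_eq_enorm_sub, e1, add_sub_cancel_left]
      refine (enorm_add_le _ _).trans (add_le_add le_rfl ?_)
      refine (enorm_sum_le _ _).trans ?_
      rw [Finset.sum_Ico_eq_sum_range]
      refine le_trans (Finset.sum_le_sum (g := fun k => GG R B0 f (k + u) x) fun k hk => ?_)
        (ENNReal.sum_le_tsum _)
      have hk' := Finset.mem_range.1 hk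
      rw [← xI1, add_comm u k]
      exact le_iSup₂ (f := fun n (_ : n ∈ {n | B0 * 2 ^ (k + u) ≤ n}) =>
        ‖((R (k + u + 1) n - R (k + u) n) f : Lp ℂ 2 μ) x‖ₑ) n
        (pow_le_of_lt hB0 hBn (by omega))
    calc edist (A n f x) a ≤ edist (A n f x) (R u n f x) + edist (R u n f x) a :=
          edist_triangle _ _ _
      _ ≤ (‖DD A R B0 f n x‖ₑ + ∑' k, GG R B0 f (k + u) x) + edist (R u n f x) a :=
          add_le_add e2 le_rfl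
      _ < ε / 6 + ε / 6 + ε / 6 := ENNReal.add_lt_add (ENNReal.add_lt_add k1 hu) k2
  refine ⟨N, fun m hm n hn => ?_⟩
  calc edist (A m f x) (A n f x) ≤ edist (A m f x) a + edist (A n f x) a := by
        rw [edist_comm (A n f x) a]
        exact edist_triangle _ _ _
    _ < (ε / 6 + ε / 6 + ε / 6) + (ε / 6 + ε / 6 + ε / 6) :=
        ENNReal.add_lt_add (key m hm) (key n hn)
    _ = 6 * (ε / 6) := by ring
    _ ≤ ε := ENNReal.mul_div_le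

open TeleAux in
theorem tele_max {B0 : ℕ} (hB0 : 1 ≤ B0) {C ρ : ℝ} (hC : 0 ≤ C) (hρ : 0 ≤ ρ) (hρ1 : ρ < 1) :
    ∃ C' : ℝ, 0 ≤ C' ∧ ∀ (A : ℕ → Lp ℂ 2 μ →L[ℂ] Lp ℂ 2 μ)
      (R : ℕ → ℕ → Lp ℂ 2 μ →L[ℂ] Lp ℂ 2 μ) (f : Lp ℂ 2 μ),
      (∀ u n, B0 * 2 ^ u ≤ n → ‖A n - R u n‖ ≤ C * (1 / 2) ^ u) →
      (∀ u, mx {n | B0 * 2 ^ u ≤ n} (fun n => (R (u + 1) n - R u n) f) ≤
        ENNReal.ofReal (C * ρ ^ u * ‖f‖)) →
      mx {n | B0 ≤ n} (fun n => R 0 n f) ≤ ENNReal.ofReal (C * ‖f‖) →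
      mx {n | B0 ≤ n} (fun n => A n f) ≤ ENNReal.ofReal (C' * ‖f‖) := by
  have h1ρ : 0 < 1 - ρ := by linarith
  refine ⟨2 * C * B0 * √(∑' n : ℕ, 1 / (n : ℝ) ^ 2) + C + C / (1 - ρ), by positivity, ?_⟩
  intro A R f h1 h2 h3
  have e1 : mx {n | B0 ≤ n} (fun n => A n f) = mx {n | B0 ≤ n} (fun n =>
      (DD A R B0 f n + R 0 n f) + ∑ v ∈ Finset.range (lev B0 n), (R (v + 1) n - R v n) f) := by
    refine mx_congr fun n hn => ?_
    have hn' : B0 ≤ n := hn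
    simp only [_root_.sub_apply]
    rw [Finset.sum_range_sub (fun v => R v n f), DD, if_pos hn', _root_.sub_apply]
    abel
  have e2 : mx {n | B0 ≤ n} (fun n => ∑ v ∈ Finset.range (lev B0 n), (R (v + 1) n - R v n) f) ≤
      ENNReal.ofReal (C / (1 - ρ) * ‖f‖) := by
    refine le_trans ?_ (tsum_GG hC hρ hρ1 f h2)
    unfold mx
    refine ENNReal.rpow_le_rpow (lintegral_mono_ae ?_) (by norm_num)
    have hI : ∀ᵐ x ∂μ, ∀ n, (∑ v ∈ Finset.range (lev B0 n), (R (v + 1) n - R v n) f : Lp ℂ 2 μ) x =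
        ∑ v ∈ Finset.range (lev B0 n), ((R (v + 1) n - R v n) f : Lp ℂ 2 μ) x :=
      ae_all_iff.2 fun n => Lp.coeFn_fun_finsetSum _ _
    filter_upwards [hI] with x hx
    refine ENNReal.rpow_le_rpow (iSup₂_le fun n hn => ?_) (by norm_num)
    have hn' : B0 ≤ n := hn
    rw [hx n]
    refine (enorm_sum_le _ _).trans ?_
    refine le_trans (Finset.sum_le_sum (g := fun v => GG R B0 f v x) fun v hv => ?_)
      (ENNReal.sum_le_tsum _)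
    exact le_iSup₂ (f := fun n (_ : n ∈ {n | B0 * 2 ^ v ≤ n}) =>
      ‖((R (v + 1) n - R v n) f : Lp ℂ 2 μ) x‖ₑ) n
      (pow_le_of_lt hB0 hn' (Finset.mem_range.1 hv))
  rw [e1]
  refine (mx_add_le _ _ _).trans ?_
  refine (add_le_add ((mx_add_le _ _ _).trans (add_le_add (mx_DD hB0 hC f h1 _) h3)) e2).trans ?_
  rw [← ENNReal.ofReal_add (by positivity) (by positivity),
    ← ENNReal.ofReal_add (by positivity) (by positivity)]
  apply le_of_eq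
  congr 1
  ring

end Pool.Agent.Lib.Npm
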