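import Pool.Agent.Lib.Npm.InfU
import Pool.Agent.Lib.Npm.FinU
import Pool.Agent.Lib.Npm.ConvU
import Pool.Agent.Lib.Npm.Tele
import Pool.Agent.Lib.Npw.CpStep

/-!
# NPW (Parts VI, VII): convergence and the maximal inequality along sequences `M n ∈ [2^n, 2^(n+1))`
-/

set_option autoImplicit false

open MeasureTheory Finset Filter Topology
open scoped ENNReal

namespace Pool.Agent.Lib.Npm

open Pool.Agent.Lib.Npw

variable {G : Type} [Group G] {X : Type} [MeasurableSpace X] {μ : Measure X}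

/-- the finite and the infinite range together -/
theorem max_delta [IsProbabilityMeasure μ] {W : G →* Equiv.Perm X}
    (hW : ∀ g, Measurable (W g) ∧ MeasurePreserving (W g) μ μ) {R : Rep G (Lp ℂ 2 μ)}
    (hR : IsKoop R W) {A : Dat G} (hA : A.Ok) {a b C0 : ℕ} (hCP : CPab A R a b C0) :
    ∃ (C : ℝ) (B0 : ℕ), 0 ≤ C ∧ ∀ (u : ℕ) (M : ℕ → ℕ), (∀ n, 2 ^ n ≤ M n ∧ M n < 2 ^ (n + 1)) →
      ∀ f : Lp ℂ 2 μ, mx {n | B0 * 2 ^ u ≤ n} (fun n => (A.AA R (M n) *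
        (A.Pi R 0 (Icc 1 (2 ^ (a * (u + 1)))) (n - (b * u + b)) -
          A.Pi R 0 (Icc 1 (2 ^ (a * u))) (n - b * u))) f) ≤
        ENNReal.ofReal (C * rho ^ u * ‖f‖) := by
  obtain ⟨C1, E0, hC1, h1⟩ := inf_u hW hR hA hCP
  obtain ⟨C2, B0, hC2, h2⟩ := fin_u hA hCP E0
  refine ⟨C2 + C1, B0, by positivity, fun u M hM f => ?_⟩
  have hsub : {n | B0 * 2 ^ u ≤ n} ⊆
      {n | B0 * 2 ^ u ≤ n ∧ n ≤ 2 ^ (E0 * (u + 1))} ∪ {n | 2 ^ (E0 * (u + 1)) ≤ n} := by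
    intro n hn
    rcases le_total n (2 ^ (E0 * (u + 1))) with h | h
    · exact Or.inl ⟨hn, h⟩
    · exact Or.inr h
  refine (mx_mono hsub _).trans ((mx_union_le _ _ _).trans ?_)
  refine (add_le_add (h2 u M hM f) (h1 u M hM f)).trans_eq ?_
  have hr := rho_pos
  rw [← ENNReal.ofReal_add (by positivity) (by positivity)]
  congr 1
  ring

section seq

variable [IsProbabilityMeasure μ] {W : G →* Equiv.Perm X}
  (hW : ∀ g, Measurable (W g) ∧ MeasurePreserving (W g) μ μ) {R : Rep G (Lp ℂ 2 μ)}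
  (hR : IsKoop R W) {A : Dat G} (hA : A.Ok)

include hW hR hA

/-- the data for the telescoping argument -/
theorem exists_tele : ∃ (a b B0 : ℕ) (C : ℝ), 1 ≤ B0 ∧ 0 ≤ C ∧
    ∀ M : ℕ → ℕ, (∀ n, 2 ^ n ≤ M n ∧ M n < 2 ^ (n + 1)) → ∀ f : Lp ℂ 2 μ,
      (∀ u n, B0 * 2 ^ u ≤ n →
        ‖A.AA R (M n) - A.AA R (M n) * A.Pi R 0 (Icc 1 (2 ^ (a * u))) (n - b * u)‖ ≤
          C * (1 / 2) ^ u) ∧
      (∀ u, mx {n | B0 * 2 ^ u ≤ n} (fun n =>
        (A.AA R (M n) * A.Pi R 0 (Icc 1 (2 ^ (a * (u + 1)))) (n - b * (u + 1)) -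
          A.AA R (M n) * A.Pi R 0 (Icc 1 (2 ^ (a * u))) (n - b * u)) f) ≤
        ENNReal.ofReal (C * rho ^ u * ‖f‖)) := by
  obtain ⟨a, b, h⟩ := Dat.cp_all hA R 0
  obtain ⟨C0, h⟩ := h b le_rfl
  have hCP : CPab A R a b C0 := h
  obtain ⟨C1, B1, hC1, h1⟩ := max_delta hW hR hA hCP
  refine ⟨a, b, max B1 (2 * b + 1), max C0 C1, by omega, by positivity, fun M hM f => ⟨?_, ?_⟩⟩
  · intro u n hn
    have h2 : 2 * b * u ≤ n := by
      calc 2 * b * u ≤ (2 * b + 1) * 2 ^ u := by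
            have : u ≤ 2 ^ u := Nat.lt_two_pow_self.le
            gcongr
            omega
        _ ≤ max B1 (2 * b + 1) * 2 ^ u := by
            gcongr
            exact le_max_right _ _
        _ ≤ n := hn
    have h3 := hCP u n (M n) h2 (hM n).1 (hM n).2
    rw [mul_sub, mul_one] at h3
    refine h3.trans ?_
    gcongr
    exact le_max_left _ _
  · intro u
    have h2 : {n | max B1 (2 * b + 1) * 2 ^ u ≤ n} ⊆ {n | B1 * 2 ^ u ≤ n} := by
      intro n hn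
      have hn' : max B1 (2 * b + 1) * 2 ^ u ≤ n := hn
      show B1 * 2 ^ u ≤ n
      refine le_trans ?_ hn'
      gcongr
      exact le_max_left _ _
    refine (mx_mono h2 _).trans ?_
    have h3 := h1 u M hM f
    have e : ∀ n, A.AA R (M n) * A.Pi R 0 (Icc 1 (2 ^ (a * (u + 1)))) (n - b * (u + 1)) -
        A.AA R (M n) * A.Pi R 0 (Icc 1 (2 ^ (a * u))) (n - b * u) =
        A.AA R (M n) * (A.Pi R 0 (Icc 1 (2 ^ (a * (u + 1)))) (n - (b * u + b)) -
          A.Pi R 0 (Icc 1 (2 ^ (a * u))) (n - b * u)) := by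
      intro n
      rw [mul_sub]
      rfl
    simp only [e]
    refine h3.trans (ENNReal.ofReal_le_ofReal ?_)
    have hr := rho_pos
    gcongr
    exact le_max_right _ _

theorem conv_seq {M : ℕ → ℕ} (hM : ∀ n, 2 ^ n ≤ M n ∧ M n < 2 ^ (n + 1)) (f : Lp ℂ 2 μ) :
    ∀ᵐ x ∂μ, ∃ L : ℂ, Tendsto (fun n => A.AA R (M n) f x) atTop (𝓝 L) := by
  obtain ⟨a, b, B0, C, hB0, hC, h⟩ := exists_tele hW hR hA
  obtain ⟨h1, h2⟩ := h M hM f
  exact tele (A := fun n => A.AA R (M n))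
    (R := fun u n => A.AA R (M n) * A.Pi R 0 (Icc 1 (2 ^ (a * u))) (n - b * u)) hB0 hC
    rho_pos.le rho_lt_one f h1 h2 fun u => conv_u hW hR hA a b u M hM f

theorem max_seq : ∃ C : ℝ, 0 ≤ C ∧ ∀ M : ℕ → ℕ, (∀ n, 2 ^ n ≤ M n ∧ M n < 2 ^ (n + 1)) →
    ∀ f : Lp ℂ 2 μ, mx Set.univ (fun n => A.AA R (M n) f) ≤ ENNReal.ofReal (C * ‖f‖) := by
  obtain ⟨a, b, B0, C, hB0, hC, h⟩ := exists_tele hW hR hA
  obtain ⟨C1, hC1, h1⟩ := max_u hW hR hA a b 0
  obtain ⟨C2, hC2, h2⟩ := tele_max (μ := μ) hB0 (C := C + C1) (by positivity) rho_pos.le rho_lt_one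
  refine ⟨B0 + C2, by positivity, fun M hM f => ?_⟩
  have h3 := h2 (fun n => A.AA R (M n))
    (fun u n => A.AA R (M n) * A.Pi R 0 (Icc 1 (2 ^ (a * u))) (n - b * u)) f
    (fun u n hn => ((h M hM f).1 u n hn).trans (by gcongr; linarith))
    (fun u => ((h M hM f).2 u).trans (ENNReal.ofReal_le_ofReal (by
      have hr := rho_pos
      gcongr
      linarith)))
    (by
      refine (mx_mono (Set.subset_univ _) _).trans ((h1 M hM f).trans ?_)
      refine ENNReal.ofReal_le_ofReal ?_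
      gcongr
      linarith)
  have h4 : mx {n | n < B0} (fun n => A.AA R (M n) f) ≤ ENNReal.ofReal (B0 * ‖f‖) := by
    have hset : {n | n < B0} = ((Finset.range B0 : Finset ℕ) : Set ℕ) := by ext; simp
    rw [hset]
    refine mx_le_sum (by positivity) ?_
    have h5 : ∀ n ∈ Finset.range B0, ‖A.AA R (M n) f‖ ^ 2 ≤ ‖f‖ ^ 2 := by
      intro n _
      have h6 := (A.AA R (M n)).le_opNorm f
      have h7 := A.norm_AA_le R (M n)
      have h8 : ‖A.AA R (M n) f‖ ≤ ‖f‖ := by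
        calc _ ≤ ‖A.AA R (M n)‖ * ‖f‖ := h6
          _ ≤ 1 * ‖f‖ := by gcongr
          _ = ‖f‖ := one_mul _
      gcongr
    refine (Finset.sum_le_sum h5).trans ?_
    rw [Finset.sum_const, Finset.card_range, nsmul_eq_mul, mul_pow]
    have h9 : (B0 : ℝ) ≤ (B0 : ℝ) ^ 2 := by
      have : (1 : ℝ) ≤ B0 := by exact_mod_cast hB0
      nlinarith
    gcongr
  have hsub : (Set.univ : Set ℕ) ⊆ {n | n < B0} ∪ {n | B0 ≤ n} := by
    intro n _
    rcases lt_or_ge n B0 with h | h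
    · exact Or.inl h
    · exact Or.inr h
  refine (mx_mono hsub _).trans ((mx_union_le _ _ _).trans ?_)
  refine (add_le_add h4 h3).trans_eq ?_
  rw [← ENNReal.ofReal_add (by positivity) (by positivity)]
  congr 1
  ring

end seq

end Pool.Agent.Lib.Npm
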