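import Mathlib.MeasureTheory.Function.L2Space
import Mathlib.MeasureTheory.Integral.MeanInequalities

/-!
# The `L²` norm of a maximal function of a sequence in `L²(μ)`
-/

set_option autoImplicit false

open MeasureTheory Filter Topology
open scoped ENNReal

namespace Pool.Agent.Lib.Npm

variable {X : Type*} [MeasurableSpace X] {μ : Measure X}

/-- `‖ sup_{n ∈ s} |F n| ‖₂` -/
noncomputable def mx (s : Set ℕ) (F : ℕ → Lp ℂ 2 μ) : ℝ≥0∞ :=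
  (∫⁻ x, (⨆ n ∈ s, ‖F n x‖ₑ) ^ (2 : ℝ) ∂μ) ^ (1 / 2 : ℝ)

theorem aemeasurable_iSup_enorm (s : Set ℕ) (F : ℕ → Lp ℂ 2 μ) :
    AEMeasurable (fun x => ⨆ n ∈ s, ‖F n x‖ₑ) μ := by
  refine AEMeasurable.iSup fun n => ?_
  exact AEMeasurable.iSup fun _ => (Lp.aestronglyMeasurable (F n)).enorm

theorem mx_mono {s t : Set ℕ} (h : s ⊆ t) (F : ℕ → Lp ℂ 2 μ) : mx s F ≤ mx t F := by
  unfold mx
  refine ENNReal.rpow_le_rpow (lintegral_mono fun x => ?_) (by norm_num)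
  exact ENNReal.rpow_le_rpow (biSup_mono fun n hn => h hn) (by norm_num)

theorem mx_congr {s : Set ℕ} {F F' : ℕ → Lp ℂ 2 μ} (h : ∀ n ∈ s, F n = F' n) :
    mx s F = mx s F' := by
  unfold mx
  congr 1
  refine lintegral_congr fun x => ?_
  congr 1
  exact iSup_congr fun n => iSup_congr fun hn => by rw [h n hn]

theorem mx_le_of_forall {s : Set ℕ} {F : ℕ → Lp ℂ 2 μ} {B : ℕ → Lp ℂ 2 μ} {t : Set ℕ}
    (h : ∀ᵐ x ∂μ, ⨆ n ∈ s, ‖F n x‖ₑ ≤ ⨆ n ∈ t, ‖B n x‖ₑ) : mx s F ≤ mx t B := by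
  unfold mx
  refine ENNReal.rpow_le_rpow (lintegral_mono_ae ?_) (by norm_num)
  filter_upwards [h] with x hx
  exact ENNReal.rpow_le_rpow hx (by norm_num)

/-- triangle inequality -/
theorem mx_add_le (s : Set ℕ) (F F' : ℕ → Lp ℂ 2 μ) :
    mx s (fun n => F n + F' n) ≤ mx s F + mx s F' := by
  have h1 : mx s (fun n => F n + F' n) ≤
      (∫⁻ x, ((fun x => ⨆ n ∈ s, ‖F n x‖ₑ) + fun x => ⨆ n ∈ s, ‖F' n x‖ₑ) x ^ (2 : ℝ) ∂μ) ^
        (1 / 2 : ℝ) := by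
    unfold mx
    refine ENNReal.rpow_le_rpow (lintegral_mono_ae ?_) (by norm_num)
    filter_upwards [ae_all_iff.2 fun n => Lp.coeFn_add (F n) (F' n)] with x hx
    refine ENNReal.rpow_le_rpow (iSup₂_le fun n hn => ?_) (by norm_num)
    rw [hx n]
    refine (enorm_add_le _ _).trans (add_le_add ?_ ?_)
    · exact le_iSup₂ (f := fun n (_ : n ∈ s) => ‖F n x‖ₑ) n hn
    · exact le_iSup₂ (f := fun n (_ : n ∈ s) => ‖F' n x‖ₑ) n hn
  exact h1.trans (ENNReal.lintegral_Lp_add_le (aemeasurable_iSup_enorm s F)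
    (aemeasurable_iSup_enorm s F') (by norm_num))

theorem mx_sub_le (s : Set ℕ) (F F' : ℕ → Lp ℂ 2 μ) :
    mx s (fun n => F n - F' n) ≤ mx s F + mx s F' := by
  have h : mx s (fun n => -F' n) = mx s F' := by
    unfold mx
    congr 1
    refine lintegral_congr_ae ?_
    filter_upwards [ae_all_iff.2 fun n => Lp.coeFn_neg (F' n)] with x hx
    congr 1
    refine iSup_congr fun n => iSup_congr fun _ => ?_
    rw [hx n]
    simp
  simpa only [sub_eq_add_neg, h] using mx_add_le s F (fun n => -F' n)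

/-- one function -/
theorem enorm_eq (f : Lp ℂ 2 μ) : ‖f‖ₑ = (∫⁻ x, ‖f x‖ₑ ^ (2 : ℝ) ∂μ) ^ (1 / 2 : ℝ) := by
  rw [Lp.enorm_def, eLpNorm_eq_lintegral_rpow_enorm_toReal (by norm_num) (by norm_num)]
  norm_num

theorem enorm_sq_eq (f : Lp ℂ 2 μ) : ‖f‖ₑ ^ (2 : ℝ) = ∫⁻ x, ‖f x‖ₑ ^ (2 : ℝ) ∂μ := by
  rw [enorm_eq, ← ENNReal.rpow_mul]
  norm_num

theorem mx_const_le (s : Set ℕ) (f : Lp ℂ 2 μ) : mx s (fun _ => f) ≤ ‖f‖ₑ := by
  rw [enorm_eq]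
  unfold mx
  refine ENNReal.rpow_le_rpow (lintegral_mono fun x => ?_) (by norm_num)
  exact ENNReal.rpow_le_rpow (iSup₂_le fun n _ => le_rfl) (by norm_num)

/-- the square function bound -/
theorem mx_le_tsum (s : Set ℕ) (F : ℕ → Lp ℂ 2 μ) :
    mx s F ≤ (∑' n : s, ‖F n‖ₑ ^ (2 : ℝ)) ^ (1 / 2 : ℝ) := by
  unfold mx
  refine ENNReal.rpow_le_rpow ?_ (by norm_num)
  calc ∫⁻ x, (⨆ n ∈ s, ‖F n x‖ₑ) ^ (2 : ℝ) ∂μ
      ≤ ∫⁻ x, ∑' n : s, ‖F n x‖ₑ ^ (2 : ℝ) ∂μ := by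
        refine lintegral_mono fun x => ?_
        have h0 : (⨆ n ∈ s, ‖F n x‖ₑ) ^ (2 : ℝ) = ⨆ n ∈ s, ‖F n x‖ₑ ^ (2 : ℝ) := by
          have := (ENNReal.orderIsoRpow 2 (by norm_num)).map_iSup
            (fun n => ⨆ _ : n ∈ s, ‖F n x‖ₑ)
          simp only [ENNReal.orderIsoRpow_apply] at this
          rw [this]
          refine iSup_congr fun n => ?_
          have h1 := (ENNReal.orderIsoRpow 2 (by norm_num)).map_iSup
            (fun _ : n ∈ s => ‖F n x‖ₑ)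
          simpa only [ENNReal.orderIsoRpow_apply] using h1
        rw [h0]
        exact iSup₂_le fun n hn =>
          ENNReal.le_tsum (f := fun n : s => ‖F n x‖ₑ ^ (2 : ℝ)) ⟨n, hn⟩
    _ = ∑' n : s, ∫⁻ x, ‖F n x‖ₑ ^ (2 : ℝ) ∂μ := by
        rw [lintegral_tsum]
        exact fun n => ((Lp.aestronglyMeasurable (F n)).enorm).pow_const _
    _ = ∑' n : s, ‖F n‖ₑ ^ (2 : ℝ) := by
        refine tsum_congr fun n => ?_
        rw [enorm_sq_eq]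

theorem enorm_rpow_two (f : Lp ℂ 2 μ) : ‖f‖ₑ ^ (2 : ℝ) = ENNReal.ofReal (‖f‖ ^ 2) := by
  rw [← ofReal_norm, ENNReal.ofReal_pow (norm_nonneg _)]
  norm_num

/-- from all finite subsets -/
theorem mx_le_of_finite {s : Set ℕ} {F : ℕ → Lp ℂ 2 μ} {B : ℝ} (hB : 0 ≤ B)
    (h : ∀ t : Finset ℕ, (t : Set ℕ) ⊆ s → ∑ n ∈ t, ‖F n‖ ^ 2 ≤ B ^ 2) :
    mx s F ≤ ENNReal.ofReal B := by
  refine (mx_le_tsum _ _).trans ?_
  have h1 : (∑' n : s, ‖F n‖ₑ ^ (2 : ℝ)) ≤ ENNReal.ofReal (B ^ 2) := by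
    rw [ENNReal.tsum_eq_iSup_sum]
    refine iSup_le fun t => ?_
    have h2 : ∑ n ∈ t, ‖F (n : ℕ)‖ₑ ^ (2 : ℝ) =
        ENNReal.ofReal (∑ n ∈ t.map (Function.Embedding.subtype _), ‖F n‖ ^ 2) := by
      rw [ENNReal.ofReal_sum_of_nonneg fun n _ => by positivity, Finset.sum_map]
      exact Finset.sum_congr rfl fun n _ => enorm_rpow_two _
    rw [h2]
    refine ENNReal.ofReal_le_ofReal (h _ ?_)
    intro n hn
    simp only [Finset.coe_map, Function.Embedding.subtype_apply, Set.mem_image, Finset.mem_coe,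
      Subtype.exists, exists_and_right, exists_eq_right] at hn
    exact hn.1
  calc (∑' n : s, ‖F n‖ₑ ^ (2 : ℝ)) ^ (1 / 2 : ℝ)
      ≤ (ENNReal.ofReal (B ^ 2)) ^ (1 / 2 : ℝ) := ENNReal.rpow_le_rpow h1 (by norm_num)
    _ = ENNReal.ofReal B := by
        rw [ENNReal.ofReal_rpow_of_nonneg (by positivity) (by norm_num), ← Real.sqrt_eq_rpow,
          Real.sqrt_sq hB]

theorem mx_le_sum {s : Finset ℕ} {F : ℕ → Lp ℂ 2 μ} {B : ℝ} (hB : 0 ≤ B)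
    (h : ∑ n ∈ s, ‖F n‖ ^ 2 ≤ B ^ 2) : mx (s : Set ℕ) F ≤ ENNReal.ofReal B := by
  refine mx_le_of_finite hB fun t ht => le_trans ?_ h
  exact Finset.sum_le_sum_of_subset_of_nonneg (by exact_mod_cast ht) fun n _ _ => by positivity

end Pool.Agent.Lib.Npm
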