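import Pool.Agent.Lib.Npm.GPi
import Pool.Agent.Lib.Npm.EqL
import Pool.Agent.Lib.Npm.Far
import Pool.Agent.Lib.Npm.Per

/-!
# NPW (Part VI, infinite range): the multiple of `P0 Q` below `M`, comparison, decomposition

`cut A Q M` is the largest multiple of `P0 Q` which is `≤ M`.
`AA_cut`: `M - cut A Q M < P0 Q ≤ 2^N1`, `2^n ≤ M`; `cube_cmp` (`AA` is its average with `F v = U(S v)`, `‖U g‖ ≤ 1`): `‖AA (cut A Q M) - AA M‖ ≤ 2 k P0 Q / M ≤ 2 k 2^N1 / 2^n ≤ 2 k (1/2)^t`.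
`near_T`: the difference is `AA (cut) ((Ph m1 G - Pi s m1) - (Ph m2 G - Pi s m2)) + (AA (cut) - AA M) (Pi s m1 - Pi s m2)`; `g_pi` with `t' = t + 2 v` (error `C 4^v (1/2)^(t+2v)`) and `AA_cut` with `t + 2 v` and
`‖Pi s m‖ ≤ 4^v` (`norm_Pi_le`).
`dec`: put `s = Icc 1 (2^(a u))`, `P = blk a u` (both `⊆ Icc 1 (2^v)`, `v = a (u+1)`), `G = GG s Q`, `G1 = GG P Q`, `l = b u + b`, `A1 = AA (cut A Q M)`, `a0 = AA (P0 Q)`. `Pi (Icc 1 (2^(a(u+1)))) (n-l) = Pi s (n-l) + Pi P (n-l)`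
(disjoint union; `Finset.sum_union`, or `Pi_add` of `L12`, reprove it here), so by `near_T`-type estimates
`AA M (..) ≈ A1 (Ph(n-l) G1 + Ph(n-l) G - Ph(n - b u) G) = A1 XX(n-l)(n-b u) G + A1 XX(n-l)(n+h) G1 + A1 Ph(n+h) G1` and `A1 Ph(n+h) G1 = YY(n+h)(cut) G1 + Ph(n+h) a0 G1`, and
`Ph(n+h) a0 G1 ≈ Ph(n+h) a0 Ph(N2) G1` by the second part of `far` (`B0 = a0`, `Loc 1 N1 1`; `N2 + E (t'+1) ≤ n + h`; `‖G1‖ ≤ 4^v`, `t' = t + 2v`).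
-/

set_option autoImplicit false

open Finset

namespace Pool.Agent.Lib.Npm

open Pool.Agent.Lib.Npw

variable {G H : Type} [Group G] [NormedAddCommGroup H] [InnerProductSpace ℂ H] [CompleteSpace H]

/-- the largest multiple of `P0 Q` below `M` -/
def cut (A : Dat G) (Q M : ℕ) : ℕ := A.P0 * Q * (M / (A.P0 * Q))

theorem cut_le (A : Dat G) (Q M : ℕ) : cut A Q M ≤ M := Nat.mul_div_le M _

theorem dvd_cut (A : Dat G) (Q M : ℕ) : A.P0 * Q ∣ cut A Q M := dvd_mul_right _ _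

theorem cut_pos {A : Dat G} {Q M : ℕ} (hQ : 0 < Q) (h : A.P0 * Q ≤ M) : 0 < cut A Q M := by
  have h1 : 0 < A.P0 * Q := Nat.mul_pos A.P0_pos hQ
  exact Nat.mul_pos h1 (Nat.div_pos h h1)

theorem AA_cut (A : Dat G) (R : Rep G H) : ∃ C : ℕ, ∀ v Q N1 n M t : ℕ, QOk A v Q N1 →
    2 ^ n ≤ M → N1 + t ≤ n → ‖A.AA R (cut A Q M) - A.AA R M‖ ≤ C * (1 / 2) ^ t := by
  refine ⟨2 * A.k, fun v Q N1 n M t hQ hM hn => ?_⟩
  have hP : 0 < A.P0 * Q := Nat.mul_pos A.P0_pos hQ.pos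
  have hPM : A.P0 * Q ≤ M :=
    hQ.le.trans ((Nat.pow_le_pow_right (by norm_num) (by omega)).trans hM)
  have hc := cut_pos hQ.pos hPM
  have h1 := cube_cmp (k := A.k) hc (cut_le A Q M) (fun v => R.U (A.S v)) (fun v => R.norm_le _)
  have h2 : ‖A.AA R (cut A Q M) - A.AA R M‖ ≤
      2 * A.k * ((M : ℝ) - (cut A Q M : ℕ)) / M := h1
  refine h2.trans ?_
  have hM0 : (0 : ℝ) < M := by
    have : 0 < M := lt_of_lt_of_le hP hPM
    exact_mod_cast this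
  have h3 : M < cut A Q M + 2 ^ N1 := by
    have h4 := Nat.div_add_mod M (A.P0 * Q)
    have h5 := Nat.mod_lt M hP
    have h6 : cut A Q M = A.P0 * Q * (M / (A.P0 * Q)) := rfl
    have h7 := hQ.le
    omega
  have h4 : (M : ℝ) - (cut A Q M : ℕ) ≤ 2 ^ N1 := by
    have : (M : ℝ) ≤ (cut A Q M : ℕ) + 2 ^ N1 := by exact_mod_cast h3.le
    linarith
  have h5 : (2 : ℝ) ^ N1 ≤ (1 / 2) ^ t * M := by
    have h6 : (2 : ℝ) ^ n ≤ M := by exact_mod_cast hM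
    have h7 : (2 : ℝ) ^ (N1 + t) ≤ 2 ^ n := pow_le_pow_right₀ (by norm_num) hn
    have h8 : (2 : ℝ) ^ N1 = (1 / 2) ^ t * 2 ^ (N1 + t) := by
      rw [pow_add, mul_comm ((2 : ℝ) ^ N1) (2 ^ t), ← mul_assoc, ← mul_pow]
      norm_num
    rw [h8]
    exact mul_le_mul_of_nonneg_left (h7.trans h6) (by positivity)
  rw [div_le_iff₀ hM0]
  push_cast
  have hk : (0 : ℝ) ≤ 2 * A.k := by positivity
  calc 2 * (A.k : ℝ) * ((M : ℝ) - (cut A Q M : ℕ)) ≤ 2 * A.k * ((1 / 2) ^ t * M) :=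
        mul_le_mul_of_nonneg_left (h4.trans h5) hk
    _ = _ := by ring

namespace NearXAux

lemma four_two (v t : ℕ) : (4 : ℝ) ^ v * (1 / 2) ^ (t + 2 * v) = (1 / 2) ^ t := by
  rw [pow_add, pow_mul, mul_comm, mul_assoc, ← mul_pow]
  norm_num

lemma nl {V X : H →L[ℂ] H} {b : ℝ} (hV : ‖V‖ ≤ 1) (hX : ‖X‖ ≤ b) : ‖V * X‖ ≤ b := by
  calc ‖V * X‖ ≤ ‖V‖ * ‖X‖ := norm_mul_le _ _
    _ ≤ 1 * b := mul_le_mul hV hX (norm_nonneg _) zero_le_one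
    _ = b := one_mul b

/-- `‖X Y‖` for `‖X‖ ≤ C (1/2)^(t+2v)`, `‖Y‖ ≤ c 4^v` -/
lemma nm {X Y : H →L[ℂ] H} {C c : ℝ} {v t : ℕ} (hX : ‖X‖ ≤ C * (1 / 2) ^ (t + 2 * v))
    (hY : ‖Y‖ ≤ c * 4 ^ v) (hC : 0 ≤ C) : ‖X * Y‖ ≤ C * c * (1 / 2) ^ t := by
  calc ‖X * Y‖ ≤ ‖X‖ * ‖Y‖ := norm_mul_le _ _
    _ ≤ (C * (1 / 2) ^ (t + 2 * v)) * (c * 4 ^ v) :=
        mul_le_mul hX hY (norm_nonneg _) (by positivity)
    _ = C * c * (4 ^ v * (1 / 2) ^ (t + 2 * v)) := by ring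
    _ = _ := by rw [four_two]

/-- one term: `AA (cut) Ph m G ≈ AA M Pi m` -/
theorem near_one {A : Dat G} (hA : A.Ok) (R : Rep G H) : ∃ C E : ℕ,
    ∀ (v Q N1 n M m1 t : ℕ) (s : Finset ℕ), QOk A v Q N1 → s ⊆ Icc 1 (2 ^ v) →
    2 ^ n ≤ M → N1 + E * (v + t + 1) ≤ n → N1 + E * (v + t + 1) ≤ m1 →
    ‖A.AA R (cut A Q M) * A.Ph R 0 Q m1 * GG A R s Q -
      A.AA R M * A.Pi R 0 s m1‖ ≤ C * (1 / 2) ^ t := by
  obtain ⟨C1, E1, h1⟩ := g_pi hA R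
  obtain ⟨C2, h2⟩ := AA_cut A R
  refine ⟨C1 + C2, 2 * E1 + 2, fun v Q N1 n M m1 t s hQ hs hM hn hm => ?_⟩
  have e1 : (2 * E1 + 2) * (v + t + 1) = E1 * (t + 2 * v + 1) + (E1 * (t + 1) + 2 * (v + t + 1)) := by
    ring
  have g1 := h1 v Q N1 m1 (t + 2 * v) s hQ hs (by rw [e1] at hm; omega)
  have g2 := h2 v Q N1 n M (t + 2 * v) hQ hM (by rw [e1] at hn; omega)
  have g1' : ‖A.Ph R 0 Q m1 * GG A R s Q - A.Pi R 0 s m1‖ ≤ C1 * (1 / 2) ^ t := by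
    refine g1.trans (le_of_eq ?_)
    rw [mul_assoc, four_two]
  have g3 : ‖A.Pi R 0 s m1‖ ≤ 1 * 4 ^ v := by
    rw [one_mul]
    exact A.norm_Pi_le R 0 hs m1
  have e2 : A.AA R (cut A Q M) * A.Ph R 0 Q m1 * GG A R s Q - A.AA R M * A.Pi R 0 s m1 =
      A.AA R (cut A Q M) * (A.Ph R 0 Q m1 * GG A R s Q - A.Pi R 0 s m1) +
      (A.AA R (cut A Q M) - A.AA R M) * A.Pi R 0 s m1 := by
    noncomm_ring
  rw [e2]
  refine (norm_add_le _ _).trans ?_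
  have g4 := nl (A.norm_AA_le R (cut A Q M)) g1'
  have g5 := nm g2 g3 (by positivity)
  push_cast
  linarith

lemma norm_GG {A : Dat G} {R : Rep G H} {v Q N1 : ℕ} (hQ : QOk A v Q N1) {s : Finset ℕ}
    (hs : s ⊆ Icc 1 (2 ^ v)) : ‖GG A R s Q‖ ≤ 4 ^ v :=
  (loc_GG A R hQ hs).norm_le

lemma pi_add (A : Dat G) (R : Rep G H) (a u m : ℕ) :
    A.Pi R 0 (Icc 1 (2 ^ (a * (u + 1)))) m =
      A.Pi R 0 (Icc 1 (2 ^ (a * u))) m + A.Pi R 0 (blk a u) m := by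
  unfold Dat.Pi blk
  have h1 : 2 ^ (a * u) ≤ 2 ^ (a * (u + 1)) :=
    Nat.pow_le_pow_right (by norm_num) (Nat.mul_le_mul_left _ (Nat.le_succ _))
  rw [← Finset.sum_union]
  · congr 1
    ext x
    simp only [Finset.mem_union, Finset.mem_Icc, Finset.mem_Ioc]
    have h2 : 0 < 2 ^ (a * u) := by positivity
    omega
  · rw [Finset.disjoint_left]
    intro x hx hx'
    rw [Finset.mem_Icc] at hx
    rw [Finset.mem_Ioc] at hx'
    omega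

end NearXAux

open NearXAux

theorem near_T {A : Dat G} (hA : A.Ok) (R : Rep G H) : ∃ C E : ℕ,
    ∀ (v Q N1 n M m1 m2 t : ℕ) (s : Finset ℕ), QOk A v Q N1 → s ⊆ Icc 1 (2 ^ v) →
    2 ^ n ≤ M → N1 + E * (v + t + 1) ≤ n → N1 + E * (v + t + 1) ≤ m1 →
    N1 + E * (v + t + 1) ≤ m2 →
    ‖A.AA R (cut A Q M) * XX A R Q m1 m2 * GG A R s Q -
      A.AA R M * (A.Pi R 0 s m1 - A.Pi R 0 s m2)‖ ≤ C * (1 / 2) ^ t := by
  obtain ⟨C, E, h⟩ := near_one hA R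
  refine ⟨2 * C, E, fun v Q N1 n M m1 m2 t s hQ hs hM hn hm1 hm2 => ?_⟩
  have g1 := h v Q N1 n M m1 t s hQ hs hM hn hm1
  have g2 := h v Q N1 n M m2 t s hQ hs hM hn hm2
  have e : A.AA R (cut A Q M) * XX A R Q m1 m2 * GG A R s Q -
      A.AA R M * (A.Pi R 0 s m1 - A.Pi R 0 s m2) =
      (A.AA R (cut A Q M) * A.Ph R 0 Q m1 * GG A R s Q - A.AA R M * A.Pi R 0 s m1) -
      (A.AA R (cut A Q M) * A.Ph R 0 Q m2 * GG A R s Q - A.AA R M * A.Pi R 0 s m2) := by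
    unfold XX
    noncomm_ring
  rw [e]
  refine (norm_sub_le _ _).trans ?_
  push_cast
  linarith

theorem dec {A : Dat G} (hA : A.Ok) (R : Rep G H) : ∃ C E : ℕ,
    ∀ a u b h n M N1 N2 Q t : ℕ, QOk A (a * (u + 1)) Q N1 → 2 ^ n ≤ M → N1 ≤ N2 →
    N2 + E * (a * (u + 1) + t + 1) + (b * u + b) ≤ n →
    ‖A.AA R M * (A.Pi R 0 (Icc 1 (2 ^ (a * (u + 1)))) (n - (b * u + b)) -
        A.Pi R 0 (Icc 1 (2 ^ (a * u))) (n - b * u)) -
      (A.AA R (cut A Q M) * XX A R Q (n - (b * u + b)) (n - b * u) *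
          GG A R (Icc 1 (2 ^ (a * u))) Q +
        A.AA R (cut A Q M) * XX A R Q (n - (b * u + b)) (n + h) * GG A R (blk a u) Q +
        YY A R Q (n + h) (cut A Q M) * GG A R (blk a u) Q +
        A.Ph R 0 Q (n + h) * (A.AA R (A.P0 * Q) * A.Ph R 0 Q N2 * GG A R (blk a u) Q))‖ ≤
      C * (1 / 2) ^ t := by
  obtain ⟨C1, E1, h1⟩ := near_one hA R
  obtain ⟨C2, E2, h2⟩ := near_T hA R
  obtain ⟨C3, E3, h3⟩ := far hA R 1
  refine ⟨C1 + C2 + C3, E1 + E2 + 2 * E3, ?_⟩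
  intro a u b h n M N1 N2 Q t hQ hM hN hn
  set v : ℕ := a * (u + 1) with hv
  have e1 : (E1 + E2 + 2 * E3) * (v + t + 1) =
      E1 * (v + t + 1) + E2 * (v + t + 1) + (E3 * (t + 2 * v + 1) + E3 * (t + 1)) := by ring
  rw [e1] at hn
  have hau : a * u ≤ v := Nat.mul_le_mul_left _ (Nat.le_succ _)
  have hpow : 2 ^ (a * u) ≤ 2 ^ v := Nat.pow_le_pow_right (by norm_num) hau
  have hpos : 0 < 2 ^ (a * u) := by positivity
  have hs : Icc 1 (2 ^ (a * u)) ⊆ Icc 1 (2 ^ v) := Finset.Icc_subset_Icc le_rfl hpow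
  have hP : blk a u ⊆ Icc 1 (2 ^ v) := by
    intro x hx
    unfold blk at hx
    rw [Finset.mem_Ioc] at hx
    rw [Finset.mem_Icc]
    exact ⟨by omega, hx.2⟩
  have g1 := h1 v Q N1 n M (n - (b * u + b)) t (blk a u) hQ hP hM (by omega) (by omega)
  have g2 := h2 v Q N1 n M (n - (b * u + b)) (n - b * u) t (Icc 1 (2 ^ (a * u))) hQ hs hM
    (by omega) (by omega) (by omega)
  have hloc : A.Loc R 1 N1 1 (A.AA R (A.P0 * Q)) := Dat.loc_AA hQ.le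
  have g3 := (h3 Q N1 (n + h) N2 (t + 2 * v) 1 (A.AA R (A.P0 * Q)) hQ.pos hQ.le hloc hN
    (by omega)).2
  have g3' : ‖A.Ph R 0 Q (n + h) * A.AA R (A.P0 * Q) * A.Ph R 0 Q N2 -
      A.Ph R 0 Q (n + h) * A.AA R (A.P0 * Q)‖ ≤ C3 * (1 / 2) ^ (t + 2 * v) := by
    rw [mul_one] at g3
    exact g3
  have g4 : ‖GG A R (blk a u) Q‖ ≤ 1 * 4 ^ v := by
    rw [one_mul]
    exact norm_GG hQ hP
  have g5 := nm g3' g4 (by positivity)
  rw [pi_add]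
  have e : A.AA R M * (A.Pi R 0 (Icc 1 (2 ^ (a * u))) (n - (b * u + b)) +
        A.Pi R 0 (blk a u) (n - (b * u + b)) - A.Pi R 0 (Icc 1 (2 ^ (a * u))) (n - b * u)) -
      (A.AA R (cut A Q M) * XX A R Q (n - (b * u + b)) (n - b * u) *
          GG A R (Icc 1 (2 ^ (a * u))) Q +
        A.AA R (cut A Q M) * XX A R Q (n - (b * u + b)) (n + h) * GG A R (blk a u) Q +
        YY A R Q (n + h) (cut A Q M) * GG A R (blk a u) Q +
        A.Ph R 0 Q (n + h) * (A.AA R (A.P0 * Q) * A.Ph R 0 Q N2 * GG A R (blk a u) Q)) =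
      -((A.AA R (cut A Q M) * XX A R Q (n - (b * u + b)) (n - b * u) *
          GG A R (Icc 1 (2 ^ (a * u))) Q -
        A.AA R M * (A.Pi R 0 (Icc 1 (2 ^ (a * u))) (n - (b * u + b)) -
          A.Pi R 0 (Icc 1 (2 ^ (a * u))) (n - b * u))) +
        (A.AA R (cut A Q M) * A.Ph R 0 Q (n - (b * u + b)) * GG A R (blk a u) Q -
          A.AA R M * A.Pi R 0 (blk a u) (n - (b * u + b))) +
        (A.Ph R 0 Q (n + h) * A.AA R (A.P0 * Q) * A.Ph R 0 Q N2 -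
          A.Ph R 0 Q (n + h) * A.AA R (A.P0 * Q)) * GG A R (blk a u) Q) := by
    simp only [XX, YY]
    noncomm_ring
  rw [e, norm_neg]
  refine (norm_add_le _ _).trans ?_
  have g6 := norm_add_le (A.AA R (cut A Q M) * XX A R Q (n - (b * u + b)) (n - b * u) *
          GG A R (Icc 1 (2 ^ (a * u))) Q -
        A.AA R M * (A.Pi R 0 (Icc 1 (2 ^ (a * u))) (n - (b * u + b)) -
          A.Pi R 0 (Icc 1 (2 ^ (a * u))) (n - b * u)))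
        (A.AA R (cut A Q M) * A.Ph R 0 Q (n - (b * u + b)) * GG A R (blk a u) Q -
          A.AA R M * A.Pi R 0 (blk a u) (n - (b * u + b)))
  push_cast
  linarith

end Pool.Agent.Lib.Npm
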