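import Pool.Agent.Lib.Npm.Defs
import Pool.Agent.Lib.Npw.NormPi

/-!
# NPW: disjoint sets of moduli at arbitrary scales; the norm of `Pi` on blocks

`orth2`: let `E'`, `C'` be the constants of `pi4`, `T = t + 4 v`; `n2 = E' (v + T + 1)`, `n1 = n2 + E' (v + T)`, and `n, m ≥ n1 + E' (v + T)` (choose `E` large).
`Pi s n ≈ Pi s n * Pi s n1` (`pi4`, first form with `s ∩ s = s`), `Pi s' m ≈ Pi s' n2 * Pi s' m` (second form), and `Pi s n1 * Pi s' n2 ≈ Pi (s ∩ s') n1 = 0` (first form), each up to `C' (1/2)^T`. So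
`Pi s n * Pi s' m ≈ Pi s n * (Pi s n1 * Pi s' n2) * Pi s' m ≈ 0`; the outer factors have norm `≤ 4^v` (`norm_Pi_le`): total `≤ C (4^v) (4^v) (1/2)^(t + 4v)`.
`norm_blk`: `norm_pi` with `a := 16 a` and `u := u / 16 + 1`: `16 a (u/16 + 1) ≥ a (u + 1)`, so `s ⊆ [1, 2^(a (u+1))]` is admissible, and `2^(u/16 + 1) ≤ 2 * (rho⁻¹)^u` (`rho_pow`: `rho^16 = 1/2`, so `2^(u/16) = (rho⁻¹)^(16 (u/16)) ≤ (rho⁻¹)^u`).
-/

set_option autoImplicit false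

open Finset

namespace Pool.Agent.Lib.Npm

open Pool.Agent.Lib.Npw

variable {G H : Type} [Group G] [NormedAddCommGroup H] [InnerProductSpace ℂ H] [CompleteSpace H]

namespace Orth2Aux

theorem rho_inv_pow : (rho⁻¹) ^ 16 = 2 := by
  rw [inv_pow, rho_pow]
  norm_num

theorem one_le_rho_inv : 1 ≤ rho⁻¹ := by
  rw [one_le_inv₀ rho_pos]
  exact rho_lt_one.le

theorem two_pow_le (u : ℕ) : (2 : ℝ) ^ (u / 16 + 1) ≤ 2 * rho⁻¹ ^ u := by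
  have h1 : (2 : ℝ) ^ (u / 16) = rho⁻¹ ^ (16 * (u / 16)) := by
    rw [pow_mul, rho_inv_pow]
  have h2 : rho⁻¹ ^ (16 * (u / 16)) ≤ rho⁻¹ ^ u :=
    pow_le_pow_right₀ one_le_rho_inv (Nat.mul_div_le u 16)
  rw [pow_succ, h1, mul_comm]
  exact mul_le_mul_of_nonneg_left h2 (by norm_num)

end Orth2Aux

open Pool.Agent.Lib.Npw.Dat Pool.Agent.Lib.Npw.Dat.NormPiAux in
theorem orth2 {A : Dat G} (hA : A.Ok) (R : Rep G H) : ∃ C E : ℕ,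
    ∀ (v n m t : ℕ) (s s' : Finset ℕ), s ⊆ Icc 1 (2 ^ v) → s' ⊆ Icc 1 (2 ^ v) → Disjoint s s' →
    E * (v + t + 1) ≤ n → E * (v + t + 1) ≤ m →
    ‖A.Pi R 0 s n * A.Pi R 0 s' m‖ ≤ C * (1 / 2) ^ t := by
  obtain ⟨C', E', h4⟩ := pi4 hA R
  refine ⟨3 * C', 15 * E', ?_⟩
  intro v n m t s s' hs hs' hd hn hm
  set T : ℕ := t + 4 * v with hT
  set n2 : ℕ := E' * (v + T + 1) with hn2
  set n1 : ℕ := n2 + E' * (v + T) with hn1
  have hbig : n1 + E' * (v + T) ≤ 15 * E' * (v + t + 1) := by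
    rw [hn1, hn2, hT]
    nlinarith [Nat.zero_le (E' * t), Nat.zero_le (E' * v), Nat.zero_le E']
  have hn' : n1 + E' * (v + T) ≤ n := hbig.trans hn
  have hm' : n1 + E' * (v + T) ≤ m := hbig.trans hm
  set δ : ℝ := C' * (1 / 2) ^ T with hδ
  have hδ0 : 0 ≤ δ := by positivity
  have hB1 : (1 : ℝ) ≤ 4 ^ v := one_le_pow₀ (by norm_num)
  obtain ⟨p1, -, -, -⟩ := h4 0 v n n1 T s s hs hs hn' (by rw [hn1, hn2]; omega)
  obtain ⟨-, r2, -, -⟩ := h4 0 v m n2 T s' s' hs' hs' (by omega) (le_of_eq hn2.symm)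
  obtain ⟨s1, -, -, -⟩ := h4 0 v n1 n2 T s s' hs hs' (le_of_eq hn1.symm) (le_of_eq hn2.symm)
  rw [inter_self] at p1 r2
  rw [disjoint_iff_inter_eq_empty.1 hd, piEmpty, sub_zero] at s1
  have key := three hB1 hδ0 (A.norm_Pi_le R 0 hs n) (A.norm_Pi_le R 0 hs n1)
    (A.norm_Pi_le R 0 hs' m) p1 r2 s1
  refine key.trans (le_of_eq ?_)
  have e1 : ((4 : ℝ) ^ v) ^ 2 * (1 / 2) ^ (4 * v) = 1 := by
    rw [← pow_mul, mul_comm v 2, pow_mul, pow_mul, ← mul_pow]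
    norm_num
  rw [hδ, hT, pow_add]
  push_cast
  calc 3 * ((4 : ℝ) ^ v) ^ 2 * ((C' : ℝ) * ((1 / 2) ^ t * (1 / 2) ^ (4 * v)))
      = 3 * (C' : ℝ) * (1 / 2) ^ t * (((4 : ℝ) ^ v) ^ 2 * (1 / 2) ^ (4 * v)) := by ring
    _ = 3 * (C' : ℝ) * (1 / 2) ^ t := by rw [e1, mul_one]

open Pool.Agent.Lib.Npw.Dat in
theorem norm_blk {A : Dat G} (hA : A.Ok) (R : Rep G H) (a : ℕ) : ∃ C E : ℕ,
    ∀ (u n : ℕ) (s : Finset ℕ), s ⊆ Icc 1 (2 ^ (a * (u + 1))) → E * (u + 1) ≤ n →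
    ‖A.Pi R 0 s n‖ ≤ C * rho⁻¹ ^ u := by
  obtain ⟨C', E', h⟩ := norm_pi hA R (16 * a)
  refine ⟨2 * C', 2 * E', ?_⟩
  intro u n s hs hn
  have h1 : s ⊆ Icc 1 (2 ^ (16 * a * (u / 16 + 1))) := by
    refine hs.trans (Icc_subset_Icc le_rfl ?_)
    apply Nat.pow_le_pow_right (by norm_num)
    have h2 : u + 1 ≤ 16 * (u / 16 + 1) := by omega
    calc a * (u + 1) ≤ a * (16 * (u / 16 + 1)) := Nat.mul_le_mul_left _ h2
      _ = 16 * a * (u / 16 + 1) := by ring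
  have h3 : E' * (u / 16 + 1 + 1) ≤ n := by
    refine le_trans ?_ hn
    have h4 : u / 16 + 1 + 1 ≤ 2 * (u + 1) := by omega
    calc E' * (u / 16 + 1 + 1) ≤ E' * (2 * (u + 1)) := Nat.mul_le_mul_left _ h4
      _ = 2 * E' * (u + 1) := by ring
  refine (h 0 (u / 16 + 1) n s h1 h3).trans ?_
  push_cast
  calc (C' : ℝ) * 2 ^ (u / 16 + 1) ≤ C' * (2 * rho⁻¹ ^ u) :=
        mul_le_mul_of_nonneg_left (Orth2Aux.two_pow_le u) (by positivity)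
    _ = 2 * (C' : ℝ) * rho⁻¹ ^ u := by ring

end Pool.Agent.Lib.Npm
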