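import Mathlib.Analysis.InnerProductSpace.Adjoint

/-!
# Schur's test for square functions: `∑ ‖T_n f‖² ≤ sup_n ∑_m ‖T_n T_m^*‖ ‖f‖²`
-/

set_option autoImplicit false

open ContinuousLinearMap
open scoped InnerProductSpace

namespace Pool.Agent.Lib.Npm

variable {H : Type*} [NormedAddCommGroup H] [InnerProductSpace ℂ H] [CompleteSpace H]

theorem schur {ι : Type*} (s : Finset ι) (T : ι → H →L[ℂ] H) {B : ℝ} (hB0 : 0 ≤ B)
    (hB : ∀ i ∈ s, ∑ j ∈ s, ‖T i * adjoint (T j)‖ ≤ B) (f : H) :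
    ∑ i ∈ s, ‖T i f‖ ^ 2 ≤ B * ‖f‖ ^ 2 := by
  have hsymm : ∀ i j, ‖T i * adjoint (T j)‖ = ‖T j * adjoint (T i)‖ := by
    intro i j
    have h : adjoint (T i * adjoint (T j)) = T j * adjoint (T i) := by
      simp only [← star_eq_adjoint, star_mul, star_star]
    rw [← h]
    exact (LinearIsometryEquiv.norm_map (adjoint (𝕜 := ℂ) (E := H) (F := H)) _).symm
  -- the dual inequality
  have hdual : ∀ v : ι → H, ‖∑ i ∈ s, adjoint (T i) (v i)‖ ^ 2 ≤ B * ∑ i ∈ s, ‖v i‖ ^ 2 := by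
    intro v
    have h1 : ((‖∑ i ∈ s, adjoint (T i) (v i)‖ ^ 2 : ℝ) : ℂ) =
        ∑ i ∈ s, ∑ j ∈ s, ⟪v i, (T i * adjoint (T j)) (v j)⟫_ℂ := by
      have h0 := inner_self_eq_norm_sq_to_K (𝕜 := ℂ) (∑ i ∈ s, adjoint (T i) (v i))
      have h0' : ((‖∑ i ∈ s, adjoint (T i) (v i)‖ ^ 2 : ℝ) : ℂ) =
          ⟪∑ i ∈ s, adjoint (T i) (v i), ∑ i ∈ s, adjoint (T i) (v i)⟫_ℂ := by
        rw [h0]
        push_cast
        rfl
      rw [h0', sum_inner]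
      refine Finset.sum_congr rfl fun i _ => ?_
      rw [inner_sum]
      refine Finset.sum_congr rfl fun j _ => ?_
      rw [adjoint_inner_left]
      rfl
    have h2 : ‖∑ i ∈ s, adjoint (T i) (v i)‖ ^ 2 ≤
        ∑ i ∈ s, ∑ j ∈ s, ‖T i * adjoint (T j)‖ * ((‖v i‖ ^ 2 + ‖v j‖ ^ 2) / 2) := by
      have h3 : ‖((‖∑ i ∈ s, adjoint (T i) (v i)‖ ^ 2 : ℝ) : ℂ)‖ ≤
          ∑ i ∈ s, ∑ j ∈ s, ‖T i * adjoint (T j)‖ * ((‖v i‖ ^ 2 + ‖v j‖ ^ 2) / 2) := by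
        rw [h1]
        refine (norm_sum_le _ _).trans (Finset.sum_le_sum fun i _ => ?_)
        refine (norm_sum_le _ _).trans (Finset.sum_le_sum fun j _ => ?_)
        refine (norm_inner_le_norm _ _).trans ?_
        have h4 := le_opNorm (T i * adjoint (T j)) (v j)
        have h5 := norm_nonneg (v i)
        have h6 := norm_nonneg (v j)
        have h7 := norm_nonneg (T i * adjoint (T j))
        calc ‖v i‖ * ‖(T i * adjoint (T j)) (v j)‖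
            ≤ ‖v i‖ * (‖T i * adjoint (T j)‖ * ‖v j‖) := by gcongr
          _ = ‖T i * adjoint (T j)‖ * (‖v i‖ * ‖v j‖) := by ring
          _ ≤ _ := by
              gcongr
              nlinarith [sq_nonneg (‖v i‖ - ‖v j‖)]
      rwa [Complex.norm_real, Real.norm_of_nonneg (by positivity)] at h3
    refine h2.trans ?_
    have h8 : ∑ i ∈ s, ∑ j ∈ s, ‖T i * adjoint (T j)‖ * ((‖v i‖ ^ 2 + ‖v j‖ ^ 2) / 2) =
        ∑ i ∈ s, (∑ j ∈ s, ‖T i * adjoint (T j)‖) * ‖v i‖ ^ 2 := by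
      have h9 : ∑ i ∈ s, ∑ j ∈ s, ‖T i * adjoint (T j)‖ * ‖v j‖ ^ 2 =
          ∑ i ∈ s, ∑ j ∈ s, ‖T i * adjoint (T j)‖ * ‖v i‖ ^ 2 := by
        rw [Finset.sum_comm]
        exact Finset.sum_congr rfl fun i _ => Finset.sum_congr rfl fun j _ => by rw [hsymm]
      have h10 : ∑ i ∈ s, ∑ j ∈ s, ‖T i * adjoint (T j)‖ * ((‖v i‖ ^ 2 + ‖v j‖ ^ 2) / 2) =
          (∑ i ∈ s, ∑ j ∈ s, ‖T i * adjoint (T j)‖ * ‖v i‖ ^ 2) / 2 +
          (∑ i ∈ s, ∑ j ∈ s, ‖T i * adjoint (T j)‖ * ‖v j‖ ^ 2) / 2 := by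
        rw [← add_div, ← Finset.sum_add_distrib, Finset.sum_div]
        refine Finset.sum_congr rfl fun i _ => ?_
        rw [← Finset.sum_add_distrib, Finset.sum_div]
        exact Finset.sum_congr rfl fun j _ => by ring
      rw [h10, h9, add_halves]
      exact Finset.sum_congr rfl fun i _ => by rw [Finset.sum_mul]
    rw [h8, Finset.mul_sum]
    exact Finset.sum_le_sum fun i hi => mul_le_mul_of_nonneg_right (hB i hi) (by positivity)
  set S : ℝ := ∑ i ∈ s, ‖T i f‖ ^ 2 with hS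
  have hS0 : 0 ≤ S := Finset.sum_nonneg fun i _ => by positivity
  have h1 : S ≤ ‖f‖ * ‖∑ i ∈ s, adjoint (T i) (T i f)‖ := by
    have h2 : ((S : ℝ) : ℂ) = ⟪f, ∑ i ∈ s, adjoint (T i) (T i f)⟫_ℂ := by
      rw [inner_sum, hS]
      push_cast
      refine Finset.sum_congr rfl fun i _ => ?_
      rw [adjoint_inner_right, inner_self_eq_norm_sq_to_K]
      norm_num
    have h3 : ‖((S : ℝ) : ℂ)‖ ≤ ‖f‖ * ‖∑ i ∈ s, adjoint (T i) (T i f)‖ := by
      rw [h2]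
      exact norm_inner_le_norm _ _
    rwa [Complex.norm_real, Real.norm_of_nonneg hS0] at h3
  have h4 := hdual fun i => T i f
  rcases hS0.eq_or_lt with h0 | h0
  · rw [← h0]
    positivity
  · have h5 : S ^ 2 ≤ ‖f‖ ^ 2 * (B * S) := by
      calc S ^ 2 ≤ (‖f‖ * ‖∑ i ∈ s, adjoint (T i) (T i f)‖) ^ 2 := by gcongr
        _ = ‖f‖ ^ 2 * ‖∑ i ∈ s, adjoint (T i) (T i f)‖ ^ 2 := by ring
        _ ≤ ‖f‖ ^ 2 * (B * S) := by gcongr
    have h6 : S * S ≤ (B * ‖f‖ ^ 2) * S := by nlinarith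
    exact le_of_mul_le_mul_right h6 h0

end Pool.Agent.Lib.Npm
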